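import Mathlib

/-! Bishop-Phelps-Bollobas tools: an Ekeland type lemma on the unit ball, the quantitative
theorem with the sharp constant, and the hexagon argument for the value one. -/

namespace Pool.Agent.Helper63.BPB

open Metric Set Filter Topology

variable {X : Type*} [NormedAddCommGroup X] [NormedSpace ℝ X]

/-- Ekeland's principle for a linear functional on the closed unit ball. -/
theorem ekeland_ball [CompleteSpace X] (φ : StrongDual ℝ X) (k : ℝ) (hk : 0 < k) (x : X)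
    (hx : ‖x‖ ≤ 1) :
    ∃ y : X, ‖y‖ ≤ 1 ∧ k * ‖y - x‖ ≤ φ y - φ x ∧
      ∀ z : X, ‖z‖ ≤ 1 → φ z - φ y ≤ k * ‖z - y‖ := by
  classical
  let S : X → Set X := fun u => {z | ‖z‖ ≤ 1 ∧ k * ‖z - u‖ ≤ φ z - φ u}
  have hbdd : ∀ u, BddAbove (φ '' S u) := by
    intro u
    refine ⟨‖φ‖, ?_⟩
    rintro _ ⟨z, hz, rfl⟩
    calc φ z ≤ ‖φ z‖ := le_abs_self _
      _ ≤ ‖φ‖ * ‖z‖ := φ.le_opNorm z
      _ ≤ ‖φ‖ * 1 := by gcongr; exact hz.1
      _ = ‖φ‖ := mul_one _
  have hself : ∀ u, ‖u‖ ≤ 1 → u ∈ S u := by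
    intro u hu
    refine ⟨hu, ?_⟩
    simp
  have htrans : ∀ u v w, v ∈ S u → w ∈ S v → w ∈ S u := by
    intro u v w hv hw
    refine ⟨hw.1, ?_⟩
    have h1 : ‖w - u‖ ≤ ‖w - v‖ + ‖v - u‖ := by
      have := norm_add_le (w - v) (v - u)
      simpa using this
    have h2 := hv.2
    have h3 := hw.2
    have h4 : k * ‖w - u‖ ≤ k * (‖w - v‖ + ‖v - u‖) := by gcongr
    linarith
  have hnext : ∀ u : X, ∃ v : X, ‖u‖ ≤ 1 → (v ∈ S u ∧ ∀ z ∈ S u, φ z ≤ 2 * φ v - φ u) := by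
    intro u
    by_cases hu : ‖u‖ ≤ 1
    · have hne : (φ '' S u).Nonempty := ⟨φ u, u, hself u hu, rfl⟩
      set a := sSup (φ '' S u) with ha
      have hau : φ u ≤ a := le_csSup (hbdd u) ⟨u, hself u hu, rfl⟩
      rcases hau.lt_or_eq with hlt | heq
      · have : (a + φ u) / 2 < a := by linarith
        obtain ⟨_, ⟨v, hv, rfl⟩, hv2⟩ := exists_lt_of_lt_csSup hne this
        refine ⟨v, fun _ => ⟨hv, fun z hz => ?_⟩⟩
        have : φ z ≤ a := le_csSup (hbdd u) ⟨z, hz, rfl⟩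
        linarith
      · refine ⟨u, fun _ => ⟨hself u hu, fun z hz => ?_⟩⟩
        have : φ z ≤ a := le_csSup (hbdd u) ⟨z, hz, rfl⟩
        linarith
    · exact ⟨u, fun h => absurd h hu⟩
  choose nx hnx using hnext
  let s : ℕ → X := fun n => Nat.rec x (fun _ u => nx u) n
  have hs0 : s 0 = x := rfl
  have hsS : ∀ n, s (n + 1) = nx (s n) := fun n => rfl
  have hball : ∀ n, ‖s n‖ ≤ 1 := by
    intro n
    induction n with
    | zero => exact hx
    | succ n ih => rw [hsS]; exact ((hnx (s n)) ih).1.1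
  have hmem : ∀ n m, s (n + m) ∈ S (s n) := by
    intro n m
    induction m with
    | zero => exact hself _ (hball n)
    | succ m ih =>
      refine htrans _ _ _ ih ?_
      rw [← add_assoc, hsS]
      exact ((hnx (s (n + m))) (hball _)).1
  have hmono : Monotone (fun n => φ (s n)) := by
    refine monotone_nat_of_le_succ (fun n => ?_)
    have := (hmem n 1).2
    have h2 : 0 ≤ k * ‖s (n + 1) - s n‖ := by positivity
    linarith
  have hbd : BddAbove (Set.range (fun n => φ (s n))) := by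
    refine ⟨‖φ‖, ?_⟩
    rintro _ ⟨n, rfl⟩
    calc φ (s n) ≤ ‖φ (s n)‖ := le_abs_self _
      _ ≤ ‖φ‖ * ‖s n‖ := φ.le_opNorm _
      _ ≤ ‖φ‖ * 1 := by gcongr; exact hball n
      _ = ‖φ‖ := mul_one _
  have hlim := tendsto_atTop_ciSup hmono hbd
  set L := ⨆ n, φ (s n) with hL
  have hLle : ∀ n, φ (s n) ≤ L := fun n => le_ciSup hbd n
  have hcauchy : CauchySeq s := by
    rw [Metric.cauchySeq_iff']
    intro ε hε
    have h1 : ∀ᶠ n in atTop, L - k * ε < φ (s n) :=
      hlim.eventually (lt_mem_nhds (by nlinarith))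
    obtain ⟨N, hN⟩ := h1.exists
    refine ⟨N, fun n hn => ?_⟩
    obtain ⟨m, rfl⟩ := Nat.exists_eq_add_of_le hn
    have h2 := (hmem N m).2
    have h3 := hLle (N + m)
    rw [dist_eq_norm]
    have h4 : k * ‖s (N + m) - s N‖ < k * ε := by linarith
    exact lt_of_mul_lt_mul_left h4 hk.le
  obtain ⟨y, hy⟩ := cauchySeq_tendsto_of_complete hcauchy
  have hφy : Tendsto (fun n => φ (s n)) atTop (𝓝 (φ y)) :=
    (φ.continuous.tendsto y).comp hy
  have hyL : φ y = L := tendsto_nhds_unique hφy hlim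
  have hyball : ‖y‖ ≤ 1 := le_of_tendsto' hy.norm hball
  have hyS : ∀ n, y ∈ S (s n) := by
    intro n
    refine ⟨hyball, ?_⟩
    have h1 : Tendsto (fun m => k * ‖s (n + m) - s n‖) atTop (𝓝 (k * ‖y - s n‖)) := by
      have : Tendsto (fun m => s (n + m)) atTop (𝓝 y) := by
        have := (tendsto_add_atTop_iff_nat (f := s) n).2 hy
        simpa [add_comm] using this
      exact (this.sub_const _).norm.const_mul k
    have h2 : Tendsto (fun m => φ (s (n + m)) - φ (s n)) atTop (𝓝 (φ y - φ (s n))) := by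
      have : Tendsto (fun m => φ (s (n + m))) atTop (𝓝 (φ y)) := by
        have := (tendsto_add_atTop_iff_nat (f := fun n => φ (s n)) n).2 hφy
        simpa [add_comm] using this
      exact this.sub_const _
    exact le_of_tendsto_of_tendsto' h1 h2 (fun m => (hmem n m).2)
  refine ⟨y, hyball, (hyS 0).2, fun z hz => ?_⟩
  by_contra hcon
  push Not at hcon
  have hzS : z ∈ S y := ⟨hz, hcon.le⟩
  have h1 : ∀ n, φ z ≤ 2 * φ (s (n + 1)) - φ (s n) := by
    intro n
    have := ((hnx (s n)) (hball n)).2 z (htrans _ _ _ (hyS n) hzS)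
    rw [hsS]
    exact this
  have h2 : Tendsto (fun n => 2 * φ (s (n + 1)) - φ (s n)) atTop (𝓝 (2 * φ y - φ y)) := by
    have := (tendsto_add_atTop_iff_nat (f := fun n => φ (s n)) 1).2 hφy
    exact (this.const_mul 2).sub hφy
  have h3 : φ z ≤ 2 * φ y - φ y := ge_of_tendsto' h2 h1
  have h4 : 0 ≤ k * ‖z - y‖ := by positivity
  linarith

/-- A functional almost maximal at a point of the ball has a nearby functional maximal there. -/
theorem sandwich (φ : StrongDual ℝ X) (k : ℝ) (hk : 0 ≤ k) (y : X) (hy : ‖y‖ ≤ 1)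
    (h : ∀ z : X, ‖z‖ ≤ 1 → φ z - φ y ≤ k * ‖z - y‖) :
    ∃ g : StrongDual ℝ X, ‖φ - g‖ ≤ k ∧ ∀ z : X, ‖z‖ ≤ 1 → g z ≤ g y := by
  let s : Set (X × ℝ) := {q | q.2 < φ (q.1 - y) - k * ‖q.1 - y‖}
  let t : Set (X × ℝ) := {q | ‖q.1‖ ≤ 1 ∧ 0 ≤ q.2}
  have hs1 : Convex ℝ s := by
    intro a ha b hb c d hc hd hcd
    simp only [s, mem_ofPred_eq] at ha hb ⊢
    have e1 : (c • a + d • b).1 - y = c • (a.1 - y) + d • (b.1 - y) := by
      simp only [Prod.fst_add, Prod.smul_fst, smul_sub]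
      have : y = c • y + d • y := by rw [← add_smul, hcd, one_smul]
      nth_rewrite 1 [this]
      abel
    rw [e1]
    have e2 : ‖c • (a.1 - y) + d • (b.1 - y)‖ ≤ c * ‖a.1 - y‖ + d * ‖b.1 - y‖ := by
      refine (norm_add_le _ _).trans ?_
      rw [norm_smul, norm_smul, Real.norm_of_nonneg hc, Real.norm_of_nonneg hd]
    have e3 : k * ‖c • (a.1 - y) + d • (b.1 - y)‖ ≤ k * (c * ‖a.1 - y‖ + d * ‖b.1 - y‖) := by
      gcongr
    simp only [map_add, map_smul, smul_eq_mul, Prod.snd_add, Prod.smul_snd]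
    rcases hc.eq_or_lt with hc0 | hc0
    · subst hc0
      have : d = 1 := by linarith
      subst this
      linarith
    · have h5 : c * a.2 < c * (φ (a.1 - y) - k * ‖a.1 - y‖) := by gcongr
      have h6 : d * b.2 ≤ d * (φ (b.1 - y) - k * ‖b.1 - y‖) := by gcongr
      nlinarith
  have hs2 : IsOpen s := by
    refine isOpen_lt continuous_snd ?_
    fun_prop
  have ht : Convex ℝ t := by
    intro a ha b hb c d hc hd hcd
    simp only [t, mem_ofPred_eq] at ha hb ⊢
    constructor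
    · simp only [Prod.fst_add, Prod.smul_fst]
      refine (norm_add_le _ _).trans ?_
      rw [norm_smul, norm_smul, Real.norm_of_nonneg hc, Real.norm_of_nonneg hd]
      nlinarith [ha.1, hb.1]
    · simp only [Prod.snd_add, Prod.smul_snd, smul_eq_mul]
      have := ha.2
      have := hb.2
      positivity
  have hdisj : Disjoint s t := by
    rw [Set.disjoint_left]
    intro q hq hq2
    simp only [s, t, mem_ofPred_eq] at hq hq2
    have := h q.1 hq2.1
    rw [map_sub] at hq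
    linarith [hq2.2]
  obtain ⟨F, u, hF1, hF2⟩ := geometric_hahn_banach_open hs1 hs2 ht hdisj
  let f : StrongDual ℝ X := F.comp (ContinuousLinearMap.inl ℝ X ℝ)
  let c : ℝ := F (0, 1)
  have hF : ∀ z : X, ∀ r : ℝ, F (z, r) = f z + r * c := by
    intro z r
    have : (z, r) = (z, (0 : ℝ)) + r • ((0 : X), (1 : ℝ)) := by simp
    rw [this, map_add, map_smul]
    simp [f, c]
  have hc0 : 0 ≤ c := by
    by_contra hneg
    push Not at hneg
    have h1 := hF2 (y, (f y - u + 1) / (-c) + |(f y - u + 1) / (-c)|) ⟨hy, by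
      have := neg_abs_le ((f y - u + 1) / (-c)); linarith⟩
    have h2 := hF2 (y, |(f y - u + 1) / (-c)|) ⟨hy, abs_nonneg _⟩
    rw [hF] at h2
    have h3 : (f y - u + 1) / (-c) ≤ |(f y - u + 1) / (-c)| := le_abs_self _
    have h4 : f y - u + 1 ≤ |(f y - u + 1) / (-c)| * (-c) := by
      rw [div_le_iff₀ (by linarith)] at h3
      exact h3
    linarith
  have hcpos : 0 < c := by
    rcases hc0.eq_or_lt with h0 | h0
    · exfalso
      have hfu : ∀ z : X, f z < u := by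
        intro z
        have := hF1 (z, φ (z - y) - k * ‖z - y‖ - 1) (by simp [s])
        rw [hF, ← h0] at this
        simpa using this
      have := hF2 (y, 0) ⟨hy, le_refl _⟩
      rw [hF] at this
      have h3 := hfu y
      simp at this
      linarith
    · exact h0
  have hle : ∀ z : X, f z + c * (φ (z - y) - k * ‖z - y‖) ≤ u := by
    intro z
    refine le_of_forall_pos_lt_add (fun ε hε => ?_)
    have := hF1 (z, φ (z - y) - k * ‖z - y‖ - ε / c) (by simp [s]; positivity)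
    rw [hF, sub_mul, div_mul_cancel₀ _ hcpos.ne'] at this
    linarith
  have hge : ∀ z : X, ‖z‖ ≤ 1 → u ≤ f z := by
    intro z hz
    have := hF2 (z, 0) ⟨hz, le_refl _⟩
    rw [hF] at this
    simpa using this
  have hu : u = f y := by
    apply le_antisymm (hge y hy)
    have := hle y
    simpa using this
  refine ⟨-(c⁻¹ • f), ?_, ?_⟩
  · refine ContinuousLinearMap.opNorm_le_bound _ hk (fun w => ?_)
    have key : ∀ w : X, f w + c * φ w ≤ c * (k * ‖w‖) := by
      intro w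
      have := hle (w + y)
      rw [hu, map_add] at this
      simp only [add_sub_cancel_right] at this
      linarith
    have key2 : ∀ w : X, (φ - -(c⁻¹ • f)) w ≤ k * ‖w‖ := by
      intro w
      have h1 := key w
      have h2 : (φ - -(c⁻¹ • f)) w = c⁻¹ * (f w + c * φ w) := by
        simp
        field_simp
        ring
      rw [h2]
      calc c⁻¹ * (f w + c * φ w) ≤ c⁻¹ * (c * (k * ‖w‖)) := by gcongr
        _ = k * ‖w‖ := by field_simp
    rw [Real.norm_eq_abs, abs_le]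
    constructor
    · have := key2 (-w)
      rw [map_neg, norm_neg] at this
      linarith
    · exact key2 w
  · intro z hz
    have h1 := hge z hz
    rw [hu] at h1
    simp only [neg_apply, smul_apply, smul_eq_mul,
      neg_le_neg_iff]
    gcongr

/-- The Bishop-Phelps-Bollobas theorem with the sharp constant. -/
theorem bpb [CompleteSpace X] (η : ℝ) (hη0 : 0 < η) (hη2 : η < 2) (x : X) (φ : StrongDual ℝ X)
    (hx : ‖x‖ = 1) (hφ : ‖φ‖ = 1) (h : 1 - η ≤ φ x) :
    ∃ (y : X) (ψ : StrongDual ℝ X), ‖y‖ = 1 ∧ ‖ψ‖ = 1 ∧ ψ y = 1 ∧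
      ‖x - y‖ ≤ √(2 * η) ∧ ‖φ - ψ‖ ≤ √(2 * η) := by
  set r := √(2 * η) with hr
  have hrpos : 0 < r := Real.sqrt_pos.2 (by linarith)
  have hr2 : r * r = 2 * η := Real.mul_self_sqrt (by linarith)
  have hrlt : r < 2 := by nlinarith
  obtain ⟨y, hy1, hy2, hy3⟩ := ekeland_ball φ (r / 2) (by linarith) x hx.le
  obtain ⟨g, hg1, hg2⟩ := sandwich φ (r / 2) (by linarith) y hy1 hy3
  -- norm of g is positive
  have hgpos : 0 < ‖g‖ := by
    have : ‖φ‖ ≤ ‖φ - g‖ + ‖g‖ := by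
      have := norm_add_le (φ - g) g
      simpa using this
    linarith
  have hgy : g y = ‖g‖ := by
    apply le_antisymm
    · calc g y ≤ ‖g y‖ := le_abs_self _
        _ ≤ ‖g‖ * ‖y‖ := g.le_opNorm y
        _ ≤ ‖g‖ * 1 := by gcongr
        _ = ‖g‖ := mul_one _
    · have hgy0 : 0 ≤ g y := by simpa using hg2 0 (by simp)
      refine ContinuousLinearMap.opNorm_le_bound _ hgy0 (fun z => ?_)
      rcases eq_or_ne z 0 with rfl | hz
      · simp
      · have hzpos : 0 < ‖z‖ := norm_pos_iff.2 hz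
        have h1 := hg2 (‖z‖⁻¹ • z) (by rw [norm_smul, norm_inv, norm_norm,
          inv_mul_cancel₀ hzpos.ne'])
        have h2 := hg2 (-(‖z‖⁻¹ • z)) (by rw [norm_neg, norm_smul, norm_inv, norm_norm,
          inv_mul_cancel₀ hzpos.ne'])
        rw [map_neg, map_smul, smul_eq_mul] at h2
        rw [map_smul, smul_eq_mul] at h1
        rw [Real.norm_eq_abs, abs_le]
        constructor
        · have : -g z ≤ g y * ‖z‖ := by
            calc -g z = (-(‖z‖⁻¹ * g z)) * ‖z‖ := by field_simp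
              _ ≤ g y * ‖z‖ := by gcongr
          linarith
        · calc g z = (‖z‖⁻¹ * g z) * ‖z‖ := by field_simp
            _ ≤ g y * ‖z‖ := by gcongr
  have hynorm : ‖y‖ = 1 := by
    apply le_antisymm hy1
    have h1 : ‖g‖ ≤ ‖g‖ * ‖y‖ := by
      calc ‖g‖ = g y := hgy.symm
        _ ≤ ‖g y‖ := le_abs_self _
        _ ≤ ‖g‖ * ‖y‖ := g.le_opNorm y
    by_contra hcon
    push Not at hcon
    nlinarith
  refine ⟨y, ‖g‖⁻¹ • g, hynorm, ?_, ?_, ?_, ?_⟩
  · rw [norm_smul, norm_inv, norm_norm, inv_mul_cancel₀ hgpos.ne']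
  · simp [hgy, inv_mul_cancel₀ hgpos.ne']
  · have h1 : φ y ≤ 1 := by
      calc φ y ≤ ‖φ y‖ := le_abs_self _
        _ ≤ ‖φ‖ * ‖y‖ := φ.le_opNorm y
        _ = 1 := by rw [hφ, hynorm, one_mul]
    have h2 : r / 2 * ‖y - x‖ ≤ η := by linarith
    have h3 : r / 2 * ‖y - x‖ ≤ r / 2 * r := by nlinarith
    rw [norm_sub_rev]
    exact le_of_mul_le_mul_left h3 (by linarith)
  · have h1 : ‖φ - ‖g‖⁻¹ • g‖ ≤ ‖φ - g‖ + ‖g - ‖g‖⁻¹ • g‖ := by
      have := norm_add_le (φ - g) (g - ‖g‖⁻¹ • g)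
      simpa using this
    have h2 : ‖g - ‖g‖⁻¹ • g‖ = |‖g‖ - 1| := by
      have : g - ‖g‖⁻¹ • g = ((‖g‖ - 1) * ‖g‖⁻¹) • g := by
        ext z
        simp only [sub_apply, smul_apply, smul_eq_mul]
        field_simp
      rw [this, norm_smul, norm_mul, norm_inv, norm_norm, mul_assoc, inv_mul_cancel₀ hgpos.ne',
        mul_one, Real.norm_eq_abs]
    have h3 : |‖g‖ - 1| ≤ r / 2 := by
      have := abs_norm_sub_norm_le g φ
      rw [hφ, norm_sub_rev] at this
      linarith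
    linarith

/-- Cone lemma. -/
theorem cone {a b : X} (ha : ‖a‖ = 1) (hb : ‖b‖ = 1) (hab : ‖a - b‖ = 1) {α β : ℝ}
    (hα : 0 ≤ α) (hβ : 0 ≤ β) (hq : ‖α • a + β • b‖ = 1) :
    α ≤ 1 ∧ β ≤ 1 ∧ ‖(α • a + β • b) - a‖ ≤ 1 ∧ ‖(α • a + β • b) - b‖ ≤ 1 := by
  have hsum : 1 ≤ α + β := by
    rw [← hq]
    refine (norm_add_le _ _).trans ?_
    rw [norm_smul, norm_smul, ha, hb, Real.norm_of_nonneg hα, Real.norm_of_nonneg hβ]
    linarith
  have hα1 : α ≤ 1 := by
    by_contra hcon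
    push Not at hcon
    have h1 : (α + β) • a = (α • a + β • b) + β • (a - b) := by
      rw [smul_sub, add_smul]; abel
    have h2 : α + β ≤ 1 + β := by
      calc α + β = ‖(α + β) • a‖ := by
            rw [norm_smul, ha, Real.norm_of_nonneg (by linarith), mul_one]
        _ ≤ ‖α • a + β • b‖ + ‖β • (a - b)‖ := by rw [h1]; exact norm_add_le _ _
        _ = 1 + β := by rw [hq, norm_smul, hab, Real.norm_of_nonneg hβ, mul_one]
    linarith
  have hβ1 : β ≤ 1 := by
    by_contra hcon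
    push Not at hcon
    have h1 : (α + β) • b = (α • a + β • b) - α • (a - b) := by
      rw [smul_sub, add_smul]; abel
    have h2 : α + β ≤ 1 + α := by
      calc α + β = ‖(α + β) • b‖ := by
            rw [norm_smul, hb, Real.norm_of_nonneg (by linarith), mul_one]
        _ ≤ ‖α • a + β • b‖ + ‖α • (a - b)‖ := by rw [h1]; exact norm_sub_le _ _
        _ = 1 + α := by rw [hq, norm_smul, hab, Real.norm_of_nonneg hα, mul_one]
    linarith
  refine ⟨hα1, hβ1, ?_, ?_⟩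
  · have h1 : (α • a + β • b) - a = (α + β - 1) • b - (1 - α) • (a - b) := by
      simp only [smul_sub, add_smul, sub_smul, one_smul]; abel
    rw [h1]
    refine (norm_sub_le _ _).trans ?_
    rw [norm_smul, norm_smul, hb, hab, Real.norm_of_nonneg (by linarith),
      Real.norm_of_nonneg (by linarith)]
    linarith
  · have h1 : (α • a + β • b) - b = (α + β - 1) • a + (1 - β) • (a - b) := by
      simp only [smul_sub, add_smul, sub_smul, one_smul]; abel
    rw [h1]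
    refine (norm_add_le _ _).trans ?_
    rw [norm_smul, norm_smul, ha, hab, Real.norm_of_nonneg (by linarith),
      Real.norm_of_nonneg (by linarith)]
    linarith

/-- Existence of the hexagon vertex. -/
theorem hexagon_vertex {x q : X} (hx : ‖x‖ = 1) (hq : ‖q‖ = 1) (h1 : 1 < ‖q - x‖)
    (h2 : 1 < ‖q + x‖) :
    ∃ (l m : ℝ), 0 ≤ l ∧ 0 < m ∧ ‖l • x + m • q‖ = 1 ∧ ‖l • x + m • q - x‖ = 1 := by
  have hne : ∀ s : ℝ, (1 - s) • x + s • q ≠ 0 := by
    intro s h0
    have e1 : (1 - s) • x = -(s • q) := eq_neg_of_add_eq_zero_left h0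
    have e2 : |1 - s| = |s| := by
      have := congrArg norm e1
      rw [norm_neg, norm_smul, norm_smul, hx, hq, mul_one, mul_one] at this
      simpa using this
    have e3 : s = 1 / 2 := by
      rcases abs_eq_abs.1 e2 with h | h
      · linarith
      · linarith
    rw [e3] at h0
    have e4 : q + x = 0 := by
      have : (2 : ℝ) • ((1 - 1 / 2 : ℝ) • x + (1 / 2 : ℝ) • q) = q + x := by
        rw [smul_add, smul_smul, smul_smul]; norm_num; abel
      rw [← this, h0, smul_zero]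
    rw [e4, norm_zero] at h2
    linarith
  let c : ℝ → X := fun s => (1 - s) • x + s • q
  let F : ℝ → ℝ := fun s => ‖‖c s‖⁻¹ • c s - x‖
  have hcont : Continuous F := by
    have hc : Continuous c := by fun_prop
    have : Continuous (fun s => ‖c s‖⁻¹) := hc.norm.inv₀ (fun s => norm_ne_zero_iff.2 (hne s))
    exact ((this.smul hc).sub continuous_const).norm
  have hF0 : F 0 = 0 := by simp [F, c, hx]
  have hF1 : 1 < F 1 := by simpa [F, c, hq] using h1
  have hiv := intermediate_value_Icc (zero_le_one (α := ℝ)) hcont.continuousOn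
  obtain ⟨s, hs, hFs⟩ := hiv (show (1 : ℝ) ∈ Icc (F 0) (F 1) from ⟨by rw [hF0]; norm_num, hF1.le⟩)
  have hcs : 0 < ‖c s‖ := norm_pos_iff.2 (hne s)
  have hs0 : s ≠ 0 := by
    rintro rfl
    rw [hF0] at hFs
    norm_num at hFs
  have hspos : 0 < s := lt_of_le_of_ne hs.1 (Ne.symm hs0)
  have e : ‖c s‖⁻¹ • c s = (‖c s‖⁻¹ * (1 - s)) • x + (‖c s‖⁻¹ * s) • q := by
    simp only [c, smul_add, smul_smul]
  refine ⟨‖c s‖⁻¹ * (1 - s), ‖c s‖⁻¹ * s, ?_, ?_, ?_, ?_⟩
  · have : 0 ≤ 1 - s := by linarith [hs.2]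
    positivity
  · positivity
  · rw [← e, norm_smul, norm_inv, norm_norm, inv_mul_cancel₀ hcs.ne']
  · rw [← e]; exact hFs

/-- The planar lemma: if unit vectors `p`, `q` satisfy `x = s p - t q` with `s, t > 0` and neither
lies within distance one of `x` or `-x`, then both lie in a cone spanned by `u`, `u - x` with
coefficients in the unit interval. -/
theorem planar {x p q : X} (hx : ‖x‖ = 1) (hp : ‖p‖ = 1) (hq : ‖q‖ = 1) {s t : ℝ} (hs : 0 < s)
    (ht : 0 < t) (hxpq : x = s • p - t • q) (hp1 : 1 < ‖p - x‖) (_hp2 : 1 < ‖p + x‖)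
    (hq1 : 1 < ‖q - x‖) (hq2 : 1 < ‖q + x‖) :
    ∃ u v : X, ‖u‖ = 1 ∧ ‖v‖ = 1 ∧ u - v = x ∧
      (∃ a b : ℝ, 0 ≤ a ∧ a ≤ 1 ∧ 0 ≤ b ∧ b ≤ 1 ∧ p = a • u + b • v) ∧
      (∃ a b : ℝ, 0 ≤ a ∧ a ≤ 1 ∧ 0 ≤ b ∧ b ≤ 1 ∧ q = a • u + b • v) := by
  obtain ⟨l, m, hl, hm, hu, hv⟩ := hexagon_vertex hx hq hq1 hq2
  set u := l • x + m • q with hudef
  set v := u - x with hvdef
  have huv : u - v = x := by rw [hvdef]; abel
  have hqe : q = m⁻¹ • (u - l • x) := by
    rw [hudef]
    simp [smul_smul, inv_mul_cancel₀ hm.ne']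
  have hmi : 0 < m⁻¹ := inv_pos.2 hm
  have hl1 : l ≤ 1 := by
    by_contra hcon
    push Not at hcon
    -- q lies in the cone of v and -x
    have e1 : q = m⁻¹ • v + (m⁻¹ * (l - 1)) • (-x) := by
      rw [hqe, hvdef, mul_smul, ← smul_add]
      congr 1
      rw [sub_smul, one_smul, smul_neg]
      abel
    have hnx : ‖-x‖ = 1 := by rw [norm_neg, hx]
    have hvx : ‖v - -x‖ = 1 := by
      have : v - -x = u := by rw [hvdef]; abel
      rw [this, hu]
    have hc2 : 0 ≤ m⁻¹ * (l - 1) := mul_nonneg hmi.le (by linarith)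
    have := (cone (a := v) (b := -x) hv hnx hvx hmi.le hc2 (by rw [← e1]; exact hq)).2.2.2
    rw [← e1, sub_neg_eq_add] at this
    linarith
  have hq3 : q = (m⁻¹ * (1 - l)) • u + (m⁻¹ * l) • v := by
    rw [hvdef]
    nth_rewrite 1 [hqe]
    rw [mul_smul, mul_smul, ← smul_add]
    congr 1
    simp only [sub_smul, one_smul, smul_sub]
    abel
  set α' := m⁻¹ * (1 - l) with hα'
  set β' := m⁻¹ * l with hβ'
  have hα'0 : 0 ≤ α' := mul_nonneg hmi.le (by linarith)
  have hβ'0 : 0 ≤ β' := mul_nonneg hmi.le hl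
  have huv1 : ‖u - v‖ = 1 := by rw [huv, hx]
  have hcq := cone (a := u) (b := v) hu hv huv1 hα'0 hβ'0 (by rw [← hq3]; exact hq)
  have hαβ' : 0 < α' + β' := by
    have : α' + β' = m⁻¹ := by rw [hα', hβ']; ring
    rw [this]; exact hmi
  have hsi : 0 < s⁻¹ := inv_pos.2 hs
  have hp3 : p = (s⁻¹ * (1 + t * α')) • u + (s⁻¹ * (t * β' - 1)) • v := by
    have h0 : s • p = x + t • q := by rw [hxpq]; abel
    have h00 : p = s⁻¹ • (x + t • q) := by
      rw [← h0, smul_smul, inv_mul_cancel₀ hs.ne', one_smul]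
    rw [h00, mul_smul, mul_smul, ← smul_add]
    congr 1
    nth_rewrite 1 [← huv]
    nth_rewrite 1 [hq3]
    simp only [smul_add, smul_smul, add_smul, sub_smul, one_smul]
    abel
  have hβ0 : 0 ≤ s⁻¹ * (t * β' - 1) := by
    by_contra hcon
    push Not at hcon
    have htb : t * β' - 1 < 0 := by
      by_contra h'
      push Not at h'
      have := mul_nonneg hsi.le h'
      linarith
    have e1 : p = (s⁻¹ * (t * (α' + β'))) • u + (s⁻¹ * (1 - t * β')) • x := by
      nth_rewrite 1 [hp3]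
      rw [← huv]
      simp only [smul_sub, mul_add, mul_sub, mul_one, add_smul, sub_smul]
      abel
    have hux : ‖u - x‖ = 1 := hv
    have := (cone (a := u) (b := x) (α := s⁻¹ * (t * (α' + β'))) (β := s⁻¹ * (1 - t * β'))
      hu hx hux (mul_nonneg hsi.le (mul_nonneg ht.le hαβ'.le))
      (mul_nonneg hsi.le (by linarith)) (by rw [← e1]; exact hp)).2.2.2
    rw [← e1] at this
    linarith
  have hα0 : 0 ≤ s⁻¹ * (1 + t * α') := by positivity
  have hcp := cone (a := u) (b := v) hu hv huv1 hα0 hβ0 (by rw [← hp3]; exact hp)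
  exact ⟨u, v, hu, hv, huv, ⟨_, _, hα0, hcp.1, hβ0, hcp.2.1, hp3⟩,
    ⟨_, _, hα'0, hcq.1, hβ'0, hcq.2.1, hq3⟩⟩

/-- The duality step: a functional `g` in the lens of `φ` maximal at `x`. -/
theorem duality (φ : StrongDual ℝ X) (hφ : ‖φ‖ ≤ 1) (x : X) (hx : x ≠ 0) :
    ∃ g : StrongDual ℝ X, ‖g‖ ≤ 1 ∧ ‖φ - g‖ ≤ 1 ∧
      ∀ η : ℝ, 0 < η → ∃ b : X, φ b + ‖b‖ + ‖x - b‖ ≤ g x + η := by
  let P : X → X → ℝ := fun w b => φ b + ‖b‖ + ‖w - b‖
  have hφle : ∀ z, |φ z| ≤ ‖z‖ := fun z => by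
    have := φ.le_of_opNorm_le hφ z
    simpa using this
  have hlow : ∀ w b, φ w ≤ P w b := by
    intro w b
    have h1 : φ w = φ b + φ (w - b) := by rw [map_sub]; ring
    have h2 := (abs_le.1 (hφle (w - b))).2
    have h3 := norm_nonneg b
    simp only [P]
    linarith
  have hbdd : ∀ w, BddBelow (range (P w)) := by
    intro w
    refine ⟨φ w, ?_⟩
    rintro _ ⟨b, rfl⟩
    exact hlow w b
  let p : X → ℝ := fun w => ⨅ b, P w b
  have hple : ∀ w b, p w ≤ P w b := fun w b => ciInf_le (hbdd w) b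
  have hhom1 : ∀ c : ℝ, 0 < c → ∀ w, p (c • w) ≤ c * p w := by
    intro c hc w
    simp only [p]
    rw [Real.mul_iInf_of_nonneg hc.le]
    refine le_ciInf (fun b => ?_)
    refine (hple (c • w) (c • b)).trans (le_of_eq ?_)
    simp only [P]
    rw [← smul_sub, norm_smul, norm_smul, map_smul, Real.norm_of_nonneg hc.le, smul_eq_mul]
    ring
  have hhom : ∀ c : ℝ, 0 < c → ∀ w, p (c • w) = c * p w := by
    intro c hc w
    apply le_antisymm (hhom1 c hc w)
    have := hhom1 c⁻¹ (inv_pos.2 hc) (c • w)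
    rw [smul_smul, inv_mul_cancel₀ hc.ne', one_smul] at this
    calc c * p w ≤ c * (c⁻¹ * p (c • w)) := by gcongr
      _ = p (c • w) := by field_simp
  have hadd : ∀ w z, p (w + z) ≤ p w + p z := by
    intro w z
    refine le_ciInf_add_ciInf (fun b c => ?_)
    refine (hple (w + z) (b + c)).trans ?_
    simp only [P]
    have h1 := norm_add_le b c
    have h2 : ‖w + z - (b + c)‖ ≤ ‖w - b‖ + ‖z - c‖ := by
      have := norm_add_le (w - b) (z - c)
      rwa [show w - b + (z - c) = w + z - (b + c) by abel] at this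
    rw [map_add]
    linarith
  have hp0 : p 0 = 0 := by
    have := hhom 2 two_pos 0
    rw [smul_zero] at this
    linarith
  let f : X →ₗ.[ℝ] ℝ := LinearPMap.mkSpanSingleton x (p x) hx
  have hf : ∀ z : f.domain, f z ≤ p z := by
    rintro ⟨z, hz⟩
    obtain ⟨c, rfl⟩ := Submodule.mem_span_singleton.1 hz
    have e : f ⟨c • x, hz⟩ = c * p x := LinearPMap.mkSpanSingleton'_apply _ _ _ _ _
    rw [e]
    rcases lt_trichotomy c 0 with hc | hc | hc
    · have h1 := hadd (c • x) ((-c) • x)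
      rw [← add_smul, add_neg_cancel, zero_smul, hp0, hhom (-c) (by linarith)] at h1
      simp only
      linarith
    · subst hc
      simp [hp0]
    · rw [hhom c hc]
  obtain ⟨g, hg1, hg2⟩ := exists_extension_of_le_sublinear f p hhom hadd hf
  have hgx : g x = p x := by
    have := hg1 ⟨x, Submodule.mem_span_singleton_self x⟩
    rw [this]
    exact LinearPMap.mkSpanSingleton'_apply_self _ _ _ _
  have hgle : ∀ w, |g w| ≤ 1 * ‖w‖ := by
    intro w
    rw [one_mul, abs_le]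
    have h1 : ∀ w, g w ≤ ‖w‖ := fun w => by
      have := (hg2 w).trans (hple w 0)
      simpa [P] using this
    constructor
    · have := h1 (-w)
      rw [map_neg, norm_neg] at this
      linarith
    · exact h1 w
  let G : StrongDual ℝ X := g.mkContinuous 1 hgle
  have hG : ∀ w, G w = g w := fun w => rfl
  refine ⟨G, LinearMap.mkContinuous_norm_le _ zero_le_one _, ?_, ?_⟩
  · refine ContinuousLinearMap.opNorm_le_bound _ zero_le_one (fun w => ?_)
    have h1 : ∀ w, (φ - G) w ≤ 1 * ‖w‖ := fun w => by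
      have := (hg2 (-w)).trans (hple (-w) (-w))
      simp only [P, map_neg, norm_neg, sub_neg_eq_add, neg_add_cancel, norm_zero, add_zero] at this
      rw [sub_apply, hG, one_mul]
      linarith
    rw [Real.norm_eq_abs, abs_le]
    constructor
    · have := h1 (-w)
      rw [map_neg, norm_neg] at this
      linarith
    · exact h1 w
  · intro η hη
    have : p x < g x + η := by rw [hgx]; linarith
    obtain ⟨b, hb⟩ := exists_lt_of_ciInf_lt this
    exact ⟨b, hb.le⟩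

theorem step_real (A B a c η : ℝ) (hη : 0 < η) (ha0 : 0 ≤ a) (ha1 : a ≤ 1) (hc0 : 0 ≤ c)
    (hc1 : c ≤ 1) (hh : 1 - η ≤ a * A + c * B) :
    (1 - 3 * η ≤ |A| ∨ 1 - 3 * η ≤ |B|) ∨ 1 - η ≤ A + B := by
  rcases le_or_gt 0 A with hA | hA
  · have h1 : a * A ≤ A := mul_le_of_le_one_left hA ha1
    rcases le_or_gt 0 B with hB | hB
    · have h2 : c * B ≤ B := mul_le_of_le_one_left hB hc1
      right
      linarith
    · have h2 : c * B ≤ 0 := mul_nonpos_of_nonneg_of_nonpos hc0 hB.le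
      left; left
      have := le_abs_self A
      linarith
  · have h1 : a * A ≤ 0 := mul_nonpos_of_nonneg_of_nonpos ha0 hA.le
    rcases le_or_gt 0 B with hB | hB
    · have h2 : c * B ≤ B := mul_le_of_le_one_left hB hc1
      left; right
      have := le_abs_self B
      linarith
    · have h2 : c * B ≤ 0 := mul_nonpos_of_nonneg_of_nonpos hc0 hB.le
      left; left
      have := abs_nonneg A
      linarith

/-- Key claim: the lens of `x` and the lens of `φ` contain pairs of value close to one. -/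
theorem key (x : X) (φ : StrongDual ℝ X) (hx : ‖x‖ = 1) (hφ : ‖φ‖ = 1) (η : ℝ) (hη : 0 < η) :
    ∃ (y : X) (h : StrongDual ℝ X), ‖y‖ ≤ 1 ∧ ‖x - y‖ ≤ 1 ∧ ‖h‖ ≤ 1 ∧ ‖φ - h‖ ≤ 1 ∧
      1 - 3 * η ≤ |h y| := by
  have hx0 : x ≠ 0 := by rintro rfl; simp at hx
  obtain ⟨g, hg1, hg2, hg3⟩ := duality φ hφ.le x hx0
  wlog hη1 : η ≤ 1 generalizing η
  · obtain ⟨y, h, h1, h2, h3, h4, h5⟩ := this 1 one_pos le_rfl
    exact ⟨y, h, h1, h2, h3, h4, by linarith [not_le.1 hη1]⟩
  obtain ⟨b, hb⟩ := hg3 (η * η) (by positivity)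
  have hgle : ∀ z, |g z| ≤ ‖z‖ := fun z => by
    have := g.le_of_opNorm_le hg1 z
    simpa using this
  set k := φ - g with hk
  have hkle : ∀ z, |k z| ≤ ‖z‖ := fun z => by
    have := k.le_of_opNorm_le hg2 z
    simpa using this
  have hk2 : ‖φ - k‖ ≤ 1 := by
    have : φ - k = g := by rw [hk]; abel
    rw [this]; exact hg1
  have hkz : ∀ z, k z = φ z - g z := fun z => by rw [hk, sub_apply]
  have hb1 : ‖x - b‖ - η * η ≤ g (x - b) := by
    have h1 := (abs_le.1 (hkle b)).1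
    have h2 := (abs_le.1 (hkle b)).2
    rw [hkz] at h1 h2
    rw [map_sub]
    linarith
  have hb2 : ‖b‖ - η * η ≤ k (-b) := by
    have h1 := (abs_le.1 (hgle (x - b))).2
    rw [map_sub] at h1
    rw [map_neg, hkz]
    linarith
  -- Case A
  rcases le_or_gt ‖b‖ η with hbs | hbs
  · refine ⟨x, g, hx.le, by simp, hg1, hg2, ?_⟩
    have h1 : g x = g (x - b) + g b := by rw [map_sub]; ring
    have h2 := (abs_le.1 (hgle b)).1
    have h3 : 1 ≤ ‖x - b‖ + ‖b‖ := by
      rw [← hx]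
      have := norm_add_le (x - b) b
      simpa using this
    have h4 := le_abs_self (g x)
    nlinarith
  rcases le_or_gt ‖x - b‖ η with hxs | hxs
  · refine ⟨x, k, hx.le, by simp, hg2, hk2, ?_⟩
    have h1 : k x = k (x - b) - k (-b) := by rw [map_sub, map_neg]; ring
    have h2 := (abs_le.1 (hkle (x - b))).2
    have h3 : 1 ≤ ‖x - b‖ + ‖b‖ := by
      rw [← hx]
      have := norm_add_le (x - b) b
      simpa using this
    have h4 := neg_abs_le (k x)
    nlinarith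
  -- Case C
  have hbpos : 0 < ‖b‖ := hη.trans hbs
  have hxbpos : 0 < ‖x - b‖ := hη.trans hxs
  set p := ‖x - b‖⁻¹ • (x - b) with hp
  set q := ‖b‖⁻¹ • (-b) with hq
  have hpn : ‖p‖ = 1 := by rw [hp, norm_smul, norm_inv, norm_norm, inv_mul_cancel₀ hxbpos.ne']
  have hqn : ‖q‖ = 1 := by
    rw [hq, norm_smul, norm_inv, norm_norm, norm_neg, inv_mul_cancel₀ hbpos.ne']
  have hgp : 1 - η ≤ g p := by
    rw [hp, map_smul, smul_eq_mul]
    have h1 : ‖x - b‖⁻¹ * (‖x - b‖ - η * η) ≤ ‖x - b‖⁻¹ * g (x - b) := by gcongr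
    have h2 : ‖x - b‖⁻¹ * (‖x - b‖ - η * η) = 1 - ‖x - b‖⁻¹ * (η * η) := by
      rw [mul_sub, inv_mul_cancel₀ hxbpos.ne']
    have h3 : ‖x - b‖⁻¹ * (η * η) ≤ η := by
      rw [inv_mul_le_iff₀ hxbpos]
      nlinarith
    linarith
  have hkq : 1 - η ≤ k q := by
    rw [hq, map_smul, smul_eq_mul]
    have h1 : ‖b‖⁻¹ * (‖b‖ - η * η) ≤ ‖b‖⁻¹ * k (-b) := by gcongr
    have h2 : ‖b‖⁻¹ * (‖b‖ - η * η) = 1 - ‖b‖⁻¹ * (η * η) := by
      rw [mul_sub, inv_mul_cancel₀ hbpos.ne']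
    have h3 : ‖b‖⁻¹ * (η * η) ≤ η := by
      rw [inv_mul_le_iff₀ hbpos]
      nlinarith
    linarith
  by_cases hp1 : ‖p - x‖ ≤ 1
  · exact ⟨p, g, hpn.le, by rwa [norm_sub_rev], hg1, hg2, by
      have := le_abs_self (g p); linarith⟩
  by_cases hp2 : ‖p + x‖ ≤ 1
  · refine ⟨-p, g, by rw [norm_neg, hpn], ?_, hg1, hg2, by
      have := le_abs_self (g p); rw [map_neg, abs_neg]; linarith⟩
    rwa [sub_neg_eq_add, add_comm]
  by_cases hq1 : ‖q - x‖ ≤ 1
  · exact ⟨q, k, hqn.le, by rwa [norm_sub_rev], hg2, hk2, by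
      have := le_abs_self (k q); linarith⟩
  by_cases hq2 : ‖q + x‖ ≤ 1
  · refine ⟨-q, k, by rw [norm_neg, hqn], ?_, hg2, hk2, by
      have := le_abs_self (k q); rw [map_neg, abs_neg]; linarith⟩
    rwa [sub_neg_eq_add, add_comm]
  push Not at hp1 hp2 hq1 hq2
  have hxpq : x = ‖x - b‖ • p - ‖b‖ • q := by
    rw [hp, hq, smul_smul, smul_smul, mul_inv_cancel₀ hxbpos.ne', mul_inv_cancel₀ hbpos.ne',
      one_smul, one_smul]
    abel
  obtain ⟨u, v, hu, hv, huv, ⟨a, c, ha0, ha1, hc0, hc1, hpe⟩, ⟨a', c', ha0', ha1', hc0', hc1',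
    hqe⟩⟩ := planar hx hpn hqn hxbpos hbpos hxpq hp1 hp2 hq1 hq2
  have huC : ‖x - u‖ ≤ 1 := by
    have : x - u = -v := by rw [← huv]; abel
    rw [this, norm_neg, hv]
  have hvC : ‖x - -v‖ ≤ 1 := by
    have : x - -v = u := by rw [← huv]; abel
    rw [this, hu]
  rw [hpe, map_add, map_smul, map_smul, smul_eq_mul, smul_eq_mul] at hgp
  rw [hqe, map_add, map_smul, map_smul, smul_eq_mul, smul_eq_mul] at hkq
  rcases step_real _ _ a c η hη ha0 ha1 hc0 hc1 hgp with (h1 | h1) | h1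
  · exact ⟨u, g, hu.le, huC, hg1, hg2, h1⟩
  · exact ⟨-v, g, by rw [norm_neg, hv], hvC, hg1, hg2, by rwa [map_neg, abs_neg]⟩
  rcases step_real _ _ a' c' η hη ha0' ha1' hc0' hc1' hkq with (h2 | h2) | h2
  · exact ⟨u, k, hu.le, huC, hg2, hk2, h2⟩
  · exact ⟨-v, k, by rw [norm_neg, hv], hvC, hg2, hk2, by rwa [map_neg, abs_neg]⟩
  refine ⟨u, φ, hu.le, huC, hφ.le, by simp, ?_⟩
  rw [hkz, hkz] at h2
  have h3 : φ v ≤ 1 := by
    calc φ v ≤ ‖φ v‖ := le_abs_self _
      _ ≤ ‖φ‖ * ‖v‖ := φ.le_opNorm v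
      _ = 1 := by rw [hφ, hv, one_mul]
  have h4 := le_abs_self (φ u)
  linarith

theorem norm_sub_normalize {E : Type*} [NormedAddCommGroup E] [NormedSpace ℝ E] (h : E)
    (hpos : 0 < ‖h‖) (hle : ‖h‖ ≤ 1) : ‖h - ‖h‖⁻¹ • h‖ = 1 - ‖h‖ := by
  have e : h - ‖h‖⁻¹ • h = (-(1 - ‖h‖) * ‖h‖⁻¹) • h := by
    rw [neg_mul, sub_mul, mul_inv_cancel₀ hpos.ne', one_mul, neg_sub, sub_smul, one_smul]
  rw [e, norm_smul, norm_mul, norm_inv, norm_norm, mul_assoc, inv_mul_cancel₀ hpos.ne', mul_one,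
    norm_neg, Real.norm_of_nonneg (by linarith)]

theorem norm_sign_sub {E : Type*} [NormedAddCommGroup E] [NormedSpace ℝ E] (h k : E) (σ : ℝ)
    (hσ : |σ| = 1) : ‖σ • h - σ • k‖ = ‖h - k‖ := by
  rw [← smul_sub, norm_smul, Real.norm_eq_abs, hσ, one_mul]

/-- For every pair on the spheres and every `δ > 1` there is an exact pair at distance less
than `δ`. -/
theorem dist_one [CompleteSpace X] (x : X) (φ : StrongDual ℝ X) (hx : ‖x‖ = 1) (hφ : ‖φ‖ = 1)
    (δ : ℝ) (hδ : 1 < δ) :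
    ∃ (y : X) (ψ : StrongDual ℝ X), ‖y‖ = 1 ∧ ‖ψ‖ = 1 ∧ |ψ y| = 1 ∧ ‖x - y‖ < δ ∧
      ‖φ - ψ‖ < δ := by
  -- choose η with 3 η + √ (6 η) < δ - 1
  obtain ⟨η, hη0, hη1, hη2⟩ : ∃ η : ℝ, 0 < η ∧ 3 * η < 1 ∧ 3 * η + √(2 * (3 * η)) < δ - 1 := by
    have hc : Continuous (fun η : ℝ => 3 * η + √(2 * (3 * η))) := by fun_prop
    have h1 : ∀ᶠ η in 𝓝 (0 : ℝ), 3 * η + √(2 * (3 * η)) < δ - 1 := by
      refine hc.continuousAt.eventually (gt_mem_nhds ?_)
      simp
      linarith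
    have h2 : ∀ᶠ η in 𝓝 (0 : ℝ), 3 * η < 1 := by
      have hc2 : Continuous (fun η : ℝ => 3 * η) := by fun_prop
      refine hc2.continuousAt.eventually (gt_mem_nhds ?_)
      simp
    have h3 := (h1.and h2).filter_mono (nhdsWithin_le_nhds (s := Ioi 0))
    obtain ⟨η, ⟨h4, h5⟩, h6⟩ := (h3.and self_mem_nhdsWithin).exists
    exact ⟨η, h6, h5, h4⟩
  obtain ⟨y, h, hy1, hy2, hh1, hh2, hval⟩ := key x φ hx hφ η hη0
  -- sign
  obtain ⟨σ, hσ, hσv⟩ : ∃ σ : ℝ, |σ| = 1 ∧ σ * h y = |h y| := by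
    rcases le_or_gt 0 (h y) with h0 | h0
    · exact ⟨1, by simp, by rw [one_mul, abs_of_nonneg h0]⟩
    · exact ⟨-1, by simp, by rw [abs_of_neg h0]; ring⟩
  have hvle : |h y| ≤ ‖h‖ * ‖y‖ := h.le_opNorm y
  have hypos : 0 < ‖y‖ := by
    rcases (norm_nonneg y).eq_or_lt with h0 | h0
    · rw [← h0, mul_zero] at hvle; linarith
    · exact h0
  have hhpos : 0 < ‖h‖ := by
    rcases (norm_nonneg h).eq_or_lt with h0 | h0
    · rw [← h0, zero_mul] at hvle; linarith
    · exact h0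
  have hyge : 1 - 3 * η ≤ ‖y‖ := by nlinarith
  have hhge : 1 - 3 * η ≤ ‖h‖ := by nlinarith
  set z := ‖y‖⁻¹ • y with hz
  set k := (σ * ‖h‖⁻¹) • h with hk
  have hzn : ‖z‖ = 1 := by rw [hz, norm_smul, norm_inv, norm_norm, inv_mul_cancel₀ hypos.ne']
  have hkn : ‖k‖ = 1 := by
    rw [hk, norm_smul, norm_mul, norm_inv, norm_norm, mul_assoc, inv_mul_cancel₀ hhpos.ne',
      Real.norm_eq_abs, hσ, one_mul]
  have hkz : 1 - 3 * η ≤ k z := by
    have e : k z = ‖h‖⁻¹ * (‖y‖⁻¹ * |h y|) := by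
      rw [hk, hz, smul_apply, map_smul, smul_eq_mul, smul_eq_mul, ← hσv]
      ring
    rw [e]
    have h1 : |h y| ≤ ‖y‖⁻¹ * |h y| :=
      le_mul_of_one_le_left (abs_nonneg _) ((one_le_inv₀ hypos).2 hy1)
    have h2 : ‖y‖⁻¹ * |h y| ≤ ‖h‖⁻¹ * (‖y‖⁻¹ * |h y|) :=
      le_mul_of_one_le_left (by positivity) ((one_le_inv₀ hhpos).2 hh1)
    linarith
  have hyz : ‖y - z‖ ≤ 3 * η := by
    rw [hz, norm_sub_normalize y hypos hy1]
    linarith
  have hσσ : σ * σ = 1 := by
    rw [← abs_mul_abs_self, hσ, one_mul]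
  have hhk : ‖h - σ • k‖ ≤ 3 * η := by
    have e : σ • k = ‖h‖⁻¹ • h := by
      rw [hk, smul_smul, ← mul_assoc, hσσ, one_mul]
    rw [e, norm_sub_normalize h hhpos hh1]
    linarith
  obtain ⟨y₁, ψ, hy₁, hψ, hval1, hd1, hd2⟩ := bpb (3 * η) (by linarith) (by linarith) z k hzn hkn
    hkz
  refine ⟨y₁, σ • ψ, hy₁, ?_, ?_, ?_, ?_⟩
  · rw [norm_smul, Real.norm_eq_abs, hσ, one_mul, hψ]
  · rw [smul_apply, hval1, smul_eq_mul, mul_one, hσ]
  · have h1 : ‖x - y₁‖ ≤ ‖x - y‖ + ‖y - z‖ + ‖z - y₁‖ := by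
      have h1 := norm_add_le (x - y + (y - z)) (z - y₁)
      have h2 := norm_add_le (x - y) (y - z)
      have e : x - y + (y - z) + (z - y₁) = x - y₁ := by abel
      rw [e] at h1
      linarith
    linarith
  · have h1 : ‖φ - σ • ψ‖ ≤ ‖φ - h‖ + ‖h - σ • k‖ + ‖σ • k - σ • ψ‖ := by
      have h1 := norm_add_le (φ - h + (h - σ • k)) (σ • k - σ • ψ)
      have h2 := norm_add_le (φ - h) (h - σ • k)
      have e : φ - h + (h - σ • k) + (σ • k - σ • ψ) = φ - σ • ψ := by abel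
      rw [e] at h1
      linarith
    have h2 : ‖σ • k - σ • ψ‖ = ‖k - ψ‖ := norm_sign_sub k ψ σ hσ
    linarith

end Pool.Agent.Helper63.BPB
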