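import Mathlib

/-! Multiplication operators in a Hilbert basis and constrained restrictions. -/

namespace Pool.Agent.Helper63.ClosedRange

open Filter Topology LinearPMap

/-- Index set: kernel coordinates and two blocks. -/
abbrev Idx := ℕ ⊕ (Bool × ℕ × ℕ)

/-- The real multiplier. -/
def mul (s : Bool) : Idx → ℝ
  | Sum.inl _ => 0
  | Sum.inr (t, _, k) => if t = s then (k : ℝ) + 1 else -((k : ℝ) + 1)

/-- The small coefficients. -/
noncomputable def lam (n : ℕ) : ℝ := 1 / ((n : ℝ) + 1)

theorem lam_pos (n : ℕ) : 0 < lam n := by unfold lam; positivity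

theorem lam_zero : lam 0 = 1 := by simp [lam]

theorem lam_mul (k : ℕ) : lam k * ((k : ℝ) + 1) = 1 := by
  unfold lam; field_simp

theorem mul_not (s : Bool) (i : Idx) : mul (!s) i = -mul s i := by
  rcases i with n | ⟨t, n, k⟩
  · simp [mul]
  · cases t <;> cases s <;> simp [mul]

theorem mul_same (s : Bool) (n k : ℕ) : mul s (Sum.inr (s, n, k)) = (k : ℝ) + 1 := by
  simp [mul]

theorem one_le_abs_mul (s : Bool) : ∀ i : Bool × ℕ × ℕ, 1 ≤ |mul s (Sum.inr i)| := by
  rintro ⟨t, n, k⟩
  have hk : (0 : ℝ) ≤ k := Nat.cast_nonneg k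
  simp only [mul]
  split_ifs
  · rw [abs_of_nonneg (by linarith)]; linarith
  · rw [abs_neg, abs_of_nonneg (by linarith)]; linarith

section coords

variable {𝕜 : Type*} [RCLike 𝕜]

theorem memℓp_of_summable {f : Idx → 𝕜} (h : Summable (fun i => ‖f i‖ ^ (2 : ℝ))) :
    Memℓp f 2 := by
  apply memℓp_gen
  simpa using h

theorem summable_lam : Summable (fun k : ℕ => ‖lam k‖ ^ (2 : ℝ)) := by
  have h := (summable_nat_add_iff (f := fun k : ℕ => 1 / ((k : ℝ)) ^ 2) 1).2
    (Real.summable_one_div_nat_pow.2 one_lt_two)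
  refine h.congr (fun k => ?_)
  unfold lam
  rw [Real.norm_of_nonneg (by positivity)]
  norm_cast
  simp

/-- Summability along an injection, extended by zero. -/
theorem memℓp_extend {g : ℕ → Idx} (hg : Function.Injective g) (f : Idx → 𝕜)
    (hf : ∀ k, f (g k) = ((lam k : ℝ) : 𝕜)) (hf0 : ∀ i, i ∉ Set.range g → f i = 0) :
    Memℓp f 2 := by
  apply memℓp_of_summable
  rw [← hg.summable_iff (f := fun i => ‖f i‖ ^ (2 : ℝ))]
  · refine summable_lam.congr (fun k => ?_)
    simp [hf]
  · intro i hi
    rw [hf0 i hi, norm_zero, Real.zero_rpow two_ne_zero]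

/-- A square summable family constant along an injection vanishes there. -/
theorem const_along {f : lp (fun _ : Idx => 𝕜) 2} {g : ℕ → Idx} (hg : Function.Injective g) (c : 𝕜)
    (h : ∀ n, f (g n) = c) : c = 0 := by
  have h1 : Summable (fun i => ‖f i‖ ^ (2 : ℝ)) := by
    have := (lp.memℓp f).summable (p := 2) (by simp)
    simpa using this
  have h2 : Summable (fun n : ℕ => (‖c‖ ^ (2 : ℝ) : ℝ)) := by
    refine (h1.comp_injective hg).congr (fun n => ?_)
    simp [h]
  have h3 := h2.tendsto_atTop_zero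
  have h4 : Tendsto (fun _ : ℕ => (‖c‖ ^ (2 : ℝ) : ℝ)) atTop (𝓝 (‖c‖ ^ (2 : ℝ))) :=
    tendsto_const_nhds
  have h5 := tendsto_nhds_unique h4 h3
  have h6 : ‖c‖ = 0 := by
    by_contra hne
    have : 0 < ‖c‖ := lt_of_le_of_ne (norm_nonneg _) (Ne.symm hne)
    have := Real.rpow_pos_of_pos this 2
    linarith
  exact norm_eq_zero.1 h6

/-- The coordinates of the vector `v s n`. -/
noncomputable def vfun (s : Bool) (n : ℕ) : Idx → 𝕜
  | Sum.inl _ => 0
  | Sum.inr (t, m, k) => if t = s ∧ m = n then ((lam k : ℝ) : 𝕜) else 0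

theorem vfun_mem (s : Bool) (n : ℕ) : Memℓp (vfun (𝕜 := 𝕜) s n) 2 := by
  refine memℓp_extend (g := fun k => Sum.inr (s, n, k)) ?_ _ ?_ ?_
  · intro a b hab
    simpa using hab
  · intro k
    simp [vfun]
  · intro i hi
    rcases i with m | ⟨t, m, k⟩
    · rfl
    · simp only [vfun]
      rw [if_neg]
      rintro ⟨rfl, rfl⟩
      exact hi ⟨k, rfl⟩

/-- The coordinates of the target in the range. -/
noncomputable def wfun (s : Bool) : Idx → 𝕜
  | Sum.inl _ => 0
  | Sum.inr (t, n, k) => if t = s ∧ k = 0 then ((lam n : ℝ) : 𝕜) else 0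

theorem wfun_mem (s : Bool) : Memℓp (wfun (𝕜 := 𝕜) s) 2 := by
  refine memℓp_extend (g := fun n => Sum.inr (s, n, 0)) ?_ _ ?_ ?_
  · intro a b hab
    simpa using hab
  · intro k
    simp [wfun]
  · intro i hi
    rcases i with m | ⟨t, m, k⟩
    · rfl
    · simp only [wfun]
      rw [if_neg]
      rintro ⟨rfl, rfl⟩
      exact hi ⟨m, rfl⟩

/-- The coordinates of the target in the range of the adjoint. -/
noncomputable def ufun : Idx → 𝕜
  | Sum.inl n => ((lam n : ℝ) : 𝕜)
  | Sum.inr _ => 0

theorem ufun_mem : Memℓp (ufun (𝕜 := 𝕜)) 2 := by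
  refine memℓp_extend (g := fun n => Sum.inl n) ?_ _ ?_ ?_
  · intro a b hab
    simpa using hab
  · intro k
    rfl
  · intro i hi
    rcases i with m | i
    · exact absurd ⟨m, rfl⟩ hi
    · rfl

end coords

variable {𝕜 H : Type*} [RCLike 𝕜] [NormedAddCommGroup H] [InnerProductSpace 𝕜 H]
variable (b : HilbertBasis Idx 𝕜 H)

/-- Inner products of basis vectors. -/
theorem inner_basis (i j : Idx) : inner 𝕜 (b i) (b j) = if i = j then (1 : 𝕜) else 0 := by
  have := (orthonormal_iff_ite (𝕜 := 𝕜)).1 b.orthonormal i j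
  exact this

theorem ext_coord {x y : H} (h : ∀ i, inner 𝕜 (b i) x = inner 𝕜 (b i) y) : x = y := by
  apply b.repr.injective
  ext i
  rw [b.repr_apply_apply, b.repr_apply_apply, h]

theorem coord_const {x : H} {g : ℕ → Idx} (hg : Function.Injective g) (c : 𝕜)
    (h : ∀ n, inner 𝕜 (b (g n)) x = c) : c = 0 := by
  refine const_along (f := b.repr x) hg c (fun n => ?_)
  rw [b.repr_apply_apply, h]

/-- The vector with prescribed coordinates. -/
noncomputable def vec (f : Idx → 𝕜) (hf : Memℓp f 2) : H := b.repr.symm ⟨f, hf⟩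

theorem inner_vec (f : Idx → 𝕜) (hf : Memℓp f 2) (i : Idx) : inner 𝕜 (b i) (vec b f hf) = f i := by
  rw [← b.repr_apply_apply, vec, LinearIsometryEquiv.apply_symm_apply]

theorem inner_vec' (f : Idx → 𝕜) (hf : Memℓp f 2) (i : Idx) :
    inner 𝕜 (vec b f hf) (b i) = (starRingEnd 𝕜) (f i) := by
  rw [← inner_conj_symm, inner_vec]

/-- The vector `v s n`. -/
noncomputable def v (s : Bool) (n : ℕ) : H := vec b (vfun s n) (vfun_mem s n)

theorem inner_v (s : Bool) (n : ℕ) (i : Idx) : inner 𝕜 (v b s n) (b i) = vfun (𝕜 := 𝕜) s n i := by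
  rw [v, inner_vec']
  rcases i with m | ⟨t, m, k⟩
  · simp [vfun]
  · simp only [vfun]
    split_ifs <;> simp

/-- The graph of the multiplication operator. -/
def mulGraph (s : Bool) : Submodule 𝕜 (H × H) where
  carrier := {q | ∀ i, inner 𝕜 (b i) q.2 = ((mul s i : ℝ) : 𝕜) * inner 𝕜 (b i) q.1}
  zero_mem' := by intro i; simp
  add_mem' := by
    intro x y hx hy i
    have h1 := hx i
    have h2 := hy i
    rw [Prod.snd_add, Prod.fst_add, inner_add_right, inner_add_right, h1, h2]
    ring
  smul_mem' := by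
    intro c x hx i
    have h1 := hx i
    rw [Prod.smul_snd, Prod.smul_fst, inner_smul_right, inner_smul_right, h1]
    ring

theorem mem_mulGraph {s : Bool} {x y : H} :
    (x, y) ∈ mulGraph b s ↔ ∀ i, inner 𝕜 (b i) y = ((mul s i : ℝ) : 𝕜) * inner 𝕜 (b i) x := Iff.rfl

/-- The constrained graph. -/
def conGraph (s : Bool) : Submodule 𝕜 (H × H) where
  carrier := {q | q ∈ mulGraph b s ∧
    ∀ n, inner 𝕜 (v b s n) q.2 = ((lam n : ℝ) : 𝕜) * inner 𝕜 (b (Sum.inl n)) q.1}
  zero_mem' := by
    refine ⟨(mulGraph b s).zero_mem, fun n => ?_⟩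
    simp
  add_mem' := by
    intro x y hx hy
    refine ⟨(mulGraph b s).add_mem hx.1 hy.1, fun n => ?_⟩
    have h1 := hx.2 n
    have h2 := hy.2 n
    rw [Prod.snd_add, Prod.fst_add, inner_add_right, inner_add_right, h1, h2]
    ring
  smul_mem' := by
    intro c x hx
    refine ⟨(mulGraph b s).smul_mem c hx.1, fun n => ?_⟩
    have h1 := hx.2 n
    rw [Prod.smul_snd, Prod.smul_fst, inner_smul_right, inner_smul_right, h1]
    ring

theorem mem_conGraph {s : Bool} {x y : H} :
    (x, y) ∈ conGraph b s ↔ (x, y) ∈ mulGraph b s ∧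
      ∀ n, inner 𝕜 (v b s n) y = ((lam n : ℝ) : 𝕜) * inner 𝕜 (b (Sum.inl n)) x := Iff.rfl

theorem mulGraph_single_valued (s : Bool) :
    ∀ q : H × H, q ∈ mulGraph b s → q.fst = 0 → q.snd = 0 := by
  intro q hq h0
  refine ext_coord b (fun i => ?_)
  rw [hq i, h0]
  simp

theorem mulGraph_closed (s : Bool) : IsClosed (mulGraph b s : Set (H × H)) := by
  have : (mulGraph b s : Set (H × H)) =
      ⋂ i, {q : H × H | inner 𝕜 (b i) q.2 = ((mul s i : ℝ) : 𝕜) * inner 𝕜 (b i) q.1} := by
    ext q
    simp only [Set.mem_iInter]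
    rfl
  rw [this]
  refine isClosed_iInter (fun i => isClosed_eq ?_ ?_)
  · fun_prop
  · fun_prop

theorem conGraph_closed (s : Bool) : IsClosed (conGraph b s : Set (H × H)) := by
  have : (conGraph b s : Set (H × H)) = (mulGraph b s : Set (H × H)) ∩
      ⋂ n, {q : H × H | inner 𝕜 (v b s n) q.2 =
        ((lam n : ℝ) : 𝕜) * inner 𝕜 (b (Sum.inl n)) q.1} := by
    ext q
    simp only [Set.mem_inter_iff, Set.mem_iInter]
    rfl
  rw [this]
  refine (mulGraph_closed b s).inter (isClosed_iInter (fun n => isClosed_eq ?_ ?_))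
  · fun_prop
  · fun_prop

/-- Basis pairs in the multiplication graph. -/
theorem single_mem_mulGraph (s : Bool) (i : Idx) :
    (b i, ((mul s i : ℝ) : 𝕜) • b i) ∈ mulGraph b s := by
  rw [mem_mulGraph]
  intro j
  rw [inner_smul_right, inner_basis]
  split_ifs with h
  · rw [h]
  · simp

/-- Pairs in the constrained graph: the other block. -/
theorem single_mem_conGraph_other (s t : Bool) (hts : t ≠ s) (n k : ℕ) :
    (b (Sum.inr (t, n, k)), ((mul s (Sum.inr (t, n, k)) : ℝ) : 𝕜) • b (Sum.inr (t, n, k))) ∈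
      conGraph b s := by
  refine (mem_conGraph b).2 ⟨single_mem_mulGraph b s _, fun m => ?_⟩
  rw [inner_smul_right, inner_v, inner_basis]
  simp [vfun, hts]

theorem inner_v_same (s : Bool) (m n k : ℕ) :
    inner 𝕜 (v b s m) (b (Sum.inr (s, n, k))) = if n = m then ((lam k : ℝ) : 𝕜) else 0 := by
  rw [inner_v]
  simp [vfun]

/-- Differences of basis vectors. -/
theorem diff_mem_conGraph (s : Bool) (n k : ℕ) :
    (b (Sum.inr (s, n, k)) - b (Sum.inr (s, n, 0)),
      ((mul s (Sum.inr (s, n, k)) : ℝ) : 𝕜) • b (Sum.inr (s, n, k)) -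
      ((mul s (Sum.inr (s, n, 0)) : ℝ) : 𝕜) • b (Sum.inr (s, n, 0))) ∈ conGraph b s := by
  refine (mem_conGraph b).2 ⟨(mulGraph b s).sub_mem (single_mem_mulGraph b s _)
    (single_mem_mulGraph b s _), fun m => ?_⟩
  rw [inner_sub_right, inner_smul_right, inner_smul_right, inner_v_same, inner_v_same, mul_same,
    mul_same, inner_sub_right, inner_basis, inner_basis]
  have h1 : (((k : ℝ) + 1 : ℝ) : 𝕜) * ((lam k : ℝ) : 𝕜) = 1 := by
    rw [← RCLike.ofReal_mul, mul_comm, lam_mul, RCLike.ofReal_one]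
  have h2 : ((((0 : ℕ) : ℝ) + 1 : ℝ) : 𝕜) * ((lam 0 : ℝ) : 𝕜) = 1 := by
    rw [← RCLike.ofReal_mul, mul_comm, lam_mul, RCLike.ofReal_one]
  by_cases h : n = m
  · subst h
    simp only [if_true, h1, h2]
    simp
  · simp [h]

/-- The pair linking the kernel coordinate to the block. -/
theorem link_mem_conGraph (s : Bool) (n : ℕ) :
    (b (Sum.inl n) + ((lam n : ℝ) : 𝕜) • b (Sum.inr (s, n, 0)),
      ((lam n : ℝ) : 𝕜) • b (Sum.inr (s, n, 0))) ∈ conGraph b s := by
  refine (mem_conGraph b).2 ⟨?_, fun m => ?_⟩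
  · have e2 : ((lam n : ℝ) : 𝕜) • b (Sum.inr (s, n, 0)) =
        ((mul s (Sum.inl n) : ℝ) : 𝕜) • b (Sum.inl n) +
        ((lam n : ℝ) : 𝕜) • (((mul s (Sum.inr (s, n, 0)) : ℝ) : 𝕜) • b (Sum.inr (s, n, 0))) := by
      rw [mul_same]
      simp [mul]
    nth_rewrite 2 [e2]
    exact (mulGraph b s).add_mem (single_mem_mulGraph b s _)
      ((mulGraph b s).smul_mem _ (single_mem_mulGraph b s _))
  · rw [inner_smul_right, inner_v_same, inner_add_right, inner_smul_right, inner_basis,
      inner_basis, lam_zero]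
    by_cases h : n = m
    · subst h
      simp
    · have h' : ¬ (m = n) := fun h' => h h'.symm
      simp [h, h']

/-- The operators. -/
noncomputable def M (s : Bool) : H →ₗ.[𝕜] H := (mulGraph b s).toLinearPMap

noncomputable def A (s : Bool) : H →ₗ.[𝕜] H := (conGraph b s).toLinearPMap

theorem M_graph (s : Bool) : (M b s).graph = mulGraph b s :=
  Submodule.toLinearPMap_graph_eq _ (mulGraph_single_valued b s)

theorem A_graph (s : Bool) : (A b s).graph = conGraph b s :=
  Submodule.toLinearPMap_graph_eq _ (fun q hq => mulGraph_single_valued b s q hq.1)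

theorem A_le_M (s : Bool) : A b s ≤ M b s := by
  apply LinearPMap.le_of_le_graph
  rw [M_graph, A_graph]
  exact fun q hq => hq.1

theorem M_isClosed (s : Bool) : (M b s).IsClosed := by
  unfold LinearPMap.IsClosed
  rw [M_graph]
  exact mulGraph_closed b s

theorem A_isClosed (s : Bool) : (A b s).IsClosed := by
  unfold LinearPMap.IsClosed
  rw [A_graph]
  exact conGraph_closed b s

theorem closure_eq_self {E F : Type*} [NormedAddCommGroup E] [NormedSpace 𝕜 E]
    [NormedAddCommGroup F] [NormedSpace 𝕜 F] {f : E →ₗ.[𝕜] F} (hf : f.IsClosed) :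
    f.closure = f := by
  apply LinearPMap.eq_of_eq_graph
  rw [← hf.isClosable.graph_closure_eq_closure_graph]
  exact IsClosed.submodule_topologicalClosure_eq hf

theorem mem_dom_A {s : Bool} {x y : H} (h : (x, y) ∈ conGraph b s) : x ∈ (A b s).domain := by
  refine LinearPMap.mem_domain_of_mem_graph (y := y) ?_
  rw [A_graph]; exact h

variable [CompleteSpace H]

theorem A_dense (s : Bool) : Dense ((A b s).domain : Set H) := by
  rw [Submodule.dense_iff_topologicalClosure_eq_top, Submodule.topologicalClosure_eq_top_iff,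
    Submodule.eq_bot_iff]
  intro h hh
  rw [Submodule.mem_orthogonal] at hh
  have h1 : ∀ t n k, t ≠ s → inner 𝕜 (b (Sum.inr (t, n, k))) h = 0 := fun t n k hts =>
    hh _ (mem_dom_A b (single_mem_conGraph_other b s t hts n k))
  have h2 : ∀ n k, inner 𝕜 (b (Sum.inr (s, n, k))) h = inner 𝕜 (b (Sum.inr (s, n, 0))) h := by
    intro n k
    have := hh _ (mem_dom_A b (diff_mem_conGraph b s n k))
    rwa [inner_sub_left, sub_eq_zero] at this
  have h3 : ∀ n k, inner 𝕜 (b (Sum.inr (s, n, k))) h = 0 := by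
    intro n k
    rw [h2]
    exact coord_const b (g := fun k => Sum.inr (s, n, k)) (by intro i j hij; simpa using hij) _
      (fun k => h2 n k)
  have h4 : ∀ n, inner 𝕜 (b (Sum.inl n)) h = 0 := by
    intro n
    have := hh _ (mem_dom_A b (link_mem_conGraph b s n))
    rw [inner_add_left, inner_smul_left, h3, mul_zero, add_zero] at this
    exact this
  refine ext_coord b (fun i => ?_)
  rw [inner_zero_right]
  rcases i with n | ⟨t, n, k⟩
  · exact h4 n
  · by_cases hts : t = s
    · subst hts; exact h3 n k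
    · exact h1 t n k hts

theorem M_dense (s : Bool) : Dense ((M b s).domain : Set H) :=
  (A_dense b s).mono (A_le_M b s).1

/-- The multiplication operator is self adjoint. -/
theorem M_adjoint (s : Bool) : (M b s)† = M b s := by
  apply LinearPMap.eq_of_eq_graph
  rw [LinearPMap.adjoint_graph_eq_graph_adjoint (M_dense b s), M_graph]
  ext ⟨w, a⟩
  rw [Submodule.mem_adjoint_iff]
  constructor
  · intro h
    rw [mem_mulGraph]
    intro i
    have := h _ _ (single_mem_mulGraph b s i)
    rw [inner_smul_left, RCLike.conj_ofReal, sub_eq_zero] at this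
    exact this.symm
  · intro h x y hxy
    rw [mem_mulGraph] at h hxy
    rw [← b.tsum_inner_mul_inner, ← b.tsum_inner_mul_inner, sub_eq_zero]
    refine tsum_congr (fun i => ?_)
    rw [h i, ← inner_conj_symm y, hxy i, map_mul, RCLike.conj_ofReal, inner_conj_symm]
    ring

theorem neg_M (s : Bool) : -(M b s) = M b (!s) := by
  apply LinearPMap.eq_of_eq_graph
  rw [LinearPMap.neg_graph, M_graph, M_graph]
  ext ⟨x, y⟩
  simp only [Submodule.mem_map, LinearMap.prodMap_apply, LinearMap.id_coe, id, LinearMap.neg_apply,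
    Prod.mk.injEq, Prod.exists, mem_mulGraph]
  constructor
  · rintro ⟨x', y', h, rfl, rfl⟩ i
    rw [inner_neg_right, h i, mul_not]
    push_cast
    ring
  · intro h
    refine ⟨x, -y, fun i => ?_, rfl, by simp⟩
    rw [inner_neg_right, h i, mul_not]
    push_cast
    ring

/-- The range of the multiplication operator is closed. -/
theorem M_range_closed (s : Bool) : IsClosed (Set.range (M b s)) := by
  have : Set.range (M b s) = ⋂ n : ℕ, {g : H | inner 𝕜 (b (Sum.inl n)) g = 0} := by
    ext g
    rw [LinearPMap.mem_range_iff, Set.mem_iInter]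
    constructor
    · rintro ⟨f, hf⟩ n
      rw [M_graph, mem_mulGraph] at hf
      change inner 𝕜 (b (Sum.inl n)) g = 0
      rw [hf (Sum.inl n)]
      simp [mul]
    · intro hg
      let f0 : Idx → 𝕜 := fun i => ((mul s i : ℝ) : 𝕜)⁻¹ * inner 𝕜 (b i) g
      have hf0 : Memℓp f0 2 := by
        apply memℓp_of_summable
        have h1 : Summable (fun i => ‖b.repr g i‖ ^ (2 : ℝ)) := by
          have := (lp.memℓp (b.repr g)).summable (p := 2) (by simp)
          simpa using this
        refine Summable.of_nonneg_of_le (fun i => by positivity) (fun i => ?_) h1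
        refine Real.rpow_le_rpow (norm_nonneg _) ?_ (by norm_num)
        rw [b.repr_apply_apply]
        simp only [f0]
        rw [norm_mul, norm_inv, RCLike.norm_ofReal]
        rcases i with n | i
        · simp [mul]
        · have h2 := one_le_abs_mul s i
          have h3 : |mul s (Sum.inr i)|⁻¹ ≤ 1 := inv_le_one_of_one_le₀ h2
          calc |mul s (Sum.inr i)|⁻¹ * ‖inner 𝕜 (b (Sum.inr i)) g‖
              ≤ 1 * ‖inner 𝕜 (b (Sum.inr i)) g‖ := by gcongr
            _ = _ := one_mul _
      refine ⟨vec b f0 hf0, ?_⟩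
      rw [M_graph, mem_mulGraph]
      intro i
      rw [inner_vec]
      rcases i with n | i
      · have h0 : inner 𝕜 (b (Sum.inl n)) g = 0 := hg n
        rw [h0]; simp [mul]
      · have h1 : mul s (Sum.inr i) ≠ 0 := by
          intro h0
          have := one_le_abs_mul s i
          rw [h0, abs_zero] at this
          linarith
        have h2 : ((mul s (Sum.inr i) : ℝ) : 𝕜) ≠ 0 := by exact_mod_cast h1
        simp only [f0]
        rw [← mul_assoc, mul_inv_cancel₀ h2, one_mul]
  rw [this]
  exact isClosed_iInter (fun n => isClosed_eq (by fun_prop) continuous_const)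

/-- The adjoint of the constrained operator extends the multiplication operator. -/
theorem M_le_adjoint (s : Bool) : M b s ≤ (A b s)† := by
  rw [← M_adjoint b s]
  apply LinearPMap.le_of_le_graph
  rw [LinearPMap.adjoint_graph_eq_graph_adjoint (M_dense b _),
    LinearPMap.adjoint_graph_eq_graph_adjoint (A_dense b _), A_graph, M_graph]
  intro q hq
  rw [Submodule.mem_adjoint_iff] at hq ⊢
  intro x y hxy
  exact hq x y hxy.1

theorem neg_le_neg_pmap {E F : Type*} [NormedAddCommGroup E] [NormedSpace 𝕜 E]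
    [NormedAddCommGroup F] [NormedSpace 𝕜 F] {f g : E →ₗ.[𝕜] F} (h : f ≤ g) : -f ≤ -g := by
  refine ⟨h.1, fun x y hxy => ?_⟩
  rw [LinearPMap.neg_apply, LinearPMap.neg_apply]
  congr 1
  exact h.2 hxy

/-- Formal adjointness of the two constrained operators. -/
theorem A_le_neg_adjoint (s : Bool) : A b s ≤ -(A b (!s))† := by
  refine (A_le_M b s).trans ?_
  have h2 : M b s = -(M b (!s)) := by rw [neg_M, Bool.not_not]
  rw [h2]
  exact neg_le_neg_pmap (M_le_adjoint b (!s))

/-- A closed submodule containing all coordinate parts of a vector contains the vector. -/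
theorem mem_of_coords {R : Submodule 𝕜 H} (hR : IsClosed (R : Set H)) (w : H)
    (h : ∀ i, inner 𝕜 (b i) w • b i ∈ R) : w ∈ R := by
  have hs := b.hasSum_repr w
  have : Tendsto (fun s : Finset Idx => ∑ i ∈ s, b.repr w i • b i) atTop (𝓝 w) := hs
  refine hR.mem_of_tendsto this (Eventually.of_forall (fun s => ?_))
  refine R.sum_mem (fun i _ => ?_)
  rw [b.repr_apply_apply]
  exact h i

theorem range_eq {E F : Type*} [NormedAddCommGroup E] [NormedSpace 𝕜 E]
    [NormedAddCommGroup F] [NormedSpace 𝕜 F] (f : E →ₗ.[𝕜] F) :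
    Set.range f = (LinearMap.range f.toFun : Set F) := by
  ext y
  simp

/-- The range of the constrained operator is not closed. -/
theorem A_range_not_closed (s : Bool) : ¬ IsClosed (Set.range (A b s)) := by
  intro hcl
  rw [range_eq] at hcl
  have hmem : vec b (wfun (𝕜 := 𝕜) s) (wfun_mem s) ∈ LinearMap.range (A b s).toFun := by
    refine mem_of_coords b hcl _ (fun i => ?_)
    rw [inner_vec]
    rcases i with n | ⟨t, n, k⟩
    · simp [wfun]
    · simp only [wfun]
      split_ifs with h
      · obtain ⟨rfl, rfl⟩ := h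
        rw [← SetLike.mem_coe, ← range_eq, LinearPMap.mem_range_iff, A_graph]
        exact ⟨_, link_mem_conGraph b t n⟩
      · simp
  rw [← SetLike.mem_coe, ← range_eq, LinearPMap.mem_range_iff, A_graph] at hmem
  obtain ⟨x, hx⟩ := hmem
  have h1 : ∀ n, inner 𝕜 (b (Sum.inl n)) x = 1 := by
    intro n
    have h2 := ((mem_conGraph b).1 hx).2 n
    have h3 : inner 𝕜 (v b s n) (vec b (wfun (𝕜 := 𝕜) s) (wfun_mem s)) = ((lam n : ℝ) : 𝕜) := by
      rw [← b.tsum_inner_mul_inner, tsum_eq_single (Sum.inr (s, n, 0))]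
      · rw [inner_v_same, inner_vec]
        simp [wfun, lam_zero]
      · intro i hi
        rw [inner_v, inner_vec]
        rcases i with m | ⟨t, m, k⟩
        · simp [wfun]
        · simp only [vfun, wfun]
          by_cases h : t = s ∧ m = n
          · by_cases h' : t = s ∧ k = 0
            · exfalso
              apply hi
              rw [h.1, h.2, h'.2]
            · rw [if_neg h', mul_zero]
          · rw [if_neg h, zero_mul]
    rw [h3] at h2
    have h4 : ((lam n : ℝ) : 𝕜) ≠ 0 := by
      exact_mod_cast (lam_pos n).ne'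
    have h5 : ((lam n : ℝ) : 𝕜) * 1 = ((lam n : ℝ) : 𝕜) * inner 𝕜 (b (Sum.inl n)) x := by
      rw [mul_one]; exact h2
    exact (mul_left_cancel₀ h4 h5).symm
  exact one_ne_zero (coord_const b (g := fun n => Sum.inl n) (by intro i j hij; simpa using hij)
    (1 : 𝕜) h1)

/-- The range of the adjoint of the constrained operator is not closed. -/
theorem A_adjoint_range_not_closed (s : Bool) : ¬ IsClosed (Set.range (A b s)†) := by
  intro hcl
  rw [range_eq] at hcl
  have hgr := LinearPMap.adjoint_graph_eq_graph_adjoint (A_dense b s)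
  rw [A_graph] at hgr
  have hmem : vec b (ufun (𝕜 := 𝕜)) ufun_mem ∈ LinearMap.range (A b s)†.toFun := by
    refine mem_of_coords b hcl _ (fun i => ?_)
    rw [inner_vec]
    rcases i with n | i
    · simp only [ufun]
      rw [← SetLike.mem_coe, ← range_eq, LinearPMap.mem_range_iff, hgr]
      refine ⟨v b s n, ?_⟩
      rw [Submodule.mem_adjoint_iff]
      intro x y hxy
      have h2 := ((mem_conGraph b).1 hxy).2 n
      rw [← inner_conj_symm y, h2, map_mul, RCLike.conj_ofReal, inner_conj_symm,
        inner_smul_right, sub_self]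
    · simp [ufun]
  rw [← SetLike.mem_coe, ← range_eq, LinearPMap.mem_range_iff, hgr] at hmem
  obtain ⟨w, hw⟩ := hmem
  rw [Submodule.mem_adjoint_iff] at hw
  have h1 : ∀ n, inner 𝕜 (b (Sum.inr (s, n, 0))) w = 1 := by
    intro n
    have h2 := hw _ _ (link_mem_conGraph b s n)
    simp only [] at h2
    rw [inner_smul_left, inner_add_left, inner_smul_left, inner_vec, inner_vec,
      RCLike.conj_ofReal] at h2
    simp only [ufun, mul_zero, add_zero] at h2
    rw [sub_eq_zero] at h2
    have h4 : ((lam n : ℝ) : 𝕜) ≠ 0 := by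
      exact_mod_cast (lam_pos n).ne'
    have h5 : ((lam n : ℝ) : 𝕜) * inner 𝕜 (b (Sum.inr (s, n, 0))) w = ((lam n : ℝ) : 𝕜) * 1 := by
      rw [mul_one]; exact h2
    exact mul_left_cancel₀ h4 h5
  exact one_ne_zero (coord_const b (g := fun n => Sum.inr (s, n, 0))
    (by intro i j hij; simpa using hij) (1 : 𝕜) h1)

theorem neg_range {E F : Type*} [NormedAddCommGroup E] [NormedSpace 𝕜 E]
    [NormedAddCommGroup F] [NormedSpace 𝕜 F] (f : E →ₗ.[𝕜] F) :
    Set.range (-f) = Set.range f := by
  ext y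
  constructor
  · rintro ⟨x, rfl⟩
    refine ⟨-x, ?_⟩
    rw [LinearPMap.map_neg]
    rfl
  · rintro ⟨x, rfl⟩
    refine ⟨-x, ?_⟩
    rw [LinearPMap.neg_apply]
    have : f (-x) = -f x := LinearPMap.map_neg f x
    exact neg_eq_iff_eq_neg.2 this

/-- An infinite dimensional separable Hilbert space has a Hilbert basis indexed by `Idx`. -/
theorem exists_basis [TopologicalSpace.SeparableSpace H] (h : ¬ FiniteDimensional 𝕜 H) :
    Nonempty (HilbertBasis Idx 𝕜 H) := by
  obtain ⟨w, b, -⟩ := exists_hilbertBasis 𝕜 H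
  have hcount : Countable w := by
    refine Pairwise.countable_of_isOpen_disjoint (s := fun i : w => Metric.ball (b i) (1 / 2))
      ?_ (fun i => Metric.isOpen_ball) (fun i => ⟨b i, Metric.mem_ball_self (by norm_num)⟩)
    intro i j hij
    refine Metric.ball_disjoint_ball ?_
    have h1 : ‖b i - b j‖ ^ 2 = 2 := by
      rw [@norm_sub_sq 𝕜, b.orthonormal.1 i, b.orthonormal.1 j, b.orthonormal.2 hij]
      norm_num
    rw [dist_eq_norm]
    nlinarith [norm_nonneg (b i - b j)]
  have hinf : Infinite w := by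
    by_contra hfin
    rw [not_infinite_iff_finite] at hfin
    have := Fintype.ofFinite w
    exact h (Module.Basis.finiteDimensional_of_finite b.toOrthonormalBasis.toBasis)
  obtain ⟨e⟩ : Nonempty (Idx ≃ w) := inferInstance
  refine ⟨HilbertBasis.mk (v := fun i => b (e i)) (b.orthonormal.comp e e.injective) ?_⟩
  have : Set.range (fun i => b (e i)) = Set.range b := e.surjective.range_comp b
  rw [this]
  exact b.dense_span.ge

end Pool.Agent.Helper63.ClosedRange
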