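import Mathlib

/-! Strongly continuous contraction semigroups and their generators. -/

namespace Pool.Agent.Helper63.GQ

open Filter Topology

variable {E : Type*} [NormedAddCommGroup E] [NormedSpace ℂ E]

/-- `P`, restricted to `t ≥ 0`, is a strongly continuous semigroup of contractions. -/
structure IsContractionSemigroup (P : ℝ → E →L[ℂ] E) : Prop where
  zero : P 0 = 1
  add : ∀ s t, 0 ≤ s → 0 ≤ t → P (s + t) = P s * P t
  norm_le : ∀ t, 0 ≤ t → ‖P t‖ ≤ 1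
  cont : ∀ x, Tendsto (fun t => P t x) (𝓝[>] 0) (𝓝 x)

/-- The generator of `P` is the operator with graph `Γ`: `(x, y)` lies in `Γ` exactly when
`(P t x - x) / t` converges to `y` as `t` decreases to `0`. -/
def HasGenerator (P : ℝ → E →L[ℂ] E) (Γ : Set (E × E)) : Prop :=
  ∀ x y, (x, y) ∈ Γ ↔ Tendsto (fun t : ℝ => (t : ℂ)⁻¹ • (P t x - x)) (𝓝[>] 0) (𝓝 y)

/-- `P` is analytic: it extends to a holomorphic operator valued function on some open sector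
`|arg z| < θ`, `0 < θ ≤ π / 2`, which is bounded on the part `|z| ≤ 1` of the sector. -/
def IsAnalyticSemigroup (P : ℝ → E →L[ℂ] E) : Prop :=
  ∃ θ : ℝ, 0 < θ ∧ θ ≤ Real.pi / 2 ∧ ∃ F : ℂ → E →L[ℂ] E,
    DifferentiableOn ℂ F {z | z ≠ 0 ∧ |z.arg| < θ} ∧ (∀ t : ℝ, 0 < t → F t = P t) ∧
    ∃ M : ℝ, ∀ z : ℂ, z ≠ 0 → |z.arg| < θ → ‖z‖ ≤ 1 → ‖F z‖ ≤ M

end Pool.Agent.Helper63.GQ
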