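import Mathlib

/-! Exponentials of bounded dissipative operators on a complex Hilbert space. -/

namespace Pool.Agent.Helper63.GQ

open Filter Topology

variable {E : Type*} [NormedAddCommGroup E] [InnerProductSpace ℂ E] [CompleteSpace E]

/-- The exponential of `t A`. -/
noncomputable def ex (A : E →L[ℂ] E) (t : ℝ) : E →L[ℂ] E := NormedSpace.exp ((t : ℂ) • A)

theorem ex_zero (A : E →L[ℂ] E) : ex A 0 = 1 := by simp [ex]

theorem comp_ofReal' {F : Type*} [NormedAddCommGroup F] [NormedSpace ℂ F] {f : ℂ → F} {f' : F}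
    {t : ℝ} (h : HasDerivAt f f' (t : ℂ)) : HasDerivAt (fun s : ℝ => f (s : ℂ)) f' t := by
  have h2 := HasDerivAt.scomp t h (Complex.ofRealCLM.hasDerivAt (x := t))
  rw [Complex.ofRealCLM_apply, Complex.ofReal_one, one_smul] at h2
  exact h2

theorem ex_hasDerivAt (A : E →L[ℂ] E) (t : ℝ) : HasDerivAt (ex A) (ex A t * A) t :=
  comp_ofReal' (hasDerivAt_exp_smul_const (𝕂 := ℂ) A (t : ℂ))

theorem ex_hasDerivAt' (A : E →L[ℂ] E) (t : ℝ) : HasDerivAt (ex A) (A * ex A t) t :=
  comp_ofReal' (hasDerivAt_exp_smul_const' (𝕂 := ℂ) A (t : ℂ))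

theorem ex_comm (A : E →L[ℂ] E) (t : ℝ) : ex A t * A = A * ex A t :=
  (ex_hasDerivAt A t).unique (ex_hasDerivAt' A t)

theorem ex_comm_of_commute {A C : E →L[ℂ] E} (h : Commute A C) (t : ℝ) :
    Commute (ex A t) C := by
  unfold ex
  let _ : NormedAlgebra ℚ (E →L[ℂ] E) := NormedAlgebra.restrictScalars ℚ ℂ _
  exact ((h.symm.smul_right (t : ℂ)).exp_right).symm

theorem hasDerivAt_apply {F : ℝ → E →L[ℂ] E} {F' : E →L[ℂ] E} {t : ℝ} (h : HasDerivAt F F' t)
    (x : E) : HasDerivAt (fun s => F s x) (F' x) t := by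
  have h2 := ((ContinuousLinearMap.apply ℂ E x).restrictScalars ℝ).hasFDerivAt.comp_hasDerivAt t h
  exact h2

theorem ex_apply_hasDerivAt (A : E →L[ℂ] E) (x : E) (t : ℝ) :
    HasDerivAt (fun s => ex A s x) (A (ex A t x)) t :=
  hasDerivAt_apply (ex_hasDerivAt' A t) x

/-- Dissipativity of a bounded operator. -/
def Diss (A : E →L[ℂ] E) : Prop := ∀ x, (inner ℂ x (A x)).re ≤ 0

theorem ex_norm_le {A : E →L[ℂ] E} (hA : Diss A) {t : ℝ} (ht : 0 ≤ t) (x : E) :
    ‖ex A t x‖ ≤ ‖x‖ := by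
  have hd : ∀ s, HasDerivAt (fun s => (inner ℂ (ex A s x) (ex A s x)).re)
      (2 * (inner ℂ (ex A s x) (A (ex A s x))).re) s := by
    intro s
    have h1 := (ex_apply_hasDerivAt A x s).inner ℂ (ex_apply_hasDerivAt A x s)
    have h2 := Complex.reCLM.hasFDerivAt.comp_hasDerivAt s h1
    have h3 : Complex.reCLM (inner ℂ (ex A s x) (A (ex A s x)) +
        inner ℂ (A (ex A s x)) (ex A s x)) = 2 * (inner ℂ (ex A s x) (A (ex A s x))).re := by
      rw [Complex.reCLM_apply, Complex.add_re, ← inner_conj_symm (A (ex A s x)), Complex.conj_re]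
      ring
    rw [h3] at h2
    exact h2
  have hanti : AntitoneOn (fun s => (inner ℂ (ex A s x) (ex A s x)).re) (Set.Icc 0 t) := by
    refine antitoneOn_of_deriv_nonpos (convex_Icc 0 t) ?_ ?_ ?_
    · exact fun s _ => (hd s).continuousAt.continuousWithinAt
    · exact fun s _ => (hd s).differentiableAt.differentiableWithinAt
    · intro s _
      rw [(hd s).deriv]
      have := hA (ex A s x)
      linarith
  have h1 := hanti (Set.left_mem_Icc.2 ht) (Set.right_mem_Icc.2 ht) ht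
  have h2 : ∀ y : E, (inner ℂ y y).re = ‖y‖ ^ 2 := fun y => by
    rw [inner_self_eq_norm_sq_to_K]
    norm_cast
  simp only [h2, ex_zero] at h1
  exact le_of_sq_le_sq h1 (norm_nonneg _)

theorem ex_norm {A : E →L[ℂ] E} (hA : Diss A) {t : ℝ} (ht : 0 ≤ t) : ‖ex A t‖ ≤ 1 :=
  ContinuousLinearMap.opNorm_le_bound _ zero_le_one (fun x => by
    rw [one_mul]; exact ex_norm_le hA ht x)

/-- Comparison of two commuting dissipative exponentials. -/
theorem ex_sub_ex {A C : E →L[ℂ] E} (hA : Diss A) (hC : Diss C) (hAC : Commute A C) {t : ℝ}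
    (ht : 0 ≤ t) (x : E) : ‖ex A t x - ex C t x‖ ≤ t * ‖A x - C x‖ := by
  -- f s = ex A s (ex C (t - s) x)
  have hd : ∀ s, HasDerivAt (fun s => (ex A s * ex C (t - s)) x)
      ((ex A s * ex C (t - s)) (A x - C x)) s := by
    intro s
    have h1 := ex_hasDerivAt' A s
    have h2 : HasDerivAt (fun s => ex C (t - s)) (-(ex C (t - s) * C)) s := by
      have h0 : HasDerivAt (fun s : ℝ => t - s) (-1) s := by
        simpa using (hasDerivAt_id s).const_sub t
      have := HasDerivAt.scomp s (ex_hasDerivAt C (t - s)) h0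
      rw [neg_one_smul] at this
      exact this
    have h3 := hasDerivAt_apply (h1.mul h2) x
    refine h3.congr_deriv ?_
    have hc1 : Commute (ex A s) A := ex_comm_of_commute (Commute.refl A) s
    have hc2 : Commute (ex C (t - s)) A := ex_comm_of_commute hAC.symm _
    have e1 : A * ex A s * ex C (t - s) = ex A s * ex C (t - s) * A := by
      rw [← hc1.eq, mul_assoc, ← hc2.eq, mul_assoc]
    rw [e1, mul_neg, ← mul_assoc, add_apply, neg_apply, map_sub, ← sub_eq_add_neg]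
    rfl
  have hmv := norm_image_sub_le_of_norm_deriv_le_segment' (f := fun s => (ex A s * ex C (t - s)) x)
    (a := 0) (b := t) (C := ‖A x - C x‖)
    (fun s _ => (hd s).hasDerivWithinAt) (fun s hs => ?_) t (Set.right_mem_Icc.2 ht)
  · simp only [sub_self, ex_zero, sub_zero, mul_one, one_mul] at hmv
    rw [mul_comm]
    exact hmv
  · calc ‖(ex A s * ex C (t - s)) (A x - C x)‖ = ‖ex A s (ex C (t - s) (A x - C x))‖ := rfl
      _ ≤ ‖ex C (t - s) (A x - C x)‖ := ex_norm_le hA hs.1 _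
      _ ≤ ‖A x - C x‖ := ex_norm_le hC (by linarith [hs.2]) _

theorem Diss.zero : Diss (0 : E →L[ℂ] E) := fun x => by simp

theorem ex_zero_op (t : ℝ) : ex (0 : E →L[ℂ] E) t = 1 := by simp [ex]

theorem ex_sub_self {A : E →L[ℂ] E} (hA : Diss A) {t : ℝ} (ht : 0 ≤ t) (x : E) :
    ‖ex A t x - x‖ ≤ t * ‖A x‖ := by
  have := ex_sub_ex hA Diss.zero (Commute.zero_right A) ht x
  simpa [ex_zero_op] using this

/-- First order expansion. -/
theorem ex_expand {A : E →L[ℂ] E} (hA : Diss A) {t : ℝ} (ht : 0 ≤ t) (x y : E) :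
    ‖ex A t x - x - (t : ℂ) • A x‖ ≤ (2 * ‖A x - y‖ + t * ‖A y‖) * t := by
  have hd : ∀ s, HasDerivAt (fun s : ℝ => ex A s x - (s : ℂ) • A x) (ex A s (A x) - A x) s := by
    intro s
    have h1 := hasDerivAt_apply (ex_hasDerivAt A s) x
    have h2 : HasDerivAt (fun s : ℝ => (s : ℂ) • A x) (A x) s := by
      have := comp_ofReal' (t := s) ((hasDerivAt_id (s : ℂ)).smul_const (A x))
      simpa using this
    exact h1.sub h2
  have hmv := norm_image_sub_le_of_norm_deriv_le_segment'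
    (f := fun s : ℝ => ex A s x - (s : ℂ) • A x) (a := 0) (b := t)
    (C := 2 * ‖A x - y‖ + t * ‖A y‖)
    (fun s _ => (hd s).hasDerivWithinAt) (fun s hs => ?_) t (Set.right_mem_Icc.2 ht)
  · simp only [ex_zero, Complex.ofReal_zero, zero_smul, sub_zero] at hmv
    have e : ex A t x - (t : ℂ) • A x - (1 : E →L[ℂ] E) x = ex A t x - x - (t : ℂ) • A x := by
      rw [one_apply_eq_self]; abel
    rw [e] at hmv
    exact hmv
  · have e : ex A s (A x) - A x = ex A s (A x - y) + (ex A s y - y) + (y - A x) := by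
      rw [map_sub]; abel
    rw [e]
    have h1 := ex_norm_le hA hs.1 (A x - y)
    have h2 := ex_sub_self hA hs.1 y
    have h3 : s * ‖A y‖ ≤ t * ‖A y‖ := mul_le_mul_of_nonneg_right hs.2.le (norm_nonneg _)
    have h4 : ‖y - A x‖ = ‖A x - y‖ := norm_sub_rev _ _
    calc _ ≤ ‖ex A s (A x - y)‖ + ‖ex A s y - y‖ + ‖y - A x‖ := norm_add₃_le
      _ ≤ _ := by linarith

end Pool.Agent.Helper63.GQ
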