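import Mathlib

/-! A uniformly bounded, strongly holomorphic operator valued function is norm holomorphic. -/

namespace Pool.Agent.Helper63.GQ

open Filter Topology Metric

variable {E : Type*} [NormedAddCommGroup E] [NormedSpace ℂ E] [CompleteSpace E]

theorem strong_to_norm {U : Set ℂ} (hU : IsOpen U) (T : ℂ → E →L[ℂ] E) (M : ℝ)
    (hM : ∀ z ∈ U, ‖T z‖ ≤ M) (hT : ∀ x, DifferentiableOn ℂ (fun z => T z x) U) :
    DifferentiableOn ℂ T U := by
  intro z₀ hz₀
  obtain ⟨R, hR, hRU⟩ := Metric.isOpen_iff.1 hU z₀ hz₀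
  have hM0 : 0 ≤ M := (norm_nonneg _).trans (hM z₀ hz₀)
  set r : ℝ := R / 2 with hr
  have hrpos : 0 < r := by positivity
  have hsub : closedBall z₀ r ⊆ U := (closedBall_subset_ball (by linarith)).trans hRU
  have hsmall : ∀ w ∈ closedBall z₀ r, ball w r ⊆ U := by
    intro w hw z hz
    apply hRU
    rw [mem_ball] at hz ⊢
    rw [mem_closedBall] at hw
    calc dist z z₀ ≤ dist z w + dist w z₀ := dist_triangle _ _ _
      _ < R := by linarith
  have hderiv : ∀ x : E, ∀ w ∈ closedBall z₀ r, ‖deriv (fun z => T z x) w‖ ≤ M * ‖x‖ / (r / 2) := by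
    intro x w hw
    have hcl : closedBall w (r / 2) ⊆ U :=
      (closedBall_subset_ball (by linarith)).trans (hsmall w hw)
    refine Complex.norm_deriv_le_of_forall_mem_sphere_norm_le (by positivity) ?_ ?_
    · exact ((hT x).mono hcl).diffContOnCl_ball (subset_refl _)
    · intro z hz
      have : z ∈ U := hcl (sphere_subset_closedBall hz)
      exact (T z).le_of_opNorm_le (hM z this) x
  have hlip : ∀ x : E, ∀ w ∈ closedBall z₀ r, ∀ w' ∈ closedBall z₀ r,
      ‖T w x - T w' x‖ ≤ M * ‖x‖ / (r / 2) * ‖w - w'‖ := by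
    intro x w hw w' hw'
    refine (convex_closedBall z₀ r).norm_image_sub_le_of_norm_deriv_le (fun z hz => ?_)
      (hderiv x) hw' hw
    exact (hT x).differentiableAt (hU.mem_nhds (hsub hz))
  have hcont : ContinuousOn T (closedBall z₀ r) := by
    have hL : LipschitzOnWith (Real.toNNReal (M / (r / 2))) T (closedBall z₀ r) := by
      refine LipschitzOnWith.of_dist_le_mul (fun w hw w' hw' => ?_)
      rw [Real.coe_toNNReal _ (by positivity), dist_eq_norm, dist_eq_norm]
      refine ContinuousLinearMap.opNorm_le_bound _ (by positivity) (fun x => ?_)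
      have := hlip x w hw w' hw'
      calc ‖(T w - T w') x‖ = ‖T w x - T w' x‖ := rfl
        _ ≤ M * ‖x‖ / (r / 2) * ‖w - w'‖ := this
        _ = M / (r / 2) * ‖w - w'‖ * ‖x‖ := by ring
    exact hL.continuousOn
  have hint : CircleIntegrable T z₀ r :=
    (hcont.mono sphere_subset_closedBall).circleIntegrable hrpos.le
  lift r to NNReal using hrpos.le with r' hr'
  have hpow := hasFPowerSeriesOn_cauchy_integral hint (by exact_mod_cast hrpos)
  have hdiff := hpow.differentiableOn
  have heq : ∀ w ∈ ball z₀ (r' : ℝ), (2 * Real.pi * Complex.I : ℂ)⁻¹ •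
      (∮ z in C(z₀, r'), (z - w)⁻¹ • T z) = T w := by
    intro w hw
    ext x
    have h1 : (∮ z in C(z₀, r'), (z - w)⁻¹ • T z) x = ∮ z in C(z₀, r'), (z - w)⁻¹ • T z x := by
      have hi : IntervalIntegrable
          (fun θ : ℝ => deriv (circleMap z₀ r') θ • (circleMap z₀ r' θ - w)⁻¹ • T (circleMap z₀ r' θ))
          MeasureTheory.volume 0 (2 * Real.pi) := by
        have hc1 : ContinuousOn (fun z : ℂ => (z - w)⁻¹) (sphere z₀ r') := by
          refine ContinuousOn.inv₀ (by fun_prop) (fun z hz h0 => ?_)
          have : z = w := sub_eq_zero.1 h0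
          rw [this, mem_sphere] at hz
          rw [mem_ball] at hw
          linarith
        have : ContinuousOn (fun z => (z - w)⁻¹ • T z) (sphere z₀ r') :=
          hc1.smul (hcont.mono sphere_subset_closedBall)
        exact (this.circleIntegrable hrpos.le).out
      have := ContinuousLinearMap.intervalIntegral_comp_comm (ContinuousLinearMap.apply ℂ E x) hi
      unfold circleIntegral
      exact this.symm
    have h2 := Complex.two_pi_I_inv_smul_circleIntegral_sub_inv_smul_of_differentiable_on_off_countable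
      (f := fun z => T z x) Set.countable_empty hw
      (((hT x).continuousOn).mono hsub) (fun z hz => (hT x).differentiableAt
        (hU.mem_nhds (hsub (ball_subset_closedBall hz.1))))
    change (2 * Real.pi * Complex.I : ℂ)⁻¹ • (∮ z in C(z₀, r'), (z - w)⁻¹ • T z) x = T w x
    rw [h1]
    exact h2
  have hb : Metric.eball z₀ (r' : ENNReal) = ball z₀ r' := by
    exact Metric.eball_coe
  rw [hb] at hdiff
  have hdiff2 : DifferentiableOn ℂ T (ball z₀ r') := hdiff.congr (fun w hw => (heq w hw).symm)
  exact (hdiff2.differentiableAt (isOpen_ball.mem_nhds (mem_ball_self hrpos))).differentiableWithinAt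

end Pool.Agent.Helper63.GQ
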