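import Mathlib
import Pool.Agent.Helper63.GQExp
import Pool.Agent.Helper63.GQHol

/-! Generation of contraction semigroups and their holomorphic extension to a sector from
a numerical range condition, by Yosida approximation. -/

namespace Pool.Agent.Helper63.GQ

open Filter Topology

variable {E : Type*} [NormedAddCommGroup E] [InnerProductSpace ℂ E]

/-- A graph whose numerical range lies in a sector and for which `n + 1 - B` is onto. -/
structure MSect (Γ : Submodule ℂ (E × E)) (k : ℝ) : Prop where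
  hk : 0 ≤ k
  dense : Dense {x : E | ∃ y, (x, y) ∈ Γ}
  sect : ∀ x y, (x, y) ∈ Γ → k * |(inner ℂ x y).im| ≤ -(inner ℂ x y).re
  surj : ∀ n : ℕ, ∀ y : E, ∃ x z, (x, z) ∈ Γ ∧ ((n : ℂ) + 1) • x - z = y

/-- The closed sector. -/
def Sec (k : ℝ) : Set ℂ := {z | 0 ≤ z.re ∧ |z.im| ≤ k * z.re}

variable {Γ : Submodule ℂ (E × E)} {k : ℝ}

theorem MSect.diss (h : MSect Γ k) {x y : E} (hxy : (x, y) ∈ Γ) : (inner ℂ x y).re ≤ 0 := by
  have h1 := h.sect x y hxy
  have h2 : 0 ≤ k * |(inner ℂ x y).im| := mul_nonneg h.hk (abs_nonneg _)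
  linarith

theorem MSect.exists_J (h : MSect Γ k) (n : ℕ) (y : E) :
    ∃ x, (x, ((n : ℂ) + 1) • (x - y)) ∈ Γ := by
  obtain ⟨x, z, hx, hz⟩ := h.surj n (((n : ℂ) + 1) • y)
  refine ⟨x, ?_⟩
  have : z = ((n : ℂ) + 1) • (x - y) := by rw [smul_sub, ← hz]; abel
  rw [← this]; exact hx

theorem MSect.J_unique (h : MSect Γ k) (n : ℕ) {x x' y : E}
    (hx : (x, ((n : ℂ) + 1) • (x - y)) ∈ Γ) (hx' : (x', ((n : ℂ) + 1) • (x' - y)) ∈ Γ) :
    x = x' := by
  have h1 := Γ.sub_mem hx hx'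
  have h2 : (x, ((n : ℂ) + 1) • (x - y)) - (x', ((n : ℂ) + 1) • (x' - y)) =
      (x - x', ((n : ℂ) + 1) • (x - x')) := by
    rw [Prod.mk_sub_mk, ← smul_sub]
    congr 2
    abel
  rw [h2] at h1
  have h3 := h.diss h1
  rw [inner_smul_right, inner_self_eq_norm_sq_to_K] at h3
  have h4 : (((n : ℂ) + 1) * ((‖x - x'‖ : ℂ)) ^ 2).re = ((n : ℝ) + 1) * ‖x - x'‖ ^ 2 := by
    have : (((n : ℂ) + 1) * ((‖x - x'‖ : ℂ)) ^ 2) = ((((n : ℝ) + 1) * ‖x - x'‖ ^ 2 : ℝ) : ℂ) := by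
      push_cast; ring
    rw [this, Complex.ofReal_re]
  have h5 : ((n : ℝ) + 1) * ‖x - x'‖ ^ 2 ≤ 0 := by rw [← h4]; exact h3
  have h6 : ‖x - x'‖ ^ 2 = 0 := by
    have : (0 : ℝ) ≤ ‖x - x'‖ ^ 2 := by positivity
    nlinarith [(Nat.cast_nonneg n : (0 : ℝ) ≤ n)]
  have h7 : ‖x - x'‖ = 0 := by simpa using h6
  exact sub_eq_zero.1 (norm_eq_zero.1 h7)

/-- The resolvent function. -/
noncomputable def MSect.Jf (h : MSect Γ k) (n : ℕ) (y : E) : E := (h.exists_J n y).choose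

theorem MSect.Jf_mem (h : MSect Γ k) (n : ℕ) (y : E) :
    (h.Jf n y, ((n : ℂ) + 1) • (h.Jf n y - y)) ∈ Γ := (h.exists_J n y).choose_spec

theorem MSect.Jf_eq (h : MSect Γ k) (n : ℕ) {x y : E}
    (hx : (x, ((n : ℂ) + 1) • (x - y)) ∈ Γ) : h.Jf n y = x :=
  h.J_unique n (h.Jf_mem n y) hx

theorem MSect.Jf_norm (h : MSect Γ k) (n : ℕ) (y : E) : ‖h.Jf n y‖ ≤ ‖y‖ := by
  set x := h.Jf n y with hx
  have h1 := h.diss (h.Jf_mem n y)
  rw [← hx, inner_smul_right, inner_sub_right, inner_self_eq_norm_sq_to_K] at h1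
  have h2 : (((n : ℂ) + 1) * (((‖x‖ : ℂ)) ^ 2 - inner ℂ x y)).re =
      ((n : ℝ) + 1) * (‖x‖ ^ 2 - (inner ℂ x y).re) := by
    have : (((n : ℂ) + 1)) = (((n : ℝ) + 1 : ℝ) : ℂ) := by push_cast; ring
    rw [this, Complex.re_ofReal_mul, Complex.sub_re]
    congr 2
    have : ((‖x‖ : ℂ)) ^ 2 = ((‖x‖ ^ 2 : ℝ) : ℂ) := by push_cast; ring
    rw [this, Complex.ofReal_re]
  have h3 : ((n : ℝ) + 1) * (‖x‖ ^ 2 - (inner ℂ x y).re) ≤ 0 := by rw [← h2]; exact h1
  have h4 : ‖x‖ ^ 2 ≤ (inner ℂ x y).re := by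
    by_contra hcon
    push Not at hcon
    have : 0 < ((n : ℝ) + 1) * (‖x‖ ^ 2 - (inner ℂ x y).re) := by
      apply mul_pos
      · positivity
      · linarith
    linarith
  have h5 : (inner ℂ x y).re ≤ ‖x‖ * ‖y‖ :=
    (Complex.re_le_norm _).trans (norm_inner_le_norm x y)
  rcases (norm_nonneg x).eq_or_lt with h0 | h0
  · rw [← h0]; exact norm_nonneg y
  · nlinarith

/-- The resolvent `(n+1) (n + 1 - B)⁻¹`. -/
noncomputable def MSect.J (h : MSect Γ k) (n : ℕ) : E →L[ℂ] E :=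
  LinearMap.mkContinuous
    { toFun := h.Jf n
      map_add' := by
        intro y z
        refine h.Jf_eq n ?_
        have := Γ.add_mem (h.Jf_mem n y) (h.Jf_mem n z)
        rw [Prod.mk_add_mk, ← smul_add] at this
        convert this using 3
        abel
      map_smul' := by
        intro c y
        refine h.Jf_eq n ?_
        have := Γ.smul_mem c (h.Jf_mem n y)
        rw [Prod.smul_mk, smul_comm c, smul_sub c] at this
        exact this } 1 (by
      intro y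
      rw [one_mul]
      exact h.Jf_norm n y)

theorem MSect.J_apply (h : MSect Γ k) (n : ℕ) (y : E) : h.J n y = h.Jf n y := rfl

theorem MSect.J_mem (h : MSect Γ k) (n : ℕ) (y : E) :
    (h.J n y, ((n : ℂ) + 1) • (h.J n y - y)) ∈ Γ := h.Jf_mem n y

theorem MSect.J_eq (h : MSect Γ k) (n : ℕ) {x y : E}
    (hx : (x, ((n : ℂ) + 1) • (x - y)) ∈ Γ) : h.J n y = x := h.Jf_eq n hx

theorem MSect.J_norm (h : MSect Γ k) (n : ℕ) (y : E) : ‖h.J n y‖ ≤ ‖y‖ := h.Jf_norm n y

theorem natCast_add_one_ne (n : ℕ) : ((n : ℂ) + 1) ≠ 0 := by exact_mod_cast Nat.succ_ne_zero n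

/-- The Yosida approximation. -/
noncomputable def MSect.B (h : MSect Γ k) (n : ℕ) : E →L[ℂ] E := ((n : ℂ) + 1) • (h.J n - 1)

theorem MSect.B_apply (h : MSect Γ k) (n : ℕ) (y : E) :
    h.B n y = ((n : ℂ) + 1) • (h.J n y - y) := by
  simp [MSect.B]

theorem MSect.B_mem (h : MSect Γ k) (n : ℕ) (y : E) : (h.J n y, h.B n y) ∈ Γ := by
  rw [h.B_apply]; exact h.J_mem n y

/-- On the domain, `B_n x = J_n B x`. -/
theorem MSect.B_eq_J (h : MSect Γ k) (n : ℕ) {x y : E} (hxy : (x, y) ∈ Γ) :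
    h.B n x = h.J n y := by
  -- J_n x = x + (1/(n+1)) J_n y
  have h1 : h.J n x = x + ((n : ℂ) + 1)⁻¹ • h.J n y := by
    apply h.J_eq
    have h2 := Γ.add_mem hxy (Γ.smul_mem (((n : ℂ) + 1)⁻¹) (h.J_mem n y))
    rw [Prod.smul_mk, Prod.mk_add_mk, smul_smul, inv_mul_cancel₀ (natCast_add_one_ne n),
      one_smul] at h2
    convert h2 using 2
    rw [add_sub_cancel_left, smul_smul, mul_inv_cancel₀ (natCast_add_one_ne n), one_smul]
    abel
  rw [h.B_apply, h1, add_sub_cancel_left, smul_smul, mul_inv_cancel₀ (natCast_add_one_ne n),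
    one_smul]

theorem MSect.J_comm (h : MSect Γ k) (n m : ℕ) (y : E) : h.J m (h.J n y) = h.J n (h.J m y) := by
  symm
  apply h.J_eq
  -- (J_m J_n y, (n+1)(J_m J_n y - J_m y)) = J_m applied to the graph pair
  have key : ∀ (x z : E), (x, z) ∈ Γ → (h.J m x, h.J m z) ∈ Γ := by
    intro x z hxz
    have h1 := h.B_eq_J m hxz
    rw [← h1]
    exact h.B_mem m x
  have h2 := key _ _ (h.J_mem n y)
  rw [map_smul, map_sub] at h2
  exact h2

/-- Numerical range of the approximations. -/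
theorem MSect.B_sect (h : MSect Γ k) (n : ℕ) (x : E) :
    k * |(inner ℂ x (h.B n x)).im| ≤ -(inner ℂ x (h.B n x)).re := by
  set v := h.J n x with hv
  have h1 : inner ℂ x (h.B n x) = inner ℂ v (h.B n x) - ((((n : ℝ) + 1) * ‖x - v‖ ^ 2 : ℝ) : ℂ) := by
    have h2 : inner ℂ x (h.B n x) = inner ℂ v (h.B n x) + inner ℂ (x - v) (h.B n x) := by
      rw [← inner_add_left]; congr 1; abel
    have h5 : h.B n x = -(((n : ℂ) + 1) • (x - v)) := by
      rw [h.B_apply, ← hv, ← smul_neg, neg_sub]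
    have h6 : inner ℂ (x - v) (h.B n x) = -((((n : ℝ) + 1) * ‖x - v‖ ^ 2 : ℝ) : ℂ) := by
      rw [h5, inner_neg_right, inner_smul_right, inner_self_eq_norm_sq_to_K]
      push_cast
      simp
    rw [h2, h6]; ring
  have h3 := h.sect _ _ (h.B_mem n x)
  rw [← hv] at h3
  have h4 : (0 : ℝ) ≤ ((n : ℝ) + 1) * ‖x - v‖ ^ 2 := by positivity
  rw [h1, Complex.sub_im, Complex.sub_re, Complex.ofReal_im, Complex.ofReal_re, sub_zero]
  linarith

theorem sec_mul_re {z w : ℂ} (hz : z ∈ Sec k) (hw : k * |w.im| ≤ -w.re) :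
    (z * w).re ≤ 0 := by
  rw [Complex.mul_re]
  obtain ⟨h1, h2⟩ := hz
  have h3 : -(z.im * w.im) ≤ |z.im| * |w.im| := by
    rw [← abs_mul]; exact neg_le_abs _
  have h4 : |z.im| * |w.im| ≤ (k * z.re) * |w.im| := mul_le_mul_of_nonneg_right h2 (abs_nonneg _)
  have h5 : z.re * (k * |w.im|) ≤ z.re * (-w.re) := mul_le_mul_of_nonneg_left hw h1
  nlinarith

theorem MSect.B_tendsto (h : MSect Γ k) {x y : E} (hxy : (x, y) ∈ Γ) :
    Tendsto (fun n => h.B n x) atTop (𝓝 y) := by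
  -- J_n y → y
  have hJ : ∀ w : E, Tendsto (fun n => h.J n w) atTop (𝓝 w) := by
    intro w
    rw [Metric.tendsto_atTop]
    intro ε hε
    obtain ⟨u, hu, hwu⟩ := h.dense.exists_dist_lt w (show (0 : ℝ) < ε / 3 by positivity)
    obtain ⟨u', hu'⟩ := hu
    obtain ⟨N, hN⟩ := exists_nat_gt (‖u'‖ / (ε / 3))
    refine ⟨N, fun n hn => ?_⟩
    have h1 : ‖h.J n u - u‖ ≤ ‖u'‖ / ((n : ℝ) + 1) := by
      have h2 := h.B_eq_J n hu'
      rw [h.B_apply] at h2
      have h3 : h.J n u - u = ((n : ℂ) + 1)⁻¹ • h.J n u' := by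
        rw [← h2, smul_smul, inv_mul_cancel₀ (natCast_add_one_ne n), one_smul]
      rw [h3, norm_smul, norm_inv]
      have h4 : ‖((n : ℂ) + 1)‖ = (n : ℝ) + 1 := by
        have : ((n : ℂ) + 1) = (((n : ℝ) + 1 : ℝ) : ℂ) := by push_cast; ring
        rw [this, Complex.norm_real, Real.norm_of_nonneg (by positivity)]
      rw [h4, div_eq_inv_mul]
      gcongr
      exact h.J_norm n u'
    have h5 : ‖u'‖ / ((n : ℝ) + 1) < ε / 3 := by
      rw [div_lt_iff₀ (by positivity)]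
      rw [div_lt_iff₀ (by positivity)] at hN
      have : (N : ℝ) ≤ n := by exact_mod_cast hn
      nlinarith
    have h6 : h.J n w - w = h.J n (w - u) + (h.J n u - u) + (u - w) := by
      rw [map_sub]; abel
    rw [dist_eq_norm, h6]
    rw [dist_eq_norm] at hwu
    have h7 := h.J_norm n (w - u)
    have h8 : ‖u - w‖ = ‖w - u‖ := norm_sub_rev _ _
    calc ‖h.J n (w - u) + (h.J n u - u) + (u - w)‖
        ≤ ‖h.J n (w - u)‖ + ‖h.J n u - u‖ + ‖u - w‖ := norm_add₃_le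
      _ < ε := by linarith
  have : (fun n => h.B n x) = fun n => h.J n y := by
    funext n
    exact h.B_eq_J n hxy
  rw [this]
  exact hJ y

theorem MSect.J_comm' (h : MSect Γ k) (n m : ℕ) : Commute (h.J n) (h.J m) := by
  ext y
  exact h.J_comm m n y

theorem MSect.B_comm (h : MSect Γ k) (n m : ℕ) : Commute (h.B n) (h.B m) := by
  unfold MSect.B
  refine Commute.smul_left (Commute.smul_right ?_ _) _
  exact ((h.J_comm' n m).sub_left (Commute.one_left _)).sub_right (Commute.one_right _)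

theorem MSect.diss_smul (h : MSect Γ k) (n : ℕ) {z : ℂ} (hz : z ∈ Sec k) : Diss (z • h.B n) := by
  intro x
  rw [smul_apply, inner_smul_right]
  exact sec_mul_re hz (h.B_sect n x) 

theorem Sec.zero_mem : (0 : ℂ) ∈ Sec k := by simp [Sec]

theorem Sec.add_mem {z w : ℂ} (hz : z ∈ Sec k) (hw : w ∈ Sec k) : z + w ∈ Sec k := by
  refine ⟨?_, ?_⟩
  · rw [Complex.add_re]; linarith [hz.1, hw.1]
  · rw [Complex.add_re, Complex.add_im]
    have := abs_add_le z.im w.im
    have h1 := hz.2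
    have h2 := hw.2
    linarith

theorem Sec.real_mem (hk : 0 ≤ k) {t : ℝ} (ht : 0 ≤ t) : (t : ℂ) ∈ Sec k := by
  refine ⟨by simpa using ht, ?_⟩
  simp only [Complex.ofReal_im, abs_zero, Complex.ofReal_re]
  positivity

variable [CompleteSpace E]

/-- The approximating exponentials. -/
noncomputable def MSect.F (h : MSect Γ k) (n : ℕ) (z : ℂ) : E →L[ℂ] E := ex (z • h.B n) 1

theorem MSect.F_norm (h : MSect Γ k) (n : ℕ) {z : ℂ} (hz : z ∈ Sec k) (x : E) :
    ‖h.F n z x‖ ≤ ‖x‖ := ex_norm_le (h.diss_smul n hz) zero_le_one x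

theorem MSect.F_sub (h : MSect Γ k) (n m : ℕ) {z : ℂ} (hz : z ∈ Sec k) (x : E) :
    ‖h.F n z x - h.F m z x‖ ≤ ‖z‖ * ‖h.B n x - h.B m x‖ := by
  have hc : Commute (z • h.B n) (z • h.B m) := ((h.B_comm n m).smul_left z).smul_right z
  have := ex_sub_ex (h.diss_smul n hz) (h.diss_smul m hz) hc zero_le_one x
  rw [smul_apply, smul_apply, ← smul_sub, norm_smul, one_mul] at this
  exact this

theorem MSect.F_zero (h : MSect Γ k) (n : ℕ) : h.F n 0 = 1 := by
  simp [MSect.F, ex]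

theorem MSect.F_add (h : MSect Γ k) (n : ℕ) (z w : ℂ) : h.F n (z + w) = h.F n z * h.F n w := by
  unfold MSect.F ex
  let _ : NormedAlgebra ℚ (E →L[ℂ] E) := NormedAlgebra.restrictScalars ℚ ℂ _
  rw [add_smul, smul_add]
  have hc : Commute (((1 : ℝ) : ℂ) • z • h.B n) (((1 : ℝ) : ℂ) • w • h.B n) :=
    ((((Commute.refl (h.B n)).smul_left z).smul_right w).smul_left _).smul_right _
  exact NormedSpace.exp_add_of_commute hc

theorem MSect.F_differentiable (h : MSect Γ k) (n : ℕ) : Differentiable ℂ (h.F n) := by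
  have : h.F n = fun z => NormedSpace.exp (z • h.B n) := by
    funext z
    simp [MSect.F, ex]
  rw [this]
  exact fun z => (hasDerivAt_exp_smul_const (𝕂 := ℂ) (h.B n) z).differentiableAt

theorem MSect.F_cauchy (h : MSect Γ k) {z : ℂ} (hz : z ∈ Sec k) (x : E) :
    ∃ y, Tendsto (fun n => h.F n z x) atTop (𝓝 y) := by
  apply cauchySeq_tendsto_of_complete
  rw [Metric.cauchySeq_iff]
  intro ε hε
  obtain ⟨u, ⟨u', hu⟩, hxu⟩ := h.dense.exists_dist_lt x (show (0 : ℝ) < ε / 3 by positivity)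
  have hB := (h.B_tendsto hu).cauchySeq
  rw [Metric.cauchySeq_iff] at hB
  obtain ⟨N, hN⟩ := hB (ε / 3 / (‖z‖ + 1)) (by positivity)
  refine ⟨N, fun m hm n hn => ?_⟩
  have h1 := hN m hm n hn
  rw [dist_eq_norm] at h1 hxu ⊢
  have h2 := h.F_sub m n hz u
  have h3 : ‖z‖ * ‖h.B m u - h.B n u‖ ≤ ε / 3 := by
    have h4 : ‖h.B m u - h.B n u‖ * (‖z‖ + 1) ≤ ε / 3 := by
      rw [lt_div_iff₀ (by positivity)] at h1
      exact h1.le
    nlinarith [norm_nonneg z, norm_nonneg (h.B m u - h.B n u)]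
  have h5 : h.F m z x - h.F n z x = h.F m z (x - u) + (h.F m z u - h.F n z u) +
      h.F n z (u - x) := by
    rw [map_sub, map_sub]; abel
  have h6 := h.F_norm m hz (x - u)
  have h7 := h.F_norm n hz (u - x)
  rw [norm_sub_rev u x] at h7
  rw [h5]
  calc _ ≤ ‖h.F m z (x - u)‖ + ‖h.F m z u - h.F n z u‖ + ‖h.F n z (u - x)‖ := norm_add₃_le
    _ < ε := by linarith

open scoped Classical in
/-- The limit operators. -/
noncomputable def MSect.T (h : MSect Γ k) (z : ℂ) : E →L[ℂ] E :=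
  if hz : z ∈ Sec k then
    continuousLinearMapOfTendsto (fun n => h.F n z) (f := fun x => (h.F_cauchy hz x).choose)
      (tendsto_pi_nhds.2 (fun x => (h.F_cauchy hz x).choose_spec))
  else 0

theorem MSect.T_tendsto (h : MSect Γ k) {z : ℂ} (hz : z ∈ Sec k) (x : E) :
    Tendsto (fun n => h.F n z x) atTop (𝓝 (h.T z x)) := by
  have : h.T z x = (h.F_cauchy hz x).choose := by
    unfold MSect.T
    rw [dif_pos hz]
    rfl
  rw [this]
  exact (h.F_cauchy hz x).choose_spec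

theorem MSect.T_norm_le (h : MSect Γ k) {z : ℂ} (hz : z ∈ Sec k) (x : E) : ‖h.T z x‖ ≤ ‖x‖ :=
  le_of_tendsto' (h.T_tendsto hz x).norm (fun n => h.F_norm n hz x)

theorem MSect.T_norm (h : MSect Γ k) {z : ℂ} (hz : z ∈ Sec k) : ‖h.T z‖ ≤ 1 :=
  ContinuousLinearMap.opNorm_le_bound _ zero_le_one (fun x => by
    rw [one_mul]; exact h.T_norm_le hz x)

theorem MSect.T_zero (h : MSect Γ k) : h.T 0 = 1 := by
  ext x
  refine tendsto_nhds_unique (h.T_tendsto Sec.zero_mem x) ?_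
  simp only [h.F_zero]
  exact tendsto_const_nhds

theorem MSect.T_add (h : MSect Γ k) {z w : ℂ} (hz : z ∈ Sec k) (hw : w ∈ Sec k) :
    h.T (z + w) = h.T z * h.T w := by
  ext x
  refine tendsto_nhds_unique (h.T_tendsto (Sec.add_mem hz hw) x) ?_
  simp only [h.F_add]
  have h1 := h.T_tendsto hz (h.T w x)
  have h2 : Tendsto (fun n => h.F n z (h.F n w x - h.T w x)) atTop (𝓝 0) := by
    have h3 : Tendsto (fun n => ‖h.F n w x - h.T w x‖) atTop (𝓝 0) := by
      have := ((h.T_tendsto hw x).sub_const (h.T w x)).norm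
      simpa using this
    exact squeeze_zero_norm (fun n => h.F_norm n hz _) h3
  have h4 := h1.add h2
  rw [add_zero] at h4
  refine h4.congr (fun n => ?_)
  rw [map_sub]
  change _ = h.F n z (h.F n w x)
  abel

theorem MSect.F_sub_T (h : MSect Γ k) (n : ℕ) {z : ℂ} (hz : z ∈ Sec k) {x y : E}
    (hxy : (x, y) ∈ Γ) : ‖h.F n z x - h.T z x‖ ≤ ‖z‖ * ‖h.B n x - y‖ := by
  have h1 : Tendsto (fun m => ‖h.F n z x - h.F m z x‖) atTop (𝓝 ‖h.F n z x - h.T z x‖) :=
    ((h.T_tendsto hz x).const_sub _).norm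
  have h2 : Tendsto (fun m => ‖z‖ * ‖h.B n x - h.B m x‖) atTop (𝓝 (‖z‖ * ‖h.B n x - y‖)) :=
    ((h.B_tendsto hxy).const_sub _).norm.const_mul _
  exact le_of_tendsto_of_tendsto' h1 h2 (fun m => h.F_sub n m hz x)

/-- Strong holomorphy in the open sector. -/
theorem MSect.T_strong (h : MSect Γ k) {U : Set ℂ} (hU : IsOpen U) (hUS : U ⊆ Sec k) (x : E) :
    DifferentiableOn ℂ (fun z => h.T z x) U := by
  have hlim : TendstoLocallyUniformlyOn (fun n z => h.F n z x) (fun z => h.T z x) atTop U := by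
    rw [Metric.tendstoLocallyUniformlyOn_iff]
    intro ε hε z hz
    obtain ⟨u, ⟨u', hu⟩, hxu⟩ := h.dense.exists_dist_lt x (show (0 : ℝ) < ε / 3 by positivity)
    refine ⟨U ∩ Metric.ball z 1, ?_, ?_⟩
    · exact inter_mem_nhdsWithin _ (Metric.ball_mem_nhds z one_pos)
    · have hB : Tendsto (fun n => ‖h.B n u - u'‖) atTop (𝓝 0) := by
        have := ((h.B_tendsto hu).sub_const u').norm
        simpa using this
      have hB2 := hB.eventually (gt_mem_nhds (show (0 : ℝ) < ε / 3 / (‖z‖ + 1) by positivity))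
      filter_upwards [hB2] with n hn w hw
      rw [dist_comm, dist_eq_norm]
      rw [dist_eq_norm] at hxu
      have hwS : w ∈ Sec k := hUS hw.1
      have hwn : ‖w‖ ≤ ‖z‖ + 1 := by
        have h1 : ‖w‖ ≤ ‖z‖ + ‖w - z‖ := by
          have := norm_add_le z (w - z)
          simpa using this
        have h2 : ‖w - z‖ < 1 := by simpa [dist_eq_norm] using hw.2
        linarith
      have h2 := h.F_sub_T n hwS hu
      have h3 : ‖w‖ * ‖h.B n u - u'‖ < ε / 3 := by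
        rw [lt_div_iff₀ (by positivity)] at hn
        calc ‖w‖ * ‖h.B n u - u'‖ ≤ (‖z‖ + 1) * ‖h.B n u - u'‖ := by gcongr
          _ < ε / 3 := by rw [mul_comm]; exact hn
      have h5 : h.F n w x - h.T w x = h.F n w (x - u) + (h.F n w u - h.T w u) +
          h.T w (u - x) := by
        rw [map_sub, map_sub]; abel
      have h6 := h.F_norm n hwS (x - u)
      have h7 := h.T_norm_le hwS (u - x)
      rw [norm_sub_rev u x] at h7
      rw [h5]
      calc _ ≤ ‖h.F n w (x - u)‖ + ‖h.F n w u - h.T w u‖ + ‖h.T w (u - x)‖ := norm_add₃_le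
        _ < ε := by linarith
  refine hlim.differentiableOn (Eventually.of_forall (fun n => ?_)) hU
  intro z _
  have := (h.F_differentiable n z).hasDerivAt
  have h2 := ((ContinuousLinearMap.apply ℂ E x)).hasFDerivAt.comp_hasDerivAt z this
  exact h2.differentiableAt.differentiableWithinAt

theorem MSect.T_hol (h : MSect Γ k) {U : Set ℂ} (hU : IsOpen U) (hUS : U ⊆ Sec k) :
    DifferentiableOn ℂ h.T U :=
  strong_to_norm hU h.T 1 (fun _ hz => h.T_norm (hUS hz)) (h.T_strong hU hUS)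

/-- First order expansion of the semigroup on the domain. -/
theorem MSect.T_expand (h : MSect Γ k) {t : ℝ} (ht : 0 ≤ t) {x y u w : E} (hxy : (x, y) ∈ Γ)
    (huw : (u, w) ∈ Γ) : ‖h.T t x - x - (t : ℂ) • y‖ ≤ (2 * ‖y - u‖ + t * ‖w‖) * t := by
  have hS : (t : ℂ) ∈ Sec k := Sec.real_mem h.hk ht
  have h1S : (1 : ℂ) ∈ Sec k := by
    have := Sec.real_mem h.hk zero_le_one
    simpa using this
  have h1 : Tendsto (fun n => ‖h.F n t x - x - (t : ℂ) • h.B n x‖) atTop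
      (𝓝 ‖h.T t x - x - (t : ℂ) • y‖) :=
    (((h.T_tendsto hS x).sub_const x).sub ((h.B_tendsto hxy).const_smul _)).norm
  have h2 : Tendsto (fun n => (2 * ‖h.B n x - u‖ + t * ‖h.B n u‖) * t) atTop
      (𝓝 ((2 * ‖y - u‖ + t * ‖w‖) * t)) :=
    ((((h.B_tendsto hxy).sub_const u).norm.const_mul 2).add
      ((h.B_tendsto huw).norm.const_mul t)).mul_const t
  refine le_of_tendsto_of_tendsto' h1 h2 (fun n => ?_)
  have hd : Diss (h.B n) := by
    have := h.diss_smul n h1S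
    simpa using this
  have h3 := ex_expand hd ht x u
  have h4 : h.F n t = ex (h.B n) t := by
    simp [MSect.F, ex]
  rw [h4]
  exact h3

theorem MSect.T_sub_self (h : MSect Γ k) {t : ℝ} (ht : 0 ≤ t) {x y : E} (hxy : (x, y) ∈ Γ) :
    ‖h.T t x - x‖ ≤ t * ‖y‖ := by
  have hS : (t : ℂ) ∈ Sec k := Sec.real_mem h.hk ht
  have h1 : Tendsto (fun n => ‖h.F n t x - x‖) atTop (𝓝 ‖h.T t x - x‖) :=
    ((h.T_tendsto hS x).sub_const x).norm
  have h2 : Tendsto (fun n => ‖(t : ℂ)‖ * ‖h.B n x‖) atTop (𝓝 (‖(t : ℂ)‖ * ‖y‖)) :=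
    (h.B_tendsto hxy).norm.const_mul _
  have h3 : ‖(t : ℂ)‖ = t := by rw [Complex.norm_real, Real.norm_of_nonneg ht]
  rw [h3] at h2
  refine le_of_tendsto_of_tendsto' h1 h2 (fun n => ?_)
  have := ex_sub_self (h.diss_smul n hS) zero_le_one x
  rw [smul_apply, norm_smul, h3, one_mul] at this
  exact this

end Pool.Agent.Helper63.GQ
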