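import Mathlib
import Pool.Agent.Helper63.GQYosida
import Pool.Agent.Helper63.GQSemi

/-! Existence and uniqueness of the semigroup generated by a maximal dissipative graph. -/

namespace Pool.Agent.Helper63.GQ

open Filter Topology

section basic

variable {E : Type*} [NormedAddCommGroup E] [NormedSpace ℂ E] {P : ℝ → E →L[ℂ] E}

theorem IsContractionSemigroup.norm_apply (hP : IsContractionSemigroup P) {t : ℝ} (ht : 0 ≤ t)
    (x : E) : ‖P t x‖ ≤ ‖x‖ := by
  have := (P t).le_of_opNorm_le (hP.norm_le t ht) x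
  rwa [one_mul] at this

theorem IsContractionSemigroup.sub_le (hP : IsContractionSemigroup P) {s r : ℝ} (hs : 0 ≤ s)
    (hsr : s ≤ r) (x : E) : ‖P r x - P s x‖ ≤ ‖P (r - s) x - x‖ := by
  have h1 : P r = P s * P (r - s) := by
    rw [← hP.add s (r - s) hs (by linarith)]
    congr 1; ring
  have h2 : P r x - P s x = P s (P (r - s) x - x) := by
    rw [h1, map_sub]; rfl
  rw [h2]
  exact hP.norm_apply hs _

theorem IsContractionSemigroup.small (hP : IsContractionSemigroup P) (x : E) {ε : ℝ}
    (hε : 0 < ε) : ∃ δ > 0, ∀ t, 0 ≤ t → t < δ → ‖P t x - x‖ < ε := by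
  have h := hP.cont x
  rw [Metric.tendsto_nhdsWithin_nhds] at h
  obtain ⟨δ, hδ, hδ2⟩ := h ε hε
  refine ⟨δ, hδ, fun t ht htd => ?_⟩
  rcases ht.eq_or_lt with h0 | h0
  · rw [← h0, hP.zero]
    simpa using hε
  · have := hδ2 (x := t) h0 (by rw [Real.dist_eq, sub_zero, abs_of_pos h0]; exact htd)
    rwa [dist_eq_norm] at this

theorem IsContractionSemigroup.continuousOn (hP : IsContractionSemigroup P) (x : E) :
    ContinuousOn (fun t => P t x) (Set.Ici 0) := by
  rw [Metric.continuousOn_iff]
  intro t ht ε hε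
  obtain ⟨δ, hδ, hδ2⟩ := hP.small x hε
  refine ⟨δ, hδ, fun s hs hst => ?_⟩
  rw [Real.dist_eq] at hst
  rw [dist_eq_norm]
  rcases le_total s t with h | h
  · rw [norm_sub_rev]
    refine (hP.sub_le hs h x).trans_lt (hδ2 _ (by linarith) ?_)
    rw [abs_sub_comm, abs_of_nonneg (by linarith)] at hst
    exact hst
  · refine (hP.sub_le ht h x).trans_lt (hδ2 _ (by linarith) ?_)
    rwa [abs_of_nonneg (by linarith)] at hst

/-- Right derivative of the orbit. -/
theorem IsContractionSemigroup.right_deriv (hP : IsContractionSemigroup P) {x y : E}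
    (hxy : Tendsto (fun t : ℝ => (t : ℂ)⁻¹ • (P t x - x)) (𝓝[>] 0) (𝓝 y)) {s : ℝ} (hs : 0 ≤ s) :
    HasDerivWithinAt (fun t => P t x) (P s y) (Set.Ici s) s := by
  rw [← hasDerivWithinAt_Ioi_iff_Ici, hasDerivWithinAt_iff_tendsto_slope' (by simp)]
  have h1 : Tendsto (fun t : ℝ => t - s) (𝓝[>] s) (𝓝[>] 0) := by
    refine tendsto_nhdsWithin_iff.2 ⟨?_, ?_⟩
    · have : Tendsto (fun t : ℝ => t - s) (𝓝 s) (𝓝 (s - s)) := by
        exact (continuous_id.sub continuous_const).tendsto s
      rw [sub_self] at this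
      exact this.mono_left nhdsWithin_le_nhds
    · filter_upwards [self_mem_nhdsWithin] with t ht
      simpa using ht
  have h2 := ((P s).continuous.tendsto y).comp (hxy.comp h1)
  refine h2.congr' ?_
  filter_upwards [self_mem_nhdsWithin] with t ht
  have hts : s < t := ht
  have h3 : P t = P s * P (t - s) := by
    rw [← hP.add s (t - s) hs (by linarith)]
    congr 1; ring
  simp only [Function.comp_apply, slope_def_module, map_smul, map_sub]
  rw [h3]
  have h4 : ((t - s : ℝ) : ℂ)⁻¹ = (((t - s)⁻¹ : ℝ) : ℂ) := by push_cast; rfl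
  rw [h4]
  rfl

/-- Graph invariance. -/
theorem IsContractionSemigroup.graph_inv (hP : IsContractionSemigroup P) {Γ : Set (E × E)}
    (hG : HasGenerator P Γ) {x y : E} (hxy : (x, y) ∈ Γ) {s : ℝ} (hs : 0 ≤ s) :
    (P s x, P s y) ∈ Γ := by
  rw [hG] at hxy ⊢
  have h2 := ((P s).continuous.tendsto y).comp hxy
  refine h2.congr' ?_
  filter_upwards [self_mem_nhdsWithin] with t ht
  have ht0 : (0 : ℝ) < t := ht
  have h3 : P s * P t = P t * P s := by
    rw [← hP.add s t hs ht0.le, ← hP.add t s ht0.le hs, add_comm]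
  have h4 : P s (P t x) = P t (P s x) := by
    change (P s * P t) x = (P t * P s) x
    rw [h3]
  simp only [Function.comp_apply, map_smul, map_sub]
  rw [h4]

end basic

variable {E : Type*} [NormedAddCommGroup E] [InnerProductSpace ℂ E] [CompleteSpace E]
variable {Γ : Submodule ℂ (E × E)} {k : ℝ}

theorem MSect.semigroup (h : MSect Γ k) : IsContractionSemigroup (fun t : ℝ => h.T t) where
  zero := by simp only [Complex.ofReal_zero]; exact h.T_zero
  add := by
    intro s t hs ht
    simp only [Complex.ofReal_add]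
    exact h.T_add (Sec.real_mem h.hk hs) (Sec.real_mem h.hk ht)
  norm_le := fun t ht => h.T_norm (Sec.real_mem h.hk ht)
  cont := by
    intro x
    rw [Metric.tendsto_nhdsWithin_nhds]
    intro ε hε
    obtain ⟨u, ⟨u', hu⟩, hxu⟩ := h.dense.exists_dist_lt x (show (0 : ℝ) < ε / 3 by positivity)
    refine ⟨ε / 3 / (‖u'‖ + 1), by positivity, ?_⟩
    intro t ht htd
    have ht0 : (0 : ℝ) < t := ht
    rw [Real.dist_eq, sub_zero, abs_of_pos ht0, lt_div_iff₀ (by positivity)] at htd
    rw [dist_eq_norm] at hxu ⊢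
    have h1 := h.T_sub_self ht0.le hu
    have h2 := h.T_norm_le (Sec.real_mem h.hk ht0.le) (x - u)
    have h3 : h.T t x - x = h.T t (x - u) + (h.T t u - u) + (u - x) := by
      rw [map_sub]; abel
    rw [h3]
    have h4 : ‖u - x‖ = ‖x - u‖ := norm_sub_rev _ _
    calc _ ≤ ‖h.T t (x - u)‖ + ‖h.T t u - u‖ + ‖u - x‖ := norm_add₃_le
      _ < ε := by nlinarith [norm_nonneg u']

theorem MSect.generator_mp (h : MSect Γ k) {x y : E} (hxy : (x, y) ∈ Γ) :
    Tendsto (fun t : ℝ => (t : ℂ)⁻¹ • (h.T t x - x)) (𝓝[>] 0) (𝓝 y) := by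
  rw [Metric.tendsto_nhdsWithin_nhds]
  intro ε hε
  obtain ⟨u, ⟨w, hu⟩, hyu⟩ := h.dense.exists_dist_lt y (show (0 : ℝ) < ε / 4 by positivity)
  refine ⟨ε / 4 / (‖w‖ + 1), by positivity, ?_⟩
  intro t ht htd
  have ht0 : (0 : ℝ) < t := ht
  rw [Real.dist_eq, sub_zero, abs_of_pos ht0, lt_div_iff₀ (by positivity)] at htd
  rw [dist_eq_norm] at hyu ⊢
  have h1 := h.T_expand ht0.le hxy hu
  have htc : (t : ℂ) ≠ 0 := by exact_mod_cast ht0.ne'
  have h2 : (t : ℂ)⁻¹ • (h.T t x - x) - y = (t : ℂ)⁻¹ • (h.T t x - x - (t : ℂ) • y) := by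
    rw [smul_sub _ (h.T t x - x), smul_smul, inv_mul_cancel₀ htc, one_smul]
  rw [h2, norm_smul, norm_inv, Complex.norm_real, Real.norm_of_nonneg ht0.le]
  calc t⁻¹ * ‖h.T t x - x - (t : ℂ) • y‖ ≤ t⁻¹ * ((2 * ‖y - u‖ + t * ‖w‖) * t) := by gcongr
    _ = 2 * ‖y - u‖ + t * ‖w‖ := by field_simp
    _ < ε := by nlinarith [norm_nonneg w]

theorem MSect.generator (h : MSect Γ k) : HasGenerator (fun t : ℝ => h.T t) (Γ : Set (E × E)) := by
  intro x y
  constructor
  · exact fun hxy => h.generator_mp hxy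
  · intro hlim
    obtain ⟨x', z', hxz, hsum⟩ := h.surj 0 (x - y)
    have hlim' := h.generator_mp hxz
    have h1 := hlim.sub hlim'
    have hw : y - z' = x - x' := by
      simp only [Nat.cast_zero, zero_add, one_smul] at hsum
      have : x' - z' = x - y := hsum
      have h2 : x' - z' - x' + y = x - y - x' + y := by rw [this]
      have h3 : x' - z' - x' + y = y - z' := by abel
      have h4 : x - y - x' + y = x - x' := by abel
      rw [← h3, h2, h4]
    rw [hw] at h1
    set w := x - x' with hwdef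
    have h2 : Tendsto (fun t : ℝ => (inner ℂ w ((t : ℂ)⁻¹ • (h.T t w - w))).re) (𝓝[>] 0)
        (𝓝 (inner ℂ w w).re) := by
      have h3 : Tendsto (fun t : ℝ => (t : ℂ)⁻¹ • (h.T t w - w)) (𝓝[>] 0) (𝓝 w) := by
        refine h1.congr (fun t => ?_)
        rw [← smul_sub, hwdef, map_sub]
        congr 1; abel
      have h4 : Continuous (fun v : E => (inner ℂ w v).re) :=
        Complex.continuous_re.comp (continuous_const.inner continuous_id)
      exact (h4.tendsto w).comp h3
    have h3 : (inner ℂ w w).re ≤ 0 := by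
      refine le_of_tendsto h2 ?_
      filter_upwards [self_mem_nhdsWithin] with t ht
      have ht0 : (0 : ℝ) < t := ht
      have h5 : ((t : ℂ)⁻¹) = ((t⁻¹ : ℝ) : ℂ) := by push_cast; rfl
      rw [inner_smul_right, h5, Complex.re_ofReal_mul, inner_sub_right, Complex.sub_re]
      have h6 : (inner ℂ w (h.T t w)).re ≤ (inner ℂ w w).re := by
        calc (inner ℂ w (h.T t w)).re ≤ ‖(inner ℂ w (h.T t w) : ℂ)‖ := Complex.re_le_norm _
          _ ≤ ‖w‖ * ‖h.T t w‖ := norm_inner_le_norm _ _
          _ ≤ ‖w‖ * ‖w‖ := by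
              gcongr
              exact h.T_norm_le (Sec.real_mem h.hk ht0.le) w
          _ = (inner ℂ w w).re := by
              have h8 : (inner ℂ w w).re = ‖w‖ ^ 2 := inner_self_eq_norm_sq (𝕜 := ℂ) w
              rw [h8]
              ring
      have h7 : 0 ≤ t⁻¹ := inv_nonneg.2 ht0.le
      exact mul_nonpos_of_nonneg_of_nonpos h7 (by linarith)
    have h4 : w = 0 := by
      rw [inner_self_eq_norm_sq_to_K] at h3
      have h5 : ‖w‖ ^ 2 ≤ 0 := by exact_mod_cast h3
      have h6 : ‖w‖ = 0 := by nlinarith [norm_nonneg w]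
      exact norm_eq_zero.1 h6
    have h5 : x = x' := by rw [hwdef] at h4; exact sub_eq_zero.1 h4
    have h6 : y = z' := by rw [h4] at hw; exact sub_eq_zero.1 hw
    rw [h5, h6]
    exact hxz

/-- Uniqueness of the semigroup. -/
theorem MSect.unique (h : MSect Γ k) {P : ℝ → E →L[ℂ] E} (hP : IsContractionSemigroup P)
    (hG : HasGenerator P (Γ : Set (E × E))) {t : ℝ} (ht : 0 ≤ t) : P t = h.T t := by
  -- the resolvent commutes with P
  have hJ : ∀ n s x, 0 ≤ s → h.J n (P s x) = P s (h.J n x) := by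
    intro n s x hs
    apply h.J_eq
    have := hP.graph_inv hG (h.J_mem n x) hs
    rw [map_smul, map_sub] at this
    exact this
  have hB : ∀ n s x, 0 ≤ s → h.B n (P s x) = P s (h.B n x) := by
    intro n s x hs
    rw [h.B_apply, h.B_apply, hJ n s x hs, map_smul, map_sub]
  have hd : ∀ n, Diss (h.B n) := by
    intro n
    have h1S : (1 : ℂ) ∈ Sec k := by
      have := Sec.real_mem h.hk zero_le_one
      simpa using this
    have := h.diss_smul n h1S
    simpa using this
  have hF : ∀ n (s : ℝ), h.F n s = ex (h.B n) s := by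
    intro n s
    simp [MSect.F, ex]
  have key : ∀ n x y, (x, y) ∈ Γ → ‖P t x - h.F n t x‖ ≤ t * ‖y - h.B n x‖ := by
    intro n x y hxy
    have hcont : ContinuousOn (fun s => ex (h.B n) (t - s) (P s x)) (Set.Icc 0 t) := by
      have h1 : Continuous (fun s => ex (h.B n) (t - s)) := by
        have : Continuous (ex (h.B n)) := by
          rw [continuous_iff_continuousAt]
          exact fun s => (ex_hasDerivAt (h.B n) s).continuousAt
        exact this.comp (continuous_const.sub continuous_id)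
      have h2 : ContinuousOn (fun s => P s x) (Set.Icc 0 t) :=
        (hP.continuousOn x).mono Set.Icc_subset_Ici_self
      exact h1.continuousOn.clm_apply h2
    have hder : ∀ s ∈ Set.Ico 0 t, HasDerivWithinAt (fun s => ex (h.B n) (t - s) (P s x))
        (ex (h.B n) (t - s) (P s (y - h.B n x))) (Set.Ici s) s := by
      intro s hs
      have h1 : HasDerivAt (fun s => ex (h.B n) (t - s)) (-(ex (h.B n) (t - s) * h.B n)) s := by
        have h0 : HasDerivAt (fun s : ℝ => t - s) (-1) s := by
          simpa using (hasDerivAt_id s).const_sub t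
        have := HasDerivAt.scomp s (ex_hasDerivAt (h.B n) (t - s)) h0
        rw [neg_one_smul] at this
        exact this
      have h2 := hP.right_deriv ((hG x y).1 hxy) hs.1
      have h3 : HasDerivWithinAt (fun s => ex (h.B n) (t - s) (P s x))
          ((-(ex (h.B n) (t - s) * h.B n)) (P s x) + ex (h.B n) (t - s) (P s y)) (Set.Ici s) s := by
        have h4 : HasDerivWithinAt (fun s => (ex (h.B n) (t - s)).restrictScalars ℝ)
            ((-(ex (h.B n) (t - s) * h.B n)).restrictScalars ℝ) (Set.Ici s) s := by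
          have h5 := (ContinuousLinearMap.restrictScalarsL ℂ E E ℝ ℝ).hasFDerivAt.comp_hasDerivAt s h1
          exact h5.hasDerivWithinAt
        exact h4.clm_apply h2
      refine h3.congr_deriv ?_
      have e : (ex (h.B n) (t - s) * h.B n) (P s x) = ex (h.B n) (t - s) (P s (h.B n x)) := by
        rw [← hB n s x hs.1]; rfl
      rw [map_sub, map_sub, neg_apply, e]
      abel
    have hmv := norm_image_sub_le_of_norm_deriv_right_le_segment hcont hder
      (C := ‖y - h.B n x‖) (fun s hs => ?_) t (Set.right_mem_Icc.2 ht)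
    · simp only [sub_self, ex_zero, sub_zero, hP.zero] at hmv
      rw [hF, mul_comm]
      exact hmv
    · refine (ex_norm_le (hd n) (by linarith [hs.2]) _).trans ?_
      exact hP.norm_apply hs.1 _
  have hS : (t : ℂ) ∈ Sec k := Sec.real_mem h.hk ht
  have hdom : ∀ x y, (x, y) ∈ Γ → P t x = h.T t x := by
    intro x y hxy
    have h1 : Tendsto (fun n => ‖P t x - h.F n t x‖) atTop (𝓝 ‖P t x - h.T t x‖) :=
      ((h.T_tendsto hS x).const_sub _).norm
    have h2 : Tendsto (fun n => t * ‖y - h.B n x‖) atTop (𝓝 (t * ‖y - y‖)) :=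
      ((h.B_tendsto hxy).const_sub _).norm.const_mul _
    have h3 := le_of_tendsto_of_tendsto' h1 h2 (fun n => key n x y hxy)
    rw [sub_self, norm_zero, mul_zero] at h3
    exact sub_eq_zero.1 (norm_eq_zero.1 (le_antisymm h3 (norm_nonneg _)))
  have heq : Set.EqOn (P t) (h.T t) {x : E | ∃ y, (x, y) ∈ Γ} := fun x ⟨y, hxy⟩ => hdom x y hxy
  have := Continuous.ext_on h.dense (P t).continuous (h.T t).continuous heq
  exact DFunLike.coe_injective this

end Pool.Agent.Helper63.GQ
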