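import Mathlib
import Pool.Agent.Helper63.GQUniq

/-! Abstract criteria for analyticity of a contraction semigroup. -/

namespace Pool.Agent.Helper63.GQ

open Filter Topology

variable {E : Type*} [NormedAddCommGroup E] [InnerProductSpace ℂ E] [CompleteSpace E]
variable {Γ : Submodule ℂ (E × E)}

/-- The shifted graph `B - 1`. -/
def shift (Γ : Submodule ℂ (E × E)) : Submodule ℂ (E × E) where
  carrier := {q | (q.1, q.2 + q.1) ∈ Γ}
  zero_mem' := by
    change ((0 : E), (0 : E) + 0) ∈ Γ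
    rw [add_zero]; exact Γ.zero_mem
  add_mem' := by
    intro a b ha hb
    have := Γ.add_mem ha hb
    rw [Prod.mk_add_mk] at this
    change (a.1 + b.1, (a.2 + b.2) + (a.1 + b.1)) ∈ Γ
    rwa [show a.2 + b.2 + (a.1 + b.1) = a.2 + a.1 + (b.2 + b.1) by abel]
  smul_mem' := by
    intro c a ha
    have := Γ.smul_mem c ha
    rw [Prod.smul_mk, smul_add] at this
    exact this

omit [CompleteSpace E] in
theorem mem_shift {x y : E} : (x, y) ∈ shift Γ ↔ (x, y + x) ∈ Γ := Iff.rfl

omit [CompleteSpace E] in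
theorem shift_msect (h : MSect Γ 0) {k : ℝ} (hk : 0 ≤ k)
    (hnr : ∀ x y, (x, y) ∈ Γ → k * |(inner ℂ x y).im| ≤ -(inner ℂ x y).re + ‖x‖ ^ 2) :
    MSect (shift Γ) k where
  hk := hk
  dense := by
    refine h.dense.mono ?_
    rintro x ⟨y, hy⟩
    refine ⟨y - x, ?_⟩
    rw [mem_shift, sub_add_cancel]
    exact hy
  sect := by
    intro x y hxy
    have h1 := hnr _ _ (mem_shift.1 hxy)
    have h2 : inner ℂ x (y + x) = inner ℂ x y + ((‖x‖ ^ 2 : ℝ) : ℂ) := by
      rw [inner_add_right, inner_self_eq_norm_sq_to_K]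
      norm_cast
    rw [h2, Complex.add_im, Complex.add_re, Complex.ofReal_im, Complex.ofReal_re, add_zero] at h1
    linarith
  surj := by
    intro n y
    obtain ⟨x, z, hxz, hz⟩ := h.surj (n + 1) y
    refine ⟨x, z - x, ?_, ?_⟩
    · rw [mem_shift, sub_add_cancel]; exact hxz
    · rw [← hz]
      push_cast
      module

/-- The set on which the extension is holomorphic. -/
def OSec (k : ℝ) : Set ℂ := {z | 0 < z.re ∧ |z.im| < k * z.re}

theorem OSec_open (k : ℝ) : IsOpen (OSec k) := by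
  have h1 : IsOpen {z : ℂ | 0 < z.re} := isOpen_lt continuous_const Complex.continuous_re
  have h2 : IsOpen {z : ℂ | |z.im| < k * z.re} :=
    isOpen_lt (Complex.continuous_im.abs) (continuous_const.mul Complex.continuous_re)
  exact h1.inter h2

theorem OSec_sub (k : ℝ) : OSec k ⊆ Sec k := fun _ hz => ⟨hz.1.le, hz.2.le⟩

theorem arg_sub_OSec {k : ℝ} {z : ℂ} (hz : z ≠ 0) (ha : |z.arg| < Real.arctan k) : z ∈ OSec k := by
  have h1 : |z.arg| < Real.pi / 2 := ha.trans (Real.arctan_lt_pi_div_two k)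
  have hre : 0 < z.re := by
    rcases Complex.abs_arg_lt_pi_div_two_iff.1 h1 with h | h
    · exact h
    · exact absurd h hz
  refine ⟨hre, ?_⟩
  rw [abs_lt] at ha h1
  have h2 : Real.tan z.arg < k := by
    rw [← Real.tan_arctan k]
    exact Real.tan_lt_tan_of_lt_of_lt_pi_div_two (by linarith) (Real.arctan_lt_pi_div_two k) ha.2
  have h3 : -k < Real.tan z.arg := by
    rw [← Real.tan_arctan (-k), Real.arctan_neg]
    exact Real.tan_lt_tan_of_lt_of_lt_pi_div_two
      (by linarith [Real.arctan_lt_pi_div_two k]) (by linarith) ha.1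
  rw [Complex.tan_arg] at h2 h3
  rw [div_lt_iff₀ hre] at h2
  rw [lt_div_iff₀ hre] at h3
  rw [abs_lt]
  constructor <;> linarith

/-- Sufficiency. -/
theorem analytic_of_sect (h : MSect Γ 0) {k : ℝ} (hk : 0 < k)
    (hnr : ∀ x y, (x, y) ∈ Γ → k * |(inner ℂ x y).im| ≤ -(inner ℂ x y).re + ‖x‖ ^ 2)
    {P : ℝ → E →L[ℂ] E} (hP : IsContractionSemigroup P) (hG : HasGenerator P (Γ : Set (E × E))) :
    IsAnalyticSemigroup P := by
  have h' := shift_msect h hk.le hnr
  -- the rescaled semigroup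
  let Q : ℝ → E →L[ℂ] E := fun t => ((Real.exp (-t) : ℝ) : ℂ) • P t
  have hQ : IsContractionSemigroup Q := by
    refine ⟨?_, ?_, ?_, ?_⟩
    · simp [Q, hP.zero]
    · intro s t hs ht
      simp only [Q]
      rw [hP.add s t hs ht, neg_add, Real.exp_add, smul_mul_smul_comm]
      push_cast
      rfl
    · intro t ht
      simp only [Q]
      rw [norm_smul, Complex.norm_real, Real.norm_of_nonneg (Real.exp_pos _).le]
      calc Real.exp (-t) * ‖P t‖ ≤ 1 * 1 := by
            gcongr
            · exact Real.exp_le_one_iff.2 (by linarith)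
            · exact hP.norm_le t ht
        _ = 1 := one_mul 1
    · intro x
      have h1 : Tendsto (fun t : ℝ => ((Real.exp (-t) : ℝ) : ℂ)) (𝓝[>] 0) (𝓝 1) := by
        have : Continuous (fun t : ℝ => ((Real.exp (-t) : ℝ) : ℂ)) := by fun_prop
        have h2 := this.tendsto 0
        simp only [neg_zero, Real.exp_zero, Complex.ofReal_one] at h2
        exact h2.mono_left nhdsWithin_le_nhds
      have h3 := h1.smul (hP.cont x)
      rw [one_smul] at h3
      exact h3
  have hexp : Tendsto (fun t : ℝ => (t : ℂ)⁻¹ • (((Real.exp (-t) : ℝ) : ℂ) - 1)) (𝓝[>] 0)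
      (𝓝 (-1)) := by
    have h1 : HasDerivAt (fun t : ℝ => Real.exp (-t)) (-1) 0 := by
      have h0 := (hasDerivAt_neg (0 : ℝ)).exp
      simpa using h0
    have h2 := h1.hasDerivWithinAt (s := Set.Ioi 0)
    rw [hasDerivWithinAt_iff_tendsto_slope' (by simp)] at h2
    have h3 := (Complex.continuous_ofReal.tendsto (-1)).comp h2
    have h4 : ((-1 : ℝ) : ℂ) = -1 := by norm_num
    rw [h4] at h3
    refine h3.congr (fun t => ?_)
    simp only [Function.comp_apply, slope_def_field, neg_zero, Real.exp_zero, sub_zero]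
    push_cast
    rw [smul_eq_mul, div_eq_inv_mul]
  have hQG : HasGenerator Q (shift Γ : Set (E × E)) := by
    intro x y
    have hiff := hG x (y + x)
    have hmem : (x, y) ∈ (shift Γ : Set (E × E)) ↔ (x, y + x) ∈ (Γ : Set (E × E)) := Iff.rfl
    rw [hmem, hiff]
    have hone : Tendsto (fun t : ℝ => ((Real.exp (-t) : ℝ) : ℂ)) (𝓝[>] 0) (𝓝 1) := by
      have : Continuous (fun t : ℝ => ((Real.exp (-t) : ℝ) : ℂ)) := by fun_prop
      have h2 := this.tendsto 0
      simp only [neg_zero, Real.exp_zero, Complex.ofReal_one] at h2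
      exact h2.mono_left nhdsWithin_le_nhds
    have hone' : Tendsto (fun t : ℝ => ((Real.exp t : ℝ) : ℂ)) (𝓝[>] 0) (𝓝 1) := by
      have : Continuous (fun t : ℝ => ((Real.exp t : ℝ) : ℂ)) := by fun_prop
      have h2 := this.tendsto 0
      simp only [Real.exp_zero, Complex.ofReal_one] at h2
      exact h2.mono_left nhdsWithin_le_nhds
    have hsub : Tendsto (fun t : ℝ => ((t : ℂ)⁻¹ • (((Real.exp (-t) : ℝ) : ℂ) - 1)) • x) (𝓝[>] 0)
        (𝓝 (-x)) := by
      have := hexp.smul_const x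
      rwa [neg_one_smul] at this
    have hid : ∀ t : ℝ, (t : ℂ)⁻¹ • (Q t x - x) =
        ((Real.exp (-t) : ℝ) : ℂ) • ((t : ℂ)⁻¹ • (P t x - x)) +
          ((t : ℂ)⁻¹ • (((Real.exp (-t) : ℝ) : ℂ) - 1)) • x := by
      intro t
      simp only [Q, smul_apply, smul_eq_mul]
      module
    constructor
    · intro hlim
      have h1 := (hone.smul hlim).add hsub
      rw [one_smul, show y + x + -x = y by abel] at h1
      exact h1.congr (fun t => (hid t).symm)
    · intro hlim
      have h1 := hone'.smul (hlim.sub hsub)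
      rw [one_smul, sub_neg_eq_add] at h1
      refine h1.congr (fun t => ?_)
      rw [hid t, add_sub_cancel_right, smul_smul]
      have : ((Real.exp t : ℝ) : ℂ) * ((Real.exp (-t) : ℝ) : ℂ) = 1 := by
        rw [← Complex.ofReal_mul, ← Real.exp_add, add_neg_cancel, Real.exp_zero,
          Complex.ofReal_one]
      rw [this, one_smul]
  have huniq : ∀ t : ℝ, 0 ≤ t → Q t = h'.T t := fun t ht => h'.unique hQ hQG ht
  refine ⟨Real.arctan k, Real.arctan_pos.2 hk, (Real.arctan_lt_pi_div_two k).le,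
    fun z => Complex.exp z • h'.T z, ?_, ?_, ?_⟩
  · have h1 : DifferentiableOn ℂ (fun z => Complex.exp z • h'.T z) (OSec k) :=
      (Complex.differentiable_exp.differentiableOn).smul (h'.T_hol (OSec_open k) (OSec_sub k))
    exact h1.mono (fun z hz => arg_sub_OSec hz.1 hz.2)
  · intro t ht
    change Complex.exp (t : ℂ) • h'.T (t : ℂ) = P t
    rw [← huniq t ht.le]
    simp only [Q]
    rw [smul_smul]
    have : Complex.exp (t : ℂ) * ((Real.exp (-t) : ℝ) : ℂ) = 1 := by
      rw [← Complex.ofReal_exp, ← Complex.ofReal_mul, ← Real.exp_add, add_neg_cancel,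
        Real.exp_zero, Complex.ofReal_one]
    rw [this, one_smul]
  · refine ⟨Real.exp 1, fun z hz ha hz1 => ?_⟩
    have hS : z ∈ Sec k := OSec_sub k (arg_sub_OSec hz ha)
    rw [norm_smul, Complex.norm_exp]
    have h1 : z.re ≤ 1 := (Complex.re_le_norm z).trans hz1
    calc Real.exp z.re * ‖h'.T z‖ ≤ Real.exp 1 * 1 := by
          gcongr
          exact h'.T_norm hS
      _ = Real.exp 1 := mul_one _

/-- Necessity: quasimodes with large imaginary part are excluded. -/
theorem quasimode {P : ℝ → E →L[ℂ] E} (hP : IsContractionSemigroup P)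
    (hA : IsAnalyticSemigroup P) :
    ∃ C : ℝ, 0 ≤ C ∧ ∀ (x y : E) (τ ρ : ℝ),
      Tendsto (fun t : ℝ => (t : ℂ)⁻¹ • (P t x - x)) (𝓝[>] 0) (𝓝 y) → ‖x‖ = 1 → 1 ≤ ρ →
      ‖y - (Complex.I * τ) • x‖ ≤ ρ → |τ| ≤ C * ρ := by
  obtain ⟨θ, hθ, hθ2, F, hF, hFP, M, hM⟩ := hA
  -- a small disc around 1
  obtain ⟨c, hc0, hc1, hc2⟩ : ∃ c : ℝ, 0 < c ∧ c ≤ 1 / 2 ∧
      ∀ z : ℂ, ‖z - 1‖ ≤ c → |z.arg| < θ := by
    have hcont : ContinuousAt (fun z : ℂ => |z.arg|) 1 :=
      (Complex.continuousAt_arg (by simp)).abs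
    have h1 : ∀ᶠ z in 𝓝 (1 : ℂ), |z.arg| < θ := by
      have : |(1 : ℂ).arg| < θ := by simpa using hθ
      exact hcont.eventually (gt_mem_nhds this)
    rw [Metric.eventually_nhds_iff] at h1
    obtain ⟨δ, hδ, hδ2⟩ := h1
    refine ⟨min (δ / 2) (1 / 2), by positivity, min_le_right _ _, fun z hz => ?_⟩
    apply hδ2
    rw [dist_eq_norm]
    have := min_le_left (δ / 2) (1 / 2)
    linarith
  have hM0 : 0 ≤ M := by
    have := hM 1 one_ne_zero (by simpa using hθ) (by simp)
    exact (norm_nonneg _).trans this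
  refine ⟨4 * (M / c) + 2, by positivity, ?_⟩
  intro x y τ ρ hxy hx hρ hyρ
  set t : ℝ := 1 / (2 * ρ) with ht
  have ht0 : 0 < t := by positivity
  have hth : t ≤ 1 / 2 := by
    rw [ht, div_le_div_iff₀ (by positivity) (by norm_num)]
    linarith
  -- the closed disc around t
  have hdisc : ∀ z : ℂ, ‖z - t‖ ≤ c * t → z ≠ 0 ∧ |z.arg| < θ ∧ ‖z‖ ≤ 1 := by
    intro z hz
    have htc : (t : ℂ) ≠ 0 := by exact_mod_cast ht0.ne'
    set w : ℂ := z / t with hw
    have hzw : z = (t : ℂ) * w := by rw [hw]; field_simp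
    have h1 : ‖w - 1‖ ≤ c := by
      have h2 : z - t = (t : ℂ) * (w - 1) := by rw [hzw]; ring
      rw [h2, norm_mul, Complex.norm_real, Real.norm_of_nonneg ht0.le, mul_comm] at hz
      exact le_of_mul_le_mul_right hz ht0
    have h3 : |w.arg| < θ := hc2 w h1
    have h4 : w ≠ 0 := by
      rintro h0
      rw [h0] at h1
      simp at h1
      linarith
    refine ⟨?_, ?_, ?_⟩
    · rw [hzw]; exact mul_ne_zero htc h4
    · rw [hzw, Complex.arg_real_mul w ht0]; exact h3
    · have h5 : ‖z‖ ≤ ‖z - t‖ + ‖(t : ℂ)‖ := by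
        have := norm_add_le (z - t) (t : ℂ)
        simpa using this
      rw [Complex.norm_real, Real.norm_of_nonneg ht0.le] at h5
      nlinarith
  have htc0 : (t : ℂ) ≠ 0 ∧ |(t : ℂ).arg| < θ ∧ ‖(t : ℂ)‖ ≤ 1 :=
    hdisc t (by simp; positivity)
  have hopen : {z : ℂ | z ≠ 0 ∧ |z.arg| < θ} ∈ 𝓝 (t : ℂ) := by
    rw [Metric.mem_nhds_iff]
    refine ⟨c * t, by positivity, fun z hz => ?_⟩
    rw [Metric.mem_ball, dist_eq_norm] at hz
    exact ⟨(hdisc z hz.le).1, (hdisc z hz.le).2.1⟩
  have hder : ‖deriv F t‖ ≤ M / (c * t) := by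
    refine Complex.norm_deriv_le_of_forall_mem_sphere_norm_le (by positivity) ?_ ?_
    · refine (hF.mono ?_).diffContOnCl_ball (U := Metric.closedBall (t : ℂ) (c * t)) subset_rfl
      intro z hz
      rw [Metric.mem_closedBall, dist_eq_norm] at hz
      exact ⟨(hdisc z hz).1, (hdisc z hz).2.1⟩
    · intro z hz
      rw [mem_sphere_iff_norm] at hz
      obtain ⟨h1, h2, h3⟩ := hdisc z hz.le
      exact hM z h1 h2 h3
  have hFd : HasDerivAt F (deriv F t) (t : ℂ) := (hF.differentiableAt hopen).hasDerivAt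
  have hPd : HasDerivWithinAt (fun s : ℝ => P s x) (deriv F t x) (Set.Ici t) t := by
    have h1 : HasDerivAt (fun s : ℝ => F s x) (deriv F t x) t :=
      hasDerivAt_apply (comp_ofReal' hFd) x
    refine (h1.hasDerivWithinAt (s := Set.Ici t)).congr (fun s hs => ?_) ?_
    · rw [hFP s (lt_of_lt_of_le ht0 hs)]
    · rw [hFP t ht0]
  have hPd2 := hP.right_deriv hxy ht0.le
  have hPy : P t y = deriv F t x :=
    (uniqueDiffWithinAt_Ici t).eq_deriv _ hPd2 hPd
  have hPyn : ‖P t y‖ ≤ M / (c * t) := by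
    rw [hPy]
    have := (deriv F t).le_of_opNorm_le hder x
    rwa [hx, mul_one] at this
  -- lower bound
  have hlow : 1 / 2 ≤ ‖P t x‖ := by
    have hcont : ContinuousOn (fun s : ℝ => Complex.exp (-(Complex.I * τ) * s) • P s x)
        (Set.Icc 0 t) := by
      refine ContinuousOn.smul ?_ ((hP.continuousOn x).mono Set.Icc_subset_Ici_self)
      exact (by fun_prop : Continuous (fun s : ℝ => Complex.exp (-(Complex.I * τ) * s))).continuousOn
    have hd : ∀ s ∈ Set.Ico 0 t, HasDerivWithinAt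
        (fun s : ℝ => Complex.exp (-(Complex.I * τ) * s) • P s x)
        (Complex.exp (-(Complex.I * τ) * s) • P s (y - (Complex.I * τ) • x)) (Set.Ici s) s := by
      intro s hs
      have h1 : HasDerivAt (fun s : ℝ => Complex.exp (-(Complex.I * τ) * s))
          (Complex.exp (-(Complex.I * τ) * s) * (-(Complex.I * τ))) s := by
        have h2 : HasDerivAt (fun z : ℂ => Complex.exp (-(Complex.I * τ) * z))
            (Complex.exp (-(Complex.I * τ) * s) * (-(Complex.I * τ))) (s : ℂ) := by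
          have h3 : HasDerivAt (fun z : ℂ => -(Complex.I * τ) * z) (-(Complex.I * τ)) (s : ℂ) := by
            simpa using (hasDerivAt_id (s : ℂ)).const_mul (-(Complex.I * τ))
          exact h3.cexp
        exact comp_ofReal' h2
      have h4 := h1.hasDerivWithinAt (s := Set.Ici s) |>.smul (hP.right_deriv hxy hs.1)
      refine h4.congr_deriv ?_
      rw [map_sub, map_smul]
      module
    have hmv := norm_image_sub_le_of_norm_deriv_right_le_segment hcont hd
      (C := ρ) (fun s hs => ?_) t (Set.right_mem_Icc.2 ht0.le)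
    · simp only [Complex.ofReal_zero, mul_zero, Complex.exp_zero, one_smul, hP.zero,
        one_apply_eq_self, sub_zero] at hmv
      have hn : ‖Complex.exp (-(Complex.I * τ) * t) • P t x‖ = ‖P t x‖ := by
        rw [norm_smul, Complex.norm_exp]
        simp
      have h5 : ‖x‖ ≤ ‖P t x‖ + ρ * t := by
        have h6 := norm_sub_norm_le x (Complex.exp (-(Complex.I * τ) * t) • P t x)
        rw [hn] at h6
        have h7 : ‖x - Complex.exp (-(Complex.I * τ) * t) • P t x‖ ≤ ρ * t := by
          rw [norm_sub_rev]; exact hmv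
        linarith
      have h8 : ρ * t = 1 / 2 := by rw [ht]; field_simp
      rw [hx, h8] at h5
      linarith
    · rw [norm_smul, Complex.norm_exp]
      have h9 : (-(Complex.I * τ) * (s : ℂ)).re = 0 := by simp
      rw [h9, Real.exp_zero, one_mul]
      exact (hP.norm_apply hs.1 _).trans hyρ
  -- conclusion
  have h1 : (Complex.I * τ) • P t x = P t y - P t (y - (Complex.I * τ) • x) := by
    rw [map_sub, map_smul]; abel
  have h2 : |τ| * ‖P t x‖ ≤ M / (c * t) + ρ := by
    calc |τ| * ‖P t x‖ = ‖(Complex.I * τ) • P t x‖ := by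
          rw [norm_smul, norm_mul, Complex.norm_I, one_mul, Complex.norm_real, Real.norm_eq_abs]
      _ ≤ ‖P t y‖ + ‖P t (y - (Complex.I * τ) • x)‖ := by rw [h1]; exact norm_sub_le _ _
      _ ≤ M / (c * t) + ρ := by
          gcongr
          exact (hP.norm_apply ht0.le _).trans hyρ
  have h3 : M / (c * t) = 2 * (M / c) * ρ := by
    rw [ht]; field_simp
  rw [h3] at h2
  have h4 : |τ| * (1 / 2) ≤ |τ| * ‖P t x‖ := by gcongr
  nlinarith

end Pool.Agent.Helper63.GQ
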