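import Mathlib

/-! Definitions for Gaussian quantum Markov semigroups. -/

namespace Pool.Agent.Helper63.GQ

open ComplexConjugate

/-- The parameters of a Gaussian generator with `d` modes and `2 d` Kraus operators. -/
structure Params (d : ℕ) where
  Ω : Matrix (Fin d) (Fin d) ℂ
  κ : Matrix (Fin d) (Fin d) ℂ
  U : Matrix (Fin (2 * d)) (Fin d) ℂ
  V : Matrix (Fin (2 * d)) (Fin d) ℂ
  ζ : Fin d → ℂ
  hermitian : Ω.IsHermitian
  symmetric : κ.IsSymm

variable {d : ℕ} {W : Type*} [AddCommGroup W] [Module ℂ W]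

/-- The quadratic part of the Hamiltonian, in terms of annihilation operators `a j` and creation
operators `c k`. -/
noncomputable def hamQuad (p : Params d) (a c : Fin d → W →ₗ[ℂ] W) : W →ₗ[ℂ] W :=
  ∑ j, ∑ k, (p.Ω j k • (c j ∘ₗ a k) + (p.κ j k / 2) • (c j ∘ₗ c k) +
      (conj (p.κ j k) / 2) • (a j ∘ₗ a k))

/-- The linear part of the Hamiltonian. -/
noncomputable def hamLin (p : Params d) (a c : Fin d → W →ₗ[ℂ] W) : W →ₗ[ℂ] W :=
  ∑ j, ((p.ζ j / 2) • c j + (conj (p.ζ j) / 2) • a j)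

/-- The Hamiltonian, in terms of annihilation operators `a j` and creation operators `c k`. -/
noncomputable def ham (p : Params d) (a c : Fin d → W →ₗ[ℂ] W) : W →ₗ[ℂ] W :=
  hamQuad p a c + hamLin p a c

/-- The Kraus operator `L_l = ∑ k, (conj v_lk a_k + u_lk c_k)`. -/
noncomputable def kraus (p : Params d) (a c : Fin d → W →ₗ[ℂ] W) (l : Fin (2 * d)) :
    W →ₗ[ℂ] W :=
  ∑ k, (conj (p.V l k) • a k + p.U l k • c k)

/-- The adjoint of the Kraus operator, `∑ k, (v_lk c_k + conj u_lk a_k)`. -/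
noncomputable def krausAdj (p : Params d) (a c : Fin d → W →ₗ[ℂ] W) (l : Fin (2 * d)) :
    W →ₗ[ℂ] W :=
  ∑ k, (p.V l k • c k + conj (p.U l k) • a k)

/-- `G = -i H - (1/2) ∑ l, L_l^* L_l`. -/
noncomputable def gen (p : Params d) (a c : Fin d → W →ₗ[ℂ] W) : W →ₗ[ℂ] W :=
  -(Complex.I • ham p a c) - (1 / 2 : ℂ) • ∑ l, krausAdj p a c l ∘ₗ kraus p a c l

/-- The annihilation operator on finite linear combinations of basis vectors:
`a_j e(n) = √(n_j) e(n - ε_j)`. -/
noncomputable def ann (j : Fin d) : ((Fin d → ℕ) →₀ ℂ) →ₗ[ℂ] ((Fin d → ℕ) →₀ ℂ) :=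
  Finsupp.linearCombination ℂ
    (fun n => Finsupp.single (n - Pi.single j 1) ((√(n j : ℝ) : ℝ) : ℂ))

/-- The creation operator on finite linear combinations of basis vectors:
`a_j^* e(n) = √(n_j + 1) e(n + ε_j)`. -/
noncomputable def cre (j : Fin d) : ((Fin d → ℕ) →₀ ℂ) →ₗ[ℂ] ((Fin d → ℕ) →₀ ℂ) :=
  Finsupp.linearCombination ℂ
    (fun n => Finsupp.single (n + Pi.single j 1) ((√((n j : ℝ) + 1) : ℝ) : ℂ))

/-- The vector of `ℓ²(ℕ^d)` given by a finite linear combination of basis vectors. -/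
noncomputable def toFock : ((Fin d → ℕ) →₀ ℂ) →ₗ[ℂ] lp (fun _ : Fin d → ℕ => ℂ) 2 :=
  Finsupp.linearCombination ℂ (fun n => lp.single 2 n (1 : ℂ))

/-- The graph of `G`: the closure of the graph of the operator on finite linear combinations. -/
noncomputable def genGraph (p : Params d) :
    Set (lp (fun _ : Fin d → ℕ => ℂ) 2 × lp (fun _ : Fin d → ℕ => ℂ) 2) :=
  closure (Set.range (fun f : (Fin d → ℕ) →₀ ℂ => (toFock f, toFock (gen p ann cre f))))

end Pool.Agent.Helper63.GQ
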