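import Mathlib
import Pool.Agent.Helper63.GQDefs

/-! Abstract estimates for quadratic expressions in annihilation and creation operators. -/

namespace Pool.Agent.Helper63.GQ

open ComplexConjugate

variable {d : ℕ} {W : Type*} [AddCommGroup W] [Module ℂ W]
variable {E : Type*} [NormedAddCommGroup E] [InnerProductSpace ℂ E]

/-- A representation of the canonical commutation relations. -/
structure CCR (i : W →ₗ[ℂ] E) (a c : Fin d → W →ₗ[ℂ] W) : Prop where
  adj : ∀ j x y, inner ℂ (i (a j x)) (i y) = inner ℂ (i x) (i (c j y))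
  comm : ∀ j k x, a j (c k x) = c k (a j x) + if j = k then x else 0
  comm_a : ∀ j k x, a j (a k x) = a k (a j x)
  comm_c : ∀ j k x, c j (c k x) = c k (c j x)

variable {i : W →ₗ[ℂ] E} {a c : Fin d → W →ₗ[ℂ] W}

theorem CCR.adj' (h : CCR i a c) (j : Fin d) (x y : W) :
    inner ℂ (i (c j x)) (i y) = inner ℂ (i x) (i (a j y)) := by
  rw [← inner_conj_symm, ← h.adj, inner_conj_symm]

/-- The real basis of `ℂ^d`. -/
def rb (al : Fin d × Bool) : Fin d → ℂ := Pi.single al.1 (if al.2 then Complex.I else 1)

/-- The hermitian generators. -/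
def X (a c : Fin d → W →ₗ[ℂ] W) (al : Fin d × Bool) : W →ₗ[ℂ] W :=
  if al.2 then Complex.I • (c al.1 - a al.1) else a al.1 + c al.1

theorem CCR.X_symm (h : CCR i a c) (al : Fin d × Bool) (x y : W) :
    inner ℂ (i (X a c al x)) (i y) = inner ℂ (i x) (i (X a c al y)) := by
  obtain ⟨j, s⟩ := al
  cases s
  · simp only [X, Bool.false_eq_true, if_false, LinearMap.add_apply, map_add, inner_add_left,
      inner_add_right, h.adj, h.adj']
    ring
  · simp only [X, if_true, LinearMap.smul_apply, LinearMap.sub_apply, map_smul, map_sub,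
      inner_smul_left, inner_smul_right, inner_sub_left, inner_sub_right, h.adj, h.adj',
      Complex.conj_I]
    ring

/-- The commutator constants. -/
noncomputable def om (al be : Fin d × Bool) : ℂ :=
  if al.1 = be.1 then (if al.2 then (if be.2 then 0 else -(2 * Complex.I)) else
    (if be.2 then 2 * Complex.I else 0)) else 0

theorem om_norm (al be : Fin d × Bool) : ‖om al be‖ ≤ 2 := by
  unfold om
  split_ifs <;> simp

theorem CCR.X_comm (h : CCR i a c) (al be : Fin d × Bool) (x : W) :
    X a c al (X a c be x) - X a c be (X a c al x) = om al be • x := by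
  obtain ⟨j, s⟩ := al
  obtain ⟨k, t⟩ := be
  have h1 := h.comm j k x
  have h2 := h.comm k j x
  have h3 := h.comm_a j k x
  have h4 := h.comm_c j k x
  have h5 : (if k = j then x else 0) = if j = k then x else 0 := by
    by_cases hjk : j = k
    · rw [if_pos hjk, if_pos hjk.symm]
    · rw [if_neg hjk, if_neg (fun h' => hjk h'.symm)]
  rw [h5] at h2
  have h6 : ∀ z : ℂ, (if j = k then z else 0) • x = z • (if j = k then x else 0) := by
    intro z
    split_ifs <;> simp
  cases s <;> cases t
  · simp only [X, om, Bool.false_eq_true, if_false, LinearMap.add_apply, map_add, h1, h2, h3, h4,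
      h6]
    module
  · simp only [X, om, Bool.false_eq_true, if_false, if_true, LinearMap.add_apply, map_add,
      LinearMap.smul_apply, LinearMap.sub_apply, map_smul, map_sub, h1, h2, h3, h4, h6]
    module
  · simp only [X, om, Bool.false_eq_true, if_false, if_true, LinearMap.add_apply, map_add,
      LinearMap.smul_apply, LinearMap.sub_apply, map_smul, map_sub, h1, h2, h3, h4, h6]
    module
  · simp only [X, om, if_true, LinearMap.smul_apply, LinearMap.sub_apply, map_smul, map_sub,
      h1, h2, h3, h4, h6]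
    module

/-- The Gram matrix has small imaginary part. -/
theorem CCR.gram_im (h : CCR i a c) (al be : Fin d × Bool) (u : W) :
    |(inner ℂ (i (X a c al u)) (i (X a c be u))).im| ≤ ‖i u‖ ^ 2 := by
  set g := inner ℂ (i (X a c al u)) (i (X a c be u)) with hg
  have h1 : g - conj g = om al be * inner ℂ (i u) (i u) := by
    rw [hg, inner_conj_symm, h.X_symm, h.X_symm, ← inner_sub_right, ← map_sub, h.X_comm,
      map_smul, inner_smul_right]
  have h2 : g - conj g = (2 * g.im : ℝ) * Complex.I := by
    rw [Complex.sub_conj]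
  have h3 : ‖g - conj g‖ ≤ 2 * ‖i u‖ ^ 2 := by
    have h4 : ‖(inner ℂ (i u) (i u) : ℂ)‖ = ‖i u‖ ^ 2 := by
      rw [inner_self_eq_norm_sq_to_K, norm_pow]
      simp
    rw [h1, norm_mul, h4]
    have := om_norm al be
    gcongr
  rw [h2, norm_mul, Complex.norm_I, mul_one, Complex.norm_real, Real.norm_eq_abs, abs_mul,
    abs_two] at h3
  linarith

/-- The operator attached to a real linear functional. -/
noncomputable def Op (a c : Fin d → W →ₗ[ℂ] W) (T : (Fin d → ℂ) →ₗ[ℝ] ℂ) : W →ₗ[ℂ] W :=
  (1 / 2 : ℂ) • ∑ al, T (rb al) • X a c al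

theorem Op_add (T S : (Fin d → ℂ) →ₗ[ℝ] ℂ) : Op a c (T + S) = Op a c T + Op a c S := by
  simp only [Op, LinearMap.add_apply, add_smul, Finset.sum_add_distrib, smul_add]

theorem Op_smul (z : ℂ) (T : (Fin d → ℂ) →ₗ[ℝ] ℂ) : Op a c (z • T) = z • Op a c T := by
  simp only [Op, LinearMap.smul_apply, smul_eq_mul, mul_smul, ← Finset.smul_sum]
  rw [smul_comm]

theorem Op_sum {κ : Type*} (s : Finset κ) (T : κ → (Fin d → ℂ) →ₗ[ℝ] ℂ) :
    Op a c (∑ k ∈ s, T k) = ∑ k ∈ s, Op a c (T k) := by
  classical
  induction s using Finset.induction_on with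
  | empty => simp [Op]
  | insert k s hk ih => rw [Finset.sum_insert hk, Finset.sum_insert hk, Op_add, ih]

/-- The coordinate functional. -/
noncomputable def co (j : Fin d) : (Fin d → ℂ) →ₗ[ℝ] ℂ := LinearMap.proj j

/-- The conjugate coordinate functional. -/
noncomputable def cb (j : Fin d) : (Fin d → ℂ) →ₗ[ℝ] ℂ :=
  (Complex.conjAe.toLinearMap : ℂ →ₗ[ℝ] ℂ) ∘ₗ LinearMap.proj j

theorem co_apply (j : Fin d) (z : Fin d → ℂ) : co j z = z j := rfl

theorem cb_apply (j : Fin d) (z : Fin d → ℂ) : cb j z = conj (z j) := rfl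

theorem Op_co (j : Fin d) : Op a c (co j) = a j := by
  ext x
  simp only [Op, co_apply, rb, X, Fintype.sum_prod_type, Fintype.sum_bool, if_true,
    Bool.false_eq_true, if_false, LinearMap.smul_apply, LinearMap.sum_apply, LinearMap.add_apply,
    Pi.single_apply]
  rw [Finset.sum_eq_single j]
  · simp only [if_true, LinearMap.sub_apply, LinearMap.add_apply]
    rw [smul_smul, Complex.I_mul_I]
    module
  · intro k _ hk
    have : ¬ (j = k) := fun h => hk h.symm
    simp [this]
  · intro h; exact absurd (Finset.mem_univ j) h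

theorem Op_cb (j : Fin d) : Op a c (cb j) = c j := by
  ext x
  simp only [Op, cb_apply, rb, X, Fintype.sum_prod_type, Fintype.sum_bool, if_true,
    Bool.false_eq_true, if_false, LinearMap.smul_apply, LinearMap.sum_apply, LinearMap.add_apply,
    Pi.single_apply]
  rw [Finset.sum_eq_single j]
  · simp only [if_true, LinearMap.sub_apply, LinearMap.add_apply, Complex.conj_I, map_one]
    rw [smul_smul, neg_mul, Complex.I_mul_I, neg_neg]
    module
  · intro k _ hk
    have : ¬ (j = k) := fun h => hk h.symm
    simp [this]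
  · intro h; exact absurd (Finset.mem_univ j) h

/-- Lemma S: a sesquilinear expression whose symbol has vanishing real part is bounded. -/
theorem CCR.symbol_zero (h : CCR i a c) {κ : Type*} [Fintype κ]
    (T S : κ → (Fin d → ℂ) →ₗ[ℝ] ℂ)
    (hz : ∀ z, (∑ k, conj (T k z) * S k z).re = 0) :
    ∃ C : ℝ, 0 ≤ C ∧ ∀ u, |(∑ k, inner ℂ (i (Op a c (T k) u)) (i (Op a c (S k) u))).re| ≤
      C * ‖i u‖ ^ 2 := by
  let w : Fin d × Bool → Fin d × Bool → ℂ := fun al be => ∑ k, conj (T k (rb al)) * S k (rb be)
  have hw : ∀ al be, (w al be).re + (w be al).re = 0 := by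
    intro al be
    have h1 := hz (rb al + rb be)
    have h2 := hz (rb al)
    have h3 := hz (rb be)
    have h4 : ∑ k, conj (T k (rb al + rb be)) * S k (rb al + rb be) =
        (∑ k, conj (T k (rb al)) * S k (rb al)) + (∑ k, conj (T k (rb be)) * S k (rb be)) +
        (w al be + w be al) := by
      simp only [w, ← Finset.sum_add_distrib]
      refine Finset.sum_congr rfl (fun k _ => ?_)
      rw [map_add, map_add, map_add]
      ring
    rw [h4, Complex.add_re, Complex.add_re, Complex.add_re, h2, h3] at h1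
    linarith
  refine ⟨∑ al, ∑ be, |(w al be).im|, Finset.sum_nonneg (fun _ _ => Finset.sum_nonneg
    (fun _ _ => abs_nonneg _)), fun u => ?_⟩
  let g : Fin d × Bool → Fin d × Bool → ℂ := fun al be =>
    inner ℂ (i (X a c al u)) (i (X a c be u))
  have hexp : ∑ k, inner ℂ (i (Op a c (T k) u)) (i (Op a c (S k) u)) =
      (1 / 4 : ℂ) * ∑ al, ∑ be, w al be * g al be := by
    have h1 : ∀ (R : (Fin d → ℂ) →ₗ[ℝ] ℂ), i (Op a c R u) =
        (1 / 2 : ℂ) • ∑ al, R (rb al) • i (X a c al u) := by
      intro R
      simp only [Op, LinearMap.smul_apply, LinearMap.sum_apply, map_smul, map_sum]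
    have hR : ∑ al, ∑ be, w al be * g al be = ∑ be, ∑ al, w al be * g al be := Finset.sum_comm
    rw [hR]
    simp only [h1, inner_smul_left, inner_smul_right, sum_inner, inner_sum]
    simp only [w, Finset.sum_mul, Finset.mul_sum]
    rw [Finset.sum_comm]
    refine Finset.sum_congr rfl (fun al _ => ?_)
    rw [Finset.sum_comm]
    refine Finset.sum_congr rfl (fun be _ => Finset.sum_congr rfl (fun k _ => ?_))
    simp only [g]
    have : conj (1 / 2 : ℂ) = 1 / 2 := by
      rw [map_div₀, map_one, map_ofNat]
    rw [this]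
    ring
  have hgsymm : ∀ al be, g be al = conj (g al be) := fun al be => (inner_conj_symm _ _).symm
  have hre : (∑ al, ∑ be, w al be * g al be).re =
      -∑ al, ∑ be, (w al be).im * (g al be).im := by
    have h1 : (∑ al, ∑ be, w al be * g al be).re =
        ∑ al, ∑ be, (w al be).re * (g al be).re - ∑ al, ∑ be, (w al be).im * (g al be).im := by
      simp only [Complex.re_sum, Complex.mul_re, Finset.sum_sub_distrib]
    have h2 : ∑ al, ∑ be, (w al be).re * (g al be).re = 0 := by
      have h3 : ∑ al, ∑ be, (w al be).re * (g al be).re =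
          ∑ al, ∑ be, (w be al).re * (g al be).re := by
        rw [Finset.sum_comm]
        refine Finset.sum_congr rfl (fun al _ => Finset.sum_congr rfl (fun be _ => ?_))
        rw [hgsymm al be, Complex.conj_re]
      have h4 : ∑ al, ∑ be, (w al be).re * (g al be).re +
          ∑ al, ∑ be, (w be al).re * (g al be).re = 0 := by
        rw [← Finset.sum_add_distrib]
        refine Finset.sum_eq_zero (fun al _ => ?_)
        rw [← Finset.sum_add_distrib]
        refine Finset.sum_eq_zero (fun be _ => ?_)
        rw [← add_mul, hw, zero_mul]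
      linarith
    rw [h1, h2, zero_sub]
  have h14 : ((1 / 4 : ℂ)) = ((1 / 4 : ℝ) : ℂ) := by push_cast; rfl
  rw [hexp, h14, Complex.re_ofReal_mul, hre, abs_mul, abs_neg]
  have hsum : |∑ al, ∑ be, (w al be).im * (g al be).im| ≤
      (∑ al, ∑ be, |(w al be).im|) * ‖i u‖ ^ 2 := by
    rw [Finset.sum_mul]
    refine (Finset.abs_sum_le_sum_abs _ _).trans (Finset.sum_le_sum (fun al _ => ?_))
    rw [Finset.sum_mul]
    refine (Finset.abs_sum_le_sum_abs _ _).trans (Finset.sum_le_sum (fun be _ => ?_))
    rw [abs_mul]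
    exact mul_le_mul_of_nonneg_left (h.gram_im al be u) (abs_nonneg _)
  have hq : |(1 / 4 : ℝ)| = 1 / 4 := abs_of_pos (by norm_num)
  rw [hq]
  have hnn := abs_nonneg (∑ al, ∑ be, (w al be).im * (g al be).im)
  linarith

/-- Extraction of complex coefficients of a real linear functional. -/
theorem functional_coeffs {m : ℕ} (R : (Fin m → ℂ) →ₗ[ℝ] ℂ) :
    ∃ p q : Fin m → ℂ, ∀ w, R w = ∑ l, (p l * w l + q l * conj (w l)) := by
  refine ⟨fun l => (R (Pi.single l 1) - Complex.I * R (Pi.single l Complex.I)) / 2,
    fun l => (R (Pi.single l 1) + Complex.I * R (Pi.single l Complex.I)) / 2, fun w => ?_⟩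
  have h1 : w = ∑ l, ((w l).re • (Pi.single l (1 : ℂ) : Fin m → ℂ) +
      (w l).im • (Pi.single l Complex.I : Fin m → ℂ)) := by
    ext j
    rw [Finset.sum_apply, Finset.sum_eq_single j]
    · simp [Complex.re_add_im]
    · intro k _ hk
      have : ¬ (j = k) := fun h => hk h.symm
      simp [Pi.single_apply, this]
    · intro h; exact absurd (Finset.mem_univ j) h
  conv_lhs => rw [h1]
  rw [map_sum]
  refine Finset.sum_congr rfl (fun l _ => ?_)
  rw [map_add, map_smul, map_smul]
  have h2 : w l = (w l).re + (w l).im * Complex.I := (Complex.re_add_im _).symm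
  have h3 : conj (w l) = (w l).re - (w l).im * Complex.I := by
    conv_lhs => rw [h2]
    simp only [map_add, map_mul, Complex.conj_ofReal, Complex.conj_I]
    ring
  rw [h3]
  conv_rhs => rw [h2]
  simp only [Complex.real_smul, Complex.add_re, Complex.ofReal_re, Complex.mul_re, Complex.I_re,
    mul_zero, Complex.ofReal_im, Complex.I_im, mul_one, sub_self, add_zero, Complex.add_im,
    Complex.mul_im, zero_add]
  linear_combination ((w l).im * R (Pi.single l Complex.I)) * Complex.I_mul_I

end Pool.Agent.Helper63.GQ
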