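import Mathlib
import Pool.Agent.Helper63.GQCCR

/-! Form estimates for the Gaussian generator. -/

namespace Pool.Agent.Helper63.GQ

open ComplexConjugate

variable {d : ℕ} {W : Type*} [AddCommGroup W] [Module ℂ W]
variable {E : Type*} [NormedAddCommGroup E] [InnerProductSpace ℂ E]
variable {i : W →ₗ[ℂ] E} {a c : Fin d → W →ₗ[ℂ] W} (p : Params d)

/-- The real linear functionals attached to the parameters. -/
noncomputable def Lam (l : Fin (2 * d)) : (Fin d → ℂ) →ₗ[ℝ] ℂ :=
  ∑ k, (conj (p.V l k) • co k + p.U l k • cb k)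

noncomputable def LamB (l : Fin (2 * d)) : (Fin d → ℂ) →ₗ[ℝ] ℂ :=
  ∑ k, (p.V l k • cb k + conj (p.U l k) • co k)

noncomputable def hh (j : Fin d) : (Fin d → ℂ) →ₗ[ℝ] ℂ :=
  ∑ k, (p.Ω j k • co k + p.κ j k • cb k)

noncomputable def ze : (Fin d → ℂ) →ₗ[ℝ] ℂ :=
  ∑ j, ((p.ζ j / 2) • cb j + (conj (p.ζ j) / 2) • co j)

theorem Lam_apply (l : Fin (2 * d)) (z : Fin d → ℂ) :
    Lam p l z = ∑ k, (conj (p.V l k) * z k + p.U l k * conj (z k)) := by
  simp [Lam, co_apply, cb_apply]

theorem LamB_apply (l : Fin (2 * d)) (z : Fin d → ℂ) : LamB p l z = conj (Lam p l z) := by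
  rw [Lam_apply, map_sum]
  simp only [LamB, LinearMap.sum_apply, LinearMap.add_apply, LinearMap.smul_apply, co_apply,
    cb_apply, smul_eq_mul]
  refine Finset.sum_congr rfl (fun k _ => ?_)
  simp

theorem hh_apply (j : Fin d) (z : Fin d → ℂ) :
    hh p j z = ∑ k, (p.Ω j k * z k + p.κ j k * conj (z k)) := by
  simp [hh, co_apply, cb_apply]

theorem ze_apply (z : Fin d → ℂ) : ze p z = ((∑ j, conj (p.ζ j) * z j).re : ℂ) := by
  simp only [ze, LinearMap.sum_apply, LinearMap.add_apply, LinearMap.smul_apply, co_apply,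
    cb_apply, smul_eq_mul]
  rw [Complex.re_sum, Complex.ofReal_sum]
  refine Finset.sum_congr rfl (fun j _ => ?_)
  rw [Complex.re_eq_add_conj]
  simp only [map_mul, Complex.conj_conj]
  ring

theorem Op_Lam (l : Fin (2 * d)) : Op a c (Lam p l) = kraus p a c l := by
  simp only [Lam, kraus, Op_sum, Op_add, Op_smul, Op_co, Op_cb]

theorem Op_LamB (l : Fin (2 * d)) : Op a c (LamB p l) = krausAdj p a c l := by
  simp only [LamB, krausAdj, Op_sum, Op_add, Op_smul, Op_co, Op_cb]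

theorem Op_hh (j : Fin d) : Op a c (hh p j) = ∑ k, (p.Ω j k • a k + p.κ j k • c k) := by
  simp only [hh, Op_sum, Op_add, Op_smul, Op_co, Op_cb]

theorem Op_ze : Op a c (ze p) = ∑ j, ((p.ζ j / 2) • c j + (conj (p.ζ j) / 2) • a j) := by
  simp only [ze, Op_sum, Op_add, Op_smul, Op_co, Op_cb]

theorem CCR.kraus_adj (h : CCR i a c) (l : Fin (2 * d)) (x y : W) :
    inner ℂ (i x) (i (krausAdj p a c l y)) = inner ℂ (i (kraus p a c l x)) (i y) := by
  simp only [krausAdj, kraus, LinearMap.sum_apply, LinearMap.add_apply, LinearMap.smul_apply,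
    map_sum, map_add, map_smul, inner_sum, sum_inner, inner_add_left, inner_add_right,
    inner_smul_left, inner_smul_right, h.adj, h.adj', Complex.conj_conj]

theorem re_eq_of_conj_eq {z : ℂ} (h : conj z = z) : z = (z.re : ℂ) :=
  (Complex.conj_eq_iff_re.1 h).symm

/-- The quadratic part of the Hamiltonian form. -/
theorem CCR.quad (h : CCR i a c) (u : W) :
    inner ℂ (i u) (i ((∑ j, ∑ k, (p.Ω j k • (c j ∘ₗ a k) + (p.κ j k / 2) • (c j ∘ₗ c k) +
      (conj (p.κ j k) / 2) • (a j ∘ₗ a k))) u)) =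
    ((∑ j, inner ℂ (i (a j u)) (i (Op a c (hh p j) u))).re : ℂ) := by
  set S1 : ℂ := ∑ j, ∑ k, p.Ω j k * inner ℂ (i (a j u)) (i (a k u)) with hS1
  set S2 : ℂ := ∑ j, ∑ k, p.κ j k * inner ℂ (i (a j u)) (i (c k u)) with hS2
  set S3 : ℂ := ∑ j, ∑ k, conj (p.κ j k) * inner ℂ (i (c j u)) (i (a k u)) with hS3
  have h1 : conj S1 = S1 := by
    rw [hS1, map_sum, Finset.sum_comm]
    rw [Finset.sum_comm]
    have : ∀ j k, conj (p.Ω j k * inner ℂ (i (a j u)) (i (a k u))) =
        p.Ω k j * inner ℂ (i (a k u)) (i (a j u)) := by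
      intro j k
      rw [map_mul, inner_conj_symm]
      have := p.hermitian.apply k j
      rw [← this]
      rfl
    simp only [map_sum, this]
    rw [Finset.sum_comm]
  have h2 : conj S2 = S3 := by
    have : ∀ j k, conj (p.κ j k * inner ℂ (i (a j u)) (i (c k u))) =
        conj (p.κ k j) * inner ℂ (i (c k u)) (i (a j u)) := by
      intro j k
      rw [map_mul, inner_conj_symm, p.symmetric.apply]
    rw [hS2, hS3]
    simp only [map_sum, this]
    rw [Finset.sum_comm]
  have hR : ∑ j, inner ℂ (i (a j u)) (i (Op a c (hh p j) u)) = S1 + S2 := by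
    simp only [Op_hh, LinearMap.sum_apply, LinearMap.add_apply, LinearMap.smul_apply, map_sum,
      map_add, map_smul, inner_sum, inner_add_right, inner_smul_right, Finset.sum_add_distrib,
      hS1, hS2]
  have hL : inner ℂ (i u) (i ((∑ j, ∑ k, (p.Ω j k • (c j ∘ₗ a k) +
      (p.κ j k / 2) • (c j ∘ₗ c k) +
      (conj (p.κ j k) / 2) • (a j ∘ₗ a k))) u)) = S1 + S2 / 2 + S3 / 2 := by
    simp only [LinearMap.sum_apply, LinearMap.add_apply, LinearMap.smul_apply, map_sum,
      LinearMap.comp_apply, map_add, map_smul, inner_sum, inner_add_right, inner_smul_right,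
      Finset.sum_add_distrib, hS1, hS2, hS3, Finset.sum_div]
    simp only [← h.adj, ← h.adj']
    congr 1
    · congr 1
      refine Finset.sum_congr rfl (fun j _ => Finset.sum_congr rfl (fun k _ => ?_))
      ring
    · refine Finset.sum_congr rfl (fun j _ => Finset.sum_congr rfl (fun k _ => ?_))
      ring
  rw [hL, hR, ← h2]
  rw [Complex.add_re, Complex.ofReal_add, ← re_eq_of_conj_eq h1, Complex.re_eq_add_conj]
  ring

/-- The linear part of the Hamiltonian form. -/
theorem CCR.lin (h : CCR i a c) (u : W) :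
    inner ℂ (i u) (i (Op a c (ze p) u)) = ((inner ℂ (i u) (i (Op a c (ze p) u))).re : ℂ) := by
  apply re_eq_of_conj_eq
  rw [inner_conj_symm]
  simp only [Op_ze, LinearMap.sum_apply, LinearMap.add_apply, LinearMap.smul_apply, map_sum,
      map_add, map_smul, inner_sum, sum_inner, inner_add_left, inner_add_right, inner_smul_right,
      inner_smul_left, h.adj, h.adj']
  refine Finset.sum_congr rfl (fun j _ => ?_)
  simp only [map_div₀, Complex.conj_conj, map_ofNat]
  ring

theorem ham_eq : ham p a c = (∑ j, ∑ k, (p.Ω j k • (c j ∘ₗ a k) +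
      (p.κ j k / 2) • (c j ∘ₗ c k) +
      (conj (p.κ j k) / 2) • (a j ∘ₗ a k))) + Op a c (ze p) := by
  rw [Op_ze, ham, hamQuad, hamLin]

theorem CCR.ham_form (h : CCR i a c) (u : W) :
    inner ℂ (i u) (i (ham p a c u)) =
    (((∑ j, inner ℂ (i (a j u)) (i (Op a c (hh p j) u))).re +
      (inner ℂ (i u) (i (Op a c (ze p) u))).re : ℝ) : ℂ) := by
  rw [ham_eq, LinearMap.add_apply, map_add, inner_add_right, h.quad, h.lin]
  push_cast
  rfl

theorem CCR.gen_form (h : CCR i a c) (u : W) :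
    inner ℂ (i u) (i (gen p a c u)) =
      -(Complex.I * ((inner ℂ (i u) (i (ham p a c u))).re : ℂ)) -
        (((1 / 2) * ∑ l, ‖i (kraus p a c l u)‖ ^ 2 : ℝ) : ℂ) := by
  have h1 : inner ℂ (i u) (i (ham p a c u)) = ((inner ℂ (i u) (i (ham p a c u))).re : ℂ) := by
    rw [h.ham_form, Complex.ofReal_re]
  simp only [gen, LinearMap.sub_apply, LinearMap.neg_apply, LinearMap.smul_apply,
    LinearMap.sum_apply, LinearMap.comp_apply, map_sub, map_neg, map_smul, map_sum,
    inner_sub_right, inner_neg_right, inner_smul_right, inner_sum, h.kraus_adj,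
    inner_self_eq_norm_sq_to_K]
  rw [← h1]
  push_cast
  rfl

theorem CCR.gen_re (h : CCR i a c) (u : W) :
    (inner ℂ (i u) (i (gen p a c u))).re = -((1 / 2) * ∑ l, ‖i (kraus p a c l u)‖ ^ 2) := by
  rw [h.gen_form, Complex.sub_re, Complex.ofReal_re, Complex.neg_re, Complex.I_mul_re,
    Complex.ofReal_im]
  ring

theorem CCR.gen_im (h : CCR i a c) (u : W) :
    (inner ℂ (i u) (i (gen p a c u))).im = -(inner ℂ (i u) (i (ham p a c u))).re := by
  rw [h.gen_form, Complex.sub_im, Complex.ofReal_im, Complex.neg_im, Complex.I_mul_im,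
    Complex.ofReal_re, sub_zero]

/-- The size of the dissipative part. -/
noncomputable def Nn (i : W →ₗ[ℂ] E) (a c : Fin d → W →ₗ[ℂ] W) (u : W) : ℝ :=
  (∑ l, ‖i (kraus p a c l u)‖ ^ 2) + ‖i u‖ ^ 2

theorem kraus_le (l : Fin (2 * d)) (u : W) : ‖i (kraus p a c l u)‖ ^ 2 ≤ Nn p i a c u := by
  unfold Nn
  have h1 := Finset.single_le_sum (f := fun l => ‖i (kraus p a c l u)‖ ^ 2)
    (fun l _ => by positivity) (Finset.mem_univ l)
  have h2 : (0 : ℝ) ≤ ‖i u‖ ^ 2 := by positivity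
  linarith

theorem self_le (u : W) : ‖i u‖ ^ 2 ≤ Nn p i a c u := by
  unfold Nn
  have h2 : (0 : ℝ) ≤ ∑ l, ‖i (kraus p a c l u)‖ ^ 2 := Finset.sum_nonneg (fun l _ => by positivity)
  linarith

theorem Nn_nonneg (u : W) : 0 ≤ Nn p i a c u := (sq_nonneg _).trans (self_le p u)

theorem CCR.krausAdj_le (h : CCR i a c) :
    ∃ K : ℝ, 0 ≤ K ∧ ∀ l u, ‖i (krausAdj p a c l u)‖ ^ 2 ≤ K * Nn p i a c u := by
  have hl : ∀ l, ∃ C : ℝ, 0 ≤ C ∧ ∀ u, ‖i (krausAdj p a c l u)‖ ^ 2 ≤
      ‖i (kraus p a c l u)‖ ^ 2 + C * ‖i u‖ ^ 2 := by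
    intro l
    obtain ⟨C, hC, hb⟩ := h.symbol_zero (κ := Bool)
      (fun s => if s then LamB p l else Lam p l) (fun s => if s then LamB p l else -(Lam p l)) (by
        intro z
        simp only [Fintype.sum_bool, if_true, Bool.false_eq_true, if_false, LamB_apply,
          LinearMap.neg_apply, Complex.conj_conj]
        have : Lam p l z * conj (Lam p l z) + conj (Lam p l z) * -(Lam p l z) = 0 := by ring
        rw [this, Complex.zero_re])
    refine ⟨C, hC, fun u => ?_⟩
    have h1 := hb u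
    have hneg : Op a c (-(Lam p l)) = -(kraus p a c l) := by
      have : -(Lam p l) = (-1 : ℂ) • Lam p l := by
        ext z; simp
      rw [this, Op_smul, Op_Lam]
      ext x; simp
    simp only [Fintype.sum_bool, if_true, Bool.false_eq_true, if_false, Op_LamB, Op_Lam, hneg,
      LinearMap.neg_apply, map_neg, inner_neg_right, Complex.add_re, Complex.neg_re] at h1
    have h2 : ∀ x : E, (inner ℂ x x).re = ‖x‖ ^ 2 := fun x => inner_self_eq_norm_sq (𝕜 := ℂ) x
    rw [h2, h2] at h1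
    have h3 := (abs_le.1 h1).2
    linarith
  choose C hC hb using hl
  refine ⟨1 + ∑ l, C l, add_nonneg zero_le_one (Finset.sum_nonneg (fun l _ => hC l)),
    fun l u => ?_⟩
  have h1 := hb l u
  have h2 := kraus_le (i := i) (a := a) (c := c) p l u
  have h3 := self_le (i := i) (a := a) (c := c) p u
  have h4 : C l ≤ ∑ l, C l := Finset.single_le_sum (fun l _ => hC l) (Finset.mem_univ l)
  have h5 : C l * ‖i u‖ ^ 2 ≤ (∑ l, C l) * Nn p i a c u := by
    apply mul_le_mul h4 h3 (by positivity) (Finset.sum_nonneg (fun l _ => hC l))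
  linarith

/-- Lemma R: operators of functionals factoring through `Lam` are controlled. -/
theorem CCR.factor_le (h : CCR i a c) (T : (Fin d → ℂ) →ₗ[ℝ] ℂ)
    (R : (Fin (2 * d) → ℂ) →ₗ[ℝ] ℂ) (hT : ∀ z, T z = R (fun l => Lam p l z)) :
    ∃ K : ℝ, 0 ≤ K ∧ ∀ u, ‖i (Op a c T u)‖ ≤ K * √(Nn p i a c u) := by
  obtain ⟨K, hK, hK2⟩ := h.krausAdj_le p
  obtain ⟨r, q, hrq⟩ := functional_coeffs R
  have hT2 : T = ∑ l, (r l • Lam p l + q l • LamB p l) := by
    refine LinearMap.ext (fun z => ?_)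
    rw [hT, hrq]
    simp [LamB_apply]
  refine ⟨∑ l, (‖r l‖ + ‖q l‖ * √K), Finset.sum_nonneg (fun l _ => by positivity), fun u => ?_⟩
  rw [hT2, Op_sum, Finset.sum_mul]
  simp only [LinearMap.sum_apply, map_sum]
  refine (norm_sum_le _ _).trans (Finset.sum_le_sum (fun l _ => ?_))
  rw [Op_add, Op_smul, Op_smul, Op_Lam, Op_LamB, LinearMap.add_apply, LinearMap.smul_apply,
    LinearMap.smul_apply, map_add, map_smul, map_smul, add_mul]
  refine (norm_add_le _ _).trans (add_le_add ?_ ?_)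
  · rw [norm_smul]
    gcongr
    exact Real.le_sqrt_of_sq_le (kraus_le p l u)
  · rw [norm_smul, mul_assoc, ← Real.sqrt_mul hK]
    gcongr
    exact Real.le_sqrt_of_sq_le (hK2 l u)

/-- Symmetry of the real bilinear form of the Hamiltonian. -/
theorem form_symm (x y : Fin d → ℂ) :
    (∑ j, conj (x j) * hh p j y).re = (∑ j, conj (y j) * hh p j x).re := by
  simp only [hh_apply, Finset.mul_sum, mul_add, Finset.sum_add_distrib, Complex.add_re]
  congr 1
  · have : ∑ j, ∑ k, conj (x j) * (p.Ω j k * y k) =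
        conj (∑ j, ∑ k, conj (y j) * (p.Ω j k * x k)) := by
      simp only [map_sum, map_mul, Complex.conj_conj]
      rw [Finset.sum_comm]
      refine Finset.sum_congr rfl (fun j _ => Finset.sum_congr rfl (fun k _ => ?_))
      have := p.hermitian.apply k j
      rw [← this]
      simp only [RCLike.star_def]
      ring
    rw [this, Complex.conj_re]
  · rw [Finset.sum_comm]
    congr 1
    refine Finset.sum_congr rfl (fun j _ => Finset.sum_congr rfl (fun k _ => ?_))
    rw [p.symmetric.apply]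
    ring

/-- The classification condition. -/
def Cond : Prop := ∀ z : Fin d → ℂ, (∀ l, Lam p l z = 0) → (∀ j, hh p j z = 0) ∧ ze p z = 0

/-- A generalised inverse. -/
theorem gen_inverse {V V' : Type*} [AddCommGroup V] [Module ℝ V] [AddCommGroup V'] [Module ℝ V']
    (f : V →ₗ[ℝ] V') : ∃ g : V' →ₗ[ℝ] V, ∀ v, f (g (f v)) = f v := by
  obtain ⟨g₀, hg₀⟩ := f.rangeRestrict.exists_rightInverse_of_surjective f.range_rangeRestrict
  obtain ⟨g, hg⟩ := g₀.exists_extend
  refine ⟨g, fun v => ?_⟩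
  have h1 : g (f v) = g₀ ⟨f v, LinearMap.mem_range_self f v⟩ := by
    rw [← hg]; rfl
  rw [h1]
  have h2 := LinearMap.congr_fun hg₀ ⟨f v, LinearMap.mem_range_self f v⟩
  have h3 := congrArg Subtype.val h2
  exact h3

/-- The Hamiltonian form is bounded by the dissipative part. -/
theorem CCR.ham_le (h : CCR i a c) (hc : Cond p) :
    ∃ K : ℝ, 0 ≤ K ∧ ∀ u, |(inner ℂ (i u) (i (ham p a c u))).re| ≤ K * Nn p i a c u := by
  obtain ⟨G, hG⟩ := gen_inverse (LinearMap.pi (Lam p))
  let P : (Fin d → ℂ) →ₗ[ℝ] (Fin d → ℂ) := G ∘ₗ LinearMap.pi (Lam p)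
  have hP : ∀ z l, Lam p l (z - P z) = 0 := by
    intro z l
    have := congrFun (hG z) l
    rw [map_sub, sub_eq_zero]
    exact this.symm
  have hhP : ∀ j z, hh p j (z - P z) = 0 := fun j z => (hc _ (hP z)).1 j
  have hzP : ∀ z, ze p (z - P z) = 0 := fun z => (hc _ (hP z)).2
  have hhP' : ∀ j z, hh p j z = hh p j (P z) := by
    intro j z
    have := hhP j z
    rwa [map_sub, sub_eq_zero] at this
  have hzP' : ∀ z, ze p z = ze p (P z) := by
    intro z
    have := hzP z
    rwa [map_sub, sub_eq_zero] at this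
  -- the controlled operators
  have h1 : ∀ j, ∃ K : ℝ, 0 ≤ K ∧ ∀ u, ‖i (Op a c (co j ∘ₗ P) u)‖ ≤ K * √(Nn p i a c u) :=
    fun j => h.factor_le p (co j ∘ₗ P) (co j ∘ₗ G) (fun z => rfl)
  have h2 : ∀ j, ∃ K : ℝ, 0 ≤ K ∧ ∀ u, ‖i (Op a c (hh p j) u)‖ ≤ K * √(Nn p i a c u) :=
    fun j => h.factor_le p (hh p j) (hh p j ∘ₗ G) (fun z => hhP' j z)
  obtain ⟨K3, hK3, h3⟩ := h.factor_le p (ze p) (ze p ∘ₗ G) (fun z => hzP' z)
  choose K1 hK1 h1 using h1
  choose K2 hK2 h2 using h2
  obtain ⟨C, hC, hb⟩ := h.symbol_zero (fun j => co j - co j ∘ₗ P) (fun j => hh p j) (by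
    intro z
    have e := form_symm p (z - P z) z
    have e2 : ∑ j, conj (z j) * hh p j (z - P z) = 0 :=
      Finset.sum_eq_zero (fun j _ => by rw [hhP, mul_zero])
    rw [e2, Complex.zero_re] at e
    exact e)
  refine ⟨C + ∑ j, K1 j * K2 j + K3, by
    have : 0 ≤ ∑ j, K1 j * K2 j := Finset.sum_nonneg (fun j _ => mul_nonneg (hK1 j) (hK2 j))
    positivity, fun u => ?_⟩
  have hN := Nn_nonneg (i := i) (a := a) (c := c) p u
  have hself := self_le (i := i) (a := a) (c := c) p u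
  have hsq : √(Nn p i a c u) * √(Nn p i a c u) = Nn p i a c u := Real.mul_self_sqrt hN
  have hself' : ‖i u‖ ≤ √(Nn p i a c u) := Real.le_sqrt_of_sq_le hself
  rw [h.ham_form, Complex.ofReal_re]
  have hsplit : ∑ j, inner ℂ (i (a j u)) (i (Op a c (hh p j) u)) =
      ∑ j, inner ℂ (i (Op a c (co j - co j ∘ₗ P) u)) (i (Op a c (hh p j) u)) +
      ∑ j, inner ℂ (i (Op a c (co j ∘ₗ P) u)) (i (Op a c (hh p j) u)) := by
    rw [← Finset.sum_add_distrib]
    refine Finset.sum_congr rfl (fun j _ => ?_)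
    rw [← inner_add_left, ← map_add, ← LinearMap.add_apply, ← Op_add, sub_add_cancel, Op_co]
  have e1 : |(∑ j, inner ℂ (i (a j u)) (i (Op a c (hh p j) u))).re| ≤
      (C + ∑ j, K1 j * K2 j) * Nn p i a c u := by
    rw [hsplit, Complex.add_re, add_mul]
    refine (abs_add_le _ _).trans (add_le_add ?_ ?_)
    · exact (hb u).trans (mul_le_mul_of_nonneg_left hself hC)
    · refine (Complex.abs_re_le_norm _).trans ((norm_sum_le _ _).trans ?_)
      rw [Finset.sum_mul]
      refine Finset.sum_le_sum (fun j _ => (norm_inner_le_norm _ _).trans ?_)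
      calc _ ≤ (K1 j * √(Nn p i a c u)) * (K2 j * √(Nn p i a c u)) :=
            mul_le_mul (h1 j u) (h2 j u) (norm_nonneg _)
              (mul_nonneg (hK1 j) (Real.sqrt_nonneg _))
        _ = K1 j * K2 j * (√(Nn p i a c u) * √(Nn p i a c u)) := by ring
        _ = K1 j * K2 j * Nn p i a c u := by rw [hsq]
  have e2 : |(inner ℂ (i u) (i (Op a c (ze p) u))).re| ≤ K3 * Nn p i a c u := by
    refine (Complex.abs_re_le_norm _).trans ((norm_inner_le_norm _ _).trans ?_)
    calc _ ≤ √(Nn p i a c u) * (K3 * √(Nn p i a c u)) :=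
          mul_le_mul hself' (h3 u) (norm_nonneg _) (Real.sqrt_nonneg _)
      _ = K3 * (√(Nn p i a c u) * √(Nn p i a c u)) := by ring
      _ = K3 * Nn p i a c u := by rw [hsq]
  calc _ ≤ _ := abs_add_le _ _
    _ ≤ (C + ∑ j, K1 j * K2 j) * Nn p i a c u + K3 * Nn p i a c u := add_le_add e1 e2
    _ = _ := by ring

/-- The sectorial estimate. -/
theorem CCR.sectorial (h : CCR i a c) (hc : Cond p) :
    ∃ k : ℝ, 0 < k ∧ ∀ u, k * |(inner ℂ (i u) (i (gen p a c u))).im| ≤
      -(inner ℂ (i u) (i (gen p a c u))).re + ‖i u‖ ^ 2 := by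
  obtain ⟨K, hK, hb⟩ := h.ham_le p hc
  refine ⟨1 / (2 * (K + 1)), by positivity, fun u => ?_⟩
  rw [h.gen_im, abs_neg, h.gen_re, neg_neg, one_div, inv_mul_le_iff₀ (by positivity)]
  have h1 := hb u
  have h2 : (0 : ℝ) ≤ ∑ l, ‖i (kraus p a c l u)‖ ^ 2 := Finset.sum_nonneg (fun l _ => by positivity)
  have h3 : (0 : ℝ) ≤ ‖i u‖ ^ 2 := by positivity
  unfold Nn at h1
  nlinarith

end Pool.Agent.Helper63.GQ
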