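import Mathlib
import Pool.Agent.Helper63.GQForm

/-! Coherent vectors as quasimodes of the Gaussian generator and the necessity of the
classification condition. -/

namespace Pool.Agent.Helper63.GQ

open ComplexConjugate

variable {d : ℕ} {W : Type*} [AddCommGroup W] [Module ℂ W]
variable {E : Type*} [NormedAddCommGroup E] [InnerProductSpace ℂ E]
variable {i : W →ₗ[ℂ] E} {a c : Fin d → W →ₗ[ℂ] W} (p : Params d)

/-- The symbol of the Hamiltonian. -/
noncomputable def Hs (al : Fin d → ℂ) : ℝ :=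
  (∑ j, conj (al j) * hh p j al).re + (ze p al).re

/-- Excited vectors. -/
noncomputable def q1 (c : Fin d → W →ₗ[ℂ] W) (al : Fin d → ℂ) (psi : W) (j : Fin d) : W :=
  c j psi - conj (al j) • psi

noncomputable def q2 (c : Fin d → W →ₗ[ℂ] W) (al : Fin d → ℂ) (psi : W) (j k : Fin d) : W :=
  c j (q1 c al psi k) - conj (al j) • q1 c al psi k

variable {al : Fin d → ℂ} {psi : W}

theorem c_psi (j : Fin d) : c j psi = q1 c al psi j + conj (al j) • psi := by
  simp [q1]

theorem c_q1 (j k : Fin d) :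
    c j (q1 c al psi k) = q2 c al psi j k + conj (al j) • q1 c al psi k := by
  simp [q2]

theorem CCR.a_q1 (h : CCR i a c) (hpsi : ∀ j, a j psi = al j • psi) (j k : Fin d) :
    a j (q1 c al psi k) = al j • q1 c al psi k + if j = k then psi else 0 := by
  unfold q1
  rw [map_sub, map_smul, h.comm, hpsi, map_smul]
  module

theorem CCR.q1_inner (h : CCR i a c) (psi : W) (j : Fin d) (x : W) :
    inner ℂ (i (q1 c al psi j)) (i x) = inner ℂ (i psi) (i (a j x - al j • x)) := by
  unfold q1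
  rw [map_sub, map_smul, inner_sub_left, inner_smul_left, h.adj', map_sub, map_smul,
    inner_sub_right, inner_smul_right, Complex.conj_conj]

theorem CCR.q1_norm (h : CCR i a c) (hpsi : ∀ j, a j psi = al j • psi) (hn : ‖i psi‖ = 1)
    (j : Fin d) : ‖i (q1 c al psi j)‖ = 1 := by
  have h1 : inner ℂ (i (q1 c al psi j)) (i (q1 c al psi j)) = (1 : ℂ) := by
    rw [h.q1_inner, h.a_q1 hpsi, if_pos rfl, add_sub_cancel_left, inner_self_eq_norm_sq_to_K, hn]
    simp
  have h2 : (inner ℂ (i (q1 c al psi j)) (i (q1 c al psi j))).re = ‖i (q1 c al psi j)‖ ^ 2 :=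
    inner_self_eq_norm_sq (𝕜 := ℂ) _
  rw [h1, Complex.one_re] at h2
  have h3 := norm_nonneg (i (q1 c al psi j))
  nlinarith

theorem CCR.q2_inner (h : CCR i a c) (psi : W) (j k : Fin d) (x : W) :
    inner ℂ (i (q2 c al psi j k)) (i x) =
      inner ℂ (i (q1 c al psi k)) (i (a j x - al j • x)) := by
  unfold q2
  rw [map_sub, map_smul, inner_sub_left, inner_smul_left, h.adj', map_sub, map_smul,
    inner_sub_right, inner_smul_right, Complex.conj_conj]

theorem CCR.q2_norm (h : CCR i a c) (hpsi : ∀ j, a j psi = al j • psi) (hn : ‖i psi‖ = 1)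
    (j k : Fin d) : ‖i (q2 c al psi j k)‖ ≤ 2 := by
  have e1 : inner ℂ (i (q2 c al psi j k)) (i (q2 c al psi j k)) =
      inner ℂ (i (q1 c al psi k)) (i (a j (q2 c al psi j k) - al j • q2 c al psi j k)) :=
    h.q2_inner psi j k _
  have e2 : a j (q2 c al psi j k) - al j • q2 c al psi j k =
      (if j = k then q1 c al psi j else 0) + q1 c al psi k := by
    rw [q2, map_sub, map_smul, h.comm, if_pos rfl, h.a_q1 hpsi]
    split_ifs with hjk
    · subst hjk
      rw [map_add, map_smul, c_psi (c := c) (al := al) (psi := psi)]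
      module
    · rw [add_zero, map_smul]
      module
  have h1 : ‖i (q2 c al psi j k)‖ ^ 2 ≤ 2 := by
    have h2 : (inner ℂ (i (q2 c al psi j k)) (i (q2 c al psi j k))).re =
        ‖i (q2 c al psi j k)‖ ^ 2 := inner_self_eq_norm_sq (𝕜 := ℂ) _
    rw [← h2, e1, e2]
    refine (Complex.re_le_norm _).trans ((norm_inner_le_norm _ _).trans ?_)
    rw [h.q1_norm hpsi hn, one_mul, map_add]
    refine (norm_add_le _ _).trans ?_
    rw [h.q1_norm hpsi hn]
    split_ifs
    · rw [h.q1_norm hpsi hn]; norm_num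
    · simp
  nlinarith [norm_nonneg (i (q2 c al psi j k))]

/-- The symbol of the Hamiltonian as a polynomial. -/
theorem Hs_eq (al : Fin d → ℂ) : ((Hs p al : ℝ) : ℂ) =
    (∑ j, ∑ k, (p.Ω j k * (al k * conj (al j)) + p.κ j k / 2 * (conj (al j) * conj (al k)) +
      conj (p.κ j k) / 2 * (al j * al k))) +
    ∑ j, (p.ζ j / 2 * conj (al j) + conj (p.ζ j) / 2 * al j) := by
  unfold Hs
  rw [Complex.ofReal_add]
  congr 1
  · set S1 : ℂ := ∑ j, ∑ k, p.Ω j k * (al k * conj (al j)) with hS1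
    set S2 : ℂ := ∑ j, ∑ k, p.κ j k * (conj (al j) * conj (al k)) with hS2
    set S3 : ℂ := ∑ j, ∑ k, conj (p.κ j k) * (al j * al k) with hS3
    have h1 : conj S1 = S1 := by
      have : ∀ j k, conj (p.Ω j k * (al k * conj (al j))) =
          p.Ω k j * (al j * conj (al k)) := by
        intro j k
        have := p.hermitian.apply k j
        rw [← this]
        simp only [map_mul, Complex.conj_conj, RCLike.star_def]
        ring
      rw [hS1]
      simp only [map_sum, this]
      rw [Finset.sum_comm]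
    have h2 : conj S2 = S3 := by
      rw [hS2, hS3]
      simp only [map_sum, map_mul, Complex.conj_conj]
    have hR : ∑ j, conj (al j) * hh p j al = S1 + S2 := by
      simp only [hh_apply, Finset.mul_sum, hS1, hS2, ← Finset.sum_add_distrib]
      refine Finset.sum_congr rfl (fun j _ => Finset.sum_congr rfl (fun k _ => ?_))
      ring
    have hL : ∑ j, ∑ k, (p.Ω j k * (al k * conj (al j)) +
        p.κ j k / 2 * (conj (al j) * conj (al k)) + conj (p.κ j k) / 2 * (al j * al k)) =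
        S1 + S2 / 2 + S3 / 2 := by
      simp only [Finset.sum_add_distrib, hS1, hS2, hS3, Finset.sum_div]
      congr 1
      · congr 1
        refine Finset.sum_congr rfl (fun j _ => Finset.sum_congr rfl (fun k _ => ?_))
        ring
      · refine Finset.sum_congr rfl (fun j _ => Finset.sum_congr rfl (fun k _ => ?_))
        ring
    rw [hR, hL, ← h2, Complex.add_re, Complex.ofReal_add, ← re_eq_of_conj_eq h1,
      Complex.re_eq_add_conj S2]
    ring
  · rw [ze_apply, Complex.ofReal_re, Complex.re_sum, Complex.ofReal_sum]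
    refine Finset.sum_congr rfl (fun j _ => ?_)
    rw [Complex.re_eq_add_conj]
    simp only [map_mul, Complex.conj_conj]
    ring

theorem CCR.ham_psi (h : CCR i a c) (hpsi : ∀ j, a j psi = al j • psi) :
    ham p a c psi = ((Hs p al : ℝ) : ℂ) • psi + (∑ j, (hh p j al + p.ζ j / 2) • q1 c al psi j +
      ∑ j, ∑ k, (p.κ j k / 2) • q2 c al psi j k) := by
  have e1 : ∀ j k, c j (a k psi) = al k • q1 c al psi j + (al k * conj (al j)) • psi := by
    intro j k
    rw [hpsi, map_smul, c_psi (c := c) (al := al) (psi := psi), smul_add, smul_smul]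
  have e2 : ∀ j k, c j (c k psi) = q2 c al psi j k + conj (al j) • q1 c al psi k +
      conj (al k) • q1 c al psi j + (conj (al j) * conj (al k)) • psi := by
    intro j k
    rw [c_psi (c := c) (al := al) (psi := psi) k, map_add, map_smul, c_q1, c_psi (c := c) (al := al) (psi := psi) j]
    module
  have e3 : ∀ j k, a j (a k psi) = (al j * al k) • psi := by
    intro j k
    rw [hpsi, map_smul, hpsi, smul_smul, mul_comm]
  have e4 : ∑ j, ∑ k, (p.κ j k / 2) • (conj (al j) • q1 c al psi k) =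
      ∑ j, ∑ k, (p.κ j k / 2) • (conj (al k) • q1 c al psi j) := by
    rw [Finset.sum_comm]
    refine Finset.sum_congr rfl (fun j _ => Finset.sum_congr rfl (fun k _ => ?_))
    rw [p.symmetric.apply]
  simp only [ham, hamQuad, hamLin, LinearMap.add_apply, LinearMap.sum_apply, LinearMap.smul_apply,
    LinearMap.comp_apply, e1, e2, e3, smul_add, Finset.sum_add_distrib, e4]
  rw [Hs_eq]
  simp only [hh_apply, add_smul, Finset.sum_smul, Finset.sum_add_distrib]
  simp only [c_psi (c := c) (al := al) (psi := psi), hpsi, smul_add, smul_smul, Finset.sum_add_distrib]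
  have e5 : ∑ j, ∑ k, (p.κ j k * conj (al k)) • q1 c al psi j =
      ∑ j, ∑ k, (p.κ j k / 2 * conj (al k)) • q1 c al psi j +
      ∑ j, ∑ k, (p.κ j k / 2 * conj (al k)) • q1 c al psi j := by
    rw [← Finset.sum_add_distrib]
    refine Finset.sum_congr rfl (fun j _ => ?_)
    rw [← Finset.sum_add_distrib]
    refine Finset.sum_congr rfl (fun k _ => ?_)
    module
  rw [e5]
  abel

theorem CCR.kraus_psi (_h : CCR i a c) (hpsi : ∀ j, a j psi = al j • psi) (l : Fin (2 * d)) :
    kraus p a c l psi = Lam p l al • psi + ∑ k, p.U l k • q1 c al psi k := by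
  simp only [kraus, LinearMap.sum_apply, LinearMap.add_apply, LinearMap.smul_apply, hpsi,
    c_psi (c := c) (al := al) (psi := psi), Lam_apply, Finset.sum_smul, ← Finset.sum_add_distrib]
  refine Finset.sum_congr rfl (fun k _ => ?_)
  module

theorem CCR.krausAdj_psi (_h : CCR i a c) (hpsi : ∀ j, a j psi = al j • psi) (l : Fin (2 * d)) :
    krausAdj p a c l psi = conj (Lam p l al) • psi + ∑ k, p.V l k • q1 c al psi k := by
  rw [← LamB_apply]
  simp only [krausAdj, LinearMap.sum_apply, LinearMap.add_apply, LinearMap.smul_apply, hpsi,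
    c_psi (c := c) (al := al) (psi := psi), LamB, co_apply, cb_apply, smul_eq_mul, Finset.sum_smul,
    ← Finset.sum_add_distrib]
  refine Finset.sum_congr rfl (fun k _ => ?_)
  module

theorem CCR.krausAdj_q1 (h : CCR i a c) (hpsi : ∀ j, a j psi = al j • psi) (l : Fin (2 * d))
    (k : Fin d) : krausAdj p a c l (q1 c al psi k) = conj (Lam p l al) • q1 c al psi k +
      ∑ j, p.V l j • q2 c al psi j k + conj (p.U l k) • psi := by
  rw [← LamB_apply]
  simp only [krausAdj, LinearMap.sum_apply, LinearMap.add_apply, LinearMap.smul_apply,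
    h.a_q1 hpsi, c_q1, LamB, co_apply, cb_apply, smul_eq_mul, Finset.sum_smul]
  have e : conj (p.U l k) • psi = ∑ j, (conj (p.U l j)) • (if j = k then psi else 0) := by
    rw [Finset.sum_eq_single k]
    · rw [if_pos rfl]
    · intro j _ hj
      rw [if_neg hj, smul_zero]
    · intro h'; exact absurd (Finset.mem_univ k) h'
  rw [e, ← Finset.sum_add_distrib, ← Finset.sum_add_distrib]
  refine Finset.sum_congr rfl (fun j _ => ?_)
  module

theorem CCR.LL_psi (h : CCR i a c) (hpsi : ∀ j, a j psi = al j • psi) (l : Fin (2 * d)) :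
    krausAdj p a c l (kraus p a c l psi) =
      (Lam p l al * conj (Lam p l al)) • psi + Lam p l al • ∑ k, p.V l k • q1 c al psi k +
      ∑ k, p.U l k • (conj (Lam p l al) • q1 c al psi k +
      ∑ j, p.V l j • q2 c al psi j k + conj (p.U l k) • psi) := by
  rw [h.kraus_psi p hpsi, map_add, map_smul, h.krausAdj_psi p hpsi, map_sum]
  simp only [map_smul, h.krausAdj_q1 p hpsi]
  rw [smul_add, smul_smul]

/-- The size of the parameters at a point. -/
noncomputable def Sz (al : Fin d → ℂ) : ℝ :=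
  1 + ∑ j, ‖hh p j al‖ + ∑ l, ‖Lam p l al‖ ^ 2

/-- Coherent vectors are quasimodes. -/
theorem CCR.coherent (h : CCR i a c) : ∃ C : ℝ, 1 ≤ C ∧ ∀ (al : Fin d → ℂ) (psi : W),
    (∀ j, a j psi = al j • psi) → ‖i psi‖ = 1 →
    ‖i (gen p a c psi) - (Complex.I * ((-(Hs p al) : ℝ) : ℂ)) • i psi‖ ≤ C * Sz p al := by
  set Z : ℝ := ∑ j, ‖p.ζ j / 2‖ with hZ
  set K : ℝ := ∑ j, ∑ k, ‖p.κ j k / 2‖ * 2 with hK
  set A : Fin (2 * d) → ℝ := fun l => ∑ k, ‖p.V l k‖ + ∑ k, ‖p.U l k‖ with hA
  set B : Fin (2 * d) → ℝ := fun l => ∑ k, ‖p.U l k‖ * (∑ j, ‖p.V l j‖ * 2 + ‖p.U l k‖) with hB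
  have hZ0 : 0 ≤ Z := Finset.sum_nonneg (fun j _ => norm_nonneg _)
  have hK0 : 0 ≤ K := Finset.sum_nonneg (fun j _ => Finset.sum_nonneg (fun k _ => by positivity))
  have hA0 : ∀ l, 0 ≤ A l := fun l => add_nonneg (Finset.sum_nonneg (fun j _ => norm_nonneg _))
    (Finset.sum_nonneg (fun j _ => norm_nonneg _))
  have hB0 : ∀ l, 0 ≤ B l := fun l => Finset.sum_nonneg (fun k _ => by
    have : 0 ≤ ∑ j, ‖p.V l j‖ * 2 := Finset.sum_nonneg (fun j _ => by positivity)
    positivity)
  have hAB0 : 0 ≤ ∑ l, (1 + A l + B l) := Finset.sum_nonneg (fun l _ => by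
    have := hA0 l; have := hB0 l; positivity)
  refine ⟨1 + Z + K + ∑ l, (1 + A l + B l), by linarith, ?_⟩
  intro al psi hpsi hn
  have hq1 : ∀ j, ‖i (q1 c al psi j)‖ = 1 := h.q1_norm hpsi hn
  have hq2 : ∀ j k, ‖i (q2 c al psi j k)‖ ≤ 2 := h.q2_norm hpsi hn
  have e1 : i (gen p a c psi) - (Complex.I * ((-(Hs p al) : ℝ) : ℂ)) • i psi =
      -(Complex.I • i (∑ j, (hh p j al + p.ζ j / 2) • q1 c al psi j +
      ∑ j, ∑ k, (p.κ j k / 2) • q2 c al psi j k)) -
      (1 / 2 : ℂ) • ∑ l, i (krausAdj p a c l (kraus p a c l psi)) := by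
    simp only [gen, LinearMap.sub_apply, LinearMap.neg_apply, LinearMap.smul_apply,
      LinearMap.sum_apply, LinearMap.comp_apply, h.ham_psi p hpsi, map_sub, map_neg, map_smul,
      map_add (f := i), map_sum]
    push_cast
    module
  have b1 : ‖i (∑ j, (hh p j al + p.ζ j / 2) • q1 c al psi j)‖ ≤ ∑ j, ‖hh p j al‖ + Z := by
    rw [map_sum, hZ, ← Finset.sum_add_distrib]
    refine (norm_sum_le _ _).trans (Finset.sum_le_sum (fun j _ => ?_))
    rw [map_smul, norm_smul, hq1, mul_one]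
    exact norm_add_le _ _
  have b2 : ‖i (∑ j, ∑ k, (p.κ j k / 2) • q2 c al psi j k)‖ ≤ K := by
    rw [map_sum]
    refine (norm_sum_le _ _).trans (Finset.sum_le_sum (fun j _ => ?_))
    rw [map_sum]
    refine (norm_sum_le _ _).trans (Finset.sum_le_sum (fun k _ => ?_))
    rw [map_smul, norm_smul]
    exact mul_le_mul_of_nonneg_left (hq2 j k) (norm_nonneg _)
  have b3 : ∀ l, ‖i (krausAdj p a c l (kraus p a c l psi))‖ ≤
      ‖Lam p l al‖ ^ 2 + ‖Lam p l al‖ * A l + B l := by
    intro l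
    rw [h.LL_psi p hpsi]
    have t1 : ‖i ((Lam p l al * conj (Lam p l al)) • psi)‖ = ‖Lam p l al‖ ^ 2 := by
      rw [map_smul, norm_smul, hn, mul_one, norm_mul, RCLike.norm_conj]
      ring
    have t2 : ‖i (Lam p l al • ∑ k, p.V l k • q1 c al psi k)‖ ≤
        ‖Lam p l al‖ * ∑ k, ‖p.V l k‖ := by
      rw [map_smul, norm_smul, map_sum]
      refine mul_le_mul_of_nonneg_left ((norm_sum_le _ _).trans (Finset.sum_le_sum
        (fun k _ => ?_))) (norm_nonneg _)
      rw [map_smul, norm_smul, hq1, mul_one]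
    have t3 : ‖i (∑ k, p.U l k • (conj (Lam p l al) • q1 c al psi k +
        ∑ j, p.V l j • q2 c al psi j k + conj (p.U l k) • psi))‖ ≤
        ‖Lam p l al‖ * (∑ k, ‖p.U l k‖) + B l := by
      rw [map_sum, hB, Finset.mul_sum, ← Finset.sum_add_distrib]
      refine (norm_sum_le _ _).trans (Finset.sum_le_sum (fun k _ => ?_))
      rw [map_smul, norm_smul, map_add, map_add]
      have s1 : ‖i (conj (Lam p l al) • q1 c al psi k)‖ = ‖Lam p l al‖ := by
        rw [map_smul, norm_smul, hq1, mul_one, RCLike.norm_conj]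
      have s2 : ‖i (∑ j, p.V l j • q2 c al psi j k)‖ ≤ ∑ j, ‖p.V l j‖ * 2 := by
        rw [map_sum]
        refine (norm_sum_le _ _).trans (Finset.sum_le_sum (fun j _ => ?_))
        rw [map_smul, norm_smul]
        exact mul_le_mul_of_nonneg_left (hq2 j k) (norm_nonneg _)
      have s3 : ‖i (conj (p.U l k) • psi)‖ = ‖p.U l k‖ := by
        rw [map_smul, norm_smul, hn, mul_one, RCLike.norm_conj]
      have s4 : ‖i (conj (Lam p l al) • q1 c al psi k) + i (∑ j, p.V l j • q2 c al psi j k) +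
          i (conj (p.U l k) • psi)‖ ≤ ‖Lam p l al‖ + ∑ j, ‖p.V l j‖ * 2 + ‖p.U l k‖ := by
        refine norm_add₃_le.trans ?_
        rw [s1, s3]
        linarith
      calc _ ≤ ‖p.U l k‖ * (‖Lam p l al‖ + ∑ j, ‖p.V l j‖ * 2 + ‖p.U l k‖) :=
            mul_le_mul_of_nonneg_left s4 (norm_nonneg _)
        _ = _ := by ring
    rw [map_add, map_add]
    refine norm_add₃_le.trans ?_
    rw [t1]
    have : ‖Lam p l al‖ * A l = ‖Lam p l al‖ * ∑ k, ‖p.V l k‖ +
        ‖Lam p l al‖ * ∑ k, ‖p.U l k‖ := by rw [hA]; ring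
    rw [this]
    linarith
  have b4 : ‖∑ l, i (krausAdj p a c l (kraus p a c l psi))‖ ≤
      ∑ l, (‖Lam p l al‖ ^ 2 + ‖Lam p l al‖ * A l + B l) :=
    (norm_sum_le _ _).trans (Finset.sum_le_sum (fun l _ => b3 l))
  have b5 : ∑ l, (‖Lam p l al‖ ^ 2 + ‖Lam p l al‖ * A l + B l) ≤
      (∑ l, (1 + A l + B l)) * (1 + ∑ l, ‖Lam p l al‖ ^ 2) := by
    rw [Finset.sum_mul]
    refine Finset.sum_le_sum (fun l _ => ?_)
    have s1 : ‖Lam p l al‖ ^ 2 ≤ ∑ l, ‖Lam p l al‖ ^ 2 :=
      Finset.single_le_sum (f := fun l => ‖Lam p l al‖ ^ 2) (fun l _ => by positivity)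
        (Finset.mem_univ l)
    have s2 : ‖Lam p l al‖ ≤ 1 + ‖Lam p l al‖ ^ 2 := by nlinarith [norm_nonneg (Lam p l al)]
    have s3 := hA0 l
    have s4 := hB0 l
    have s5 : 0 ≤ ∑ l, ‖Lam p l al‖ ^ 2 := Finset.sum_nonneg (fun l _ => by positivity)
    have s6 : ‖Lam p l al‖ * A l ≤ (1 + ∑ l, ‖Lam p l al‖ ^ 2) * A l :=
      mul_le_mul_of_nonneg_right (by linarith) s3
    have s7 : 0 ≤ B l * ∑ l, ‖Lam p l al‖ ^ 2 := mul_nonneg s4 s5
    nlinarith
  rw [e1]
  have b6 : ‖-(Complex.I • i (∑ j, (hh p j al + p.ζ j / 2) • q1 c al psi j +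
      ∑ j, ∑ k, (p.κ j k / 2) • q2 c al psi j k))‖ ≤ (∑ j, ‖hh p j al‖ + Z) + K := by
    rw [norm_neg, norm_smul, Complex.norm_I, one_mul, map_add]
    exact (norm_add_le _ _).trans (add_le_add b1 b2)
  have b7 : ‖(1 / 2 : ℂ) • ∑ l, i (krausAdj p a c l (kraus p a c l psi))‖ ≤
      (∑ l, (1 + A l + B l)) * (1 + ∑ l, ‖Lam p l al‖ ^ 2) := by
    rw [norm_smul]
    have s1 : ‖(1 / 2 : ℂ)‖ = 1 / 2 := by simp
    rw [s1]
    have s2 := b4.trans b5
    have s3 := norm_nonneg (∑ l, i (krausAdj p a c l (kraus p a c l psi)))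
    linarith
  refine (norm_sub_le _ _).trans ((add_le_add b6 b7).trans ?_)
  unfold Sz
  have s1 : 0 ≤ ∑ j, ‖hh p j al‖ := Finset.sum_nonneg (fun j _ => norm_nonneg _)
  have s2 : 0 ≤ ∑ l, ‖Lam p l al‖ ^ 2 := Finset.sum_nonneg (fun l _ => by positivity)
  nlinarith [mul_nonneg hAB0 s1, mul_nonneg hZ0 s1, mul_nonneg hZ0 s2, mul_nonneg hK0 s1,
    mul_nonneg hK0 s2]

end Pool.Agent.Helper63.GQ
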