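import Mathlib
import Pool.Agent.Helper63.GQCCR

/-! The Fock representation on sequences with super-exponential decay. -/

namespace Pool.Agent.Helper63.GQ

open ComplexConjugate Filter Topology

variable {d : ℕ}

/-- Total degree. -/
def sz (n : Fin d → ℕ) : ℕ := ∑ j, n j

/-- The `j`-th unit multi-index. -/
abbrev ep (j : Fin d) : Fin d → ℕ := Pi.single j 1

theorem sz_add_ep (n : Fin d → ℕ) (j : Fin d) : sz (n + ep j) = sz n + 1 := by
  simp [sz, Finset.sum_add_distrib]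

theorem sub_add_ep {n : Fin d → ℕ} {j : Fin d} (h : n j ≠ 0) : n - ep j + ep j = n := by
  ext k
  by_cases hk : k = j
  · subst hk
    simp
    omega
  · simp [hk]

theorem add_sub_ep (n : Fin d → ℕ) (j : Fin d) : n + ep j - ep j = n := by
  ext k
  by_cases hk : k = j
  · subst hk; simp
  · simp [hk]

theorem le_sz (n : Fin d → ℕ) (j : Fin d) : n j ≤ sz n :=
  Finset.single_le_sum (f := fun j => n j) (fun _ _ => Nat.zero_le _) (Finset.mem_univ j)

/-- Annihilation on sequences. -/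
noncomputable def aS (j : Fin d) : ((Fin d → ℕ) → ℂ) →ₗ[ℂ] ((Fin d → ℕ) → ℂ) where
  toFun f n := ((√((n j : ℝ) + 1) : ℝ) : ℂ) * f (n + ep j)
  map_add' f g := by ext n; simp [mul_add]
  map_smul' z f := by ext n; simp; ring

/-- Creation on sequences. -/
noncomputable def cS (j : Fin d) : ((Fin d → ℕ) → ℂ) →ₗ[ℂ] ((Fin d → ℕ) → ℂ) where
  toFun f n := ((√(n j : ℝ) : ℝ) : ℂ) * f (n - ep j)
  map_add' f g := by ext n; simp [mul_add]
  map_smul' z f := by ext n; simp; ring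

theorem aS_apply (j : Fin d) (f : (Fin d → ℕ) → ℂ) (n : Fin d → ℕ) :
    aS j f n = ((√((n j : ℝ) + 1) : ℝ) : ℂ) * f (n + ep j) := rfl

theorem cS_apply (j : Fin d) (f : (Fin d → ℕ) → ℂ) (n : Fin d → ℕ) :
    cS j f n = ((√(n j : ℝ) : ℝ) : ℂ) * f (n - ep j) := rfl

theorem cS_zero {j : Fin d} {f : (Fin d → ℕ) → ℂ} {n : Fin d → ℕ} (h : n j = 0) :
    cS j f n = 0 := by
  rw [cS_apply, h]; simp

theorem cS_add (j : Fin d) (f : (Fin d → ℕ) → ℂ) (n : Fin d → ℕ) :
    cS j f (n + ep j) = ((√((n j : ℝ) + 1) : ℝ) : ℂ) * f n := by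
  rw [cS_apply, add_sub_ep]
  simp

/-- Canonical commutation relations on all sequences. -/
theorem aS_cS (j k : Fin d) (f : (Fin d → ℕ) → ℂ) :
    aS j (cS k f) = cS k (aS j f) + if j = k then f else 0 := by
  ext n
  by_cases hjk : j = k
  · subst hjk
    rw [if_pos rfl, Pi.add_apply, aS_apply, cS_add, ← mul_assoc, ← Complex.ofReal_mul,
      Real.mul_self_sqrt (by positivity)]
    by_cases hn : n j = 0
    · rw [cS_zero hn, hn]; simp
    · rw [cS_apply, aS_apply, sub_add_ep hn]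
      have h1 : (((n - ep j) j : ℕ) : ℝ) + 1 = n j := by
        have : (n - ep j) j = n j - 1 := by simp
        rw [this]
        have h2 : 1 ≤ n j := Nat.one_le_iff_ne_zero.2 hn
        push_cast [Nat.cast_sub h2]
        ring
      rw [h1, ← mul_assoc, ← Complex.ofReal_mul, Real.mul_self_sqrt (by positivity)]
      push_cast
      ring
  · rw [if_neg hjk, add_zero, aS_apply]
    have hkj : k ≠ j := fun h => hjk h.symm
    by_cases hn : n k = 0
    · rw [cS_zero hn, cS_zero (by simp [hn, hkj])]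
      simp
    · rw [cS_apply, cS_apply, aS_apply]
      have h1 : (n + ep j) k = n k := by simp [hkj]
      have h2 : (n - ep k) j = n j := by simp [hjk]
      have h3 : n + ep j - ep k = n - ep k + ep j := by
        ext l
        by_cases hl : l = k
        · subst hl
          simp [hkj]
        · by_cases hl2 : l = j
          · subst hl2; simp [hl]
          · simp [hl, hl2]
      rw [h1, h2, h3]
      ring

theorem aS_aS (j k : Fin d) (f : (Fin d → ℕ) → ℂ) : aS j (aS k f) = aS k (aS j f) := by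
  ext n
  simp only [aS_apply]
  have h3 : n + ep j + ep k = n + ep k + ep j := by abel
  rw [h3]
  by_cases hjk : j = k
  · subst hjk; rfl
  · have hkj : k ≠ j := fun h => hjk h.symm
    have h1 : (n + ep j) k = n k := by simp [hkj]
    have h2 : (n + ep k) j = n j := by simp [hjk]
    rw [h1, h2]
    ring

theorem cS_cS (j k : Fin d) (f : (Fin d → ℕ) → ℂ) : cS j (cS k f) = cS k (cS j f) := by
  ext n
  by_cases hjk : j = k
  · subst hjk; rfl
  · have hkj : k ≠ j := fun h => hjk h.symm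
    simp only [cS_apply]
    have h1 : (n - ep j) k = n k := by simp [hkj]
    have h2 : (n - ep k) j = n j := by simp [hjk]
    have h3 : n - ep j - ep k = n - ep k - ep j := by
      ext l
      simp only [Pi.sub_apply]
      omega
    rw [h1, h2, h3]
    ring

/-- Tame operators: bounded between exponentially weighted sup norms. -/
def Tame (O : ((Fin d → ℕ) → ℂ) →ₗ[ℂ] ((Fin d → ℕ) → ℂ)) : Prop :=
  ∀ R : ℕ, 1 ≤ R → ∃ R' : ℕ, 1 ≤ R' ∧ ∃ K : ℝ, 0 ≤ K ∧ ∀ (f : (Fin d → ℕ) → ℂ) (C : ℝ),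
    (∀ n, (R' : ℝ) ^ sz n * ‖f n‖ ≤ C) → ∀ n, (R : ℝ) ^ sz n * ‖O f n‖ ≤ K * C

theorem Tame.add {O₁ O₂ : ((Fin d → ℕ) → ℂ) →ₗ[ℂ] ((Fin d → ℕ) → ℂ)} (h₁ : Tame O₁)
    (h₂ : Tame O₂) : Tame (O₁ + O₂) := by
  intro R hR
  obtain ⟨R1, hR1, K1, hK1, hb1⟩ := h₁ R hR
  obtain ⟨R2, hR2, K2, hK2, hb2⟩ := h₂ R hR
  refine ⟨R1 + R2, by omega, K1 + K2, by positivity, fun f C hf n => ?_⟩
  have e1 : ∀ n, (R1 : ℝ) ^ sz n * ‖f n‖ ≤ C := fun n => by
    refine le_trans ?_ (hf n)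
    gcongr
    push_cast
    have : (0 : ℝ) ≤ R2 := Nat.cast_nonneg _
    linarith
  have e2 : ∀ n, (R2 : ℝ) ^ sz n * ‖f n‖ ≤ C := fun n => by
    refine le_trans ?_ (hf n)
    gcongr
    push_cast
    have : (0 : ℝ) ≤ R1 := Nat.cast_nonneg _
    linarith
  have h3 := hb1 f C e1 n
  have h4 := hb2 f C e2 n
  have h5 : ‖(O₁ + O₂) f n‖ ≤ ‖O₁ f n‖ + ‖O₂ f n‖ := norm_add_le _ _
  calc (R : ℝ) ^ sz n * ‖(O₁ + O₂) f n‖ ≤ (R : ℝ) ^ sz n * (‖O₁ f n‖ + ‖O₂ f n‖) := by gcongr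
    _ ≤ (K1 + K2) * C := by rw [mul_add, add_mul]; linarith

theorem Tame.smul {O : ((Fin d → ℕ) → ℂ) →ₗ[ℂ] ((Fin d → ℕ) → ℂ)} (h : Tame O) (z : ℂ) :
    Tame (z • O) := by
  intro R hR
  obtain ⟨R1, hR1, K1, hK1, hb1⟩ := h R hR
  refine ⟨R1, hR1, ‖z‖ * K1, by positivity, fun f C hf n => ?_⟩
  have h3 := hb1 f C hf n
  have h4 : ‖(z • O) f n‖ = ‖z‖ * ‖O f n‖ := norm_mul _ _
  rw [h4]
  calc (R : ℝ) ^ sz n * (‖z‖ * ‖O f n‖) = ‖z‖ * ((R : ℝ) ^ sz n * ‖O f n‖) := by ring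
    _ ≤ ‖z‖ * (K1 * C) := by gcongr
    _ = _ := by ring

theorem Tame.comp {O₁ O₂ : ((Fin d → ℕ) → ℂ) →ₗ[ℂ] ((Fin d → ℕ) → ℂ)} (h₁ : Tame O₁)
    (h₂ : Tame O₂) : Tame (O₁ ∘ₗ O₂) := by
  intro R hR
  obtain ⟨R1, hR1, K1, hK1, hb1⟩ := h₁ R hR
  obtain ⟨R2, hR2, K2, hK2, hb2⟩ := h₂ R1 hR1
  refine ⟨R2, hR2, K1 * K2, by positivity, fun f C hf n => ?_⟩
  rw [mul_assoc]
  exact hb1 (O₂ f) (K2 * C) (hb2 f C hf) n

theorem Tame.zero : Tame (0 : ((Fin d → ℕ) → ℂ) →ₗ[ℂ] ((Fin d → ℕ) → ℂ)) := by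
  intro R hR
  refine ⟨1, le_refl _, 0, le_refl _, fun f C _ n => ?_⟩
  simp

theorem Tame.sum {κ : Type*} (s : Finset κ) {O : κ → ((Fin d → ℕ) → ℂ) →ₗ[ℂ] ((Fin d → ℕ) → ℂ)}
    (h : ∀ k ∈ s, Tame (O k)) : Tame (∑ k ∈ s, O k) := by
  classical
  induction s using Finset.induction_on with
  | empty => simpa using Tame.zero
  | insert k s hk ih =>
    rw [Finset.sum_insert hk]
    exact (h k (Finset.mem_insert_self _ _)).add
      (ih (fun l hl => h l (Finset.mem_insert_of_mem hl)))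

theorem sqrt_le_two_pow (m : ℕ) : √((m : ℝ) + 1) ≤ 2 ^ m := by
  apply Real.sqrt_le_iff.2
  refine ⟨by positivity, ?_⟩
  have h : ((m : ℝ) + 1) ≤ 2 ^ m := by
    have := Nat.lt_two_pow_self (n := m)
    exact_mod_cast this
  have h2 : (1 : ℝ) ≤ 2 ^ m := one_le_pow₀ (by norm_num)
  nlinarith

theorem aS_tame (j : Fin d) : Tame (aS j) := by
  intro R hR
  refine ⟨2 * R, by omega, 1, zero_le_one, fun f C hf n => ?_⟩
  rw [aS_apply, norm_mul, Complex.norm_real, Real.norm_of_nonneg (Real.sqrt_nonneg _), one_mul]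
  have h1 := hf (n + ep j)
  rw [sz_add_ep] at h1
  refine le_trans ?_ h1
  push_cast
  have hR' : (1 : ℝ) ≤ R := by exact_mod_cast hR
  have h2 : √((n j : ℝ) + 1) ≤ 2 ^ sz n :=
    (sqrt_le_two_pow _).trans (pow_le_pow_right₀ (by norm_num) (le_sz n j))
  calc (R : ℝ) ^ sz n * (√((n j : ℝ) + 1) * ‖f (n + ep j)‖)
      ≤ (R : ℝ) ^ sz n * (2 ^ sz n * ‖f (n + ep j)‖) := by gcongr
    _ = (2 * R) ^ sz n * ‖f (n + ep j)‖ := by rw [mul_pow]; ring
    _ ≤ (2 * R) ^ (sz n + 1) * ‖f (n + ep j)‖ := by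
        gcongr
        · linarith
        · omega

theorem cS_tame (j : Fin d) : Tame (cS j) := by
  intro R hR
  refine ⟨2 * R, by omega, R, by positivity, fun f C hf n => ?_⟩
  have hC : 0 ≤ C := le_trans (by positivity) (hf 0)
  by_cases hn : n j = 0
  · rw [cS_zero hn]
    simp only [norm_zero, mul_zero]
    positivity
  · obtain ⟨m, rfl⟩ : ∃ m, n = m + ep j := ⟨n - ep j, (sub_add_ep hn).symm⟩
    rw [cS_add, sz_add_ep, norm_mul, Complex.norm_real, Real.norm_of_nonneg (Real.sqrt_nonneg _)]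
    have h1 := hf m
    push_cast at h1
    have h2 : √((m j : ℝ) + 1) ≤ 2 ^ sz m :=
      (sqrt_le_two_pow _).trans (pow_le_pow_right₀ (by norm_num) (le_sz m j))
    calc (R : ℝ) ^ (sz m + 1) * (√((m j : ℝ) + 1) * ‖f m‖)
        ≤ (R : ℝ) ^ (sz m + 1) * (2 ^ sz m * ‖f m‖) := by gcongr
      _ = R * ((2 * R) ^ sz m * ‖f m‖) := by rw [mul_pow]; ring
      _ ≤ R * C := by gcongr

theorem ham_tame (p : Params d) : Tame (ham p aS cS) := by
  unfold ham hamQuad hamLin
  refine Tame.add (Tame.sum _ (fun j _ => Tame.sum _ (fun k _ => ?_)))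
    (Tame.sum _ (fun j _ => ?_))
  · exact ((((cS_tame j).comp (aS_tame k)).smul _).add (((cS_tame j).comp (cS_tame k)).smul _)).add
      (((aS_tame j).comp (aS_tame k)).smul _)
  · exact ((cS_tame j).smul _).add ((aS_tame j).smul _)

theorem kraus_tame (p : Params d) (l : Fin (2 * d)) : Tame (kraus p aS cS l) :=
  Tame.sum _ (fun k _ => ((aS_tame k).smul _).add ((cS_tame k).smul _))

theorem krausAdj_tame (p : Params d) (l : Fin (2 * d)) : Tame (krausAdj p aS cS l) :=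
  Tame.sum _ (fun k _ => ((cS_tame k).smul _).add ((aS_tame k).smul _))

theorem Tame.neg {O : ((Fin d → ℕ) → ℂ) →ₗ[ℂ] ((Fin d → ℕ) → ℂ)} (h : Tame O) : Tame (-O) := by
  have e : -O = (-1 : ℂ) • O := LinearMap.ext (fun f => by simp)
  rw [e]
  exact h.smul (-1)

theorem gen_tame (p : Params d) : Tame (gen p aS cS) := by
  unfold gen
  rw [sub_eq_add_neg]
  exact ((ham_tame p).smul _).neg.add
    ((Tame.sum _ (fun l _ => (krausAdj_tame p l).comp (kraus_tame p l))).smul _).neg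

/-- Intertwining. -/
theorem gen_map {W W' : Type*} [AddCommGroup W] [Module ℂ W] [AddCommGroup W'] [Module ℂ W']
    (p : Params d) {a c : Fin d → W →ₗ[ℂ] W} {a' c' : Fin d → W' →ₗ[ℂ] W'} (J : W →ₗ[ℂ] W')
    (ha : ∀ j x, J (a j x) = a' j (J x)) (hc : ∀ j x, J (c j x) = c' j (J x)) (x : W) :
    J (gen p a c x) = gen p a' c' (J x) := by
  have h1 : ∀ l x, J (kraus p a c l x) = kraus p a' c' l (J x) := by
    intro l x
    simp only [kraus, LinearMap.sum_apply, LinearMap.add_apply, LinearMap.smul_apply, map_sum,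
      map_add, map_smul, ha, hc]
  have h2 : ∀ l x, J (krausAdj p a c l x) = krausAdj p a' c' l (J x) := by
    intro l x
    simp only [krausAdj, LinearMap.sum_apply, LinearMap.add_apply, LinearMap.smul_apply, map_sum,
      map_add, map_smul, ha, hc]
  have h3 : ∀ x, J (ham p a c x) = ham p a' c' (J x) := by
    intro x
    simp only [ham, hamQuad, hamLin, LinearMap.sum_apply, LinearMap.add_apply, LinearMap.smul_apply,
      LinearMap.comp_apply, map_sum, map_add, map_smul, ha, hc]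
  simp only [gen, LinearMap.sub_apply, LinearMap.neg_apply, LinearMap.smul_apply,
    LinearMap.sum_apply, LinearMap.comp_apply, map_sub, map_neg, map_smul, map_sum, h1, h2, h3]

/-- Summability of the geometric weight. -/
theorem summable_weight : Summable (fun n : Fin d → ℕ => ((1 / 4 : ℝ)) ^ sz n) := by
  refine summable_of_sum_le (c := (∑' k : ℕ, ((1 / 4 : ℝ)) ^ k) ^ d) (fun n => by positivity)
    (fun s => ?_)
  have hgeo : Summable (fun k : ℕ => ((1 / 4 : ℝ)) ^ k) :=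
    summable_geometric_of_lt_one (by norm_num) (by norm_num)
  obtain ⟨N, hN⟩ : ∃ N : ℕ, s ⊆ Fintype.piFinset (fun _ : Fin d => Finset.range N) := by
    refine ⟨(s.sup sz) + 1, fun n hn => ?_⟩
    rw [Fintype.mem_piFinset]
    intro j
    rw [Finset.mem_range]
    have h1 : sz n ≤ s.sup sz := Finset.le_sup hn
    have h2 := le_sz n j
    omega
  calc ∑ n ∈ s, ((1 / 4 : ℝ)) ^ sz n
      ≤ ∑ n ∈ Fintype.piFinset (fun _ : Fin d => Finset.range N), ((1 / 4 : ℝ)) ^ sz n :=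
        Finset.sum_le_sum_of_subset_of_nonneg hN (fun _ _ _ => by positivity)
    _ = ∑ n ∈ Fintype.piFinset (fun _ : Fin d => Finset.range N), ∏ j, ((1 / 4 : ℝ)) ^ (n j) := by
        refine Finset.sum_congr rfl (fun n _ => ?_)
        rw [sz, Finset.prod_pow_eq_pow_sum]
    _ = ∏ _j : Fin d, ∑ k ∈ Finset.range N, ((1 / 4 : ℝ)) ^ k := by
        rw [Finset.prod_univ_sum]
    _ ≤ ∏ _j : Fin d, ∑' k : ℕ, ((1 / 4 : ℝ)) ^ k := by
        refine Finset.prod_le_prod (fun _ _ => Finset.sum_nonneg (fun _ _ => by positivity))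
          (fun _ _ => hgeo.sum_le_tsum _ (fun _ _ => by positivity))
    _ = _ := by rw [Finset.prod_const, Finset.card_univ, Fintype.card_fin]

theorem sq_le_weight {f : (Fin d → ℕ) → ℂ} {C : ℝ} (hf : ∀ n, (2 : ℝ) ^ sz n * ‖f n‖ ≤ C)
    (n : Fin d → ℕ) : ‖f n‖ ^ (2 : ℝ) ≤ C ^ 2 * ((1 / 4 : ℝ)) ^ sz n := by
  have hC : 0 ≤ C := le_trans (by positivity) (hf 0)
  have h1 : ‖f n‖ ≤ C * ((1 / 2 : ℝ)) ^ sz n := by
    have h2 : (0 : ℝ) < 2 ^ sz n := by positivity
    have h3 := hf n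
    rw [one_div, inv_pow, ← div_eq_mul_inv, le_div_iff₀ h2, mul_comm]
    exact h3
  calc ‖f n‖ ^ (2 : ℝ) = ‖f n‖ ^ 2 := by norm_cast
    _ ≤ (C * ((1 / 2 : ℝ)) ^ sz n) ^ 2 := by gcongr
    _ = C ^ 2 * ((1 / 4 : ℝ)) ^ sz n := by
        rw [mul_pow, ← pow_mul, mul_comm (sz n) 2, pow_mul]
        norm_num

theorem memℓp_of_weight {f : (Fin d → ℕ) → ℂ} {C : ℝ} (hf : ∀ n, (2 : ℝ) ^ sz n * ‖f n‖ ≤ C) :
    Memℓp f 2 := by
  apply memℓp_gen
  have h1 : Summable (fun n : Fin d → ℕ => ‖f n‖ ^ (2 : ℝ)) :=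
    Summable.of_nonneg_of_le (fun n => by positivity) (sq_le_weight hf)
      (summable_weight.mul_left _)
  simpa using h1

/-- The weight constant. -/
noncomputable def Wc (d : ℕ) : ℝ := √(∑' n : Fin d → ℕ, ((1 / 4 : ℝ)) ^ sz n)

theorem norm_le_weight {f : (Fin d → ℕ) → ℂ} {C : ℝ} (hf : ∀ n, (2 : ℝ) ^ sz n * ‖f n‖ ≤ C)
    (hm : Memℓp f 2) : ‖(⟨f, hm⟩ : lp (fun _ : Fin d → ℕ => ℂ) 2)‖ ≤ C * Wc d := by
  have hC : 0 ≤ C := le_trans (by positivity) (hf 0)
  have h2 : (0 : ℝ) < (2 : ENNReal).toReal := by norm_num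
  have h3 := lp.norm_rpow_eq_tsum h2 (⟨f, hm⟩ : lp (fun _ : Fin d → ℕ => ℂ) 2)
  have h4 : (2 : ENNReal).toReal = (2 : ℝ) := by norm_num
  rw [h4] at h3
  have h5 : ‖(⟨f, hm⟩ : lp (fun _ : Fin d → ℕ => ℂ) 2)‖ ^ 2 ≤
      C ^ 2 * ∑' n : Fin d → ℕ, ((1 / 4 : ℝ)) ^ sz n := by
    have h6 : ‖(⟨f, hm⟩ : lp (fun _ : Fin d → ℕ => ℂ) 2)‖ ^ 2 =
        ‖(⟨f, hm⟩ : lp (fun _ : Fin d → ℕ => ℂ) 2)‖ ^ (2 : ℝ) := by norm_cast
    rw [h6, h3, ← tsum_mul_left]
    have hs : Summable (fun n : Fin d → ℕ => ‖f n‖ ^ (2 : ℝ)) :=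
      Summable.of_nonneg_of_le (fun n => by positivity) (sq_le_weight hf)
        (summable_weight.mul_left _)
    exact hs.tsum_le_tsum (fun n => sq_le_weight hf n) (summable_weight.mul_left _)
  have h7 : 0 ≤ ∑' n : Fin d → ℕ, ((1 / 4 : ℝ)) ^ sz n := tsum_nonneg (fun _ => by positivity)
  have h8 : (C * Wc d) ^ 2 = C ^ 2 * ∑' n : Fin d → ℕ, ((1 / 4 : ℝ)) ^ sz n := by
    rw [mul_pow, Wc, Real.sq_sqrt h7]
  have h9 : 0 ≤ C * Wc d := mul_nonneg hC (Real.sqrt_nonneg _)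
  rw [← h8] at h5
  exact le_of_sq_le_sq h5 h9

/-- Sequences with super-exponential decay. -/
def Ss (d : ℕ) : Submodule ℂ ((Fin d → ℕ) → ℂ) where
  carrier := {f | ∀ R : ℕ, ∃ C : ℝ, ∀ n, (R : ℝ) ^ sz n * ‖f n‖ ≤ C}
  zero_mem' := fun R => ⟨0, fun n => by simp⟩
  add_mem' := by
    intro f g hf hg R
    obtain ⟨C, hC⟩ := hf R
    obtain ⟨D, hD⟩ := hg R
    refine ⟨C + D, fun n => ?_⟩
    have h1 : ‖(f + g) n‖ ≤ ‖f n‖ + ‖g n‖ := norm_add_le _ _
    calc (R : ℝ) ^ sz n * ‖(f + g) n‖ ≤ (R : ℝ) ^ sz n * (‖f n‖ + ‖g n‖) := by gcongr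
      _ ≤ C + D := by rw [mul_add]; exact add_le_add (hC n) (hD n)
  smul_mem' := by
    intro z f hf R
    obtain ⟨C, hC⟩ := hf R
    refine ⟨‖z‖ * C, fun n => ?_⟩
    have h1 : ‖(z • f) n‖ = ‖z‖ * ‖f n‖ := norm_mul _ _
    rw [h1]
    calc (R : ℝ) ^ sz n * (‖z‖ * ‖f n‖) = ‖z‖ * ((R : ℝ) ^ sz n * ‖f n‖) := by ring
      _ ≤ ‖z‖ * C := by gcongr; exact hC n

theorem Tame.maps {O : ((Fin d → ℕ) → ℂ) →ₗ[ℂ] ((Fin d → ℕ) → ℂ)} (h : Tame O) :
    ∀ f ∈ Ss d, O f ∈ Ss d := by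
  intro f hf R
  obtain ⟨R', _, K, _, hb⟩ := h (R + 1) (by omega)
  obtain ⟨C, hC⟩ := hf R'
  refine ⟨K * C, fun n => ?_⟩
  refine le_trans ?_ (hb f C hC n)
  gcongr
  push_cast
  linarith

/-- The restricted operators. -/
noncomputable def aR (j : Fin d) : Ss d →ₗ[ℂ] Ss d := (aS j).restrict (aS_tame j).maps

noncomputable def cR (j : Fin d) : Ss d →ₗ[ℂ] Ss d := (cS j).restrict (cS_tame j).maps

theorem aR_coe (j : Fin d) (f : Ss d) : ((aR j f : Ss d) : (Fin d → ℕ) → ℂ) = aS j f := rfl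

theorem cR_coe (j : Fin d) (f : Ss d) : ((cR j f : Ss d) : (Fin d → ℕ) → ℂ) = cS j f := rfl

theorem Ss_mem (f : Ss d) : Memℓp (f : (Fin d → ℕ) → ℂ) 2 := by
  obtain ⟨C, hC⟩ := f.2 2
  exact memℓp_of_weight (C := C) (by simpa using hC)

/-- The inclusion into the Fock space. -/
noncomputable def iS : Ss d →ₗ[ℂ] lp (fun _ : Fin d → ℕ => ℂ) 2 where
  toFun f := ⟨f.1, Ss_mem f⟩
  map_add' f g := by ext n; rfl
  map_smul' z f := by ext n; rfl

theorem iS_apply (f : Ss d) (n : Fin d → ℕ) : iS f n = (f : (Fin d → ℕ) → ℂ) n := rfl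

theorem add_ep_injective (j : Fin d) : Function.Injective (fun n : Fin d → ℕ => n + ep j) :=
  fun _ _ h => add_right_cancel h

theorem ccr_S : CCR (iS (d := d)) aR cR where
  adj := by
    intro j x y
    rw [lp.inner_eq_tsum, lp.inner_eq_tsum]
    have h1 : ∀ n, inner ℂ ((iS (aR j x)) n) (iS y n) =
        inner ℂ (iS x (n + ep j)) (iS (cR j y) (n + ep j)) := by
      intro n
      rw [iS_apply, iS_apply, iS_apply, iS_apply, aR_coe, cR_coe, aS_apply, cS_add]
      simp only [RCLike.inner_apply, map_mul, Complex.conj_ofReal]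
      ring
    rw [tsum_congr h1]
    exact (add_ep_injective j).tsum_eq (f := fun n => inner ℂ (iS x n) (iS (cR j y) n)) (by
      intro n hn
      by_cases hj : n j = 0
      · exfalso
        apply hn
        simp only [iS_apply, cR_coe, cS_zero hj]
        simp
      · exact ⟨n - ep j, sub_add_ep hj⟩)
  comm := by
    intro j k x
    apply Subtype.ext
    have := aS_cS j k (x : (Fin d → ℕ) → ℂ)
    rw [Submodule.coe_add, aR_coe, cR_coe, cR_coe, aR_coe, this]
    split_ifs <;> rfl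
  comm_a := by
    intro j k x
    apply Subtype.ext
    exact aS_aS j k (x : (Fin d → ℕ) → ℂ)
  comm_c := by
    intro j k x
    apply Subtype.ext
    exact cS_cS j k (x : (Fin d → ℕ) → ℂ)

/-- The exponential vector. -/
noncomputable def expv (al : Fin d → ℂ) (n : Fin d → ℕ) : ℂ :=
  ∏ j, (al j ^ n j / ((√((n j).factorial : ℝ) : ℝ) : ℂ))

theorem expv_mem (al : Fin d → ℂ) : expv al ∈ Ss d := by
  intro R
  refine ⟨∏ j, √(Real.exp ((R * ‖al j‖) ^ 2)), fun n => ?_⟩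
  have h1 : (R : ℝ) ^ sz n * ‖expv al n‖ =
      ∏ j, ((R * ‖al j‖) ^ n j / √((n j).factorial : ℝ)) := by
    rw [sz, ← Finset.prod_pow_eq_pow_sum, expv, norm_prod, ← Finset.prod_mul_distrib]
    refine Finset.prod_congr rfl (fun j _ => ?_)
    rw [norm_div, norm_pow, Complex.norm_real, Real.norm_of_nonneg (Real.sqrt_nonneg _), mul_pow]
    ring
  rw [h1]
  refine Finset.prod_le_prod (fun j _ => by positivity) (fun j _ => ?_)
  apply Real.le_sqrt_of_sq_le
  rw [div_pow, Real.sq_sqrt (by positivity), ← pow_mul, mul_comm (n j) 2, pow_mul]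
  exact Real.pow_div_factorial_le_exp _ (by positivity) _

theorem expv_zero (al : Fin d → ℂ) : expv al 0 = 1 := by simp [expv]

theorem aS_expv (al : Fin d → ℂ) (j : Fin d) : aS j (expv al) = al j • expv al := by
  ext n
  rw [aS_apply, Pi.smul_apply, smul_eq_mul]
  unfold expv
  rw [← Finset.mul_prod_erase Finset.univ _ (Finset.mem_univ j),
    ← Finset.mul_prod_erase Finset.univ (fun j => al j ^ n j /
      ((√((n j).factorial : ℝ) : ℝ) : ℂ)) (Finset.mem_univ j)]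
  have h1 : ∏ k ∈ Finset.univ.erase j, (al k ^ (n + ep j) k /
      ((√(((n + ep j) k).factorial : ℝ) : ℝ) : ℂ)) =
      ∏ k ∈ Finset.univ.erase j, (al k ^ n k / ((√((n k).factorial : ℝ) : ℝ) : ℂ)) := by
    refine Finset.prod_congr rfl (fun k hk => ?_)
    have hkj : k ≠ j := (Finset.mem_erase.1 hk).1
    have : (n + ep j) k = n k := by simp [hkj]
    rw [this]
  rw [h1]
  have h2 : (n + ep j) j = n j + 1 := by simp
  rw [h2, Nat.factorial_succ, Nat.cast_mul, Nat.cast_succ, Real.sqrt_mul (by positivity),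
    Complex.ofReal_mul, pow_succ]
  have h3 : ((√((n j : ℝ) + 1) : ℝ) : ℂ) ≠ 0 := by
    have : (0 : ℝ) < √((n j : ℝ) + 1) := Real.sqrt_pos.2 (by positivity)
    exact_mod_cast this.ne'
  field_simp

/-- Coherent vectors exist. -/
theorem exists_coherent (al : Fin d → ℂ) : ∃ psi : Ss d, (∀ j, aR j psi = al j • psi) ∧
    ‖iS psi‖ = 1 := by
  let e : Ss d := ⟨expv al, expv_mem al⟩
  have he : iS e ≠ 0 := by
    intro h
    have h1 : iS e 0 = 0 := by rw [h]; rfl
    rw [iS_apply] at h1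
    have h2 : (e : (Fin d → ℕ) → ℂ) 0 = 1 := expv_zero al
    rw [h2] at h1
    exact one_ne_zero h1
  have hpos : 0 < ‖iS e‖ := norm_pos_iff.2 he
  refine ⟨((‖iS e‖ : ℂ))⁻¹ • e, fun j => ?_, ?_⟩
  · rw [map_smul, smul_comm]
    congr 1
    apply Subtype.ext
    exact aS_expv al j
  · rw [map_smul, norm_smul, norm_inv, Complex.norm_real, norm_norm, inv_mul_cancel₀ hpos.ne']

/-- Finitely supported functions as sequences. -/
noncomputable def JD : ((Fin d → ℕ) →₀ ℂ) →ₗ[ℂ] ((Fin d → ℕ) → ℂ) where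
  toFun f := f
  map_add' f g := by ext n; rfl
  map_smul' z f := by ext n; rfl

theorem JD_ann (j : Fin d) (f : (Fin d → ℕ) →₀ ℂ) : JD (ann j f) = aS j (JD f) := by
  have : JD ∘ₗ ann j = aS j ∘ₗ (JD (d := d)) := by
    apply Finsupp.lhom_ext'
    intro m
    apply LinearMap.ext_ring
    ext n
    simp only [LinearMap.comp_apply, ann, Finsupp.lsingle_apply, aS_apply]
    rw [Finsupp.linearCombination_single, one_smul]
    simp only [JD, LinearMap.coe_mk, AddHom.coe_mk, Finsupp.single_apply]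
    by_cases h0 : m j = 0
    · have h1 : ¬ (m = n + ep j) := by
        intro h
        rw [h] at h0
        simp at h0
      rw [if_neg h1, h0]
      simp
    · by_cases h : m = n + ep j
      · subst h
        rw [add_sub_ep, if_pos rfl, if_pos rfl]
        simp
      · have h2 : ¬ (m - ep j = n) := by
          intro h3
          apply h
          rw [← h3, sub_add_ep h0]
        rw [if_neg h, if_neg h2]
        simp
  exact LinearMap.congr_fun this f

theorem JD_cre (j : Fin d) (f : (Fin d → ℕ) →₀ ℂ) : JD (cre j f) = cS j (JD f) := by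
  have : JD ∘ₗ cre j = cS j ∘ₗ (JD (d := d)) := by
    apply Finsupp.lhom_ext'
    intro m
    apply LinearMap.ext_ring
    ext n
    simp only [LinearMap.comp_apply, cre, Finsupp.lsingle_apply]
    rw [Finsupp.linearCombination_single, one_smul]
    simp only [JD, LinearMap.coe_mk, AddHom.coe_mk, Finsupp.single_apply]
    by_cases h0 : n j = 0
    · have h1 : ¬ (m + ep j = n) := by
        intro h
        rw [← h] at h0
        simp at h0
      rw [if_neg h1, cS_zero h0]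
    · obtain ⟨l, rfl⟩ : ∃ l, n = l + ep j := ⟨n - ep j, (sub_add_ep h0).symm⟩
      rw [cS_add]
      by_cases h : m = l
      · subst h
        simp
      · have h2 : ¬ (m + ep j = l + ep j) := fun h3 => h (add_right_cancel h3)
        rw [if_neg h2]
        have h4 : (Finsupp.single m (1 : ℂ)) l = 0 := by
          rw [Finsupp.single_apply, if_neg h]
        rw [h4]
        simp
  exact LinearMap.congr_fun this f

theorem JD_mem (f : (Fin d → ℕ) →₀ ℂ) : JD f ∈ Ss d := by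
  intro R
  refine ⟨∑ n ∈ f.support, (R : ℝ) ^ sz n * ‖f n‖, fun n => ?_⟩
  by_cases hn : n ∈ f.support
  · exact Finset.single_le_sum (f := fun n => (R : ℝ) ^ sz n * ‖f n‖)
      (fun _ _ => by positivity) hn
  · have h1 : JD f n = 0 := by
      change f n = 0
      simpa using hn
    rw [h1]
    simp only [norm_zero, mul_zero]
    exact Finset.sum_nonneg (fun _ _ => by positivity)

/-- Finitely supported functions inside the decaying sequences. -/
noncomputable def JS : ((Fin d → ℕ) →₀ ℂ) →ₗ[ℂ] Ss d := LinearMap.codRestrict (Ss d) JD JD_mem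

theorem JS_coe (f : (Fin d → ℕ) →₀ ℂ) : ((JS f : Ss d) : (Fin d → ℕ) → ℂ) = JD f := rfl

theorem JS_gen (p : Params d) (f : (Fin d → ℕ) →₀ ℂ) :
    JS (gen p ann cre f) = gen p aR cR (JS f) :=
  gen_map p (a := ann) (c := cre) (a' := aR) (c' := cR) JS
    (fun j x => Subtype.ext (JD_ann j x)) (fun j x => Subtype.ext (JD_cre j x)) f

theorem toFock_apply (f : (Fin d → ℕ) →₀ ℂ) (n : Fin d → ℕ) : toFock f n = f n := by
  have : (iS ∘ₗ JS : ((Fin d → ℕ) →₀ ℂ) →ₗ[ℂ] lp (fun _ : Fin d → ℕ => ℂ) 2) = toFock := by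
    apply Finsupp.lhom_ext'
    intro m
    apply LinearMap.ext_ring
    ext n
    simp only [LinearMap.comp_apply, toFock, Finsupp.lsingle_apply,
      Finsupp.linearCombination_single, one_smul, lp.single_apply, iS_apply]
    change (Finsupp.single m (1 : ℂ)) n = _
    rw [Finsupp.single_apply, Pi.single_apply]
    simp only [eq_comm]
  rw [← this]
  rfl

theorem toFock_eq (f : (Fin d → ℕ) →₀ ℂ) : toFock f = iS (JS f) := by
  ext n
  rw [toFock_apply]
  rfl

/-- The box truncation. -/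
noncomputable def trunc (f : (Fin d → ℕ) → ℂ) (N : ℕ) : (Fin d → ℕ) →₀ ℂ :=
  Finsupp.onFinset (Fintype.piFinset (fun _ : Fin d => Finset.range N))
    (fun n => if n ∈ Fintype.piFinset (fun _ : Fin d => Finset.range N) then f n else 0)
    (fun n hn => by
      by_contra h
      exact hn (if_neg h))

theorem trunc_apply (f : (Fin d → ℕ) → ℂ) (N : ℕ) (n : Fin d → ℕ) :
    trunc f N n = if n ∈ Fintype.piFinset (fun _ : Fin d => Finset.range N) then f n else 0 := rfl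

theorem trunc_error {f : (Fin d → ℕ) → ℂ} {R : ℕ} {C : ℝ} 
    (hf : ∀ n, ((2 * R : ℕ) : ℝ) ^ sz n * ‖f n‖ ≤ C) (N : ℕ) (n : Fin d → ℕ) :
    (R : ℝ) ^ sz n * ‖(f - JD (trunc f N)) n‖ ≤ C * ((1 / 2 : ℝ)) ^ N := by
  have hC : 0 ≤ C := le_trans (by positivity) (hf 0)
  rw [Pi.sub_apply]
  change (R : ℝ) ^ sz n * ‖f n - trunc f N n‖ ≤ _
  rw [trunc_apply]
  split_ifs with h
  · rw [sub_self, norm_zero, mul_zero]; positivity
  · rw [sub_zero]
    have hN : N ≤ sz n := by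
      rw [Fintype.mem_piFinset] at h
      push Not at h
      obtain ⟨j, hj⟩ := h
      rw [Finset.mem_range, not_lt] at hj
      exact hj.trans (le_sz n j)
    have h1 := hf n
    push_cast at h1
    rw [mul_pow, mul_assoc] at h1
    have h2 : (R : ℝ) ^ sz n * ‖f n‖ ≤ C * ((1 / 2 : ℝ)) ^ sz n := by
      rw [one_div, inv_pow, ← div_eq_mul_inv, le_div_iff₀ (by positivity), mul_comm]
      exact h1
    refine h2.trans ?_
    gcongr C * ?_
    exact pow_le_pow_of_le_one (by norm_num) (by norm_num) hN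

/-- The decaying sequences are in the domain of the closed generator. -/
theorem S_mem_genGraph (p : Params d) (f : Ss d) :
    (iS f, iS (gen p aR cR f)) ∈ genGraph p := by
  unfold genGraph
  rw [mem_closure_iff_seq_limit]
  refine ⟨fun N => (toFock (trunc f N), toFock (gen p ann cre (trunc f N))),
    fun N => ⟨trunc f N, rfl⟩, ?_⟩
  have hpow : Tendsto (fun N : ℕ => ((1 / 2 : ℝ)) ^ N) atTop (𝓝 0) :=
    tendsto_pow_atTop_nhds_zero_of_lt_one (by norm_num) (by norm_num)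
  have hgcoe : ∀ g : Ss d, ((gen p aR cR g : Ss d) : (Fin d → ℕ) → ℂ) = gen p aS cS g := by
    intro g
    exact gen_map p (Ss d).subtype (fun j x => rfl) (fun j x => rfl) g
  apply Tendsto.prodMk_nhds
  · rw [tendsto_iff_norm_sub_tendsto_zero]
    obtain ⟨C, hC⟩ := f.2 (2 * 2)
    have hb : ∀ N, ‖toFock (trunc f N) - iS f‖ ≤ (C * ((1 / 2 : ℝ)) ^ N) * Wc d := by
      intro N
      rw [norm_sub_rev, toFock_eq, ← map_sub]
      have h1 := trunc_error (R := 2) hC N
      push_cast at h1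
      exact norm_le_weight h1 _
    refine squeeze_zero (fun N => norm_nonneg _) hb ?_
    have := (hpow.const_mul C).mul_const (Wc d)
    simpa using this
  · rw [tendsto_iff_norm_sub_tendsto_zero]
    obtain ⟨R', hR', K, hK, hb⟩ := gen_tame p 2 (by norm_num)
    obtain ⟨C, hC⟩ := f.2 (2 * R')
    have hb2 : ∀ N, ‖toFock (gen p ann cre (trunc f N)) - iS (gen p aR cR f)‖ ≤
        (K * (C * ((1 / 2 : ℝ)) ^ N)) * Wc d := by
      intro N
      rw [norm_sub_rev, toFock_eq, JS_gen, ← map_sub, ← map_sub]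
      have h1 := hb (((f - JS (trunc f N) : Ss d)) : (Fin d → ℕ) → ℂ) (C * ((1 / 2 : ℝ)) ^ N)
        (fun n => trunc_error hC N n)
      push_cast at h1
      rw [← Submodule.coe_sub] at h1
      rw [← hgcoe] at h1
      exact norm_le_weight h1 _
    refine squeeze_zero (fun N => norm_nonneg _) hb2 ?_
    have := ((hpow.const_mul C).const_mul K).mul_const (Wc d)
    simpa using this

end Pool.Agent.Helper63.GQ
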