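import Mathlib
import Pool.Agent.Helper63.GQSeq
import Pool.Agent.Helper63.GQForm
import Pool.Agent.Helper63.GQYosida

/-! The closed Gaussian generator is maximal dissipative. -/

namespace Pool.Agent.Helper63.GQ

open ComplexConjugate Filter Topology

variable {d : ℕ}

/-- Weighted square norms of finitely supported functions. -/
noncomputable def Nw (q : ℕ) (g : (Fin d → ℕ) →₀ ℂ) : ℝ :=
  ∑' n, ‖g n‖ ^ 2 / (1 + (sz n : ℝ)) ^ q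

theorem Nw_summable (q : ℕ) (g : (Fin d → ℕ) →₀ ℂ) :
    Summable (fun n => ‖g n‖ ^ 2 / (1 + (sz n : ℝ)) ^ q) := by
  apply summable_of_hasFiniteSupport
  refine g.support.finite_toSet.subset (fun n hn => ?_)
  rw [Function.mem_support] at hn
  rw [Finset.mem_coe, Finsupp.mem_support_iff]
  intro h0
  apply hn
  rw [h0]
  simp

theorem Nw_nonneg (q : ℕ) (g : (Fin d → ℕ) →₀ ℂ) : 0 ≤ Nw q g :=
  tsum_nonneg (fun n => by positivity)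

theorem Nw_anti {q r : ℕ} (hqr : q ≤ r) (g : (Fin d → ℕ) →₀ ℂ) : Nw r g ≤ Nw q g := by
  refine (Nw_summable r g).tsum_le_tsum (fun n => ?_) (Nw_summable q g)
  gcongr
  · have : (0 : ℝ) ≤ sz n := Nat.cast_nonneg _
    linarith

theorem ann_apply (j : Fin d) (g : (Fin d → ℕ) →₀ ℂ) (n : Fin d → ℕ) :
    ann j g n = ((√((n j : ℝ) + 1) : ℝ) : ℂ) * g (n + ep j) :=
  congrFun (JD_ann j g) n

theorem cre_apply (j : Fin d) (g : (Fin d → ℕ) →₀ ℂ) (n : Fin d → ℕ) :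
    cre j g n = ((√(n j : ℝ) : ℝ) : ℂ) * g (n - ep j) :=
  congrFun (JD_cre j g) n

theorem cre_apply_zero {j : Fin d} (g : (Fin d → ℕ) →₀ ℂ) {n : Fin d → ℕ} (hn : n j = 0) :
    cre j g n = 0 := by
  rw [cre_apply, hn]; simp

theorem cre_apply_add (j : Fin d) (g : (Fin d → ℕ) →₀ ℂ) (n : Fin d → ℕ) :
    cre j g (n + ep j) = ((√((n j : ℝ) + 1) : ℝ) : ℂ) * g n := by
  rw [cre_apply, add_sub_ep]; simp

theorem sq_sqrt_norm (m : ℕ) (z : ℂ) :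
    ‖((√((m : ℝ) + 1) : ℝ) : ℂ) * z‖ ^ 2 = ((m : ℝ) + 1) * ‖z‖ ^ 2 := by
  rw [norm_mul, mul_pow, Complex.norm_real, Real.norm_of_nonneg (Real.sqrt_nonneg _),
    Real.sq_sqrt (by positivity)]

theorem ann_Nw (q : ℕ) (j : Fin d) (g : (Fin d → ℕ) →₀ ℂ) :
    Nw (q + 1) (ann j g) ≤ 2 ^ q * Nw q g := by
  have h1 : ∀ n, ‖ann j g n‖ ^ 2 / (1 + (sz n : ℝ)) ^ (q + 1) ≤
      2 ^ q * (‖g (n + ep j)‖ ^ 2 / (1 + (sz (n + ep j) : ℝ)) ^ q) := by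
    intro n
    rw [ann_apply, sq_sqrt_norm, sz_add_ep]
    have hj : (n j : ℝ) ≤ sz n := by exact_mod_cast le_sz n j
    have hs : (0 : ℝ) ≤ sz n := Nat.cast_nonneg _
    rw [pow_succ (1 + (sz n : ℝ)) q, mul_comm ((n j : ℝ) + 1), mul_div_mul_comm]
    have h2 : ((n j : ℝ) + 1) / (1 + (sz n : ℝ)) ≤ 1 := by
      rw [div_le_one (by positivity)]; linarith
    have h3 : (1 + ((sz n + 1 : ℕ) : ℝ)) ^ q ≤ 2 ^ q * (1 + (sz n : ℝ)) ^ q := by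
      rw [← mul_pow]
      gcongr
      push_cast
      linarith
    calc ‖g (n + ep j)‖ ^ 2 / (1 + (sz n : ℝ)) ^ q * (((n j : ℝ) + 1) / (1 + (sz n : ℝ)))
        ≤ ‖g (n + ep j)‖ ^ 2 / (1 + (sz n : ℝ)) ^ q * 1 := by gcongr
      _ = ‖g (n + ep j)‖ ^ 2 / (1 + (sz n : ℝ)) ^ q := mul_one _
      _ ≤ 2 ^ q * (‖g (n + ep j)‖ ^ 2 / (1 + ((sz n + 1 : ℕ) : ℝ)) ^ q) := by
          rw [← mul_div_assoc, div_le_div_iff₀ (by positivity) (by positivity)]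
          nlinarith [sq_nonneg ‖g (n + ep j)‖,
            mul_le_mul_of_nonneg_left h3 (sq_nonneg ‖g (n + ep j)‖)]
  have hsum : Summable (fun n => ‖g (n + ep j)‖ ^ 2 / (1 + (sz (n + ep j) : ℝ)) ^ q) :=
    (Nw_summable q g).comp_injective (add_ep_injective j)
  calc Nw (q + 1) (ann j g)
      ≤ ∑' n, 2 ^ q * (‖g (n + ep j)‖ ^ 2 / (1 + (sz (n + ep j) : ℝ)) ^ q) :=
        (Nw_summable _ _).tsum_le_tsum h1 (hsum.mul_left _)
    _ = 2 ^ q * ∑' n, (‖g (n + ep j)‖ ^ 2 / (1 + (sz (n + ep j) : ℝ)) ^ q) := tsum_mul_left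
    _ ≤ 2 ^ q * Nw q g := by
        gcongr
        exact tsum_comp_le_tsum_of_inj (Nw_summable q g) (fun n => by positivity)
          (add_ep_injective j)

theorem cre_Nw (q : ℕ) (j : Fin d) (g : (Fin d → ℕ) →₀ ℂ) :
    Nw (q + 1) (cre j g) ≤ 2 ^ q * Nw q g := by
  have h0 : Nw (q + 1) (cre j g) =
      ∑' n, ‖cre j g (n + ep j)‖ ^ 2 / (1 + (sz (n + ep j) : ℝ)) ^ (q + 1) := by
    symm
    refine (add_ep_injective j).tsum_eq
      (f := fun n => ‖cre j g n‖ ^ 2 / (1 + (sz n : ℝ)) ^ (q + 1)) (fun n hn => ?_)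
    by_cases hj : n j = 0
    · exfalso
      apply hn
      simp only [cre_apply_zero g hj]
      simp
    · exact ⟨n - ep j, sub_add_ep hj⟩
  have h1 : ∀ n, ‖cre j g (n + ep j)‖ ^ 2 / (1 + (sz (n + ep j) : ℝ)) ^ (q + 1) ≤
      ‖g n‖ ^ 2 / (1 + (sz n : ℝ)) ^ q := by
    intro n
    rw [cre_apply_add, sq_sqrt_norm, sz_add_ep]
    have hj : (n j : ℝ) ≤ sz n := by exact_mod_cast le_sz n j
    have hs : (0 : ℝ) ≤ sz n := Nat.cast_nonneg _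
    rw [pow_succ (1 + ((sz n + 1 : ℕ) : ℝ)) q, mul_comm ((n j : ℝ) + 1), mul_div_mul_comm]
    have h2 : ((n j : ℝ) + 1) / (1 + ((sz n + 1 : ℕ) : ℝ)) ≤ 1 := by
      rw [div_le_one (by positivity)]; push_cast; linarith
    calc ‖g n‖ ^ 2 / (1 + ((sz n + 1 : ℕ) : ℝ)) ^ q * (((n j : ℝ) + 1) / (1 + ((sz n + 1 : ℕ) : ℝ)))
        ≤ ‖g n‖ ^ 2 / (1 + ((sz n + 1 : ℕ) : ℝ)) ^ q * 1 := by gcongr
      _ = ‖g n‖ ^ 2 / (1 + ((sz n + 1 : ℕ) : ℝ)) ^ q := mul_one _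
      _ ≤ ‖g n‖ ^ 2 / (1 + (sz n : ℝ)) ^ q := by
          gcongr
          linarith
  have hsum : Summable (fun n => ‖cre j g (n + ep j)‖ ^ 2 /
      (1 + (sz (n + ep j) : ℝ)) ^ (q + 1)) :=
    (Nw_summable (q + 1) (cre j g)).comp_injective (add_ep_injective j)
  rw [h0]
  calc _ ≤ ∑' n, ‖g n‖ ^ 2 / (1 + (sz n : ℝ)) ^ q := hsum.tsum_le_tsum h1 (Nw_summable q g)
    _ = 1 * Nw q g := (one_mul _).symm
    _ ≤ 2 ^ q * Nw q g := by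
        have := Nw_nonneg q g
        gcongr
        exact one_le_pow₀ (by norm_num)

theorem Nw_zero (g : (Fin d → ℕ) →₀ ℂ) : ‖toFock g‖ ^ 2 = Nw 0 g := by
  have h2 : (0 : ℝ) < (2 : ENNReal).toReal := by norm_num
  have h3 := lp.norm_rpow_eq_tsum h2 (toFock g)
  have h4 : (2 : ENNReal).toReal = (2 : ℝ) := by norm_num
  rw [h4] at h3
  have h6 : ‖toFock g‖ ^ 2 = ‖toFock g‖ ^ (2 : ℝ) := by norm_cast
  rw [h6, h3, Nw]
  refine tsum_congr (fun n => ?_)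
  rw [toFock_apply, pow_zero, div_one]
  norm_cast

/-- Multiplication by a function of the total degree. -/
noncomputable def mulD (ch : ℕ → ℝ) (f : (Fin d → ℕ) →₀ ℂ) : (Fin d → ℕ) →₀ ℂ :=
  Finsupp.onFinset f.support (fun n => ((ch (sz n) : ℝ) : ℂ) * f n) (fun n hn => by
    rw [Finsupp.mem_support_iff]
    intro h0
    apply hn
    rw [h0, mul_zero])

theorem mulD_apply (ch : ℕ → ℝ) (f : (Fin d → ℕ) →₀ ℂ) (n : Fin d → ℕ) :
    mulD ch f n = ((ch (sz n) : ℝ) : ℂ) * f n := rfl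

theorem mulD_add (ch : ℕ → ℝ) (f g : (Fin d → ℕ) →₀ ℂ) :
    mulD ch (f + g) = mulD ch f + mulD ch g := by
  ext n
  simp only [mulD_apply, Finsupp.add_apply]
  ring

theorem mulD_smul (ch : ℕ → ℝ) (z : ℂ) (f : (Fin d → ℕ) →₀ ℂ) :
    mulD ch (z • f) = z • mulD ch f := by
  ext n
  simp only [mulD_apply, Finsupp.smul_apply, smul_eq_mul]
  ring

/-- Slowly varying cutoffs. -/
def Slow (ch : ℕ → ℝ) (eta : ℝ) : Prop :=
  ∀ m m' : ℕ, m' ≤ m + 2 → m ≤ m' + 2 → |ch m' - ch m| ≤ eta / (1 + (m : ℝ))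

/-- Operators with small commutators with slowly varying cutoffs. -/
def CB (O : ((Fin d → ℕ) →₀ ℂ) →ₗ[ℂ] ((Fin d → ℕ) →₀ ℂ)) : Prop :=
  ∃ K : ℝ, 0 ≤ K ∧ ∀ (ch : ℕ → ℝ) (eta : ℝ), 0 ≤ eta → Slow ch eta → ∀ f,
    ‖toFock (O (mulD ch f) - mulD ch (O f))‖ ≤ K * eta * ‖toFock f‖

theorem CB.add {O₁ O₂ : ((Fin d → ℕ) →₀ ℂ) →ₗ[ℂ] ((Fin d → ℕ) →₀ ℂ)} (h₁ : CB O₁)
    (h₂ : CB O₂) : CB (O₁ + O₂) := by
  obtain ⟨K1, hK1, hb1⟩ := h₁
  obtain ⟨K2, hK2, hb2⟩ := h₂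
  refine ⟨K1 + K2, by positivity, fun ch eta heta hs f => ?_⟩
  have e : (O₁ + O₂) (mulD ch f) - mulD ch ((O₁ + O₂) f) =
      (O₁ (mulD ch f) - mulD ch (O₁ f)) + (O₂ (mulD ch f) - mulD ch (O₂ f)) := by
    rw [LinearMap.add_apply, LinearMap.add_apply, mulD_add]; abel
  rw [e, map_add]
  refine (norm_add_le _ _).trans ((add_le_add (hb1 ch eta heta hs f) (hb2 ch eta heta hs f)).trans ?_)
  linarith

theorem CB.smul {O : ((Fin d → ℕ) →₀ ℂ) →ₗ[ℂ] ((Fin d → ℕ) →₀ ℂ)} (h : CB O) (z : ℂ) :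
    CB (z • O) := by
  obtain ⟨K1, hK1, hb1⟩ := h
  refine ⟨‖z‖ * K1, by positivity, fun ch eta heta hs f => ?_⟩
  have e : (z • O) (mulD ch f) - mulD ch ((z • O) f) =
      z • (O (mulD ch f) - mulD ch (O f)) := by
    rw [LinearMap.smul_apply, LinearMap.smul_apply, mulD_smul, smul_sub]
  rw [e, map_smul, norm_smul, mul_assoc, mul_assoc]
  gcongr
  rw [← mul_assoc]
  exact hb1 ch eta heta hs f

theorem CB.zero : CB (0 : ((Fin d → ℕ) →₀ ℂ) →ₗ[ℂ] ((Fin d → ℕ) →₀ ℂ)) := by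
  refine ⟨0, le_rfl, fun ch eta heta hs f => ?_⟩
  have e : (0 : ((Fin d → ℕ) →₀ ℂ) →ₗ[ℂ] ((Fin d → ℕ) →₀ ℂ)) (mulD ch f) -
      mulD ch ((0 : ((Fin d → ℕ) →₀ ℂ) →ₗ[ℂ] ((Fin d → ℕ) →₀ ℂ)) f) = 0 := by
    ext n; simp [mulD_apply]
  rw [e]; simp

theorem CB.neg {O : ((Fin d → ℕ) →₀ ℂ) →ₗ[ℂ] ((Fin d → ℕ) →₀ ℂ)} (h : CB O) : CB (-O) := by
  have e : -O = (-1 : ℂ) • O := LinearMap.ext (fun f => by simp)
  rw [e]
  exact h.smul (-1)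

theorem CB.sum {κ : Type*} (s : Finset κ)
    {O : κ → ((Fin d → ℕ) →₀ ℂ) →ₗ[ℂ] ((Fin d → ℕ) →₀ ℂ)}
    (h : ∀ k ∈ s, CB (O k)) : CB (∑ k ∈ s, O k) := by
  classical
  induction s using Finset.induction_on with
  | empty => simpa using CB.zero
  | insert k s hk ih =>
    rw [Finset.sum_insert hk]
    exact (h k (Finset.mem_insert_self _ _)).add
      (ih (fun l hl => h l (Finset.mem_insert_of_mem hl)))

/-- Operators shifting the total degree. -/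
def Sh (O : ((Fin d → ℕ) →₀ ℂ) →ₗ[ℂ] ((Fin d → ℕ) →₀ ℂ)) (s : ℕ → ℕ) : Prop :=
  ∀ (ch : ℕ → ℝ) f n, O (mulD ch f) n = ((ch (s (sz n)) : ℝ) : ℂ) * O f n

theorem ann_Sh (j : Fin d) : Sh (ann j) (fun m => m + 1) := by
  intro ch f n
  rw [ann_apply, ann_apply, mulD_apply, sz_add_ep]
  ring

theorem cre_Sh (j : Fin d) : Sh (cre j) (fun m => m - 1) := by
  intro ch f n
  by_cases hj : n j = 0
  · rw [cre_apply_zero _ hj, cre_apply_zero _ hj, mul_zero]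
  · obtain ⟨l, rfl⟩ : ∃ l, n = l + ep j := ⟨n - ep j, (sub_add_ep hj).symm⟩
    rw [cre_apply_add, cre_apply_add, mulD_apply, sz_add_ep]
    simp only [Nat.add_sub_cancel]
    ring

theorem Sh.comp {O₁ O₂ : ((Fin d → ℕ) →₀ ℂ) →ₗ[ℂ] ((Fin d → ℕ) →₀ ℂ)} {s₁ s₂ : ℕ → ℕ}
    (h₁ : Sh O₁ s₁) (h₂ : Sh O₂ s₂) : Sh (O₁ ∘ₗ O₂) (fun m => s₂ (s₁ m)) := by
  intro ch f n
  have e : O₂ (mulD ch f) = mulD (fun m => ch (s₂ m)) (O₂ f) := by
    ext l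
    rw [h₂, mulD_apply]
  rw [LinearMap.comp_apply, e, h₁]
  rfl

theorem CB_of_Sh {O : ((Fin d → ℕ) →₀ ℂ) →ₗ[ℂ] ((Fin d → ℕ) →₀ ℂ)} {s : ℕ → ℕ}
    (hS : Sh O s) (hs : ∀ m, s m ≤ m + 2 ∧ m ≤ s m + 2) (hN : ∀ f, Nw 2 (O f) ≤ 2 * Nw 0 f) :
    CB O := by
  refine ⟨2, by norm_num, fun ch eta heta hslow f => ?_⟩
  have h1 : ‖toFock (O (mulD ch f) - mulD ch (O f))‖ ^ 2 ≤ eta ^ 2 * Nw 2 (O f) := by
    rw [Nw_zero, Nw, Nw, ← tsum_mul_left]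
    have h2 : ∀ n, ‖(O (mulD ch f) - mulD ch (O f)) n‖ ^ 2 / (1 + (sz n : ℝ)) ^ 0 ≤
        eta ^ 2 * (‖O f n‖ ^ 2 / (1 + (sz n : ℝ)) ^ 2) := by
      intro n
      rw [pow_zero, div_one, Finsupp.sub_apply, hS, mulD_apply, ← sub_mul, norm_mul, mul_pow,
        ← Complex.ofReal_sub, Complex.norm_real, Real.norm_eq_abs]
      have h3 := hslow (sz n) (s (sz n)) (hs _).1 (hs _).2
      have hs0 : (0 : ℝ) ≤ sz n := Nat.cast_nonneg _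
      calc |ch (s (sz n)) - ch (sz n)| ^ 2 * ‖O f n‖ ^ 2
          ≤ (eta / (1 + (sz n : ℝ))) ^ 2 * ‖O f n‖ ^ 2 := by gcongr
        _ = eta ^ 2 * (‖O f n‖ ^ 2 / (1 + (sz n : ℝ)) ^ 2) := by rw [div_pow]; ring
    exact (Nw_summable 0 _).tsum_le_tsum h2 ((Nw_summable 2 (O f)).mul_left _)
  have h3 := hN f
  rw [← Nw_zero] at h3
  have h4 : ‖toFock (O (mulD ch f) - mulD ch (O f))‖ ^ 2 ≤ (2 * eta * ‖toFock f‖) ^ 2 := by
    calc _ ≤ eta ^ 2 * Nw 2 (O f) := h1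
      _ ≤ eta ^ 2 * (2 * ‖toFock f‖ ^ 2) := by gcongr
      _ ≤ (2 * eta * ‖toFock f‖) ^ 2 := by nlinarith [sq_nonneg (eta * ‖toFock f‖)]
  exact le_of_sq_le_sq h4 (by positivity)

theorem ann_CB (j : Fin d) : CB (ann j) := by
  refine CB_of_Sh (ann_Sh j) (fun m => ⟨by omega, by omega⟩) (fun f => ?_)
  have h1 := ann_Nw 0 j f
  have h2 := Nw_anti (show 1 ≤ 2 by norm_num) (ann j f)
  have h3 := Nw_nonneg 0 f
  simp only [zero_add, pow_zero, one_mul] at h1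
  linarith

theorem cre_CB (j : Fin d) : CB (cre j) := by
  refine CB_of_Sh (cre_Sh j) (fun m => ⟨by omega, by omega⟩) (fun f => ?_)
  have h1 := cre_Nw 0 j f
  have h2 := Nw_anti (show 1 ≤ 2 by norm_num) (cre j f)
  have h3 := Nw_nonneg 0 f
  simp only [zero_add, pow_zero, one_mul] at h1
  linarith

theorem comp_CB {O₁ O₂ : ((Fin d → ℕ) →₀ ℂ) →ₗ[ℂ] ((Fin d → ℕ) →₀ ℂ)} {s₁ s₂ : ℕ → ℕ}
    (h₁ : Sh O₁ s₁) (h₂ : Sh O₂ s₂) (hs₁ : ∀ m, s₁ m ≤ m + 1 ∧ m ≤ s₁ m + 1)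
    (hs₂ : ∀ m, s₂ m ≤ m + 1 ∧ m ≤ s₂ m + 1)
    (hN₁ : ∀ q f, Nw (q + 1) (O₁ f) ≤ 2 ^ q * Nw q f)
    (hN₂ : ∀ q f, Nw (q + 1) (O₂ f) ≤ 2 ^ q * Nw q f) : CB (O₁ ∘ₗ O₂) := by
  refine CB_of_Sh (h₁.comp h₂) (fun m => ?_) (fun f => ?_)
  · have a1 := hs₁ m
    have a2 := hs₂ (s₁ m)
    constructor <;> omega
  · have h3 := hN₁ 1 (O₂ f)
    have h4 := hN₂ 0 f
    rw [LinearMap.comp_apply]
    norm_num at h3 h4
    linarith

theorem sh_ann_bd (m : ℕ) : (fun m : ℕ => m + 1) m ≤ m + 1 ∧ m ≤ (fun m : ℕ => m + 1) m + 1 :=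
  ⟨le_rfl, by simp only []; omega⟩

theorem sh_cre_bd (m : ℕ) : (fun m : ℕ => m - 1) m ≤ m + 1 ∧ m ≤ (fun m : ℕ => m - 1) m + 1 :=
  ⟨by simp only []; omega, by simp only []; omega⟩

theorem ca_CB (j k : Fin d) : CB (cre j ∘ₗ ann k) :=
  comp_CB (cre_Sh j) (ann_Sh k) sh_cre_bd sh_ann_bd (fun q => cre_Nw q j) (fun q => ann_Nw q k)

theorem cc_CB (j k : Fin d) : CB (cre j ∘ₗ cre k) :=
  comp_CB (cre_Sh j) (cre_Sh k) sh_cre_bd sh_cre_bd (fun q => cre_Nw q j) (fun q => cre_Nw q k)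

theorem aa_CB (j k : Fin d) : CB (ann j ∘ₗ ann k) :=
  comp_CB (ann_Sh j) (ann_Sh k) sh_ann_bd sh_ann_bd (fun q => ann_Nw q j) (fun q => ann_Nw q k)

theorem ac_CB (j k : Fin d) : CB (ann j ∘ₗ cre k) :=
  comp_CB (ann_Sh j) (cre_Sh k) sh_ann_bd sh_cre_bd (fun q => ann_Nw q j) (fun q => cre_Nw q k)

theorem gen_CB (p : Params d) : CB (gen p ann cre) := by
  have hham : CB (ham p ann cre) := by
    unfold ham hamQuad hamLin
    refine CB.add (CB.sum _ (fun j _ => CB.sum _ (fun k _ => ?_))) (CB.sum _ (fun j _ => ?_))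
    · exact (((ca_CB j k).smul _).add ((cc_CB j k).smul _)).add ((aa_CB j k).smul _)
    · exact ((cre_CB j).smul _).add ((ann_CB j).smul _)
  have hLL : ∀ l, CB (krausAdj p ann cre l ∘ₗ kraus p ann cre l) := by
    intro l
    have e : krausAdj p ann cre l ∘ₗ kraus p ann cre l =
        ∑ j, ∑ k, ((p.V l k * conj (p.V l j)) • (cre k ∘ₗ ann j) +
          (p.V l k * p.U l j) • (cre k ∘ₗ cre j) +
          (conj (p.U l k) * conj (p.V l j)) • (ann k ∘ₗ ann j) +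
          (conj (p.U l k) * p.U l j) • (ann k ∘ₗ cre j)) := by
      refine LinearMap.ext (fun x => ?_)
      simp only [krausAdj, kraus, LinearMap.comp_apply, LinearMap.sum_apply, LinearMap.add_apply,
        LinearMap.smul_apply, map_sum, map_add, map_smul]
      refine Finset.sum_congr rfl (fun j _ => ?_)
      rw [Finset.smul_sum, Finset.smul_sum, ← Finset.sum_add_distrib]
      refine Finset.sum_congr rfl (fun k _ => ?_)
      module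
    rw [e]
    refine CB.sum _ (fun j _ => CB.sum _ (fun k _ => ?_))
    exact ((((ca_CB k j).smul _).add ((cc_CB k j).smul _)).add ((aa_CB k j).smul _)).add
      ((ac_CB k j).smul _)
  have e : gen p ann cre = -(Complex.I • ham p ann cre) +
      -((1 / 2 : ℂ) • ∑ l, krausAdj p ann cre l ∘ₗ kraus p ann cre l) := by
    refine LinearMap.ext (fun x => ?_)
    simp only [gen, LinearMap.sub_apply, LinearMap.add_apply, LinearMap.neg_apply,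
      sub_eq_add_neg]
  rw [e]
  exact (hham.smul _).neg.add ((CB.sum _ (fun l _ => hLL l)).smul _).neg

end Pool.Agent.Helper63.GQ
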