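import Mathlib
import Pool.Agent.Helper63.GQGen

/-! The closed Gaussian generator is maximal dissipative. -/

namespace Pool.Agent.Helper63.GQ

open ComplexConjugate Filter Topology

variable {d : ℕ}

/-- The logarithmic cutoff. -/
noncomputable def chi (R : ℝ) (m : ℕ) : ℝ := max (1 - Real.log (1 + (m : ℝ)) / R) 0

theorem chi_slow {R : ℝ} (hR : 0 < R) : Slow (chi R) (6 / R) := by
  intro m m' h1 h2
  have hm : (0 : ℝ) ≤ m := Nat.cast_nonneg _
  have hm' : (0 : ℝ) ≤ m' := Nat.cast_nonneg _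
  have h1' : (m' : ℝ) ≤ m + 2 := by exact_mod_cast h1
  have h2' : (m : ℝ) ≤ m' + 2 := by exact_mod_cast h2
  have hlog : |Real.log (1 + (m : ℝ)) - Real.log (1 + (m' : ℝ))| ≤ 6 / (1 + (m : ℝ)) := by
    rw [abs_le]
    constructor
    · have h3 : Real.log (1 + (m' : ℝ)) - Real.log (1 + (m : ℝ)) ≤
          (1 + (m' : ℝ)) / (1 + (m : ℝ)) - 1 := by
        rw [← Real.log_div (by positivity) (by positivity)]
        exact Real.log_le_sub_one_of_pos (by positivity)
      have h4 : (1 + (m' : ℝ)) / (1 + (m : ℝ)) - 1 ≤ 6 / (1 + (m : ℝ)) := by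
        rw [div_sub_one (by positivity)]
        gcongr
        linarith
      linarith
    · have h3 : Real.log (1 + (m : ℝ)) - Real.log (1 + (m' : ℝ)) ≤
          (1 + (m : ℝ)) / (1 + (m' : ℝ)) - 1 := by
        rw [← Real.log_div (by positivity) (by positivity)]
        exact Real.log_le_sub_one_of_pos (by positivity)
      have h4 : (1 + (m : ℝ)) / (1 + (m' : ℝ)) - 1 ≤ 6 / (1 + (m : ℝ)) := by
        rw [div_sub_one (by positivity), div_le_div_iff₀ (by positivity) (by positivity)]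
        have h5 : (m : ℝ) - m' ≤ 2 := by linarith
        nlinarith
      linarith
  calc |chi R m' - chi R m|
      ≤ |(1 - Real.log (1 + (m' : ℝ)) / R) - (1 - Real.log (1 + (m : ℝ)) / R)| :=
        abs_max_sub_max_le_abs _ _ _
    _ = |Real.log (1 + (m : ℝ)) - Real.log (1 + (m' : ℝ))| / R := by
        rw [← abs_of_pos hR, ← abs_div, abs_of_pos hR]
        congr 1
        ring
    _ ≤ 6 / (1 + (m : ℝ)) / R := by gcongr
    _ = 6 / R / (1 + (m : ℝ)) := by rw [div_div, div_div, mul_comm]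

theorem chi_zero {R : ℝ} (hR : 0 < R) : ∃ M : ℕ, ∀ m, M ≤ m → chi R m = 0 := by
  obtain ⟨M, hM⟩ := exists_nat_gt (Real.exp R)
  refine ⟨M, fun m hm => ?_⟩
  have hm' : (M : ℝ) ≤ m := by exact_mod_cast hm
  have hm0 : (0 : ℝ) ≤ m := Nat.cast_nonneg _
  have h1 : R ≤ Real.log (1 + (m : ℝ)) := by
    rw [Real.le_log_iff_exp_le (by positivity)]
    linarith
  unfold chi
  apply max_eq_right
  rw [sub_nonpos, one_le_div hR]
  exact h1

theorem chi_tendsto (m : ℕ) : Tendsto (fun R : ℕ => chi ((R : ℝ) + 1) m) atTop (𝓝 1) := by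
  have h1 : Tendsto (fun R : ℕ => Real.log (1 + (m : ℝ)) / ((R : ℝ) + 1)) atTop (𝓝 0) :=
    tendsto_const_nhds.div_atTop
      (tendsto_atTop_add_const_right _ _ tendsto_natCast_atTop_atTop)
  have h2 := (tendsto_const_nhds (x := (1 : ℝ))).sub h1
  have h3 := h2.max (tendsto_const_nhds (x := (0 : ℝ)))
  simpa [chi] using h3

/-- The cut vector. -/
noncomputable def cut (ch : ℕ → ℝ) (M : ℕ) (u : lp (fun _ : Fin d → ℕ => ℂ) 2) :
    (Fin d → ℕ) →₀ ℂ := trunc (fun n => ((ch (sz n) : ℝ) : ℂ) * u n) M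

theorem cut_apply {ch : ℕ → ℝ} {M : ℕ} (hM : ∀ m, M ≤ m → ch m = 0)
    (u : lp (fun _ : Fin d → ℕ => ℂ) 2) (n : Fin d → ℕ) :
    cut ch M u n = ((ch (sz n) : ℝ) : ℂ) * u n := by
  rw [cut, trunc_apply]
  split_ifs with h
  · rfl
  · have hN : M ≤ sz n := by
      rw [Fintype.mem_piFinset] at h
      push Not at h
      obtain ⟨j, hj⟩ := h
      rw [Finset.mem_range, not_lt] at hj
      exact hj.trans (le_sz n j)
    rw [hM _ hN]; simp

theorem inner_mulD {ch : ℕ → ℝ} {M : ℕ} (hM : ∀ m, M ≤ m → ch m = 0)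
    (u : lp (fun _ : Fin d → ℕ => ℂ) 2) (g : (Fin d → ℕ) →₀ ℂ) :
    inner ℂ u (toFock (mulD ch g)) = inner ℂ (toFock (cut ch M u)) (toFock g) := by
  rw [lp.inner_eq_tsum, lp.inner_eq_tsum]
  refine tsum_congr (fun n => ?_)
  rw [toFock_apply, toFock_apply, toFock_apply, cut_apply hM, mulD_apply]
  simp only [RCLike.inner_apply, map_mul, Complex.conj_ofReal]
  ring

theorem gen_diss (p : Params d) (f : (Fin d → ℕ) →₀ ℂ) :
    (inner ℂ (toFock f) (toFock (gen p ann cre f))).re ≤ 0 := by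
  rw [toFock_eq, toFock_eq, JS_gen, ccr_S.gen_re p]
  have : (0 : ℝ) ≤ ∑ l, ‖iS (kraus p aR cR l (JS f))‖ ^ 2 :=
    Finset.sum_nonneg (fun l _ => by positivity)
  linarith

/-- The range of `lam - G` is dense. -/
theorem ortho_zero (p : Params d) {lam : ℝ} (hlam : 1 ≤ lam)
    (u : lp (fun _ : Fin d → ℕ => ℂ) 2)
    (hu : ∀ f, inner ℂ u ((lam : ℂ) • toFock f - toFock (gen p ann cre f)) = 0) : u = 0 := by
  obtain ⟨K, hK, hb⟩ := gen_CB p
  have key : ∀ (R : ℝ), 0 < R → ∀ n, chi R (sz n) * ‖u n‖ ≤ K * (6 / R) * ‖u‖ := by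
    intro R hR n
    obtain ⟨M, hM⟩ := chi_zero hR
    set v := cut (chi R) M u with hv
    have h1 := hu (mulD (chi R) v)
    rw [inner_sub_right, inner_smul_right, inner_mulD hM] at h1
    have h2 := hb (chi R) (6 / R) (by positivity) (chi_slow hR) v
    have h3 : gen p ann cre (mulD (chi R) v) =
        (gen p ann cre (mulD (chi R) v) - mulD (chi R) (gen p ann cre v)) +
          mulD (chi R) (gen p ann cre v) := by abel
    rw [h3, map_add, inner_add_right, inner_mulD hM, ← hv] at h1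
    have h4 := gen_diss p v
    have h5 : ‖inner ℂ u (toFock (gen p ann cre (mulD (chi R) v) -
        mulD (chi R) (gen p ann cre v)))‖ ≤ ‖u‖ * (K * (6 / R) * ‖toFock v‖) :=
      (norm_inner_le_norm _ _).trans (by gcongr)
    have h6 := Complex.re_le_norm (inner ℂ u (toFock (gen p ann cre (mulD (chi R) v) -
        mulD (chi R) (gen p ann cre v))))
    have h7 : (inner ℂ (toFock v) (toFock v) : ℂ) = ((‖toFock v‖ ^ 2 : ℝ) : ℂ) := by
      rw [inner_self_eq_norm_sq_to_K]; norm_cast
    have h8 := congrArg Complex.re h1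
    rw [h7, Complex.sub_re, Complex.add_re, ← Complex.ofReal_mul, Complex.ofReal_re,
      Complex.zero_re] at h8
    have h9 : ‖toFock v‖ ^ 2 ≤ lam * ‖toFock v‖ ^ 2 := by
      have : (0 : ℝ) ≤ ‖toFock v‖ ^ 2 := by positivity
      nlinarith
    have h10 : ‖toFock v‖ ^ 2 ≤ (K * (6 / R) * ‖u‖) * ‖toFock v‖ := by
      calc ‖toFock v‖ ^ 2 ≤ ‖u‖ * (K * (6 / R) * ‖toFock v‖) := by linarith
        _ = _ := by ring
    have h11 : ‖toFock v‖ ≤ K * (6 / R) * ‖u‖ := by
      by_cases h0 : ‖toFock v‖ = 0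
      · rw [h0]; positivity
      · have hpos : 0 < ‖toFock v‖ := lt_of_le_of_ne (norm_nonneg _) (Ne.symm h0)
        rw [sq] at h10
        exact le_of_mul_le_mul_right h10 hpos
    have h12 := lp.norm_apply_le_norm (by norm_num : (2 : ENNReal) ≠ 0) (toFock v) n
    rw [toFock_apply, hv, cut_apply hM, norm_mul, Complex.norm_real, Real.norm_eq_abs] at h12
    have h13 : |chi R (sz n)| = chi R (sz n) := abs_of_nonneg (le_max_right _ _)
    rw [h13] at h12
    exact h12.trans h11
  ext n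
  have h1 : Tendsto (fun R : ℕ => chi ((R : ℝ) + 1) (sz n) * ‖u n‖) atTop (𝓝 (1 * ‖u n‖)) :=
    (chi_tendsto (sz n)).mul_const _
  have h2 : Tendsto (fun R : ℕ => K * (6 / ((R : ℝ) + 1)) * ‖u‖) atTop (𝓝 (K * 0 * ‖u‖)) := by
    refine (Tendsto.const_mul K ?_).mul_const _
    exact tendsto_const_nhds.div_atTop
      (tendsto_atTop_add_const_right _ _ tendsto_natCast_atTop_atTop)
  have h3 := le_of_tendsto_of_tendsto' h1 h2 (fun R => key _ (by positivity) n)
  rw [one_mul, mul_zero, zero_mul] at h3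
  simpa using norm_le_zero_iff.1 h3

/-- The graph as a submodule. -/
noncomputable def genSub (p : Params d) : Submodule ℂ
    (lp (fun _ : Fin d → ℕ => ℂ) 2 × lp (fun _ : Fin d → ℕ => ℂ) 2) :=
  (LinearMap.range (toFock.prod (toFock ∘ₗ gen p ann cre))).topologicalClosure

theorem genSub_coe (p : Params d) :
    (genSub p : Set (lp (fun _ : Fin d → ℕ => ℂ) 2 × lp (fun _ : Fin d → ℕ => ℂ) 2)) =
      genGraph p := by
  rw [genSub, Submodule.topologicalClosure_coe, genGraph, LinearMap.coe_range]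
  rfl

theorem mem_genSub (p : Params d) (x y : lp (fun _ : Fin d → ℕ => ℂ) 2) :
    (x, y) ∈ genSub p ↔ (x, y) ∈ genGraph p := by
  rw [← genSub_coe]; rfl

theorem genGraph_closed_cond (p : Params d)
    {S : Set (lp (fun _ : Fin d → ℕ => ℂ) 2 × lp (fun _ : Fin d → ℕ => ℂ) 2)} (hS : IsClosed S)
    (h : ∀ f, (toFock f, toFock (gen p ann cre f)) ∈ S) : genGraph p ⊆ S := by
  apply closure_minimal _ hS
  rintro _ ⟨f, rfl⟩
  exact h f

theorem genGraph_diss (p : Params d) {x y : lp (fun _ : Fin d → ℕ => ℂ) 2}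
    (hxy : (x, y) ∈ genGraph p) : (inner ℂ x y).re ≤ 0 := by
  have hS : IsClosed {q : lp (fun _ : Fin d → ℕ => ℂ) 2 × lp (fun _ : Fin d → ℕ => ℂ) 2 |
      (inner ℂ q.1 q.2).re ≤ 0} :=
    isClosed_le (Complex.continuous_re.comp (continuous_fst.inner continuous_snd))
      continuous_const
  exact genGraph_closed_cond p hS (fun f => gen_diss p f) hxy

theorem genSub_msect (p : Params d) : MSect (genSub p) 0 where
  hk := le_rfl
  dense := by
    have h1 : (LinearMap.range (toFock (d := d))).topologicalClosure = ⊤ := by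
      rw [Submodule.topologicalClosure_eq_top_iff, Submodule.eq_bot_iff]
      intro u hu
      ext n
      have h2 := (Submodule.mem_orthogonal _ u).1 hu (toFock (Finsupp.single n 1))
        (LinearMap.mem_range_self _ _)
      rw [toFock, Finsupp.linearCombination_single, one_smul, lp.inner_single_left] at h2
      simpa using h2
    have h2 : Dense ((LinearMap.range (toFock (d := d))) :
        Set (lp (fun _ : Fin d → ℕ => ℂ) 2)) := by
      rw [dense_iff_closure_eq, ← Submodule.topologicalClosure_coe, h1]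
      rfl
    refine h2.mono ?_
    rintro _ ⟨f, rfl⟩
    refine ⟨toFock (gen p ann cre f), ?_⟩
    rw [mem_genSub]
    exact subset_closure ⟨f, rfl⟩
  sect := by
    intro x y hxy
    rw [mem_genSub] at hxy
    have := genGraph_diss p hxy
    rw [zero_mul]; linarith
  surj := by
    intro n
    set lam : ℝ := (n : ℝ) + 1 with hlam
    have hlam1 : 1 ≤ lam := by
      have : (0 : ℝ) ≤ n := Nat.cast_nonneg _
      linarith
    have hlamc : ((n : ℂ) + 1) = (lam : ℂ) := by rw [hlam]; push_cast; ring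
    let Phi : genSub p →L[ℂ] lp (fun _ : Fin d → ℕ => ℂ) 2 :=
      ContinuousLinearMap.comp
        ((lam : ℂ) • ContinuousLinearMap.fst ℂ (lp (fun _ : Fin d → ℕ => ℂ) 2)
          (lp (fun _ : Fin d → ℕ => ℂ) 2) -
          ContinuousLinearMap.snd ℂ (lp (fun _ : Fin d → ℕ => ℂ) 2)
          (lp (fun _ : Fin d → ℕ => ℂ) 2))
        (genSub p).subtypeL
    have hPhi : ∀ q : genSub p, Phi q = (lam : ℂ) • q.1.1 - q.1.2 := fun q => rfl
    have hbound : ∀ q : genSub p, ‖q‖ ≤ 2 * ‖Phi q‖ := by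
      intro q
      obtain ⟨⟨x, y⟩, hq⟩ := q
      have hd := genGraph_diss p ((mem_genSub p x y).1 hq)
      rw [hPhi]
      simp only [Submodule.coe_norm, Prod.norm_def]
      have h1 : lam * ‖x‖ ^ 2 ≤ ‖x‖ * ‖(lam : ℂ) • x - y‖ := by
        have h2 : (inner ℂ x ((lam : ℂ) • x - y)).re = lam * ‖x‖ ^ 2 - (inner ℂ x y).re := by
          rw [inner_sub_right, inner_smul_right, inner_self_eq_norm_sq_to_K, Complex.sub_re]
          congr 1
          rw [Complex.re_ofReal_mul]
          norm_cast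
        have h3 := (Complex.re_le_norm _).trans (norm_inner_le_norm (𝕜 := ℂ) x ((lam : ℂ) • x - y))
        rw [h2] at h3
        linarith
      have h2 : lam * ‖x‖ ≤ ‖(lam : ℂ) • x - y‖ := by
        by_cases h0 : ‖x‖ = 0
        · rw [h0, mul_zero]; positivity
        · have hpos : 0 < ‖x‖ := lt_of_le_of_ne (norm_nonneg _) (Ne.symm h0)
          have : ‖x‖ * (lam * ‖x‖) ≤ ‖x‖ * ‖(lam : ℂ) • x - y‖ := by
            calc _ = lam * ‖x‖ ^ 2 := by ring
              _ ≤ _ := h1
          exact le_of_mul_le_mul_left this hpos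
      have h3 : ‖x‖ ≤ lam * ‖x‖ := by nlinarith [norm_nonneg x]
      have h4 : ‖y‖ ≤ ‖(lam : ℂ) • x - y‖ + lam * ‖x‖ := by
        have h5 : y = (lam : ℂ) • x - ((lam : ℂ) • x - y) := by abel
        calc ‖y‖ = ‖(lam : ℂ) • x - ((lam : ℂ) • x - y)‖ := by rw [← h5]
          _ ≤ ‖(lam : ℂ) • x‖ + ‖(lam : ℂ) • x - y‖ := norm_sub_le _ _
          _ = ‖(lam : ℂ) • x - y‖ + lam * ‖x‖ := by
              rw [norm_smul, Complex.norm_real, Real.norm_of_nonneg (by linarith)]; ring
      apply max_le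
      · have := norm_nonneg ((lam : ℂ) • x - y)
        linarith
      · linarith
    have hanti : AntilipschitzWith 2 Phi := by
      apply Phi.antilipschitz_of_bound
      intro q
      exact_mod_cast hbound q
    have hcl : IsClosed (Set.range Phi) := by
      haveI : CompleteSpace (genSub p) :=
        (Submodule.isClosed_topologicalClosure _).completeSpace_coe
      exact hanti.isClosed_range Phi.uniformContinuous
    have htop : (LinearMap.range (Phi : genSub p →ₗ[ℂ] lp (fun _ : Fin d → ℕ => ℂ) 2)) = ⊤ := by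
      have h1 : (LinearMap.range
          (Phi : genSub p →ₗ[ℂ] lp (fun _ : Fin d → ℕ => ℂ) 2)).topologicalClosure = ⊤ := by
        rw [Submodule.topologicalClosure_eq_top_iff, Submodule.eq_bot_iff]
        intro u hu
        apply ortho_zero p hlam1 u
        intro f
        have h2 := (Submodule.mem_orthogonal' _ u).1 hu
          (Phi ⟨(toFock f, toFock (gen p ann cre f)),
            (mem_genSub p _ _).2 (subset_closure ⟨f, rfl⟩)⟩) (LinearMap.mem_range_self _ _)
        rw [hPhi] at h2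
        exact h2
      rw [← h1, eq_comm]
      apply IsClosed.submodule_topologicalClosure_eq
      exact hcl
    intro y
    have hy : y ∈ LinearMap.range (Phi : genSub p →ₗ[ℂ] lp (fun _ : Fin d → ℕ => ℂ) 2) := by
      rw [htop]; trivial
    obtain ⟨⟨⟨x, z⟩, hxz⟩, hq⟩ := hy
    refine ⟨x, z, hxz, ?_⟩
    rw [hlamc]
    exact hq

end Pool.Agent.Helper63.GQ
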