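import Mathlib
import Pool.Agent.Helper63.GQCoh

/-! The growth bound for the Hamiltonian symbol implies the classification condition. -/

namespace Pool.Agent.Helper63.GQ

open ComplexConjugate

variable {d : ℕ} (p : Params d)

theorem poly_bound {A B D E F : ℝ} (h : ∀ s : ℝ, |A * s ^ 2 + B * s + D| ≤ E + F * |s|) :
    A = 0 ∧ |B| ≤ F := by
  have hF : 0 ≤ E := by
    have := h 0
    simp at this
    exact (abs_nonneg D).trans this
  have hA : A = 0 := by
    by_contra hA
    have hApos : 0 < |A| := abs_pos.2 hA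
    set s : ℝ := (E + |D| + |F| + |B| + 1) / |A| + 1 with hs
    have hs1 : 1 ≤ s := by
      have : 0 ≤ (E + |D| + |F| + |B| + 1) / |A| := by positivity
      linarith
    have h1 := h s
    have h2 : |A * s ^ 2| ≤ |A * s ^ 2 + B * s + D| + |B * s| + |D| := by
      have e : A * s ^ 2 = (A * s ^ 2 + B * s + D) + (-(B * s)) + (-D) := by ring
      calc |A * s ^ 2| = |(A * s ^ 2 + B * s + D) + (-(B * s)) + (-D)| := by rw [← e]
        _ ≤ |A * s ^ 2 + B * s + D| + |-(B * s)| + |-D| := abs_add_three _ _ _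
        _ = _ := by rw [abs_neg, abs_neg]
    rw [abs_mul, abs_mul, abs_of_nonneg (sq_nonneg s)] at h2
    rw [abs_of_nonneg (by linarith : (0 : ℝ) ≤ s)] at h1 h2
    have h3 : |A| * s = (E + |D| + |F| + |B| + 1) + |A| := by
      rw [hs]; field_simp
    have h4 : |A| * s ^ 2 = ((E + |D| + |F| + |B| + 1) + |A|) * s := by
      rw [← h3]; ring
    have h5 : F ≤ |F| := le_abs_self F
    have h6 := abs_nonneg D
    have h7 : F * s ≤ |F| * s := by gcongr
    nlinarith [abs_nonneg B, mul_le_mul_of_nonneg_left hs1 hF,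
      mul_le_mul_of_nonneg_left hs1 h6]
  refine ⟨hA, ?_⟩
  by_contra hcon
  push Not at hcon
  subst hA
  set s : ℝ := (E + |D| + 1) / (|B| - F) with hs
  have hpos : 0 < |B| - F := by linarith
  have hs0 : 0 < s := by positivity
  have h1 := h s
  rw [zero_mul, zero_add, abs_of_pos hs0] at h1
  have h2 : |B * s| ≤ |B * s + D| + |D| := by
    have e : B * s = (B * s + D) + (-D) := by ring
    calc |B * s| = |(B * s + D) + (-D)| := by rw [← e]
      _ ≤ |B * s + D| + |-D| := abs_add_le _ _
      _ = _ := by rw [abs_neg]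
  rw [abs_mul, abs_of_pos hs0] at h2
  have h3 : (|B| - F) * s = E + |D| + 1 := by rw [hs]; field_simp
  nlinarith

/-- The real bilinear form. -/
noncomputable def bf (x y : Fin d → ℂ) : ℝ := (∑ j, conj (x j) * hh p j y).re

theorem bf_symm (x y : Fin d → ℂ) : bf p x y = bf p y x := form_symm p x y

theorem bf_add_right (x y z : Fin d → ℂ) : bf p x (y + z) = bf p x y + bf p x z := by
  simp only [bf, map_add, mul_add, Finset.sum_add_distrib, Complex.add_re]

theorem bf_smul_right (s : ℝ) (x y : Fin d → ℂ) : bf p x (s • y) = s * bf p x y := by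
  simp only [bf, map_smul]
  rw [← Complex.re_ofReal_mul, Finset.mul_sum]
  congr 1
  refine Finset.sum_congr rfl (fun j _ => ?_)
  rw [Complex.real_smul]
  ring

theorem Hs_expand (z w : Fin d → ℂ) (s : ℝ) :
    Hs p (s • z + w) = bf p z z * s ^ 2 + (2 * bf p z w + (ze p z).re) * s + Hs p w := by
  have h1 : Hs p (s • z + w) = bf p (s • z + w) (s • z + w) + (ze p (s • z + w)).re := rfl
  have h2 : Hs p w = bf p w w + (ze p w).re := rfl
  have h3 : bf p (s • z + w) (s • z + w) =
      s * (s * bf p z z + bf p z w) + (s * bf p z w + bf p w w) := by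
    rw [bf_add_right, bf_smul_right, bf_symm p (s • z + w) z, bf_add_right, bf_smul_right,
      bf_symm p (s • z + w) w, bf_add_right, bf_smul_right, bf_symm p w z]
  rw [h1, h2, h3, map_add, map_smul, Complex.add_re, Complex.real_smul, Complex.re_ofReal_mul]
  ring

theorem cond_of_bound (h : ∃ C, 0 ≤ C ∧ ∀ al, |Hs p al| ≤ C * Sz p al) : Cond p := by
  obtain ⟨C, hC, hb⟩ := h
  intro z hz
  have key : ∀ w, bf p z z = 0 ∧
      |2 * bf p z w + (ze p z).re| ≤ C * ∑ j, ‖hh p j z‖ := by
    intro w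
    refine poly_bound (D := Hs p w)
      (E := C * (1 + ∑ j, ‖hh p j w‖ + ∑ l, ‖Lam p l w‖ ^ 2)) (fun s => ?_)
    rw [← Hs_expand]
    refine (hb _).trans ?_
    have h1 : Sz p (s • z + w) ≤ (1 + ∑ j, ‖hh p j w‖ + ∑ l, ‖Lam p l w‖ ^ 2) +
        (∑ j, ‖hh p j z‖) * |s| := by
      unfold Sz
      have e1 : ∀ l, Lam p l (s • z + w) = Lam p l w := by
        intro l
        rw [map_add, map_smul, hz, smul_zero, zero_add]
      have e2 : ∑ j, ‖hh p j (s • z + w)‖ ≤ (∑ j, ‖hh p j z‖) * |s| + ∑ j, ‖hh p j w‖ := by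
        rw [Finset.sum_mul, ← Finset.sum_add_distrib]
        refine Finset.sum_le_sum (fun j _ => ?_)
        rw [map_add, map_smul]
        refine (norm_add_le _ _).trans ?_
        rw [norm_smul, Real.norm_eq_abs, mul_comm]
      simp only [e1]
      linarith
    calc C * Sz p (s • z + w) ≤ C * ((1 + ∑ j, ‖hh p j w‖ + ∑ l, ‖Lam p l w‖ ^ 2) +
        (∑ j, ‖hh p j z‖) * |s|) := by gcongr
      _ = _ := by ring
  have key2 : ∀ w, bf p z w = 0 := by
    intro w
    have h1 : ∀ t : ℝ, |0 * t ^ 2 + (2 * bf p z w) * t + (ze p z).re| ≤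
        C * (∑ j, ‖hh p j z‖) + 0 * |t| := by
      intro t
      have := (key (t • w)).2
      rw [bf_smul_right] at this
      rw [zero_mul, zero_add, zero_mul, add_zero]
      calc _ = |2 * (t * bf p z w) + (ze p z).re| := by ring_nf
        _ ≤ _ := this
    have h2 := (poly_bound h1).2
    have h3 : 2 * bf p z w = 0 := abs_eq_zero.1 (le_antisymm h2 (abs_nonneg _))
    linarith
  have hh0 : ∀ j, hh p j z = 0 := by
    have h1 := key2 (fun j => hh p j z)
    rw [bf_symm] at h1
    have h2 : bf p (fun j => hh p j z) z = ∑ j, ‖hh p j z‖ ^ 2 := by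
      simp only [bf]
      rw [Complex.re_sum]
      refine Finset.sum_congr rfl (fun j _ => ?_)
      rw [← Complex.normSq_eq_conj_mul_self, Complex.ofReal_re, Complex.normSq_eq_norm_sq]
    rw [h2, Finset.sum_eq_zero_iff_of_nonneg (fun j _ => by positivity)] at h1
    intro j
    have := h1 j (Finset.mem_univ j)
    have h3 : ‖hh p j z‖ = 0 := by simpa using this
    exact norm_eq_zero.1 h3
  refine ⟨hh0, ?_⟩
  have h1 := (key 0).2
  have h2 : ∑ j, ‖hh p j z‖ = 0 := Finset.sum_eq_zero (fun j _ => by rw [hh0, norm_zero])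
  rw [key2, h2, mul_zero, mul_zero, zero_add] at h1
  have h3 : (ze p z).re = 0 := abs_eq_zero.1 (le_antisymm h1 (abs_nonneg _))
  rw [ze_apply, Complex.ofReal_re] at h3
  rw [ze_apply, h3, Complex.ofReal_zero]

end Pool.Agent.Helper63.GQ
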