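import Mathlib

set_option autoImplicit false

open scoped TensorProduct InnerProductSpace
open UniformSpace

namespace Pool.Agent.Helper63.Koszul

section Tensor

variable {L : Type} [NormedAddCommGroup L] [InnerProductSpace ℂ L]

/-- Hilbert tensor square of `L` (completion of the algebraic tensor product). -/
abbrev TT (L : Type) [NormedAddCommGroup L] [InnerProductSpace ℂ L] : Type :=
  UniformSpace.Completion (L ⊗[ℂ] L)

/-- The operator `f ⊗ g` on the Hilbert tensor square. -/
noncomputable def Th (f g : L →L[ℂ] L) : TT L →L[ℂ] TT L :=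
  (TensorProduct.mapL f g).completion

/-- Elementary tensors. -/
noncomputable def tau (x y : L) : TT L := ((x ⊗ₜ[ℂ] y : L ⊗[ℂ] L) : TT L)

theorem Th_tau (f g : L →L[ℂ] L) (x y : L) : Th f g (tau x y) = tau (f x) (g y) := by
  unfold Th tau
  rw [ContinuousLinearMap.completion_apply_coe, TensorProduct.mapL_tmul]

theorem inner_tau (x y x' y' : L) :
    inner ℂ (tau x y) (tau x' y') = inner ℂ x x' * inner ℂ y y' := by
  unfold tau
  rw [UniformSpace.Completion.inner_coe, TensorProduct.inner_tmul]

theorem tau_sub_left (x x' y : L) : tau (x - x') y = tau x y - tau x' y := by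
  unfold tau
  rw [TensorProduct.sub_tmul, UniformSpace.Completion.coe_sub]

theorem tau_add_left (x x' y : L) : tau (x + x') y = tau x y + tau x' y := by
  unfold tau
  rw [TensorProduct.add_tmul, UniformSpace.Completion.coe_add]

theorem tau_add_right (x y y' : L) : tau x (y + y') = tau x y + tau x y' := by
  unfold tau
  rw [TensorProduct.tmul_add, UniformSpace.Completion.coe_add]

theorem tau_smul_left (c : ℂ) (x y : L) : tau (c • x) y = c • tau x y := by
  unfold tau
  rw [← TensorProduct.smul_tmul', UniformSpace.Completion.coe_smul]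

theorem tau_smul_right (c : ℂ) (x y : L) : tau x (c • y) = c • tau x y := by
  unfold tau
  rw [TensorProduct.tmul_smul, UniformSpace.Completion.coe_smul]

theorem tau_zero_left (y : L) : tau (0 : L) y = 0 := by
  unfold tau
  rw [TensorProduct.zero_tmul, UniformSpace.Completion.coe_zero]

theorem tau_zero_right (x : L) : tau x (0 : L) = 0 := by
  unfold tau
  rw [TensorProduct.tmul_zero, UniformSpace.Completion.coe_zero]

theorem continuous_tau : Continuous fun p : L × L => tau p.1 p.2 := by
  unfold tau
  exact (UniformSpace.Completion.continuous_coe _).comp TensorProduct.continuous_tmul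

/-- Two continuous functions on the tensor square that agree on elementary tensors and are
additive agree. -/
theorem ext_tau {F : Type} [NormedAddCommGroup F] [NormedSpace ℂ F]
    {S T : TT L →L[ℂ] F} (h : ∀ x y, S (tau x y) = T (tau x y)) : S = T := by
  ext z
  induction z using UniformSpace.Completion.induction_on with
  | hp => exact isClosed_eq S.continuous T.continuous
  | ih a =>
    induction a using TensorProduct.induction_on with
    | zero => rw [UniformSpace.Completion.coe_zero, map_zero, map_zero]
    | tmul x y => exact h x y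
    | add x y hx hy =>
      rw [UniformSpace.Completion.coe_add, map_add, map_add, hx, hy]

/-- An element orthogonal to all elementary tensors vanishes. -/
theorem eq_zero_of_inner_tau {z : TT L} (h : ∀ x y, inner ℂ z (tau x y) = 0) : z = 0 := by
  have : (innerSL ℂ z : TT L →L[ℂ] ℂ) = 0 := by
    apply ext_tau
    intro x y
    simpa using h x y
  have h2 : (innerSL ℂ z : TT L →L[ℂ] ℂ) z = 0 := by rw [this]; rfl
  simpa using h2

theorem Th_comp_apply (f g f' g' : L →L[ℂ] L) (z : TT L) :
    Th f g (Th f' g' z) = Th (f * f') (g * g') z := by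
  have : (Th f g).comp (Th f' g') = Th (f * f') (g * g') := by
    apply ext_tau
    intro x y
    simp [Th_tau]
  rw [← this]; rfl

theorem Th_mul (f g f' g' : L →L[ℂ] L) :
    Th f g * Th f' g' = Th (f * f') (g * g') := by
  ext z
  exact Th_comp_apply f g f' g' z

theorem Th_sub_left (f f' g : L →L[ℂ] L) : Th (f - f') g = Th f g - Th f' g := by
  apply ext_tau
  intro x y
  simp [Th_tau, tau_sub_left]

theorem tau_sub_right (x y y' : L) : tau x (y - y') = tau x y - tau x y' := by
  unfold tau
  rw [TensorProduct.tmul_sub, UniformSpace.Completion.coe_sub]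

theorem Th_sub_right (f g g' : L →L[ℂ] L) : Th f (g - g') = Th f g - Th f g' := by
  apply ext_tau
  intro x y
  simp [Th_tau, tau_sub_right]

theorem Th_add_left (f f' g : L →L[ℂ] L) : Th (f + f') g = Th f g + Th f' g := by
  apply ext_tau
  intro x y
  simp [Th_tau, tau_add_left]

theorem Th_add_right (f g g' : L →L[ℂ] L) : Th f (g + g') = Th f g + Th f g' := by
  apply ext_tau
  intro x y
  simp [Th_tau, tau_add_right]

theorem Th_one : Th (1 : L →L[ℂ] L) 1 = 1 := by
  apply ext_tau
  intro x y
  simp [Th_tau]

theorem Th_zero_left (g : L →L[ℂ] L) : Th (0 : L →L[ℂ] L) g = 0 := by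
  apply ext_tau
  intro x y
  simp [Th_tau, tau_zero_left]

theorem Th_zero_right (g : L →L[ℂ] L) : Th g (0 : L →L[ℂ] L) = 0 := by
  apply ext_tau
  intro x y
  simp [Th_tau, tau_zero_right]

variable [CompleteSpace L]

theorem adjoint_Th (f g : L →L[ℂ] L) :
    ContinuousLinearMap.adjoint (Th f g) =
      Th (ContinuousLinearMap.adjoint f) (ContinuousLinearMap.adjoint g) := by
  apply ext_tau
  intro x y
  apply sub_eq_zero.mp
  apply eq_zero_of_inner_tau
  intro x' y'
  rw [inner_sub_left, ContinuousLinearMap.adjoint_inner_left, Th_tau, Th_tau, inner_tau, inner_tau,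
    ContinuousLinearMap.adjoint_inner_left, ContinuousLinearMap.adjoint_inner_left, sub_self]

end Tensor

end Pool.Agent.Helper63.Koszul
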