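import Mathlib
import Pool.Agent.Helper63.HTensor

set_option autoImplicit false

open scoped InnerProductSpace
open ContinuousLinearMap (adjoint)

namespace Pool.Agent.Helper63.Koszul

section

variable {L : Type} [NormedAddCommGroup L] [InnerProductSpace ℂ L]

/-- `P = π ⊗ π + (1-π) ⊗ (1-π)`. -/
noncomputable def PP (ϖ : L →L[ℂ] L) : TT L →L[ℂ] TT L := Th ϖ ϖ + Th (1 - ϖ) (1 - ϖ)

/-- `J = P (p ⊗ p)`. -/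
noncomputable def JJ (ϖ p : L →L[ℂ] L) : TT L →L[ℂ] TT L := PP ϖ * Th p p

theorem JJ_eq (ϖ p : L →L[ℂ] L) :
    JJ ϖ p = Th (ϖ * p) (ϖ * p) + Th ((1 - ϖ) * p) ((1 - ϖ) * p) := by
  unfold JJ PP
  rw [add_mul, Th_mul, Th_mul]

theorem gen_inverse (ϖ p θ₀ θ₁ σ₀ σ₁ : L →L[ℂ] L)
    (hϖ : ϖ * ϖ = ϖ) (hp : p * p = p)
    (h0 : σ₀ * ϖ * p = p - θ₀) (h1 : σ₁ * (1 - ϖ) * p = p - θ₁)
    (hπ0 : ϖ * θ₀ = 0) (hπ1 : (1 - ϖ) * θ₁ = 0)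
    (hp0 : p * θ₀ = θ₀) (hp1 : p * θ₁ = θ₁) (h0p : θ₀ * p = θ₀)
    (h01 : θ₀ * θ₁ = 0) :
    ∃ Λ : TT L →L[ℂ] TT L, JJ ϖ p * Λ * JJ ϖ p = JJ ϖ p := by
  have hϖ' : (1 - ϖ) * (1 - ϖ) = 1 - ϖ := by
    have : (1 - ϖ) * (1 - ϖ) = 1 - ϖ - ϖ + ϖ * ϖ := by noncomm_ring
    rw [this, hϖ]; abel
  have hc1 : ϖ * (1 - ϖ) = 0 := by rw [mul_sub, mul_one, hϖ, sub_self]
  have hc2 : (1 - ϖ) * ϖ = 0 := by rw [sub_mul, one_mul, hϖ, sub_self]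
  refine ⟨Th (σ₀ * ϖ) (σ₀ * ϖ) +
    (1 - Th (p - θ₀) (p - θ₀)) * Th (σ₁ * (1 - ϖ)) (σ₁ * (1 - ϖ)), ?_⟩
  have A0 : σ₀ * ϖ * (ϖ * p) = p - θ₀ := by
    rw [← h0, mul_assoc, ← mul_assoc ϖ ϖ p, hϖ, mul_assoc]
  have A1 : σ₀ * ϖ * ((1 - ϖ) * p) = 0 := by
    rw [mul_assoc, ← mul_assoc ϖ (1 - ϖ) p, hc1, zero_mul, mul_zero]
  have B0 : σ₁ * (1 - ϖ) * (ϖ * p) = 0 := by
    rw [mul_assoc, ← mul_assoc (1 - ϖ) ϖ p, hc2, zero_mul, mul_zero]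
  have B1 : σ₁ * (1 - ϖ) * ((1 - ϖ) * p) = p - θ₁ := by
    rw [← h1, mul_assoc, ← mul_assoc (1 - ϖ) (1 - ϖ) p, hϖ', mul_assoc]
  have C1 : Th (σ₀ * ϖ) (σ₀ * ϖ) * JJ ϖ p = Th (p - θ₀) (p - θ₀) := by
    rw [JJ_eq, mul_add, Th_mul, Th_mul, A0, A1, Th_zero_left, add_zero]
  have C2 : Th (σ₁ * (1 - ϖ)) (σ₁ * (1 - ϖ)) * JJ ϖ p = Th (p - θ₁) (p - θ₁) := by
    rw [JJ_eq, mul_add, Th_mul, Th_mul, B0, B1, Th_zero_left, zero_add]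
  have D : (p - θ₀) * (p - θ₁) = p - θ₀ - θ₁ := by
    have : (p - θ₀) * (p - θ₁) = p * p - p * θ₁ - θ₀ * p + θ₀ * θ₁ := by noncomm_ring
    rw [this, hp, hp1, h0p, h01]; abel
  rw [mul_assoc, add_mul, mul_assoc (1 - Th (p - θ₀) (p - θ₀)), C1, C2, sub_mul, one_mul,
    Th_mul, D]
  have E : Th (p - θ₀) (p - θ₀) + (Th (p - θ₁) (p - θ₁) - Th (p - θ₀ - θ₁) (p - θ₀ - θ₁)) =
      Th p p - Th θ₀ θ₁ - Th θ₁ θ₀ := by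
    simp only [Th_sub_left, Th_sub_right]
    abel
  rw [E, mul_sub, mul_sub]
  have F0 : JJ ϖ p * Th p p = JJ ϖ p := by
    rw [JJ_eq, add_mul, Th_mul, Th_mul, mul_assoc, hp, mul_assoc, hp]
  have F1 : JJ ϖ p * Th θ₀ θ₁ = 0 := by
    rw [JJ_eq, add_mul, Th_mul, Th_mul, mul_assoc, hp0, hπ0, Th_zero_left, mul_assoc, mul_assoc,
      hp1, hπ1, Th_zero_right, add_zero]
  have F2 : JJ ϖ p * Th θ₁ θ₀ = 0 := by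
    rw [JJ_eq, add_mul, Th_mul, Th_mul, mul_assoc, mul_assoc, hp0, hπ0, Th_zero_right,
      mul_assoc, mul_assoc, hp1, hπ1, Th_zero_left, add_zero]
  rw [F0, F1, F2, sub_zero, sub_zero]

theorem surj_formula (ϖ p U R Q₁ R' Q₀ : L →L[ℂ] L)
    (hp : p * p = p) (hcomm : U * ϖ = ϖ * U)
    (h1 : p = U * R + Q₁) (h0 : p = U * R' + Q₀)
    (hR : p * R = R) (hR' : p * R' = R') (hQ1 : p * Q₁ = Q₁)
    (hk1 : (1 - ϖ) * Q₁ = 0) (hk0 : ϖ * Q₀ = 0) :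
    JJ ϖ p = Th U 1 * (JJ ϖ p * Th R p) + Th 1 U * (JJ ϖ p * Th Q₁ R') := by
  have hcomm' : U * (1 - ϖ) = (1 - ϖ) * U := by
    rw [mul_sub, sub_mul, mul_one, one_mul, hcomm]
  have cP1 : Th U 1 * PP ϖ = PP ϖ * Th U 1 := by
    unfold PP
    rw [mul_add, add_mul, Th_mul, Th_mul, Th_mul, Th_mul, hcomm, hcomm', one_mul, mul_one,
      one_mul, mul_one]
  have cP2 : Th 1 U * PP ϖ = PP ϖ * Th 1 U := by
    unfold PP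
    rw [mul_add, add_mul, Th_mul, Th_mul, Th_mul, Th_mul, hcomm, hcomm', one_mul, mul_one,
      one_mul, mul_one]
  have e1 : Th p p = Th U 1 * Th R p + (Th 1 U * Th Q₁ R' + Th Q₁ Q₀) := by
    rw [Th_mul, Th_mul, one_mul, one_mul]
    calc Th p p = Th (U * R + Q₁) p := by rw [← h1]
      _ = Th (U * R) p + Th Q₁ p := Th_add_left _ _ _
      _ = Th (U * R) p + Th Q₁ (U * R' + Q₀) := by rw [← h0]
      _ = _ := by rw [Th_add_right]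
  have e2 : PP ϖ * Th Q₁ Q₀ = 0 := by
    unfold PP
    rw [add_mul, Th_mul, Th_mul, hk1, hk0, Th_zero_left, Th_zero_right, add_zero]
  have e3 : Th p p * Th R p = Th R p := by rw [Th_mul, hR, hp]
  have e4 : Th p p * Th Q₁ R' = Th Q₁ R' := by rw [Th_mul, hQ1, hR']
  unfold JJ
  rw [mul_assoc (PP ϖ) (Th p p) (Th R p), e3, mul_assoc (PP ϖ) (Th p p) (Th Q₁ R'), e4]
  rw [← mul_assoc (Th U 1), cP1, ← mul_assoc (Th 1 U), cP2, mul_assoc, mul_assoc]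
  rw [e1, mul_add, mul_add, e2, add_zero]

end

end Pool.Agent.Helper63.Koszul
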