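import Mathlib

set_option autoImplicit false

namespace Pool.Agent.Helper63.Koszul

/-- Packaging lemma: from an operator `J` with a generalised inverse on a Hilbert space `T`,
whose range is invariant under two commuting normal operators, one gets a counterexample. -/
theorem pack (T : Type) [NormedAddCommGroup T] [InnerProductSpace ℂ T] [CompleteSpace T]
    (J Λ N₁ N₂ X₁ X₂ : T →L[ℂ] T) (x₀ h : T)
    (hΛ : ∀ z, J (Λ (J z)) = J z)
    (hN1 : IsStarNormal N₁) (hN2 : IsStarNormal N₂) (hN : N₁ * N₂ = N₂ * N₁)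
    (hi1 : ∀ z, ∃ w, N₁ (J z) = J w) (hi2 : ∀ z, ∃ w, N₂ (J z) = J w)
    (hX : ∀ z, J z = N₁ (J (X₁ z)) + N₂ (J (X₂ z)))
    (hx₀ : ∃ w, x₀ = J w)
    (hcyc : ∀ z, (∀ m n : ℕ, inner ℂ (J z) ((N₁ ^ m * N₂ ^ n) x₀) = 0) → J z = 0)
    (hh1 : ∃ w, N₁ h = J w) (hh2 : ∃ w, N₂ h = J w)
    (hh : ∀ w, h ≠ J w)
    (hinj : Function.Injective N₂) :
    ¬ (∀ (H : Type) [NormedAddCommGroup H] [InnerProductSpace ℂ H] [CompleteSpace H]
      (S₁ S₂ : H →L[ℂ] H),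
      S₁ * S₂ = S₂ * S₁ →
      (∃ (K : Type) (_ : NormedAddCommGroup K) (_ : InnerProductSpace ℂ K) (_ : CompleteSpace K)
          (V : H →L[ℂ] K) (N₁ N₂ : K →L[ℂ] K),
          (∀ x : H, ‖V x‖ = ‖x‖) ∧ IsStarNormal N₁ ∧ IsStarNormal N₂ ∧
          N₁ * N₂ = N₂ * N₁ ∧ N₁.comp V = V.comp S₁ ∧ N₂.comp V = V.comp S₂) →
      (∃ x : H, Dense ((Submodule.span ℂ
          (Set.range (fun p : ℕ × ℕ => (S₁ ^ p.1 * S₂ ^ p.2) x)) : Submodule ℂ H) : Set H)) →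
      ∀ μ₁ μ₂ : ℂ,
        ((∀ z : H, ∃ u v : H, (S₁ - μ₁ • (1 : H →L[ℂ] H)) u + (S₂ - μ₂ • (1 : H →L[ℂ] H)) v = z) ↔
          ((∀ z : H, ∃ u v : H,
              (S₁ - μ₁ • (1 : H →L[ℂ] H)) u + (S₂ - μ₂ • (1 : H →L[ℂ] H)) v = z) ∧
           (∀ u v : H,
              (S₁ - μ₁ • (1 : H →L[ℂ] H)) u + (S₂ - μ₂ • (1 : H →L[ℂ] H)) v = 0 →
              ∃ x : H, u = (S₂ - μ₂ • (1 : H →L[ℂ] H)) x ∧
                v = -((S₁ - μ₁ • (1 : H →L[ℂ] H)) x)) ∧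
           (∀ x : H, (S₂ - μ₂ • (1 : H →L[ℂ] H)) x = 0 →
              (S₁ - μ₁ • (1 : H →L[ℂ] H)) x = 0 → x = 0)))) := by
  intro hall
  let H : Submodule ℂ T := LinearMap.range (J : T →ₗ[ℂ] T)
  have memH : ∀ y : T, y ∈ H ↔ ∃ w, J w = y := fun y => Iff.rfl
  have hclosed : IsClosed (H : Set T) := by
    have : (H : Set T) = {y | J (Λ y) = y} := by
      ext y
      constructor
      · rintro ⟨w, rfl⟩
        exact hΛ w
      · intro hy
        exact ⟨Λ y, hy⟩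
    rw [this]
    exact isClosed_eq (J.continuous.comp Λ.continuous) continuous_id
  have : CompleteSpace H := hclosed.completeSpace_coe
  have inv1 : ∀ x : H, N₁ (x : T) ∈ H := by
    rintro ⟨x, w, rfl⟩
    obtain ⟨w', hw'⟩ := hi1 w
    exact ⟨w', hw'.symm⟩
  have inv2 : ∀ x : H, N₂ (x : T) ∈ H := by
    rintro ⟨x, w, rfl⟩
    obtain ⟨w', hw'⟩ := hi2 w
    exact ⟨w', hw'.symm⟩
  let S₁ : H →L[ℂ] H := (N₁.comp H.subtypeL).codRestrict H inv1
  let S₂ : H →L[ℂ] H := (N₂.comp H.subtypeL).codRestrict H inv2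
  have S1c : ∀ x : H, ((S₁ x : H) : T) = N₁ x := fun x => rfl
  have S2c : ∀ x : H, ((S₂ x : H) : T) = N₂ x := fun x => rfl
  have hNapp : ∀ x : T, N₁ (N₂ x) = N₂ (N₁ x) := fun x => by
    have := congrArg (fun f : T →L[ℂ] T => f x) hN
    simpa using this
  have hScomm : S₁ * S₂ = S₂ * S₁ := by
    ext x
    simp only [mul_apply_eq_comp, S1c, S2c]
    exact hNapp x
  obtain ⟨w₀, hw₀⟩ := hx₀
  have hx0mem : x₀ ∈ H := ⟨w₀, hw₀.symm⟩
  have powc : ∀ (m n : ℕ) (x : H), (((S₁ ^ m * S₂ ^ n) x : H) : T) = (N₁ ^ m * N₂ ^ n) (x : T) := by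
    intro m n x
    have h2 : ∀ (n : ℕ) (x : H), (((S₂ ^ n) x : H) : T) = (N₂ ^ n) (x : T) := by
      intro n
      induction n with
      | zero => intro x; simp
      | succ n ih =>
        intro x
        rw [pow_succ', pow_succ', mul_apply_eq_comp, mul_apply_eq_comp,
          S2c, ih]
    have h1 : ∀ (n : ℕ) (x : H), (((S₁ ^ n) x : H) : T) = (N₁ ^ n) (x : T) := by
      intro n
      induction n with
      | zero => intro x; simp
      | succ n ih =>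
        intro x
        rw [pow_succ', pow_succ', mul_apply_eq_comp, mul_apply_eq_comp,
          S1c, ih]
    rw [mul_apply_eq_comp, mul_apply_eq_comp, h1, h2]
  have key := hall H S₁ S₂ hScomm
    ⟨T, inferInstance, inferInstance, inferInstance, H.subtypeL, N₁, N₂,
      fun x => rfl, hN1, hN2, hN, by ext x; rfl, by ext x; rfl⟩
    ⟨⟨x₀, hx0mem⟩, by
      rw [Submodule.dense_iff_topologicalClosure_eq_top, Submodule.topologicalClosure_eq_top_iff]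
      rw [Submodule.eq_bot_iff]
      rintro ⟨y, w, rfl⟩ hy
      have hz : J w = 0 := by
        apply hcyc w
        intro m n
        have hmem : ((S₁ ^ m * S₂ ^ n) (⟨x₀, hx0mem⟩ : H)) ∈ Submodule.span ℂ
            (Set.range (fun p : ℕ × ℕ => (S₁ ^ p.1 * S₂ ^ p.2) (⟨x₀, hx0mem⟩ : H))) :=
          Submodule.subset_span ⟨(m, n), rfl⟩
        have := Submodule.inner_left_of_mem_orthogonal hmem hy
        rw [Submodule.coe_inner, powc] at this
        exact this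
      exact Subtype.ext hz⟩ 0 0
  have e1 : S₁ - (0 : ℂ) • (1 : H →L[ℂ] H) = S₁ := by
    ext x
    simp
  have e2 : S₂ - (0 : ℂ) • (1 : H →L[ℂ] H) = S₂ := by
    ext x
    simp
  rw [e1, e2] at key
  have onto : ∀ z : H, ∃ u v : H, S₁ u + S₂ v = z := by
    rintro ⟨z, w, rfl⟩
    refine ⟨⟨J (X₁ w), X₁ w, rfl⟩, ⟨J (X₂ w), X₂ w, rfl⟩, ?_⟩
    apply Subtype.ext
    rw [Submodule.coe_add, S1c, S2c]
    exact (hX w).symm
  obtain ⟨-, mid, -⟩ := key.mp onto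
  obtain ⟨w1, hw1⟩ := hh1
  obtain ⟨w2, hw2⟩ := hh2
  obtain ⟨x, hx, -⟩ := mid ⟨N₂ h, w2, hw2.symm⟩ (-⟨N₁ h, w1, hw1.symm⟩) (by
    apply Subtype.ext
    rw [map_neg, Submodule.coe_add, Submodule.coe_neg, S1c, S2c, Submodule.coe_zero]
    rw [hNapp h]
    exact add_neg_cancel _)
  have hx' : N₂ h = N₂ (x : T) := congrArg Subtype.val hx
  have hxh : h = x := hinj hx'
  obtain ⟨y, w, hw⟩ := x
  apply hh w
  rw [hxh]
  exact hw.symm

end Pool.Agent.Helper63.Koszul
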