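import Mathlib
import Pool.Agent.Helper63.HTensor
import Pool.Agent.Helper63.KPack
import Pool.Agent.Helper63.KAlg

set_option autoImplicit false

open scoped InnerProductSpace
open ContinuousLinearMap (adjoint)

namespace Pool.Agent.Helper63.Koszul

section

variable {L : Type} [NormedAddCommGroup L] [InnerProductSpace ℂ L] [CompleteSpace L]

omit [CompleteSpace L] in
theorem norm_tau (x y : L) : ‖tau x y‖ = ‖x‖ * ‖y‖ := by
  unfold tau
  rw [UniformSpace.Completion.norm_coe, TensorProduct.norm_tmul]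

/-- `x ↦ x ⊗ y` as a bounded operator. -/
noncomputable def tauL (y : L) : L →L[ℂ] TT L :=
  LinearMap.mkContinuous
    { toFun := fun x => tau x y
      map_add' := fun x x' => tau_add_left x x' y
      map_smul' := fun c x => tau_smul_left c x y } ‖y‖ (fun x => by
        simp only [LinearMap.coe_mk, AddHom.coe_mk]
        rw [norm_tau, mul_comm])

/-- `y ↦ x ⊗ y` as a bounded operator. -/
noncomputable def tauR (x : L) : L →L[ℂ] TT L :=
  LinearMap.mkContinuous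
    { toFun := fun y => tau x y
      map_add' := fun y y' => tau_add_right x y y'
      map_smul' := fun c y => tau_smul_right c x y } ‖x‖ (fun y => by
        simp only [LinearMap.coe_mk, AddHom.coe_mk]
        rw [norm_tau])

@[simp] theorem tauL_apply (x y : L) : tauL y x = tau x y := rfl
@[simp] theorem tauR_apply (x y : L) : tauR x y = tau x y := rfl

/-- A bounded right inverse on the orthogonal complement of the kernel. -/
theorem exists_sigma (ϖ : L →L[ℂ] L) (hϖ : ϖ * ϖ = ϖ) (A : Submodule ℂ L)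
    (hA : IsClosed (A : Set L)) (h : ∀ x, ∃ a ∈ A, ϖ a = ϖ x) :
    ∃ θ σ : L →L[ℂ] L, (∀ x, θ x ∈ A) ∧ (∀ x, ϖ (θ x) = 0) ∧
      (∀ x ∈ A, ϖ x = 0 → θ x = x) ∧ (∀ x, (∀ y ∈ A, ϖ y = 0 → inner ℂ y x = 0) → θ x = 0) ∧
      (∀ a ∈ A, σ (ϖ a) = a - θ a) ∧ (∀ x y, inner ℂ (θ x) y = inner ℂ x (θ y)) := by
  let K : Submodule ℂ L := A ⊓ LinearMap.ker (ϖ : L →ₗ[ℂ] L)
  have hK : IsClosed (K : Set L) := by
    have : (K : Set L) = (A : Set L) ∩ {x | ϖ x = 0} := by
      ext x; simp [K]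
    rw [this]
    exact hA.inter (isClosed_eq ϖ.continuous continuous_const)
  have memK : ∀ x, x ∈ K ↔ x ∈ A ∧ ϖ x = 0 := fun x => by simp [K]
  have : CompleteSpace K := hK.completeSpace_coe
  let B : Submodule ℂ L := A ⊓ Kᗮ
  have hB : IsClosed (B : Set L) := by
    have : (B : Set L) = (A : Set L) ∩ (Kᗮ : Set L) := by
      ext x; simp [B]
    rw [this]
    exact hA.inter (Submodule.isClosed_orthogonal K)
  have : CompleteSpace B := hB.completeSpace_coe
  let G : Submodule ℂ L := LinearMap.range (ϖ : L →ₗ[ℂ] L)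
  have hG : IsClosed (G : Set L) := by
    have : (G : Set L) = {x | ϖ x = x} := by
      ext x
      constructor
      · rintro ⟨y, rfl⟩
        have := congrArg (fun f : L →L[ℂ] L => f y) hϖ
        simpa using this
      · intro hx
        exact ⟨x, hx⟩
    rw [this]
    exact isClosed_eq ϖ.continuous continuous_id
  have : CompleteSpace G := hG.completeSpace_coe
  let F : B →L[ℂ] G := (ϖ.comp B.subtypeL).codRestrict G (fun x => ⟨x, rfl⟩)
  have hFinj : LinearMap.ker (F : B →ₗ[ℂ] G) = ⊥ := by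
    rw [LinearMap.ker_eq_bot']
    rintro ⟨b, hb1, hb2⟩ hb
    have h0 : ϖ b = 0 := congrArg Subtype.val hb
    have hbK : b ∈ K := (memK b).2 ⟨hb1, h0⟩
    have : inner ℂ b b = 0 := hb2 b hbK
    apply Subtype.ext
    exact inner_self_eq_zero.mp this
  have hKA : ∀ x, K.starProjection x ∈ A := fun x =>
    ((memK _).1 (Submodule.starProjection_apply_mem K x)).1
  have hKϖ : ∀ x, ϖ (K.starProjection x) = 0 := fun x =>
    ((memK _).1 (Submodule.starProjection_apply_mem K x)).2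
  have hBmem : ∀ a ∈ A, a - K.starProjection a ∈ B := fun a ha =>
    ⟨A.sub_mem ha (hKA a), Submodule.sub_starProjection_mem_orthogonal a⟩
  have hFsurj : LinearMap.range (F : B →ₗ[ℂ] G) = ⊤ := by
    rw [LinearMap.range_eq_top]
    rintro ⟨y, x, rfl⟩
    obtain ⟨a, ha, hax⟩ := h x
    refine ⟨⟨a - K.starProjection a, hBmem a ha⟩, ?_⟩
    apply Subtype.ext
    change ϖ (a - K.starProjection a) = ϖ x
    rw [map_sub, hKϖ, sub_zero, hax]
  let Fe : B ≃L[ℂ] G := ContinuousLinearEquiv.ofBijective F hFinj hFsurj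
  let σ : L →L[ℂ] L := B.subtypeL.comp ((Fe.symm : G →L[ℂ] B).comp
    (ϖ.codRestrict G (fun x => ⟨x, rfl⟩)))
  refine ⟨K.starProjection, σ, hKA, hKϖ, ?_, ?_, ?_, ?_⟩
  · intro x hx hx0
    exact Submodule.starProjection_eq_self_iff.2 ((memK x).2 ⟨hx, hx0⟩)
  · intro x hx
    rw [Submodule.starProjection_apply_eq_zero_iff]
    intro y hy
    exact hx y ((memK y).1 hy).1 ((memK y).1 hy).2
  · intro a ha
    have e1 : (ϖ.codRestrict G (fun x => ⟨x, rfl⟩)) (ϖ a) =
        Fe ⟨a - K.starProjection a, hBmem a ha⟩ := by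
      apply Subtype.ext
      change ϖ (ϖ a) = ϖ (a - K.starProjection a)
      rw [map_sub, hKϖ, sub_zero]
      have := congrArg (fun f : L →L[ℂ] L => f a) hϖ
      simpa using this
    change ((Fe.symm ((ϖ.codRestrict G (fun x => ⟨x, rfl⟩)) (ϖ a)) : B) : L) = _
    rw [e1, ContinuousLinearEquiv.symm_apply_apply]
  · intro x y
    exact Submodule.inner_starProjection_left_eq_right K x y

/-- The abstract counterexample. -/
theorem abstract_counterexample (ϖ U W : L →L[ℂ] L) (e : L)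
    (hϖ : ϖ * ϖ = ϖ) (hϖa : adjoint ϖ = ϖ)
    (hUW : U * W = 1) (hWU : W * U = 1) (hUn : IsStarNormal U)
    (hcomm : U * ϖ = ϖ * U)
    (A : Submodule ℂ L)
    (hAdef : A = (Submodule.span ℂ (Set.range fun m : ℕ => (U ^ m) e)).topologicalClosure)
    (h0 : ∀ x, ∃ a ∈ A, ϖ a = ϖ x)
    (h1 : ∀ x, ∃ a ∈ A, (1 - ϖ) a = (1 - ϖ) x)
    (he : ∀ a ∈ A, U a ≠ e) :
    ¬ (∀ (H : Type) [NormedAddCommGroup H] [InnerProductSpace ℂ H] [CompleteSpace H]
      (S₁ S₂ : H →L[ℂ] H),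
      S₁ * S₂ = S₂ * S₁ →
      (∃ (K : Type) (_ : NormedAddCommGroup K) (_ : InnerProductSpace ℂ K) (_ : CompleteSpace K)
          (V : H →L[ℂ] K) (N₁ N₂ : K →L[ℂ] K),
          (∀ x : H, ‖V x‖ = ‖x‖) ∧ IsStarNormal N₁ ∧ IsStarNormal N₂ ∧
          N₁ * N₂ = N₂ * N₁ ∧ N₁.comp V = V.comp S₁ ∧ N₂.comp V = V.comp S₂) →
      (∃ x : H, Dense ((Submodule.span ℂ
          (Set.range (fun p : ℕ × ℕ => (S₁ ^ p.1 * S₂ ^ p.2) x)) : Submodule ℂ H) : Set H)) →
      ∀ μ₁ μ₂ : ℂ,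
        ((∀ z : H, ∃ u v : H, (S₁ - μ₁ • (1 : H →L[ℂ] H)) u + (S₂ - μ₂ • (1 : H →L[ℂ] H)) v = z) ↔
          ((∀ z : H, ∃ u v : H,
              (S₁ - μ₁ • (1 : H →L[ℂ] H)) u + (S₂ - μ₂ • (1 : H →L[ℂ] H)) v = z) ∧
           (∀ u v : H,
              (S₁ - μ₁ • (1 : H →L[ℂ] H)) u + (S₂ - μ₂ • (1 : H →L[ℂ] H)) v = 0 →
              ∃ x : H, u = (S₂ - μ₂ • (1 : H →L[ℂ] H)) x ∧
                v = -((S₁ - μ₁ • (1 : H →L[ℂ] H)) x)) ∧
           (∀ x : H, (S₂ - μ₂ • (1 : H →L[ℂ] H)) x = 0 →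
              (S₁ - μ₁ • (1 : H →L[ℂ] H)) x = 0 → x = 0)))) := by
  have hAcl : IsClosed (A : Set L) := by
    rw [hAdef]; exact Submodule.isClosed_topologicalClosure _
  have UW : ∀ x, U (W x) = x := fun x => by
    simpa using congrArg (fun f : L →L[ℂ] L => f x) hUW
  have WU : ∀ x, W (U x) = x := fun x => by
    simpa using congrArg (fun f : L →L[ℂ] L => f x) hWU
  have ϖϖ : ∀ x, ϖ (ϖ x) = ϖ x := fun x => by
    simpa using congrArg (fun f : L →L[ℂ] L => f x) hϖ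
  have Uϖ : ∀ x, U (ϖ x) = ϖ (U x) := fun x => by
    simpa using congrArg (fun f : L →L[ℂ] L => f x) hcomm
  have Wϖ : ∀ x, W (ϖ x) = ϖ (W x) := fun x => by
    have : W (ϖ (U (W x))) = W (U (ϖ (W x))) := by rw [Uϖ]
    rw [UW, WU] at this
    exact this
  have ϖin : ∀ x y, inner ℂ (ϖ x) y = inner ℂ x (ϖ y) := fun x y => by
    conv_lhs => rw [← hϖa]
    rw [ContinuousLinearMap.adjoint_inner_left]
  -- membership principle
  have memA0 : ∀ m : ℕ, (U ^ m) e ∈ A := fun m => by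
    rw [hAdef]
    exact Submodule.le_topologicalClosure _ (Submodule.subset_span ⟨m, rfl⟩)
  have eA : e ∈ A := by simpa using memA0 0
  have zeroA : ∀ {F : Type} [NormedAddCommGroup F] [NormedSpace ℂ F] (ℓ : L →L[ℂ] F),
      (∀ m : ℕ, ℓ ((U ^ m) e) = 0) → ∀ a ∈ A, ℓ a = 0 := by
    intro F _ _ ℓ hℓ a ha
    have hle : A ≤ LinearMap.ker (ℓ : L →ₗ[ℂ] F) := by
      rw [hAdef]
      apply Submodule.topologicalClosure_minimal
      · rw [Submodule.span_le]
        rintro _ ⟨m, rfl⟩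
        exact hℓ m
      · exact ContinuousLinearMap.isClosed_ker ℓ
    exact hle ha
  have clA : ∀ (C : Submodule ℂ L), IsClosed (C : Set L) → (∀ m : ℕ, (U ^ m) e ∈ C) → A ≤ C := by
    intro C hC hm
    rw [hAdef]
    apply Submodule.topologicalClosure_minimal
    · rw [Submodule.span_le]
      rintro _ ⟨m, rfl⟩
      exact hm m
    · exact hC
  have UA : ∀ a ∈ A, U a ∈ A := by
    intro a ha
    have := clA (A.comap (U : L →ₗ[ℂ] L)) (hAcl.preimage U.continuous) (fun m => by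
      change U ((U ^ m) e) ∈ A
      have := memA0 (m + 1)
      rwa [pow_succ', mul_apply_eq_comp] at this)
    exact this ha
  have : CompleteSpace A := hAcl.completeSpace_coe
  let p : L →L[ℂ] L := A.starProjection
  have pA : ∀ x, p x ∈ A := fun x => Submodule.starProjection_apply_mem A x
  have pid : ∀ x ∈ A, p x = x := fun x hx => Submodule.starProjection_eq_self_iff.2 hx
  have pin : ∀ x y, inner ℂ (p x) y = inner ℂ x (p y) := fun x y =>
    Submodule.inner_starProjection_left_eq_right A x y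
  have hp : p * p = p := by
    ext x
    rw [mul_apply_eq_comp, pid _ (pA x)]
  -- the projections θ and the lifts σ
  obtain ⟨θ₀, σ₀, θ₀A, θ₀k, θ₀id, θ₀z, σ₀e, θ₀in⟩ := exists_sigma ϖ hϖ A hAcl h0
  have hϖ' : (1 - ϖ) * (1 - ϖ) = 1 - ϖ := by
    have : (1 - ϖ) * (1 - ϖ) = 1 - ϖ - ϖ + ϖ * ϖ := by noncomm_ring
    rw [this, hϖ]; abel
  obtain ⟨θ₁, σ₁, θ₁A, θ₁k, θ₁id, θ₁z, σ₁e, θ₁in⟩ := exists_sigma (1 - ϖ) hϖ' A hAcl h1
  have ortho : ∀ x y, ϖ x = 0 → (1 - ϖ) y = 0 → inner ℂ x y = 0 := by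
    intro x y hx hy
    have hy' : y = ϖ y := by
      have : y - ϖ y = 0 := by simpa using hy
      exact sub_eq_zero.mp this
    rw [hy', ← ϖin, hx, inner_zero_left]
  obtain ⟨Λ, hΛ⟩ := gen_inverse ϖ p θ₀ θ₁ σ₀ σ₁ hϖ hp
    (by
      ext x
      simp only [mul_apply_eq_comp, sub_apply]
      rw [σ₀e _ (pA x)]
      congr 1
      -- θ₀ (p x) = θ₀ x
      have : θ₀ (x - p x) = 0 := θ₀z _ (fun y hy _ => by
        have h2 := Submodule.sub_starProjection_mem_orthogonal (K := A) x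
        exact h2 y hy)
      rw [map_sub, sub_eq_zero] at this
      exact this.symm)
    (by
      ext x
      simp only [mul_apply_eq_comp, sub_apply,
        one_apply_eq_self]
      have h3 := σ₁e _ (pA x)
      simp only [sub_apply, one_apply_eq_self] at h3
      rw [h3]
      congr 1
      have : θ₁ (x - p x) = 0 := θ₁z _ (fun y hy _ => by
        have h2 := Submodule.sub_starProjection_mem_orthogonal (K := A) x
        exact h2 y hy)
      rw [map_sub, sub_eq_zero] at this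
      exact this.symm)
    (by ext x; exact θ₀k x) (by ext x; exact θ₁k x)
    (by ext x; exact pid _ (θ₀A x)) (by ext x; exact pid _ (θ₁A x))
    (by
      ext x
      rw [mul_apply_eq_comp]
      have : θ₀ (x - p x) = 0 := θ₀z _ (fun y hy _ => by
        have h2 := Submodule.sub_starProjection_mem_orthogonal (K := A) x
        exact h2 y hy)
      rw [map_sub, sub_eq_zero] at this
      exact this.symm)
    (by
      ext x
      rw [mul_apply_eq_comp]
      exact θ₀z _ (fun y _ hy => ortho y _ hy (θ₁k x)))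
  -- the functional ε
  let UAs : Submodule ℂ L := A.comap (W : L →ₗ[ℂ] L)
  have hUAs : IsClosed (UAs : Set L) := hAcl.preimage W.continuous
  have : CompleteSpace UAs := hUAs.completeSpace_coe
  have memUA : ∀ x, x ∈ UAs ↔ W x ∈ A := fun x => Iff.rfl
  have eUA : e ∉ UAs := by
    intro h
    exact he (W e) h (UW e)
  let ξ₀ : L := e - UAs.starProjection e
  have hξ₀ : ξ₀ ≠ 0 := by
    intro h
    apply eUA
    rw [← Submodule.starProjection_eq_self_iff]
    exact (sub_eq_zero.mp h).symm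
  have hξ₀o : ∀ x ∈ UAs, inner ℂ ξ₀ x = 0 := fun x hx =>
    Submodule.starProjection_inner_eq_zero (K := UAs) e x hx
  have hξ₀e : inner ℂ ξ₀ e = inner ℂ ξ₀ ξ₀ := by
    have : inner ℂ ξ₀ ξ₀ = inner ℂ ξ₀ e - inner ℂ ξ₀ (UAs.starProjection e) := by
      rw [← inner_sub_right]
    rw [this, hξ₀o _ (Submodule.starProjection_apply_mem UAs e), sub_zero]
  have hξ₀n : inner ℂ ξ₀ e ≠ 0 := by
    rw [hξ₀e]
    exact inner_self_ne_zero.mpr hξ₀
  let ε : L →L[ℂ] ℂ := (inner ℂ ξ₀ e)⁻¹ • (innerSL ℂ ξ₀)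
  have εval : ∀ x, ε x = (inner ℂ ξ₀ e)⁻¹ * inner ℂ ξ₀ x := fun x => rfl
  have εe : ε e = 1 := by rw [εval]; exact inv_mul_cancel₀ hξ₀n
  have εUA : ∀ x ∈ UAs, ε x = 0 := fun x hx => by rw [εval, hξ₀o x hx, mul_zero]
  have memUA' : ∀ a ∈ A, U a ∈ UAs := fun a ha => by
    rw [memUA, WU]; exact ha
  have εdec : ∀ a ∈ A, a - ε a • e ∈ UAs := by
    let D : L →L[ℂ] L := 1 - ε.smulRight e
    have := clA (UAs.comap (D : L →ₗ[ℂ] L)) (hUAs.preimage D.continuous) (fun m => by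
      change (U ^ m) e - ε ((U ^ m) e) • e ∈ UAs
      cases m with
      | zero => simp [εe]
      | succ m =>
        have h2 : (U ^ (m + 1)) e ∈ UAs := by
          rw [pow_succ', mul_apply_eq_comp]
          exact memUA' _ (memA0 m)
        rw [εUA _ h2, zero_smul, sub_zero]
        exact h2)
    intro a ha
    exact this ha
  -- the vectors φ₁ ∈ N₁, φ₀ ∈ N₀
  obtain ⟨v₁, v₁A, hv₁⟩ := h1 (W e)
  obtain ⟨v₀, v₀A, hv₀⟩ := h0 (W e)
  let φ₁ : L := e - U v₁
  let φ₀ : L := e - U v₀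
  have φ₁A : φ₁ ∈ A := A.sub_mem eA (UA _ v₁A)
  have φ₀A : φ₀ ∈ A := A.sub_mem eA (UA _ v₀A)
  have φ₁k : (1 - ϖ) φ₁ = 0 := by
    have h2 : (1 - ϖ) v₁ = W ((1 - ϖ) e) := by
      rw [hv₁]; simp [Wϖ]
    have h3 : U ((1 - ϖ) v₁) = (1 - ϖ) e := by rw [h2, UW]
    have h4 : (1 - ϖ) (U v₁) = (1 - ϖ) e := by
      rw [← h3]; simp [Uϖ]
    change (1 - ϖ) (e - U v₁) = 0
    rw [map_sub, h4, sub_self]
  have φ₀k : ϖ φ₀ = 0 := by
    have h2 : ϖ v₀ = W (ϖ e) := by rw [hv₀, Wϖ]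
    have h3 : U (ϖ v₀) = ϖ e := by rw [h2, UW]
    change ϖ (e - U v₀) = 0
    rw [map_sub, ← Uϖ, h3, sub_self]
  have hRgen : ∀ v ∈ A, ∃ R Q : L →L[ℂ] L, p = U * R + Q ∧ p * R = R ∧
      (∀ x, Q x = ε (p x) • (e - U v)) := by
    intro v hv
    let Q : L →L[ℂ] L := (ε.comp p).smulRight (e - U v)
    have Qv : ∀ x, Q x = ε (p x) • (e - U v) := fun x => rfl
    refine ⟨W * (p - Q), Q, ?_, ?_, Qv⟩
    · rw [← mul_assoc, hUW, one_mul]; abel
    · ext x
      simp only [mul_apply_eq_comp, sub_apply]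
      apply pid
      have h2 : p x - Q x = (p x - ε (p x) • e) + ε (p x) • U v := by
        rw [Qv, smul_sub]; abel
      rw [h2]
      exact UAs.add_mem (εdec _ (pA x)) (UAs.smul_mem _ (memUA' _ hv))
  obtain ⟨R, Q₁, hR1, hR2, hQ₁⟩ := hRgen v₁ v₁A
  obtain ⟨R', Q₀, hR1', hR2', hQ₀⟩ := hRgen v₀ v₀A
  have hsurj := surj_formula ϖ p U R Q₁ R' Q₀ hp hcomm hR1 hR1' hR2 hR2'
    (by ext x; rw [mul_apply_eq_comp, hQ₁, map_smul, pid _ φ₁A])
    (by ext x; rw [mul_apply_eq_comp, hQ₁, map_smul, φ₁k, smul_zero]; rfl)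
    (by ext x; rw [mul_apply_eq_comp, hQ₀, map_smul, φ₀k, smul_zero]; rfl)
  -- useful facts on J
  have Jtau : ∀ x y, JJ ϖ p (tau x y) = tau (ϖ (p x)) (ϖ (p y)) +
      tau ((1 - ϖ) (p x)) ((1 - ϖ) (p y)) := by
    intro x y
    rw [JJ_eq, add_apply, Th_tau, Th_tau]
    rfl
  have hcomm' : U * (1 - ϖ) = (1 - ϖ) * U := by
    rw [mul_sub, sub_mul, mul_one, one_mul, hcomm]
  have hUp : U * p = p * (U * p) := by
    ext x
    simp only [mul_apply_eq_comp]
    rw [pid _ (UA _ (pA x))]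
  have hN1J : Th U 1 * JJ ϖ p = JJ ϖ p * Th (U * p) 1 := by
    have e2 : (1 - ϖ) * p * (U * p) = (1 - ϖ) * (U * p) := by
      rw [mul_assoc, ← hUp]
    rw [JJ_eq, mul_add, add_mul, Th_mul, Th_mul, Th_mul, Th_mul, one_mul, one_mul, mul_one,
      mul_one, e2, ← mul_assoc, ← mul_assoc, hcomm, hcomm', mul_assoc ϖ p, ← hUp, mul_assoc,
      mul_assoc]
  have hN2J : Th 1 U * JJ ϖ p = JJ ϖ p * Th 1 (U * p) := by
    have e2 : (1 - ϖ) * p * (U * p) = (1 - ϖ) * (U * p) := by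
      rw [mul_assoc, ← hUp]
    rw [JJ_eq, mul_add, add_mul, Th_mul, Th_mul, Th_mul, Th_mul, one_mul, one_mul, mul_one,
      mul_one, e2, ← mul_assoc, ← mul_assoc, hcomm, hcomm', mul_assoc ϖ p, ← hUp, mul_assoc,
      mul_assoc]
  have hnorm : ∀ f g : L →L[ℂ] L, IsStarNormal f → IsStarNormal g → IsStarNormal (Th f g) := by
    intro f g hf hg
    rw [isStarNormal_iff, commute_iff_eq] at hf hg ⊢
    rw [ContinuousLinearMap.star_eq_adjoint] at hf hg ⊢
    rw [adjoint_Th, Th_mul, Th_mul, hf, hg]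
  have hW1 : (1 - ϖ) (W φ₁) = 0 := by
    have : (1 - ϖ) (W φ₁) = W ((1 - ϖ) φ₁) := by simp [Wϖ]
    rw [this, φ₁k, map_zero]
  have hW2 : ϖ (W φ₁) = W φ₁ := by
    have : W φ₁ - ϖ (W φ₁) = 0 := by simpa using hW1
    exact (sub_eq_zero.mp this).symm
  have hφ₁2 : ϖ φ₁ = φ₁ := by
    have : φ₁ - ϖ φ₁ = 0 := by simpa using φ₁k
    exact (sub_eq_zero.mp this).symm
  obtain ⟨g, gA, hg⟩ := h0 (W φ₁)
  rw [hW2] at hg
  have hWφ₁ : W φ₁ ∉ A := by
    intro h
    apply eUA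
    have h2 : φ₁ ∈ UAs := h
    have h3 : e = φ₁ + U v₁ := by simp [φ₁]
    rw [h3]
    exact UAs.add_mem h2 (memUA' _ v₁A)
  let ξ : L := W φ₁ - p (W φ₁)
  have hξ : ξ ≠ 0 := by
    intro h
    apply hWφ₁
    rw [← Submodule.starProjection_eq_self_iff]
    exact (sub_eq_zero.mp h).symm
  have pξ : p ξ = 0 := by
    change p (W φ₁ - p (W φ₁)) = 0
    rw [map_sub, pid _ (pA _), sub_self]
  have hJadj : ∀ z, inner ℂ (tau (ϖ ξ) (ϖ ξ) - tau ((1 - ϖ) ξ) ((1 - ϖ) ξ)) (JJ ϖ p z) = 0 := by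
    intro z
    set k := tau (ϖ ξ) (ϖ ξ) - tau ((1 - ϖ) ξ) ((1 - ϖ) ξ) with hk
    have : ((innerSL ℂ k : TT L →L[ℂ] ℂ).comp (JJ ϖ p)) = 0 := by
      apply ext_tau
      intro x y
      simp only [ContinuousLinearMap.comp_apply, innerSL_apply_apply,
        zero_apply]
      rw [Jtau, hk]
      have hp1 : ∀ a ∈ A, inner ℂ ((1 - ϖ) ξ) a = - inner ℂ (ϖ ξ) a := by
        intro a ha
        have h2 : inner ℂ ξ a = 0 := by
          have : inner ℂ ξ (p a) = 0 := by rw [← pin, pξ, inner_zero_left]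
          rwa [pid a ha] at this
        have h3 : (1 - ϖ) ξ = ξ - ϖ ξ := by simp
        rw [h3, inner_sub_left, h2, zero_sub]
      have i1 : ∀ a, inner ℂ (ϖ ξ) (ϖ a) = inner ℂ (ϖ ξ) a := fun a => by
        rw [← ϖin, ϖϖ]
      have i2 : ∀ a, inner ℂ (ϖ ξ) ((1 - ϖ) a) = 0 := fun a => by
        have : (1 - ϖ) a = a - ϖ a := by simp
        rw [this, inner_sub_right, i1, sub_self]
      have i3 : ∀ a, inner ℂ ((1 - ϖ) ξ) (ϖ a) = 0 := fun a => by
        have : (1 - ϖ) ξ = ξ - ϖ ξ := by simp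
        rw [this, inner_sub_left, i1, ϖin, sub_self]
      have i4 : ∀ a, inner ℂ ((1 - ϖ) ξ) ((1 - ϖ) a) = inner ℂ ((1 - ϖ) ξ) a := fun a => by
        have : (1 - ϖ) a = a - ϖ a := by simp
        rw [this, inner_sub_right, i3, sub_zero]
      rw [inner_sub_left, inner_add_right, inner_add_right, inner_tau, inner_tau, inner_tau,
        inner_tau, i1, i1, i2, i3, i4, i4, hp1 _ (pA x), hp1 _ (pA y)]
      ring
    have h2 := congrArg (fun f : TT L →L[ℂ] ℂ => f z) this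
    simpa using h2
  refine pack (TT L) (JJ ϖ p) Λ (Th U 1) (Th 1 U) (Th R p) (Th Q₁ R')
    (JJ ϖ p (tau e e)) (tau (W φ₁) (W φ₁)) ?_ ?_ ?_ ?_ ?_ ?_ ?_ ?_ ?_ ?_ ?_ ?_ ?_
  · intro z
    have := congrArg (fun f : TT L →L[ℂ] TT L => f z) hΛ
    simpa using this
  · exact hnorm U 1 hUn (IsSelfAdjoint.one _).isStarNormal
  · exact hnorm 1 U (IsSelfAdjoint.one _).isStarNormal hUn
  · rw [Th_mul, Th_mul, one_mul, mul_one]
  · intro z
    refine ⟨Th (U * p) 1 z, ?_⟩
    have := congrArg (fun f : TT L →L[ℂ] TT L => f z) hN1J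
    simpa using this
  · intro z
    refine ⟨Th 1 (U * p) z, ?_⟩
    have := congrArg (fun f : TT L →L[ℂ] TT L => f z) hN2J
    simpa using this
  · intro z
    have := congrArg (fun f : TT L →L[ℂ] TT L => f z) hsurj
    simpa using this
  · exact ⟨_, rfl⟩
  · -- cyclicity
    intro z hz
    have hP : ∀ x y, JJ ϖ p (tau x y) = PP ϖ (tau (p x) (p y)) := by
      intro x y
      unfold JJ
      rw [mul_apply_eq_comp, Th_tau]
    have hpow : ∀ m n : ℕ, ((Th U 1) ^ m * (Th 1 U) ^ n) (JJ ϖ p (tau e e)) =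
        PP ϖ (tau ((U ^ m) e) ((U ^ n) e)) := by
      have c1 : ∀ z, Th U 1 (PP ϖ z) = PP ϖ (Th U 1 z) := by
        intro z
        have : Th U 1 * PP ϖ = PP ϖ * Th U 1 := by
          unfold PP
          rw [mul_add, add_mul, Th_mul, Th_mul, Th_mul, Th_mul, hcomm, hcomm', one_mul, mul_one,
            one_mul, mul_one]
        have := congrArg (fun f : TT L →L[ℂ] TT L => f z) this
        simpa using this
      have c2 : ∀ z, Th 1 U (PP ϖ z) = PP ϖ (Th 1 U z) := by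
        intro z
        have : Th 1 U * PP ϖ = PP ϖ * Th 1 U := by
          unfold PP
          rw [mul_add, add_mul, Th_mul, Th_mul, Th_mul, Th_mul, hcomm, hcomm', one_mul, mul_one,
            one_mul, mul_one]
        have := congrArg (fun f : TT L →L[ℂ] TT L => f z) this
        simpa using this
      intro m n
      have h2 : ((Th 1 U) ^ n) (JJ ϖ p (tau e e)) = PP ϖ (tau e ((U ^ n) e)) := by
        induction n with
        | zero => rw [hP, pid _ eA]; simp
        | succ n ih =>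
          rw [pow_succ', mul_apply_eq_comp, ih, c2, Th_tau, pow_succ', mul_apply_eq_comp]
          simp
      rw [mul_apply_eq_comp, h2]
      induction m with
      | zero => simp
      | succ m ih =>
        rw [pow_succ', mul_apply_eq_comp, ih, c1, Th_tau, pow_succ', mul_apply_eq_comp]
        simp
    have s1 : ∀ a ∈ A, ∀ n : ℕ, inner ℂ (JJ ϖ p z) (PP ϖ (tau a ((U ^ n) e))) = 0 := by
      intro a ha n
      have := zeroA (((innerSL ℂ (JJ ϖ p z) : TT L →L[ℂ] ℂ).comp (PP ϖ)).comp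
        (tauL ((U ^ n) e))) (fun m => by
          simp only [ContinuousLinearMap.comp_apply, innerSL_apply_apply, tauL_apply]
          rw [← hpow]
          exact hz m n) a ha
      simpa using this
    have s2 : ∀ a ∈ A, ∀ b ∈ A, inner ℂ (JJ ϖ p z) (PP ϖ (tau a b)) = 0 := by
      intro a ha b hb
      have := zeroA (((innerSL ℂ (JJ ϖ p z) : TT L →L[ℂ] ℂ).comp (PP ϖ)).comp
        (tauR a)) (fun n => by
          simp only [ContinuousLinearMap.comp_apply, innerSL_apply_apply, tauR_apply]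
          exact s1 a ha n) b hb
      simpa using this
    have s3 : ((innerSL ℂ (JJ ϖ p z) : TT L →L[ℂ] ℂ).comp (JJ ϖ p)) = 0 := by
      apply ext_tau
      intro x y
      simp only [ContinuousLinearMap.comp_apply, innerSL_apply_apply,
        zero_apply]
      rw [hP]
      exact s2 _ (pA x) _ (pA y)
    have s4 := congrArg (fun f : TT L →L[ℂ] ℂ => f z) s3
    simp only [ContinuousLinearMap.comp_apply, innerSL_apply_apply,
      zero_apply] at s4
    exact inner_self_eq_zero.mp s4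
  · refine ⟨tau φ₁ g, ?_⟩
    rw [Th_tau, UW, Jtau, pid _ φ₁A, pid _ gA, hg, hφ₁2, φ₁k, tau_zero_left, add_zero]
    rfl
  · refine ⟨tau g φ₁, ?_⟩
    rw [Th_tau, UW, Jtau, pid _ φ₁A, pid _ gA, hg, hφ₁2, φ₁k, tau_zero_right, add_zero]
    rfl
  · intro w hw
    have h2 := hJadj w
    rw [← hw, inner_sub_left, inner_tau, inner_tau] at h2
    have i5 : inner ℂ ((1 - ϖ) ξ) (W φ₁) = 0 := by
      rw [← hW2]
      have : (1 - ϖ) ξ = ξ - ϖ ξ := by simp
      rw [this, inner_sub_left, ϖin, ϖϖ, sub_self]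
    have i6 : inner ℂ (ϖ ξ) (W φ₁) = inner ℂ ξ ξ := by
      rw [ϖin, hW2]
      have : inner ℂ ξ ξ = inner ℂ ξ (W φ₁) - inner ℂ ξ (p (W φ₁)) := by
        rw [← inner_sub_right]
      rw [this, ← pin, pξ, inner_zero_left, sub_zero]
    rw [i5, i6, mul_zero, sub_zero] at h2
    have h3 : inner ℂ ξ ξ = 0 := by
      rcases mul_eq_zero.mp h2 with h | h <;> exact h
    exact hξ (inner_self_eq_zero.mp h3)
  · -- injectivity of 1 ⊗ U
    intro x y hxy
    have h2 : Th 1 W (Th 1 U x) = Th 1 W (Th 1 U y) := by rw [hxy]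
    rw [Th_comp_apply, Th_comp_apply, hWU, one_mul, Th_one] at h2
    simpa using h2

end

end Pool.Agent.Helper63.Koszul
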