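import Mathlib

set_option autoImplicit false

open scoped InnerProductSpace ENNReal

namespace Pool.Agent.Helper63.Koszul

section

variable {ι : Type}

/-- `ℓ²(ι)`. -/
abbrev l2 (ι : Type) : Type := lp (fun _ : ι => ℂ) 2

theorem l2_summable (f : l2 ι) : Summable fun x => ‖f x‖ ^ 2 := by
  have := (lp.memℓp f).summable (by norm_num)
  simpa using this

theorem memℓp_two_of (f : ι → ℂ) (h : Summable fun x => ‖f x‖ ^ 2) :
    Memℓp f 2 := by
  apply memℓp_gen
  simpa using h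

theorem l2_norm_sq (f : l2 ι) : ‖f‖ ^ 2 = ∑' x, ‖f x‖ ^ 2 := by
  have := lp.norm_rpow_eq_tsum (p := 2) (by norm_num) f
  simpa using this

theorem l2_sum_le (f : l2 ι) (F : Finset ι) : ∑ x ∈ F, ‖f x‖ ^ 2 ≤ ‖f‖ ^ 2 := by
  rw [l2_norm_sq]
  exact (l2_summable f).sum_le_tsum F (fun _ _ => by positivity)

theorem l2_norm_sq_le (f : l2 ι) (C : ℝ) (h : ∀ F : Finset ι, ∑ x ∈ F, ‖f x‖ ^ 2 ≤ C) :
    ‖f‖ ^ 2 ≤ C := by
  rw [l2_norm_sq]
  exact (l2_summable f).tsum_le_of_sum_le h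

/-- Weighted composition operator `f ↦ c · (f ∘ σ)`. -/
noncomputable def wco (c : ι → ℂ) (C : ℝ) (hC : ∀ x, ‖c x‖ ≤ C) (σ : ι ≃ ι) :
    l2 ι →L[ℂ] l2 ι :=
  LinearMap.mkContinuous
    { toFun := fun f => ⟨fun x => c x * f (σ x), memℓp_two_of _ (by
        have h1 : Summable fun x => ‖f (σ x)‖ ^ 2 := (l2_summable f).comp_injective σ.injective
        refine Summable.of_nonneg_of_le (fun x => by positivity) (fun x => ?_) (h1.mul_left (C ^ 2))
        rw [norm_mul, mul_pow]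
        gcongr
        exact hC x)⟩
      map_add' := fun f g => by
        ext x
        change c x * (f (σ x) + g (σ x)) = c x * f (σ x) + c x * g (σ x)
        ring
      map_smul' := fun a f => by
        ext x
        change c x * (a * f (σ x)) = a * (c x * f (σ x))
        ring } |C| (fun f => by
      have h1 : Summable fun x => ‖f (σ x)‖ ^ 2 := (l2_summable f).comp_injective σ.injective
      rw [← abs_of_nonneg (norm_nonneg f), ← abs_mul]
      apply le_abs_self _ |>.trans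
      rw [← sq_le_sq]
      simp only [LinearMap.coe_mk, AddHom.coe_mk]
      apply l2_norm_sq_le
      intro F
      calc ∑ x ∈ F, ‖c x * f (σ x)‖ ^ 2 ≤ ∑ x ∈ F, C ^ 2 * ‖f (σ x)‖ ^ 2 := by
            apply Finset.sum_le_sum
            intro x _
            rw [norm_mul, mul_pow]
            gcongr
            exact hC x
        _ = C ^ 2 * ∑ x ∈ F, ‖f (σ x)‖ ^ 2 := by rw [Finset.mul_sum]
        _ ≤ C ^ 2 * ∑' x, ‖f (σ x)‖ ^ 2 := by
            gcongr
            exact h1.sum_le_tsum F (fun _ _ => by positivity)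
        _ = C ^ 2 * ‖f‖ ^ 2 := by
            rw [l2_norm_sq, σ.tsum_eq (fun x => ‖f x‖ ^ 2)]
        _ = (C * ‖f‖) ^ 2 := by ring)

@[simp] theorem wco_apply (c : ι → ℂ) (C : ℝ) (hC : ∀ x, ‖c x‖ ≤ C) (σ : ι ≃ ι) (f : l2 ι)
    (x : ι) : wco c C hC σ f x = c x * f (σ x) := rfl

theorem adjoint_wco (c : ι → ℂ) (C : ℝ) (hC : ∀ x, ‖c x‖ ≤ C) (σ : ι ≃ ι)
    (c' : ι → ℂ) (C' : ℝ) (hC' : ∀ x, ‖c' x‖ ≤ C') (hc' : ∀ x, c' x = (starRingEnd ℂ) (c (σ.symm x))) :
    ContinuousLinearMap.adjoint (wco c C hC σ) = wco c' C' hC' σ.symm := by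
  symm
  rw [ContinuousLinearMap.eq_adjoint_iff]
  intro f g
  rw [lp.inner_eq_tsum, lp.inner_eq_tsum]
  rw [← σ.symm.tsum_eq (fun x => inner ℂ (f x) (wco c C hC σ g x))]
  apply tsum_congr
  intro x
  simp only [wco_apply, RCLike.inner_apply, Equiv.apply_symm_apply]
  rw [hc']
  simp
  ring

end

end Pool.Agent.Helper63.Koszul
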