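import Mathlib
import Pool.Agent.Helper63.L2Op

set_option autoImplicit false

open scoped InnerProductSpace ENNReal

namespace Pool.Agent.Helper63.Koszul

/-- Index set: pairs `(j, n)` with `n` a residue modulo `16 ^ j`. -/
abbrev EE : Type := Σ j : ℕ, ZMod (16 ^ j)

/-- `p = 1/16`. -/
noncomputable def pp : ℝ := 1 / 16

theorem pp_pos : 0 < pp := by unfold pp; norm_num
theorem pp_lt_one : pp < 1 := by unfold pp; norm_num

/-- Amplitude of `z^m` at level `i`. -/
noncomputable def am (i m : ℕ) : ℝ := pp ^ ((4 : ℝ) * i + 6 * m / 16 ^ i)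

theorem am_pos (i m : ℕ) : 0 < am i m := Real.rpow_pos_of_pos pp_pos _

/-- geometric sums -/
theorem sum_pow_le {α : Type} (F : Finset α) (g : α → ℕ) (hinj : Set.InjOn g F)
    (h1 : ∀ k ∈ F, 1 ≤ g k) : ∑ k ∈ F, pp ^ (g k) ≤ 1 / 15 := by
  classical
  have hs : Summable fun n : ℕ => pp ^ (n + 1) := by
    have := (summable_geometric_of_lt_one pp_pos.le pp_lt_one).mul_left pp
    simpa [pow_succ'] using this
  have e1 : ∑ k ∈ F, pp ^ (g k) = ∑ n ∈ F.image (fun k => g k - 1), pp ^ (n + 1) := by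
    rw [Finset.sum_image]
    · apply Finset.sum_congr rfl
      intro k hk
      have := h1 k hk
      congr 1
      omega
    · intro a ha b hb hab
      have h2 := h1 a ha
      have h3 := h1 b hb
      simp only at hab
      exact hinj ha hb (by omega)
  rw [e1]
  refine (hs.sum_le_tsum _ (fun _ _ => by have := pp_pos; positivity)).trans ?_
  have : ∑' n : ℕ, pp ^ (n + 1) = pp * (1 - pp)⁻¹ := by
    rw [← tsum_geometric_of_lt_one pp_pos.le pp_lt_one, ← tsum_mul_left]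
    apply tsum_congr
    intro n
    rw [pow_succ']
  rw [this]
  unfold pp
  norm_num

theorem am_le_of_exp {i j m : ℕ} {t : ℝ}
    (h : (4 : ℝ) * j + 6 * m / 16 ^ j + t ≤ 4 * i + 6 * m / 16 ^ i) :
    am i m ≤ am j m * pp ^ t := by
  unfold am
  rw [← Real.rpow_add pp_pos]
  exact Real.rpow_le_rpow_of_exponent_ge pp_pos pp_lt_one.le h

theorem ratio_lt {i j m : ℕ} (hij : i < j) (hm : 16 ^ (j - 1) ≤ m) :
    am i m ≤ am j m * pp ^ (m / 16 ^ i : ℕ) := by
  rw [← Real.rpow_natCast pp]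
  apply am_le_of_exp
  obtain ⟨t, rfl⟩ : ∃ t, j = i + t + 1 := ⟨j - i - 1, by omega⟩
  have h16 : (0 : ℝ) < 16 ^ i := by positivity
  have hX : (t : ℝ) + 1 ≤ (m : ℝ) / 16 ^ i := by
    rw [le_div_iff₀ h16]
    have h2 : i + t + 1 - 1 = t + i := by omega
    rw [h2, pow_add] at hm
    have h3 : t + 1 ≤ 16 ^ t := Nat.lt_pow_self (by norm_num)
    have h4 : (t + 1) * 16 ^ i ≤ m := le_trans (Nat.mul_le_mul_right _ h3) hm
    exact_mod_cast h4
  have hfl : ((m / 16 ^ i : ℕ) : ℝ) ≤ (m : ℝ) / 16 ^ i := by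
    have := @Nat.cast_div_le ℝ _ _ _ m (16 ^ i)
    simpa using this
  set X : ℝ := (m : ℝ) / 16 ^ i with hXdef
  have e1 : (6 : ℝ) * m / 16 ^ i = 6 * X := by rw [hXdef]; ring
  have e2 : (6 : ℝ) * m / 16 ^ (i + t + 1) ≤ 6 * X / 16 := by
    have : (6 : ℝ) * m / 16 ^ (i + t + 1) = 6 * X / 16 / 16 ^ t := by
      rw [hXdef, pow_succ, pow_add]
      field_simp
    rw [this]
    apply div_le_self
    · have : 0 ≤ X := by rw [hXdef]; positivity
      positivity
    · exact one_le_pow₀ (by norm_num)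
  rw [e1]
  push_cast
  linarith

theorem ratio_gt {i j m : ℕ} (hij : j + 2 ≤ i) (hm : 16 * m ≤ 17 * 16 ^ j) :
    am i m ≤ am j m * pp ^ (i - j - 1 : ℕ) := by
  rw [← Real.rpow_natCast pp]
  apply am_le_of_exp
  obtain ⟨t, rfl⟩ : ∃ t, i = j + t + 2 := ⟨i - j - 2, by omega⟩
  have h16 : (0 : ℝ) < 16 ^ j := by positivity
  have hX : (m : ℝ) / 16 ^ j ≤ 17 / 16 := by
    rw [div_le_div_iff₀ h16 (by norm_num)]
    have : ((16 * m : ℕ) : ℝ) ≤ ((17 * 16 ^ j : ℕ) : ℝ) := by exact_mod_cast hm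
    push_cast at this
    linarith
  have e1 : (6 : ℝ) * m / 16 ^ j = 6 * ((m : ℝ) / 16 ^ j) := by ring
  have e2 : (0 : ℝ) ≤ 6 * m / 16 ^ (j + t + 2) := by positivity
  have e3 : j + t + 2 - j - 1 = t + 1 := by omega
  rw [e1, e3]
  push_cast
  have : (0 : ℝ) ≤ t := Nat.cast_nonneg t
  linarith

theorem ratio_succ {j m : ℕ} (hm : 16 * m ≤ 17 * 16 ^ j) :
    am (j + 1) m ≤ am j m * 4096 := by
  have h4 : (4096 : ℝ) = pp ^ (-3 : ℝ) := by
    unfold pp
    rw [Real.rpow_neg (by norm_num)]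
    norm_num
  rw [h4]
  apply am_le_of_exp
  have h16 : (0 : ℝ) < 16 ^ j := by positivity
  have hX : (m : ℝ) / 16 ^ j ≤ 17 / 16 := by
    rw [div_le_div_iff₀ h16 (by norm_num)]
    have : ((16 * m : ℕ) : ℝ) ≤ ((17 * 16 ^ j : ℕ) : ℝ) := by exact_mod_cast hm
    push_cast at this
    linarith
  have e1 : (6 : ℝ) * m / 16 ^ j = 6 * ((m : ℝ) / 16 ^ j) := by ring
  have e2 : (0 : ℝ) ≤ 6 * m / 16 ^ (j + 1) := by positivity
  rw [e1]
  push_cast
  linarith

/-- The normalised kernel. -/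
noncomputable def KK (x : EE) (j m : ℕ) : ℝ :=
  if (m : ZMod (16 ^ x.1)) = x.2 then am x.1 m / am j m else 0

theorem KK_nonneg (x : EE) (j m : ℕ) : 0 ≤ KK x j m := by
  unfold KK
  split_ifs
  · exact (div_pos (am_pos _ _) (am_pos _ _)).le
  · exact le_rfl

theorem KK_lt {x : EE} {j m : ℕ} (hij : x.1 < j) (hm : 16 ^ (j - 1) ≤ m) :
    KK x j m ≤ pp ^ (m / 16 ^ x.1 : ℕ) := by
  unfold KK
  split_ifs
  · rw [div_le_iff₀ (am_pos _ _), mul_comm]
    exact ratio_lt hij hm
  · have := pp_pos; positivity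

theorem KK_gt {x : EE} {j m : ℕ} (hij : j + 2 ≤ x.1) (hm : 16 * m ≤ 17 * 16 ^ j) :
    KK x j m ≤ pp ^ (x.1 - j - 1 : ℕ) := by
  unfold KK
  split_ifs
  · rw [div_le_iff₀ (am_pos _ _), mul_comm]
    exact ratio_gt hij hm
  · have := pp_pos; positivity

theorem KK_succ {x : EE} {j m : ℕ} (hij : x.1 = j + 1) (hm : 16 * m ≤ 17 * 16 ^ j) :
    KK x j m ≤ 4096 := by
  unfold KK
  split_ifs
  · rw [div_le_iff₀ (am_pos _ _), mul_comm, hij]
    exact ratio_succ hm
  · norm_num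

theorem KK_eq {x : EE} {j m : ℕ} (hij : x.1 = j) : KK x j m ≤ 1 := by
  unfold KK
  split_ifs
  · rw [hij, div_self (am_pos _ _).ne']
  · norm_num

/-- Row sums, levels above. -/
theorem row_above {α : Type} (x : EE) (F : Finset α) (jj mm : α → ℕ) (hinj : Set.InjOn mm F)
    (h : ∀ k ∈ F, x.1 < jj k) (hm : ∀ k ∈ F, 16 ^ (jj k - 1) ≤ mm k) :
    ∑ k ∈ F, KK x (jj k) (mm k) ≤ 1 / 15 := by
  classical
  have e1 : ∑ k ∈ F, KK x (jj k) (mm k) =
      ∑ k ∈ F.filter (fun k => (mm k : ZMod (16 ^ x.1)) = x.2), KK x (jj k) (mm k) := by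
    symm
    apply Finset.sum_filter_of_ne
    intro k _ hne
    by_contra hc
    apply hne
    unfold KK
    rw [if_neg hc]
  rw [e1]
  refine le_trans (Finset.sum_le_sum (g := fun k => pp ^ (mm k / 16 ^ x.1)) ?_) ?_
  · intro k hk
    obtain ⟨hk1, _⟩ := Finset.mem_filter.mp hk
    exact KK_lt (h k hk1) (hm k hk1)
  · apply sum_pow_le
    · intro a ha b hb hab
      obtain ⟨ha1, ha2⟩ := Finset.mem_filter.mp (Finset.mem_coe.mp ha)
      obtain ⟨hb1, hb2⟩ := Finset.mem_filter.mp (Finset.mem_coe.mp hb)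
      apply hinj ha1 hb1
      have h3 : (mm a : ZMod (16 ^ x.1)) = (mm b : ZMod (16 ^ x.1)) := by rw [ha2, hb2]
      have h4 := (ZMod.natCast_eq_natCast_iff' _ _ _).mp h3
      simp only at hab
      rw [← Nat.div_add_mod (mm a) (16 ^ x.1), ← Nat.div_add_mod (mm b) (16 ^ x.1), h4, hab]
    · intro k hk
      obtain ⟨hk1, _⟩ := Finset.mem_filter.mp hk
      have h5 := h k hk1
      have h6 := hm k hk1
      rw [Nat.one_le_div_iff (by positivity)]
      exact le_trans (Nat.pow_le_pow_right (by norm_num) (by omega)) h6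

/-- Column sums, levels below. -/
theorem col_below {β : Type} (j m : ℕ) (G : Finset β) (xx : β → EE) (hinj : Set.InjOn xx G)
    (h : ∀ b ∈ G, (xx b).1 < j) (hm : 16 ^ (j - 1) ≤ m) :
    ∑ b ∈ G, KK (xx b) j m ≤ 1 / 15 := by
  classical
  have e1 : ∑ b ∈ G, KK (xx b) j m =
      ∑ b ∈ G.filter (fun b => (m : ZMod (16 ^ (xx b).1)) = (xx b).2), KK (xx b) j m := by
    symm
    apply Finset.sum_filter_of_ne
    intro k _ hne
    by_contra hc
    apply hne
    unfold KK
    rw [if_neg hc]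
  rw [e1]
  refine le_trans (Finset.sum_le_sum (g := fun b => pp ^ (j - (xx b).1)) ?_) ?_
  · intro b hb
    obtain ⟨hb1, _⟩ := Finset.mem_filter.mp hb
    refine (KK_lt (h b hb1) hm).trans ?_
    apply pow_le_pow_of_le_one pp_pos.le pp_lt_one.le
    have h5 := h b hb1
    rw [Nat.le_div_iff_mul_le (by positivity)]
    refine le_trans ?_ hm
    obtain ⟨t, ht⟩ : ∃ t, j = (xx b).1 + t + 1 := ⟨j - (xx b).1 - 1, by omega⟩
    have h6 : j - (xx b).1 = t + 1 := by omega
    have h7 : j - 1 = t + (xx b).1 := by omega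
    rw [h6, h7, pow_add]
    exact Nat.mul_le_mul_right _ (Nat.lt_pow_self (by norm_num))
  · apply sum_pow_le
    · intro a ha b hb hab
      obtain ⟨ha1, ha2⟩ := Finset.mem_filter.mp (Finset.mem_coe.mp ha)
      obtain ⟨hb1, hb2⟩ := Finset.mem_filter.mp (Finset.mem_coe.mp hb)
      apply hinj ha1 hb1
      have h3 := h a ha1
      have h4 := h b hb1
      simp only at hab
      have h5 : (xx a).1 = (xx b).1 := by omega
      generalize xx a = u at *
      generalize xx b = v at *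
      obtain ⟨u1, u2⟩ := u
      obtain ⟨v1, v2⟩ := v
      simp only at h5
      subst h5
      simp only at ha2 hb2
      rw [← ha2, ← hb2]
    · intro b hb
      obtain ⟨hb1, _⟩ := Finset.mem_filter.mp hb
      have := h b hb1
      omega

/-- Column sums, levels above by at least two. -/
theorem col_above {β : Type} (j m : ℕ) (G : Finset β) (xx : β → EE) (hinj : Set.InjOn xx G)
    (h : ∀ b ∈ G, j + 2 ≤ (xx b).1) (hm : 16 * m ≤ 17 * 16 ^ j) :
    ∑ b ∈ G, KK (xx b) j m ≤ 1 / 15 := by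
  classical
  have e1 : ∑ b ∈ G, KK (xx b) j m =
      ∑ b ∈ G.filter (fun b => (m : ZMod (16 ^ (xx b).1)) = (xx b).2), KK (xx b) j m := by
    symm
    apply Finset.sum_filter_of_ne
    intro k _ hne
    by_contra hc
    apply hne
    unfold KK
    rw [if_neg hc]
  rw [e1]
  refine le_trans (Finset.sum_le_sum (g := fun b => pp ^ ((xx b).1 - j - 1)) ?_) ?_
  · intro b hb
    obtain ⟨hb1, _⟩ := Finset.mem_filter.mp hb
    exact KK_gt (h b hb1) hm
  · apply sum_pow_le
    · intro a ha b hb hab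
      obtain ⟨ha1, ha2⟩ := Finset.mem_filter.mp (Finset.mem_coe.mp ha)
      obtain ⟨hb1, hb2⟩ := Finset.mem_filter.mp (Finset.mem_coe.mp hb)
      apply hinj ha1 hb1
      have h3 := h a ha1
      have h4 := h b hb1
      simp only at hab
      have h5 : (xx a).1 = (xx b).1 := by omega
      generalize xx a = u at *
      generalize xx b = v at *
      obtain ⟨u1, u2⟩ := u
      obtain ⟨v1, v2⟩ := v
      simp only at h5
      subst h5
      simp only at ha2 hb2
      rw [← ha2, ← hb2]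
    · intro b hb
      obtain ⟨hb1, _⟩ := Finset.mem_filter.mp hb
      have := h b hb1
      omega

end Pool.Agent.Helper63.Koszul
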