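import Mathlib
import Pool.Agent.Helper63.L2Op
import Pool.Agent.Helper63.KKer
import Pool.Agent.Helper63.KAbs

set_option autoImplicit false

open scoped InnerProductSpace ENNReal
open ContinuousLinearMap (adjoint)

namespace Pool.Agent.Helper63.Koszul

/-- The cyclic shift `(j, n) ↦ (j, n + 1)`. -/
def sh : EE ≃ EE := Equiv.sigmaCongrRight (fun j => Equiv.addRight (1 : ZMod (16 ^ j)))

theorem sh_fst (x : EE) : (sh x).1 = x.1 := rfl
theorem sh_symm_fst (x : EE) : (sh.symm x).1 = x.1 := rfl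
theorem sh_symm_eq (j : ℕ) (n : ZMod (16 ^ j)) : sh.symm ⟨j, n⟩ = ⟨j, n + -1⟩ := rfl

/-- The radius at level `j`. -/
noncomputable def rad (j : ℕ) : ℝ := pp ^ ((6 : ℝ) / 16 ^ j)

theorem rad_pos (j : ℕ) : 0 < rad j := Real.rpow_pos_of_pos pp_pos _

theorem rad_le (j : ℕ) : rad j ≤ 1 :=
  Real.rpow_le_one pp_pos.le pp_lt_one.le (by positivity)

theorem rad_ge (j : ℕ) : pp ^ (6 : ℝ) ≤ rad j := by
  apply Real.rpow_le_rpow_of_exponent_ge pp_pos pp_lt_one.le
  exact div_le_self (by norm_num) (one_le_pow₀ (by norm_num))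

theorem am_succ (i m : ℕ) : am i (m + 1) = rad i * am i m := by
  unfold am rad
  rw [← Real.rpow_add pp_pos]
  congr 1
  push_cast
  ring

/-- The normal operator. -/
noncomputable def UU : l2 EE →L[ℂ] l2 EE :=
  wco (fun x => ((rad x.1 : ℝ) : ℂ)) 1 (fun x => by
    rw [Complex.norm_real, Real.norm_of_nonneg (rad_pos _).le]; exact rad_le _) sh.symm

/-- Its inverse. -/
noncomputable def WW : l2 EE →L[ℂ] l2 EE :=
  wco (fun x => (((rad x.1)⁻¹ : ℝ) : ℂ)) ((pp ^ (6 : ℝ))⁻¹) (fun x => by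
    rw [Complex.norm_real, Real.norm_of_nonneg (inv_pos.mpr (rad_pos _)).le]
    exact inv_anti₀ (Real.rpow_pos_of_pos pp_pos _) (rad_ge _)) sh

theorem UW : UU * WW = 1 := by
  ext f x
  simp only [mul_apply_eq_comp, UU, WW, wco_apply, one_apply_eq_self, Equiv.apply_symm_apply,
    sh_symm_fst]
  rw [← mul_assoc, ← Complex.ofReal_mul, mul_inv_cancel₀ (rad_pos _).ne', Complex.ofReal_one,
    one_mul]

theorem WU : WW * UU = 1 := by
  ext f x
  simp only [mul_apply_eq_comp, UU, WW, wco_apply, one_apply_eq_self, Equiv.symm_apply_apply,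
    sh_fst]
  rw [← mul_assoc, ← Complex.ofReal_mul, inv_mul_cancel₀ (rad_pos _).ne', Complex.ofReal_one,
    one_mul]

theorem adjoint_UU : adjoint UU = wco (fun x => ((rad x.1 : ℝ) : ℂ)) 1 (fun x => by
    rw [Complex.norm_real, Real.norm_of_nonneg (rad_pos _).le]; exact rad_le _) sh := by
  unfold UU
  exact adjoint_wco _ _ _ sh.symm _ _ _ (fun x => by
    rw [Equiv.symm_symm, sh_fst, Complex.conj_ofReal])

theorem normal_UU : IsStarNormal UU := by
  rw [isStarNormal_iff, commute_iff_eq, ContinuousLinearMap.star_eq_adjoint, adjoint_UU]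
  ext f x
  simp only [mul_apply_eq_comp, UU, wco_apply, Equiv.symm_apply_apply, Equiv.apply_symm_apply,
    sh_fst, sh_symm_fst]

/-- Coordinate projection to the levels in `P`. -/
noncomputable def prj (P : ℕ → Prop) [DecidablePred P] : l2 EE →L[ℂ] l2 EE :=
  wco (fun x => if P x.1 then 1 else 0) 1 (fun x => by split_ifs <;> simp) (Equiv.refl _)

theorem prj_apply (P : ℕ → Prop) [DecidablePred P] (f : l2 EE) (x : EE) :
    prj P f x = if P x.1 then f x else 0 := by
  simp [prj]

theorem prj_mul (P : ℕ → Prop) [DecidablePred P] : prj P * prj P = prj P := by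
  ext f x
  simp only [mul_apply_eq_comp, prj_apply]
  split_ifs <;> rfl

theorem prj_adjoint (P : ℕ → Prop) [DecidablePred P] : adjoint (prj P) = prj P := by
  unfold prj
  exact adjoint_wco _ _ _ (Equiv.refl _) _ _ _ (fun x => by
    change (if P x.1 then (1 : ℂ) else 0) = starRingEnd ℂ (if P x.1 then (1 : ℂ) else 0)
    by_cases h : P x.1 <;> simp [h])

theorem prj_compl (P : ℕ → Prop) [DecidablePred P] : 1 - prj P = prj (fun j => ¬ P j) := by
  ext f x
  simp only [sub_apply, one_apply_eq_self, prj_apply, lp.coeFn_sub, Pi.sub_apply]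
  by_cases h : P x.1 <;> simp [h]

theorem UU_prj (P : ℕ → Prop) [DecidablePred P] : UU * prj P = prj P * UU := by
  ext f x
  rw [mul_apply_eq_comp, mul_apply_eq_comp, prj_apply]
  change ((rad x.1 : ℝ) : ℂ) * (prj P f) (sh.symm x) =
    if P x.1 then ((rad x.1 : ℝ) : ℂ) * f (sh.symm x) else 0
  rw [prj_apply]
  change ((rad x.1 : ℝ) : ℂ) * (if P x.1 then f (sh.symm x) else 0) = _
  by_cases h : P x.1 <;> simp [h]

/-- The cyclic vector. -/
noncomputable def ee : l2 EE :=
  ⟨fun x => if x.2 = 0 then ((am x.1 0 : ℝ) : ℂ) else 0, memℓp_two_of _ (by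
    have hi : Function.Injective (fun j : ℕ => (⟨j, 0⟩ : EE)) := fun a b h => by
      exact congrArg Sigma.fst h
    rw [← hi.summable_iff]
    · have : ((fun x : EE => ‖(if x.2 = 0 then ((am x.1 0 : ℝ) : ℂ) else 0 : ℂ)‖ ^ 2) ∘
          (fun j : ℕ => (⟨j, 0⟩ : EE))) = fun j => (pp ^ 8) ^ j := by
        funext j
        simp only [Function.comp_apply, if_true, Complex.norm_real,
          Real.norm_of_nonneg (am_pos _ _).le]
        unfold am
        rw [← Real.rpow_natCast, ← Real.rpow_mul pp_pos.le, ← pow_mul, ← Real.rpow_natCast pp]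
        congr 1
        push_cast
        ring
      rw [this]
      exact summable_geometric_of_lt_one (by have := pp_pos; positivity)
        (pow_lt_one₀ pp_pos.le pp_lt_one (by norm_num))
    · intro x hx
      have : x.2 ≠ 0 := by
        intro h
        apply hx
        refine ⟨x.1, ?_⟩
        obtain ⟨j, n⟩ := x
        have h' : n = (0 : ZMod (16 ^ j)) := h
        subst h'
        rfl
      rw [if_neg this]
      simp)⟩

theorem ee_apply (x : EE) : ee x = if x.2 = 0 then ((am x.1 0 : ℝ) : ℂ) else 0 := rfl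

theorem pow_ee (m : ℕ) : ∀ x : EE, ((UU ^ m) ee) x =
    if (m : ZMod (16 ^ x.1)) = x.2 then ((am x.1 m : ℝ) : ℂ) else 0 := by
  induction m with
  | zero =>
    intro x
    rw [pow_zero, one_apply_eq_self, ee_apply]
    simp only [Nat.cast_zero, eq_comm]
  | succ m ih =>
    intro x
    rw [pow_succ', mul_apply_eq_comp]
    have : (UU ((UU ^ m) ee)) x = ((rad x.1 : ℝ) : ℂ) * ((UU ^ m) ee) (sh.symm x) := rfl
    rw [this, ih]
    obtain ⟨j, n⟩ := x
    rw [sh_symm_eq]
    have e1 : ((m : ZMod (16 ^ j)) = n + -1) ↔ (((m + 1 : ℕ) : ZMod (16 ^ j)) = n) := by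
      push_cast
      constructor
      · intro h; rw [h]; ring
      · intro h; rw [← h]; ring
    simp only
    by_cases h : ((m + 1 : ℕ) : ZMod (16 ^ j)) = n
    · rw [if_pos h, if_pos (e1.mpr h), am_succ, Complex.ofReal_mul]
    · rw [if_neg h, if_neg (fun h' => h (e1.mp h')), mul_zero]

/-- The closed cyclic subspace. -/
noncomputable def AA : Submodule ℂ (l2 EE) :=
  (Submodule.span ℂ (Set.range fun m : ℕ => (UU ^ m) ee)).topologicalClosure

theorem pow_ee_mem (m : ℕ) : (UU ^ m) ee ∈ AA :=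
  Submodule.le_topologicalClosure _ (Submodule.subset_span ⟨m, rfl⟩)

theorem sum_apply (F : Finset ℕ) (a : ℕ → ℂ) (x : EE) :
    (∑ m ∈ F, a m • (UU ^ m) ee : l2 EE) x =
      ∑ m ∈ F, a m * (if (m : ZMod (16 ^ x.1)) = x.2 then ((am x.1 m : ℝ) : ℂ) else 0) := by
  rw [lp.coeFn_sum, Finset.sum_apply]
  apply Finset.sum_congr rfl
  intro m _
  rw [lp.coeFn_smul, Pi.smul_apply, pow_ee, smul_eq_mul]

end Pool.Agent.Helper63.Koszul
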