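import Mathlib
import Pool.Agent.Helper63.KEx

set_option autoImplicit false

open scoped InnerProductSpace ENNReal
open ContinuousLinearMap (adjoint)

namespace Pool.Agent.Helper63.Koszul

/-- A bilinear Schur-type bound for finite sums. -/
theorem quad_le {α : Type} (F : Finset α) (b : α → ℝ)
    (kk : α → α → ℝ) (hk : ∀ x y, 0 ≤ kk x y) (ρ : ℝ)
    (hrow : ∀ x ∈ F, ∑ y ∈ F, kk x y ≤ ρ) (hcol : ∀ y ∈ F, ∑ x ∈ F, kk x y ≤ ρ) :
    ∑ x ∈ F, ∑ y ∈ F, kk x y * (b x * b y) ≤ ρ * ∑ x ∈ F, b x ^ 2 := by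
  have h1 : ∑ x ∈ F, ∑ y ∈ F, kk x y * (b x * b y) ≤
      ∑ x ∈ F, ∑ y ∈ F, (kk x y * b x ^ 2 / 2 + kk x y * b y ^ 2 / 2) := by
    apply Finset.sum_le_sum
    intro x _
    apply Finset.sum_le_sum
    intro y _
    have : b x * b y ≤ (b x ^ 2 + b y ^ 2) / 2 := by nlinarith [sq_nonneg (b x - b y)]
    have h2 := mul_le_mul_of_nonneg_left this (hk x y)
    linarith
  refine h1.trans ?_
  have h2 : ∑ x ∈ F, ∑ y ∈ F, (kk x y * b x ^ 2 / 2 + kk x y * b y ^ 2 / 2) =
      ∑ x ∈ F, (∑ y ∈ F, kk x y) * b x ^ 2 / 2 + ∑ y ∈ F, (∑ x ∈ F, kk x y) * b y ^ 2 / 2 := by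
    simp_rw [Finset.sum_add_distrib]
    congr 1
    · apply Finset.sum_congr rfl
      intro x _
      rw [Finset.sum_mul, Finset.sum_div]
    · rw [Finset.sum_comm]
      apply Finset.sum_congr rfl
      intro y _
      rw [Finset.sum_mul, Finset.sum_div]
  rw [h2]
  have h3 : ∑ x ∈ F, (∑ y ∈ F, kk x y) * b x ^ 2 / 2 ≤ ∑ x ∈ F, ρ * b x ^ 2 / 2 := by
    apply Finset.sum_le_sum
    intro x hx
    have := hrow x hx
    have h5 : 0 ≤ b x ^ 2 := sq_nonneg _
    nlinarith
  have h4 : ∑ y ∈ F, (∑ x ∈ F, kk x y) * b y ^ 2 / 2 ≤ ∑ y ∈ F, ρ * b y ^ 2 / 2 := by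
    apply Finset.sum_le_sum
    intro x hx
    have := hcol x hx
    have h5 : 0 ≤ b x ^ 2 := sq_nonneg _
    nlinarith
  have h6 : ∑ x ∈ F, ρ * b x ^ 2 / 2 = ρ * (∑ x ∈ F, b x ^ 2) / 2 := by
    rw [Finset.mul_sum, Finset.sum_div]
  linarith

/-- Level of a monomial. -/
def lev (m : ℕ) : ℕ := Nat.clog 16 (m + 1)

theorem lt_lev (m : ℕ) : m < 16 ^ lev m :=
  Nat.lt_of_succ_le (Nat.le_pow_clog (by norm_num) (m + 1))

theorem lev_low {m : ℕ} (h : 1 ≤ lev m) : 16 ^ (lev m - 1) ≤ m := by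
  have h1 : 1 < m + 1 := by
    by_contra hc
    have : lev m = 0 := Nat.clog_of_right_le_one (by omega) _
    omega
  have := Nat.pow_pred_clog_lt_self (b := 16) (by norm_num) h1
  exact Nat.lt_succ_iff.mp this

/-- The index associated with a monomial. -/
def km (m : ℕ) : EE := ⟨lev m, (m : ZMod (16 ^ lev m))⟩

theorem km_inj : Function.Injective km := by
  intro m n h
  have h1 : lev m = lev n := congrArg Sigma.fst h
  have hm := lt_lev m
  have hn := lt_lev n
  have h2 : (km m).2.val = m := by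
    change (m : ZMod (16 ^ lev m)).val = m
    rw [ZMod.val_natCast, Nat.mod_eq_of_lt hm]
  have h3 : (km n).2.val = n := by
    change (n : ZMod (16 ^ lev n)).val = n
    rw [ZMod.val_natCast, Nat.mod_eq_of_lt hn]
  rw [← h2, ← h3, h]

theorem samp (F : Finset ℕ) (a : ℕ → ℂ) :
    ∑ m ∈ F, (‖a m‖ * am (lev m) m) ^ 2 ≤ 2 * ‖∑ m ∈ F, a m • (UU ^ m) ee‖ ^ 2 := by
  classical
  set f : l2 EE := ∑ m ∈ F, a m • (UU ^ m) ee with hf
  set b : ℕ → ℝ := fun m => ‖a m‖ * am (lev m) m with hb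
  have hbn : ∀ m, 0 ≤ b m := fun m => mul_nonneg (norm_nonneg _) (am_pos _ _).le
  let kk : ℕ → ℕ → ℝ := fun m m' => if lev m < lev m' then KK (km m) (lev m') m' else 0
  have hkk : ∀ x y, 0 ≤ kk x y := by
    intro x y
    simp only [kk]
    split_ifs
    · exact KK_nonneg _ _ _
    · exact le_rfl
  have hrow : ∀ x ∈ F, ∑ y ∈ F, kk x y ≤ 1 / 15 := by
    intro x _
    simp only [kk]
    rw [← Finset.sum_filter]
    apply row_above (km x) _ lev id (Set.injOn_id _)
    · intro k hk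
      exact (Finset.mem_filter.mp hk).2
    · intro k hk
      have := (Finset.mem_filter.mp hk).2
      exact lev_low (by omega)
  have hcol : ∀ y ∈ F, ∑ x ∈ F, kk x y ≤ 1 / 15 := by
    intro y _
    simp only [kk]
    rw [← Finset.sum_filter]
    by_cases hy : 1 ≤ lev y
    · apply col_below (lev y) y _ km (km_inj.injOn)
      · intro k hk
        exact (Finset.mem_filter.mp hk).2
      · exact lev_low hy
    · rw [Finset.sum_eq_zero]
      · norm_num
      · intro k hk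
        have := (Finset.mem_filter.mp hk).2
        omega
  have key : ∀ m ∈ F, b m ≤ ‖f (km m)‖ + ∑ m' ∈ F, kk m m' * b m' := by
    intro m hm
    have e1 : f (km m) = ∑ m' ∈ F, a m' *
        (if (m' : ZMod (16 ^ (km m).1)) = (km m).2 then ((am (km m).1 m' : ℝ) : ℂ) else 0) := by
      rw [hf, sum_apply]
    rw [← Finset.add_sum_erase _ _ hm] at e1
    have e2 : (if (m : ZMod (16 ^ (km m).1)) = (km m).2 then ((am (km m).1 m : ℝ) : ℂ) else 0)
        = ((am (lev m) m : ℝ) : ℂ) := if_pos rfl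
    rw [e2] at e1
    have e3 : a m * ((am (lev m) m : ℝ) : ℂ) = f (km m) - ∑ m' ∈ F.erase m, a m' *
        (if (m' : ZMod (16 ^ (km m).1)) = (km m).2 then ((am (km m).1 m' : ℝ) : ℂ) else 0) := by
      rw [e1]; ring
    have e4 : b m = ‖a m * ((am (lev m) m : ℝ) : ℂ)‖ := by
      rw [norm_mul, Complex.norm_real, Real.norm_of_nonneg (am_pos _ _).le]
    rw [e4, e3]
    refine (norm_sub_le _ _).trans ?_
    gcongr
    refine (norm_sum_le _ _).trans ?_
    refine le_trans (Finset.sum_le_sum (g := fun m' => kk m m' * b m') ?_) ?_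
    · intro m' hm'
      obtain ⟨hne, _⟩ := Finset.mem_erase.mp hm'
      by_cases hc : (m' : ZMod (16 ^ (km m).1)) = (km m).2
      · have hl : lev m < lev m' := by
          by_contra hlt
          push Not at hlt
          apply hne
          have h1 : m' < 16 ^ lev m :=
            lt_of_lt_of_le (lt_lev m') (Nat.pow_le_pow_right (by norm_num) hlt)
          have h2 : (m' : ZMod (16 ^ lev m)) = (m : ZMod (16 ^ lev m)) := hc
          have h3 := (ZMod.natCast_eq_natCast_iff' _ _ _).mp h2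
          rwa [Nat.mod_eq_of_lt h1, Nat.mod_eq_of_lt (lt_lev m)] at h3
        rw [if_pos hc, norm_mul, Complex.norm_real, Real.norm_of_nonneg (am_pos _ _).le]
        simp only [kk]
        rw [if_pos hl]
        unfold KK
        rw [if_pos hc]
        simp only [b]
        have := (am_pos (lev m') m').ne'
        apply le_of_eq
        field_simp
      · rw [if_neg hc, mul_zero, norm_zero]
        exact mul_nonneg (hkk _ _) (hbn _)
    · apply Finset.sum_le_sum_of_subset_of_nonneg (Finset.erase_subset _ _)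
      intro i _ _
      exact mul_nonneg (hkk _ _) (hbn _)
  have hS : ∑ m ∈ F, ‖f (km m)‖ ^ 2 ≤ ‖f‖ ^ 2 := by
    have := l2_sum_le f (F.image km)
    rwa [Finset.sum_image (km_inj.injOn)] at this
  have hq := quad_le F b kk hkk (1 / 15) hrow hcol
  have h1 : ∑ m ∈ F, b m ^ 2 ≤ ∑ m ∈ F, (b m ^ 2 / 4 + ‖f (km m)‖ ^ 2) +
      ∑ m ∈ F, ∑ m' ∈ F, kk m m' * (b m * b m') := by
    rw [← Finset.sum_add_distrib]
    apply Finset.sum_le_sum
    intro m hm
    have h2 := mul_le_mul_of_nonneg_left (key m hm) (hbn m)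
    have h3 : b m * ‖f (km m)‖ ≤ b m ^ 2 / 4 + ‖f (km m)‖ ^ 2 := by
      nlinarith [sq_nonneg (b m / 2 - ‖f (km m)‖)]
    have h4 : b m * ∑ m' ∈ F, kk m m' * b m' = ∑ m' ∈ F, kk m m' * (b m * b m') := by
      rw [Finset.mul_sum]
      apply Finset.sum_congr rfl
      intro _ _
      ring
    have h5 : b m * b m ≤ b m * ‖f (km m)‖ + b m * ∑ m' ∈ F, kk m m' * b m' := by
      rw [← mul_add]; exact h2
    rw [h4] at h5
    nlinarith
  rw [Finset.sum_add_distrib, ← Finset.sum_div] at h1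
  have hB : 0 ≤ ∑ m ∈ F, b m ^ 2 := Finset.sum_nonneg (fun _ _ => sq_nonneg _)
  nlinarith

theorem am_zero_zero : am 0 0 = 1 := by
  unfold am
  simp

theorem lev_zero : lev 0 = 0 := by
  unfold lev
  simp

theorem he_ex : ∀ a ∈ AA, UU a ≠ ee := by
  classical
  intro a ha hae
  have hopen : IsOpen {s : l2 EE | ‖UU s - ee‖ < 1 / 2} :=
    isOpen_lt ((UU.continuous.sub continuous_const).norm) continuous_const
  have hmem : a ∈ closure ((Submodule.span ℂ (Set.range fun m : ℕ => (UU ^ m) ee) :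
      Submodule ℂ (l2 EE)) : Set (l2 EE)) := ha
  obtain ⟨s, hs1, hs2⟩ := mem_closure_iff.mp hmem _ hopen (by
    change ‖UU a - ee‖ < 1 / 2
    rw [hae, sub_self, norm_zero]; norm_num)
  have hs1' : ‖UU s - ee‖ < 1 / 2 := hs1
  rw [SetLike.mem_coe, Finsupp.mem_span_range_iff_exists_finsupp] at hs2
  obtain ⟨c, hc⟩ := hs2
  -- the polynomial ee - UU s
  let F : Finset ℕ := insert 0 (c.support.image (fun m => m + 1))
  let a' : ℕ → ℂ := fun m => if m = 0 then 1 else - c (m - 1)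
  have h0 : (0 : ℕ) ∉ c.support.image (fun m => m + 1) := by
    intro h
    obtain ⟨m, _, hm⟩ := Finset.mem_image.mp h
    omega
  have e1 : ∑ m ∈ F, a' m • (UU ^ m) ee = ee - UU s := by
    rw [Finset.sum_insert h0, Finset.sum_image (fun x _ y _ h => by simpa using h)]
    have e2 : a' 0 • (UU ^ 0) ee = ee := by simp [a']
    rw [e2, ← hc, Finsupp.sum, map_sum, sub_eq_add_neg, ← Finset.sum_neg_distrib]
    congr 1
    apply Finset.sum_congr rfl
    intro m _
    have e3 : a' (m + 1) = - c m := by simp [a']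
    rw [e3, map_smul, neg_smul, pow_succ', mul_apply_eq_comp]
  have h1 := samp F a'
  rw [e1] at h1
  have h2 : (‖a' 0‖ * am (lev 0) 0) ^ 2 ≤ ∑ m ∈ F, (‖a' m‖ * am (lev m) m) ^ 2 :=
    Finset.single_le_sum (f := fun m => (‖a' m‖ * am (lev m) m) ^ 2)
      (fun _ _ => sq_nonneg _) (Finset.mem_insert_self _ _)
  have h3 : a' 0 = 1 := by simp [a']
  rw [h3, lev_zero, am_zero_zero, norm_one] at h2
  rw [← norm_neg, neg_sub] at hs1'
  have h4 : ‖ee - UU s‖ ^ 2 < (1 / 2) ^ 2 := by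
    apply pow_lt_pow_left₀ hs1' (norm_nonneg _) (by norm_num)
  nlinarith

end Pool.Agent.Helper63.Koszul
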