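import Mathlib
import Pool.Agent.Helper63.KSamp

set_option autoImplicit false

open scoped InnerProductSpace ENNReal NNReal
open ContinuousLinearMap (adjoint)

namespace Pool.Agent.Helper63.Koszul

/-- Abstract surjectivity criterion. -/
theorem onto_of {L : Type} [NormedAddCommGroup L] [InnerProductSpace ℂ L] [CompleteSpace L]
    (ϖ : L →L[ℂ] L) (hϖ : ϖ * ϖ = ϖ) (hϖa : adjoint ϖ = ϖ) (A : Submodule ℂ L)
    (hA : IsClosed (A : Set L)) (c C : ℝ) (hc : 0 < c) (hC : 0 < C) (D : Set L)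
    (hD : ∀ x, ∀ ε > 0, ∃ y ∈ D, ‖ϖ x - y‖ < ε)
    (h : ∀ y ∈ D, ∃ a ∈ A, ‖a‖ ≤ C * ‖y‖ ∧ c * ‖y‖ ^ 2 ≤ ‖inner ℂ y a‖) :
    ∀ x, ∃ a ∈ A, ϖ a = ϖ x := by
  have : CompleteSpace A := hA.completeSpace_coe
  let p : L →L[ℂ] L := A.starProjection
  have pA : ∀ x, p x ∈ A := fun x => Submodule.starProjection_apply_mem A x
  have pid : ∀ x ∈ A, p x = x := fun x hx => Submodule.starProjection_eq_self_iff.2 hx
  have pin : ∀ x y, inner ℂ (p x) y = inner ℂ x (p y) := fun x y =>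
    Submodule.inner_starProjection_left_eq_right A x y
  have ϖϖ : ∀ x, ϖ (ϖ x) = ϖ x := fun x => by
    simpa using congrArg (fun f : L →L[ℂ] L => f x) hϖ
  have ϖin : ∀ x y, inner ℂ (ϖ x) y = inner ℂ x (ϖ y) := fun x y => by
    conv_lhs => rw [← hϖa]
    rw [ContinuousLinearMap.adjoint_inner_left]
  have hlow : ∀ y ∈ D, c * ‖y‖ ≤ C * ‖p y‖ := by
    intro y hy
    obtain ⟨a, ha, h1, h2⟩ := h y hy
    by_cases hy0 : ‖y‖ = 0
    · rw [hy0, mul_zero]; positivity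
    · have hy1 : 0 < ‖y‖ := lt_of_le_of_ne (norm_nonneg _) (Ne.symm hy0)
      have h3 : ‖inner ℂ y a‖ ≤ ‖p y‖ * ‖a‖ := by
        have : inner ℂ y a = inner ℂ (p y) a := by rw [pin, pid a ha]
        rw [this]
        exact norm_inner_le_norm _ _
      have h4 : ‖p y‖ * ‖a‖ ≤ ‖p y‖ * (C * ‖y‖) := by gcongr
      have h5 : c * ‖y‖ * ‖y‖ ≤ C * ‖p y‖ * ‖y‖ := by nlinarith
      exact le_of_mul_le_mul_right h5 hy1
  have hlow2 : ∀ x, c * ‖ϖ x‖ ≤ C * ‖p (ϖ x)‖ := by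
    intro x
    have hcl : IsClosed {z : L | c * ‖z‖ ≤ C * ‖p z‖} :=
      isClosed_le (continuous_const.mul continuous_norm)
        (continuous_const.mul (p.continuous.norm))
    have hsub : D ⊆ {z : L | c * ‖z‖ ≤ C * ‖p z‖} := fun y hy => hlow y hy
    have hmem : ϖ x ∈ closure D := by
      rw [Metric.mem_closure_iff]
      intro ε hε
      obtain ⟨y, hy, hy2⟩ := hD x ε hε
      exact ⟨y, hy, by rw [dist_eq_norm]; exact hy2⟩
    exact (hcl.closure_subset_iff.mpr hsub) hmem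
  let δ : ℝ := min ((c / C) ^ 2) 1
  have hδ : 0 < δ := by
    apply lt_min
    · positivity
    · norm_num
  let T : L →L[ℂ] L := ϖ * p * ϖ + (1 - ϖ)
  have hT : ∀ x, T x = ϖ (p (ϖ x)) + (x - ϖ x) := fun x => by simp [T]
  have hpyth : ∀ x, ‖x‖ ^ 2 = ‖ϖ x‖ ^ 2 + ‖x - ϖ x‖ ^ 2 := by
    intro x
    have h1 : inner ℂ (ϖ x) (x - ϖ x) = 0 := by
      have h0 : inner ℂ (ϖ x) (ϖ x) = inner ℂ (ϖ x) x := by rw [← ϖin, ϖϖ]
      rw [inner_sub_right, h0, sub_self]
    have h2 := norm_add_sq_eq_norm_sq_add_norm_sq_of_inner_eq_zero (𝕜 := ℂ) (ϖ x) (x - ϖ x) h1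
    have h3 : ϖ x + (x - ϖ x) = x := by abel
    rw [h3] at h2
    nlinarith
  have hTin : ∀ x, ‖x‖ ^ 2 * δ ≤ ‖inner ℂ (T x) x‖ := by
    intro x
    have e1 : inner ℂ (T x) x = ((‖p (ϖ x)‖ ^ 2 + ‖x - ϖ x‖ ^ 2 : ℝ) : ℂ) := by
      rw [hT, inner_add_left, ϖin]
      have h1 : inner ℂ (p (ϖ x)) (ϖ x) = ((‖p (ϖ x)‖ ^ 2 : ℝ) : ℂ) := by
        have : inner ℂ (p (ϖ x)) (ϖ x) = inner ℂ (p (ϖ x)) (p (ϖ x)) := by
          rw [← pin (p (ϖ x)), pid _ (pA _)]
        rw [this, inner_self_eq_norm_sq_to_K]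
        push_cast
        rfl
      have h2 : inner ℂ (x - ϖ x) x = ((‖x - ϖ x‖ ^ 2 : ℝ) : ℂ) := by
        have : inner ℂ (x - ϖ x) x = inner ℂ (x - ϖ x) (x - ϖ x) := by
          rw [inner_sub_right]
          have : inner ℂ (x - ϖ x) (ϖ x) = 0 := by
            rw [inner_sub_left, ϖin x (ϖ x), ϖϖ, ← ϖin, sub_self]
          rw [this, sub_zero]
        rw [this, inner_self_eq_norm_sq_to_K]
        push_cast
        rfl
      rw [h1, h2]
      push_cast
      rfl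
    rw [e1, Complex.norm_real, Real.norm_of_nonneg (by positivity)]
    have h3 : (c / C) ^ 2 * ‖ϖ x‖ ^ 2 ≤ ‖p (ϖ x)‖ ^ 2 := by
      rw [← mul_pow]
      apply pow_le_pow_left₀ (by positivity)
      rw [div_mul_eq_mul_div, div_le_iff₀ hC, mul_comm ‖p (ϖ x)‖]
      exact hlow2 x
    have h4 : δ ≤ (c / C) ^ 2 := min_le_left _ _
    have h5 : δ ≤ 1 := min_le_right _ _
    rw [hpyth x]
    have h6 : 0 ≤ ‖ϖ x‖ ^ 2 := sq_nonneg _
    have h7 : 0 ≤ ‖x - ϖ x‖ ^ 2 := sq_nonneg _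
    nlinarith
  have hunit : IsUnit T :=
    ContinuousLinearMap.isUnit_of_forall_le_norm_inner_map T (c := ⟨δ, hδ.le⟩) hδ hTin
  intro x
  obtain ⟨S, hS⟩ : ∃ S : L →L[ℂ] L, T * S = 1 := by
    obtain ⟨u, hu⟩ := hunit
    exact ⟨(u⁻¹ : (L →L[ℂ] L)ˣ), by rw [← hu]; exact u.mul_inv⟩
  have hTS : T (S (ϖ x)) = ϖ x := by
    have := congrArg (fun f : L →L[ℂ] L => f (ϖ x)) hS
    simpa using this
  set y := S (ϖ x) with hy
  rw [hT] at hTS
  -- apply 1 - ϖ
  have h8 : ϖ (ϖ (p (ϖ y)) + (y - ϖ y)) = ϖ (ϖ x) := by rw [hTS]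
  rw [map_add, map_sub, ϖϖ, ϖϖ, ϖϖ, sub_self, add_zero] at h8
  exact ⟨p (ϖ y), pA _, h8⟩

theorem sum_le_of_unique {α : Type} (F : Finset α) (f : α → ℝ) (C : ℝ) (hC : 0 ≤ C)
    (hf : ∀ k ∈ F, f k ≤ C) (hu : ∀ k ∈ F, ∀ l ∈ F, f k ≠ 0 → f l ≠ 0 → k = l) :
    ∑ k ∈ F, f k ≤ C := by
  classical
  by_cases h : ∃ k ∈ F, f k ≠ 0
  · obtain ⟨k, hk, hk0⟩ := h
    rw [Finset.sum_eq_single_of_mem k hk]
    · exact hf k hk
    · intro l hl hne
      by_contra h0
      exact hne (hu l hl k hk h0 hk0)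
  · push Not at h
    rw [Finset.sum_eq_zero h]
    exact hC

/-- Lower end of the block used at level `j`. -/
def y0 (j : ℕ) : ℕ := if j = 0 then 0 else 16 ^ (j - 1)

/-- The monomial used to interpolate at `x`. -/
def mk (x : EE) : ℕ := y0 x.1 + (x.2 - (y0 x.1 : ZMod (16 ^ x.1))).val

theorem mk_cast (x : EE) : ((mk x : ℕ) : ZMod (16 ^ x.1)) = x.2 := by
  unfold mk
  push_cast
  rw [ZMod.natCast_zmod_val]
  ring

theorem mk_low (x : EE) (h : 1 ≤ x.1) : 16 ^ (x.1 - 1) ≤ mk x := by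
  unfold mk y0
  rw [if_neg (by omega)]
  omega

theorem mk_up (x : EE) : 16 * mk x ≤ 17 * 16 ^ x.1 := by
  unfold mk
  have h1 : (x.2 - (y0 x.1 : ZMod (16 ^ x.1))).val < 16 ^ x.1 := ZMod.val_lt _
  have h2 : 16 * y0 x.1 ≤ 16 ^ x.1 := by
    unfold y0
    split_ifs with h
    · positivity
    · obtain ⟨j, hj⟩ : ∃ j, x.1 = j + 1 := ⟨x.1 - 1, by omega⟩
      rw [hj]
      simp [pow_succ']
  omega

theorem mk_inj_of (P : ℕ → Prop) (hP : ∀ j, P j → ¬ P (j + 1)) {x x' : EE} (hx : P x.1)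
    (hx' : P x'.1) (h : mk x = mk x') : x = x' := by
  have aux : ∀ x x' : EE, P x.1 → P x'.1 → mk x = mk x' → x.1 < x'.1 → False := by
    intro x x' hx hx' h hlt
    have h1 : x'.1 ≠ x.1 + 1 := fun he => hP x.1 hx (he ▸ hx')
    have h2 : x.1 + 2 ≤ x'.1 := by omega
    have h3 := mk_up x
    have h4 := mk_low x' (by omega)
    have h5 : 16 ^ (x.1 + 1) ≤ 16 ^ (x'.1 - 1) := Nat.pow_le_pow_right (by norm_num) (by omega)
    have h6 : 16 ^ (x.1 + 1) = 16 * 16 ^ x.1 := by rw [pow_succ']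
    have h7 : 0 < 16 ^ x.1 := by positivity
    omega
  have h1 : x.1 = x'.1 := by
    rcases lt_trichotomy x.1 x'.1 with h2 | h2 | h2
    · exact (aux x x' hx hx' h h2).elim
    · exact h2
    · exact (aux x' x hx' hx h.symm h2).elim
  have e1 := mk_cast x
  have e2 := mk_cast x'
  rw [h] at e1
  generalize mk x' = M at *
  obtain ⟨j, n⟩ := x
  obtain ⟨j', n'⟩ := x'
  simp only at h1
  subst h1
  simp only at e1 e2
  rw [← e1, ← e2]

/-- Matrix of the interpolation problem. -/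
noncomputable def Kx (x k : EE) : ℝ := KK x k.1 (mk k)

theorem Kx_nonneg (x k : EE) : 0 ≤ Kx x k := KK_nonneg _ _ _

theorem Kx_self (k : EE) : Kx k k = 1 := by
  unfold Kx KK
  rw [if_pos (mk_cast k), div_self (am_pos _ _).ne']

theorem Kx_same {x k : EE} (h : x.1 = k.1) (hne : x ≠ k) : Kx x k = 0 := by
  unfold Kx KK
  rw [if_neg]
  intro hc
  apply hne
  have := mk_cast k
  generalize mk k = M at *
  obtain ⟨j, n⟩ := x
  obtain ⟨j', n'⟩ := k
  simp only at h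
  subst h
  simp only at hc this
  rw [← hc, ← this]

/-- Row sum, levels strictly below: at most one term. -/
theorem row_below_le (P : ℕ → Prop) (hP : ∀ j, P j → ¬ P (j + 1)) (x : EE) (F : Finset EE)
    (hF : ∀ k ∈ F, P k.1) (hlt : ∀ k ∈ F, k.1 < x.1) (C : ℝ) (hC : 0 ≤ C)
    (hb : ∀ k ∈ F, Kx x k ≤ C) : ∑ k ∈ F, Kx x k ≤ C := by
  apply sum_le_of_unique _ _ _ hC hb
  intro k hk l hl hk0 hl0
  apply mk_inj_of P hP (hF k hk) (hF l hl)
  have aux : ∀ k ∈ F, Kx x k ≠ 0 → mk k = x.2.val := by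
    intro k hk hk0
    have h1 : (mk k : ZMod (16 ^ x.1)) = x.2 := by
      by_contra hc
      apply hk0
      unfold Kx KK
      rw [if_neg hc]
    have h2 := mk_up k
    have h3 := hlt k hk
    have h4 : 16 * 16 ^ k.1 ≤ 16 ^ x.1 := by
      rw [← pow_succ']
      exact Nat.pow_le_pow_right (by norm_num) (by omega)
    have h5 : mk k < 16 ^ x.1 := by
      have : 0 < 16 ^ k.1 := by positivity
      omega
    rw [← h1, ZMod.val_natCast, Nat.mod_eq_of_lt h5]
  rw [aux k hk hk0, aux l hl hl0]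

theorem row_above' (P : ℕ → Prop) (hP : ∀ j, P j → ¬ P (j + 1)) (x : EE) (F : Finset EE)
    (hF : ∀ k ∈ F, P k.1) (hlt : ∀ k ∈ F, x.1 < k.1) : ∑ k ∈ F, Kx x k ≤ 1 / 15 := by
  apply row_above x F (fun k => k.1) mk
  · intro a ha b hb hab
    exact mk_inj_of P hP (hF a ha) (hF b hb) hab
  · exact hlt
  · intro k hk
    exact mk_low k (by have := hlt k hk; omega)

/-- Full row sums. -/
theorem row_full (P : ℕ → Prop) (hP : ∀ j, P j → ¬ P (j + 1)) (x : EE) (F : Finset EE)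
    (hF : ∀ k ∈ F, P k.1) : ∑ k ∈ F, Kx x k ≤ 5000 := by
  classical
  have e1 : ∑ k ∈ F, Kx x k = ∑ k ∈ F.filter (fun k => x.1 < k.1), Kx x k +
      (∑ k ∈ (F.filter (fun k => ¬ x.1 < k.1)).filter (fun k => k.1 < x.1), Kx x k +
      ∑ k ∈ (F.filter (fun k => ¬ x.1 < k.1)).filter (fun k => ¬ k.1 < x.1), Kx x k) := by
    rw [Finset.sum_filter_add_sum_filter_not, Finset.sum_filter_add_sum_filter_not]
  have b1 := row_above' P hP x (F.filter (fun k => x.1 < k.1))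
    (fun k hk => hF k (Finset.mem_filter.mp hk).1) (fun k hk => (Finset.mem_filter.mp hk).2)
  have b2 := row_below_le P hP x ((F.filter (fun k => ¬ x.1 < k.1)).filter (fun k => k.1 < x.1))
    (fun k hk => hF k (Finset.mem_filter.mp (Finset.mem_filter.mp hk).1).1)
    (fun k hk => (Finset.mem_filter.mp hk).2) 4096 (by norm_num) (fun k hk => by
      have h1 := (Finset.mem_filter.mp hk).2
      by_cases h2 : x.1 = k.1 + 1
      · exact KK_succ h2 (mk_up k)
      · refine (KK_gt (by omega) (mk_up k)).trans ?_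
        refine (pow_le_one₀ pp_pos.le pp_lt_one.le).trans (by norm_num))
  have b3 : ∑ k ∈ (F.filter (fun k => ¬ x.1 < k.1)).filter (fun k => ¬ k.1 < x.1), Kx x k ≤ 1 := by
    apply sum_le_of_unique _ _ _ (by norm_num)
    · intro k hk
      obtain ⟨h1, h2⟩ := Finset.mem_filter.mp hk
      have h3 := (Finset.mem_filter.mp h1).2
      exact KK_eq (by omega)
    · intro k hk l hl hk0 hl0
      have aux : ∀ k ∈ (F.filter (fun k => ¬ x.1 < k.1)).filter (fun k => ¬ k.1 < x.1),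
          Kx x k ≠ 0 → x = k := by
        intro k hk hk0
        obtain ⟨h1, h2⟩ := Finset.mem_filter.mp hk
        have h3 := (Finset.mem_filter.mp h1).2
        by_contra hne
        exact hk0 (Kx_same (by omega) hne)
      rw [← aux k hk hk0, ← aux l hl hl0]
  rw [e1]
  linarith

/-- Full column sums. -/
theorem col_full (k : EE) (G : Finset EE) : ∑ x ∈ G, Kx x k ≤ 5000 := by
  classical
  have e1 : ∑ x ∈ G, Kx x k = ∑ x ∈ G.filter (fun x => x.1 < k.1), Kx x k +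
      (∑ x ∈ (G.filter (fun x => ¬ x.1 < k.1)).filter (fun x => k.1 + 2 ≤ x.1), Kx x k +
      ∑ x ∈ (G.filter (fun x => ¬ x.1 < k.1)).filter (fun x => ¬ k.1 + 2 ≤ x.1), Kx x k) := by
    rw [Finset.sum_filter_add_sum_filter_not, Finset.sum_filter_add_sum_filter_not]
  have b1 : ∑ x ∈ G.filter (fun x => x.1 < k.1), Kx x k ≤ 1 / 15 := by
    by_cases hk : 1 ≤ k.1
    · exact col_below k.1 (mk k) _ id (Set.injOn_id _)
        (fun x hx => (Finset.mem_filter.mp hx).2) (mk_low k hk)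
    · rw [Finset.sum_eq_zero]
      · norm_num
      · intro x hx
        have := (Finset.mem_filter.mp hx).2
        omega
  have b2 : ∑ x ∈ (G.filter (fun x => ¬ x.1 < k.1)).filter (fun x => k.1 + 2 ≤ x.1), Kx x k ≤
      1 / 15 :=
    col_above k.1 (mk k) _ id (Set.injOn_id _) (fun x hx => (Finset.mem_filter.mp hx).2) (mk_up k)
  have e2 : ∑ x ∈ (G.filter (fun x => ¬ x.1 < k.1)).filter (fun x => ¬ k.1 + 2 ≤ x.1), Kx x k =
      ∑ x ∈ ((G.filter (fun x => ¬ x.1 < k.1)).filter (fun x => ¬ k.1 + 2 ≤ x.1)).filter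
        (fun x => x.1 = k.1), Kx x k +
      ∑ x ∈ ((G.filter (fun x => ¬ x.1 < k.1)).filter (fun x => ¬ k.1 + 2 ≤ x.1)).filter
        (fun x => ¬ x.1 = k.1), Kx x k := by
    rw [Finset.sum_filter_add_sum_filter_not]
  have b3 : ∑ x ∈ ((G.filter (fun x => ¬ x.1 < k.1)).filter (fun x => ¬ k.1 + 2 ≤ x.1)).filter
        (fun x => x.1 = k.1), Kx x k ≤ 1 := by
    apply sum_le_of_unique _ _ _ (by norm_num)
    · intro x hx
      exact KK_eq (Finset.mem_filter.mp hx).2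
    · intro x hx l hl hx0 hl0
      have h1 := (Finset.mem_filter.mp hx).2
      have h2 := (Finset.mem_filter.mp hl).2
      have h3 : x = k := by
        by_contra hne
        exact hx0 (Kx_same h1 hne)
      have h4 : l = k := by
        by_contra hne
        exact hl0 (Kx_same h2 hne)
      rw [h3, h4]
  have b4 : ∑ x ∈ ((G.filter (fun x => ¬ x.1 < k.1)).filter (fun x => ¬ k.1 + 2 ≤ x.1)).filter
        (fun x => ¬ x.1 = k.1), Kx x k ≤ 4096 := by
    have hlev : ∀ x ∈ ((G.filter (fun x => ¬ x.1 < k.1)).filter (fun x => ¬ k.1 + 2 ≤ x.1)).filter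
        (fun x => ¬ x.1 = k.1), x.1 = k.1 + 1 := by
      intro x hx
      obtain ⟨h1, h2⟩ := Finset.mem_filter.mp hx
      obtain ⟨h3, h4⟩ := Finset.mem_filter.mp h1
      have h5 := (Finset.mem_filter.mp h3).2
      omega
    apply sum_le_of_unique _ _ _ (by norm_num)
    · intro x hx
      exact KK_succ (hlev x hx) (mk_up k)
    · intro x hx l hl hx0 hl0
      have h1 := hlev x hx
      have h2 := hlev l hl
      have aux : ∀ x : EE, Kx x k ≠ 0 → (mk k : ZMod (16 ^ x.1)) = x.2 := by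
        intro x hx0
        by_contra hc
        apply hx0
        unfold Kx KK
        rw [if_neg hc]
      have h3 := aux x hx0
      have h4 := aux l hl0
      generalize mk k = M at *
      obtain ⟨j, n⟩ := x
      obtain ⟨j', n'⟩ := l
      simp only at h1 h2
      subst h1
      subst h2
      simp only at h3 h4
      rw [← h3, ← h4]
  rw [e1, e2]
  linarith

end Pool.Agent.Helper63.Koszul

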