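import Mathlib
import Pool.Agent.Helper63.KInterp

set_option autoImplicit false

open scoped InnerProductSpace ENNReal NNReal
open ContinuousLinearMap (adjoint)

namespace Pool.Agent.Helper63.Koszul

/-- The interpolating combination. -/
noncomputable def icomb (F : Finset EE) (y : EE → ℂ) : l2 EE :=
  ∑ k ∈ F, (y k / ((am k.1 (mk k) : ℝ) : ℂ)) • (UU ^ (mk k)) ee

theorem icomb_mem (F : Finset EE) (y : EE → ℂ) : icomb F y ∈ AA :=
  AA.sum_mem (fun _ _ => AA.smul_mem _ (pow_ee_mem _))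

theorem icomb_apply (F : Finset EE) (y : EE → ℂ) (x : EE) :
    icomb F y x = ∑ k ∈ F, y k * ((Kx x k : ℝ) : ℂ) := by
  unfold icomb
  rw [lp.coeFn_sum, Finset.sum_apply]
  apply Finset.sum_congr rfl
  intro k _
  rw [lp.coeFn_smul, Pi.smul_apply, pow_ee, smul_eq_mul]
  unfold Kx KK
  by_cases h : (mk k : ZMod (16 ^ x.1)) = x.2
  · rw [if_pos h, if_pos h]
    push_cast
    ring
  · rw [if_neg h, if_neg h]
    push_cast
    ring

theorem icomb_norm (P : ℕ → Prop) (hP : ∀ j, P j → ¬ P (j + 1)) (F : Finset EE)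
    (hF : ∀ k ∈ F, P k.1) (y : EE → ℂ) :
    ‖icomb F y‖ ^ 2 ≤ 5000 * 5000 * ∑ k ∈ F, ‖y k‖ ^ 2 := by
  apply l2_norm_sq_le
  intro G
  have h1 : ∀ x ∈ G, ‖icomb F y x‖ ^ 2 ≤ 5000 * ∑ k ∈ F, Kx x k * ‖y k‖ ^ 2 := by
    intro x _
    rw [icomb_apply]
    have h2 : ‖∑ k ∈ F, y k * ((Kx x k : ℝ) : ℂ)‖ ≤ ∑ k ∈ F, ‖y k‖ * Kx x k := by
      refine (norm_sum_le _ _).trans (le_of_eq ?_)
      apply Finset.sum_congr rfl
      intro k _
      rw [norm_mul, Complex.norm_real, Real.norm_of_nonneg (Kx_nonneg _ _)]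
    have h3 : (∑ k ∈ F, ‖y k‖ * Kx x k) ^ 2 ≤
        (∑ k ∈ F, Kx x k) * ∑ k ∈ F, Kx x k * ‖y k‖ ^ 2 := by
      apply Finset.sum_sq_le_sum_mul_sum_of_sq_le_mul
      · intro k _; exact Kx_nonneg _ _
      · intro k _; exact mul_nonneg (Kx_nonneg _ _) (sq_nonneg _)
      · intro k _; apply le_of_eq; ring
    calc ‖∑ k ∈ F, y k * ((Kx x k : ℝ) : ℂ)‖ ^ 2 ≤ (∑ k ∈ F, ‖y k‖ * Kx x k) ^ 2 :=
          pow_le_pow_left₀ (norm_nonneg _) h2 2
      _ ≤ _ := h3
      _ ≤ _ := by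
          apply mul_le_mul_of_nonneg_right (row_full P hP x F hF)
          exact Finset.sum_nonneg (fun k _ => mul_nonneg (Kx_nonneg _ _) (sq_nonneg _))
  refine (Finset.sum_le_sum h1).trans ?_
  rw [← Finset.mul_sum, Finset.sum_comm, mul_assoc]
  apply mul_le_mul_of_nonneg_left _ (by norm_num)
  rw [Finset.mul_sum]
  apply Finset.sum_le_sum
  intro k _
  rw [← Finset.sum_mul]
  exact mul_le_mul_of_nonneg_right (col_full k G) (sq_nonneg _)

/-- finitely supported vector -/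
noncomputable def fvec (F : Finset EE) (y : EE → ℂ) : l2 EE :=
  ∑ k ∈ F, lp.single 2 k (y k)

theorem fvec_norm (F : Finset EE) (y : EE → ℂ) : ‖fvec F y‖ ^ 2 = ∑ k ∈ F, ‖y k‖ ^ 2 := by
  have := lp.norm_sum_single (p := 2) (by norm_num) y F
  simpa [fvec] using this

theorem fvec_inner (F : Finset EE) (y : EE → ℂ) (f : l2 EE) :
    inner ℂ (fvec F y) f = ∑ k ∈ F, (starRingEnd ℂ) (y k) * f k := by
  unfold fvec
  rw [sum_inner]
  apply Finset.sum_congr rfl
  intro k _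
  rw [lp.inner_single_left]
  simp [RCLike.inner_apply, mul_comm]

theorem offdiag (P : ℕ → Prop) (hP : ∀ j, P j → ¬ P (j + 1)) (F : Finset EE)
    (hF : ∀ k ∈ F, P k.1) (y : EE → ℂ) :
    1 / 2 * ∑ k ∈ F, ‖y k‖ ^ 2 ≤ ‖inner ℂ (fvec F y) (icomb F y)‖ := by
  classical
  let kk : EE → EE → ℝ := fun x k => if x = k then 0 else Kx x k
  have hkk : ∀ x y, 0 ≤ kk x y := by
    intro x y
    simp only [kk]
    split_ifs
    · exact le_rfl
    · exact Kx_nonneg _ _
  have hle : ∀ x y, kk x y ≤ Kx x y := by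
    intro x y
    simp only [kk]
    split_ifs
    · exact Kx_nonneg _ _
    · exact le_rfl
  have hgap : ∀ x ∈ F, ∀ k ∈ F, k.1 < x.1 → k.1 + 2 ≤ x.1 := by
    intro x hx k hk hlt
    have : x.1 ≠ k.1 + 1 := fun he => hP k.1 (hF k hk) (he ▸ hF x hx)
    omega
  have hrow : ∀ x ∈ F, ∑ k ∈ F, kk x k ≤ 2 / 15 := by
    intro x hx
    have e1 : ∑ k ∈ F, kk x k = ∑ k ∈ F.filter (fun k => x.1 < k.1), kk x k +
        (∑ k ∈ (F.filter (fun k => ¬ x.1 < k.1)).filter (fun k => k.1 < x.1), kk x k +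
        ∑ k ∈ (F.filter (fun k => ¬ x.1 < k.1)).filter (fun k => ¬ k.1 < x.1), kk x k) := by
      rw [Finset.sum_filter_add_sum_filter_not, Finset.sum_filter_add_sum_filter_not]
    have b1 := row_above' P hP x (F.filter (fun k => x.1 < k.1))
      (fun k hk => hF k (Finset.mem_filter.mp hk).1) (fun k hk => (Finset.mem_filter.mp hk).2)
    have b1' : ∑ k ∈ F.filter (fun k => x.1 < k.1), kk x k ≤ 1 / 15 :=
      (Finset.sum_le_sum (fun k _ => hle x k)).trans b1
    have b2 := row_below_le P hP x ((F.filter (fun k => ¬ x.1 < k.1)).filter (fun k => k.1 < x.1))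
      (fun k hk => hF k (Finset.mem_filter.mp (Finset.mem_filter.mp hk).1).1)
      (fun k hk => (Finset.mem_filter.mp hk).2) (1 / 16) (by norm_num) (fun k hk => by
        have h1 := (Finset.mem_filter.mp hk).2
        have h2 := hgap x hx k (Finset.mem_filter.mp (Finset.mem_filter.mp hk).1).1 h1
        refine (KK_gt h2 (mk_up k)).trans ?_
        have h3 : x.1 - k.1 - 1 = (x.1 - k.1 - 2) + 1 := by omega
        rw [h3, pow_succ]
        have h4 : pp ^ (x.1 - k.1 - 2) ≤ 1 := pow_le_one₀ pp_pos.le pp_lt_one.le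
        have h5 : pp = 1 / 16 := rfl
        have h6 : pp ^ (x.1 - k.1 - 2) * pp ≤ 1 * pp :=
          mul_le_mul_of_nonneg_right h4 pp_pos.le
        rw [one_mul, h5] at h6
        rw [h5]
        exact h6)
    have b2' : ∑ k ∈ (F.filter (fun k => ¬ x.1 < k.1)).filter (fun k => k.1 < x.1), kk x k ≤
        1 / 16 := (Finset.sum_le_sum (fun k _ => hle x k)).trans b2
    have b3 : ∑ k ∈ (F.filter (fun k => ¬ x.1 < k.1)).filter (fun k => ¬ k.1 < x.1), kk x k
        = 0 := by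
      apply Finset.sum_eq_zero
      intro k hk
      obtain ⟨h1, h2⟩ := Finset.mem_filter.mp hk
      have h3 := (Finset.mem_filter.mp h1).2
      simp only [kk]
      split_ifs with h
      · rfl
      · exact Kx_same (by omega) h
    rw [e1, b3]
    linarith
  have hcol : ∀ k ∈ F, ∑ x ∈ F, kk x k ≤ 2 / 15 := by
    intro k hk
    have e1 : ∑ x ∈ F, kk x k = ∑ x ∈ F.filter (fun x => x.1 < k.1), kk x k +
        (∑ x ∈ (F.filter (fun x => ¬ x.1 < k.1)).filter (fun x => k.1 < x.1), kk x k +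
        ∑ x ∈ (F.filter (fun x => ¬ x.1 < k.1)).filter (fun x => ¬ k.1 < x.1), kk x k) := by
      rw [Finset.sum_filter_add_sum_filter_not, Finset.sum_filter_add_sum_filter_not]
    have b1 : ∑ x ∈ F.filter (fun x => x.1 < k.1), kk x k ≤ 1 / 15 := by
      refine (Finset.sum_le_sum (fun x _ => hle x k)).trans ?_
      by_cases hk1 : 1 ≤ k.1
      · exact col_below k.1 (mk k) _ id (Set.injOn_id _)
          (fun x hx => (Finset.mem_filter.mp hx).2) (mk_low k hk1)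
      · rw [Finset.sum_eq_zero]
        · norm_num
        · intro x hx
          have := (Finset.mem_filter.mp hx).2
          omega
    have b2 : ∑ x ∈ (F.filter (fun x => ¬ x.1 < k.1)).filter (fun x => k.1 < x.1), kk x k ≤
        1 / 15 := by
      refine (Finset.sum_le_sum (fun x _ => hle x k)).trans ?_
      exact col_above k.1 (mk k) _ id (Set.injOn_id _) (fun x hx => by
        have h1 := (Finset.mem_filter.mp hx).2
        exact hgap x (Finset.mem_filter.mp (Finset.mem_filter.mp hx).1).1 k hk h1) (mk_up k)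
    have b3 : ∑ x ∈ (F.filter (fun x => ¬ x.1 < k.1)).filter (fun x => ¬ k.1 < x.1), kk x k
        = 0 := by
      apply Finset.sum_eq_zero
      intro x hx
      obtain ⟨h1, h2⟩ := Finset.mem_filter.mp hx
      have h3 := (Finset.mem_filter.mp h1).2
      simp only [kk]
      split_ifs with h
      · rfl
      · exact Kx_same (by omega) h
    rw [e1, b3]
    linarith
  have hq := quad_le F (fun k => ‖y k‖) kk hkk (2 / 15) hrow hcol
  rw [fvec_inner]
  -- split the diagonal part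
  have e1 : ∑ x ∈ F, (starRingEnd ℂ) (y x) * icomb F y x =
      ((∑ x ∈ F, ‖y x‖ ^ 2 : ℝ) : ℂ) +
        ∑ x ∈ F, ∑ k ∈ F, (starRingEnd ℂ) (y x) * (y k * ((kk x k : ℝ) : ℂ)) := by
    push_cast
    rw [← Finset.sum_add_distrib]
    apply Finset.sum_congr rfl
    intro x hx
    rw [icomb_apply, Finset.mul_sum, ← Finset.add_sum_erase _ _ hx,
      ← Finset.add_sum_erase F (fun k => (starRingEnd ℂ) (y x) * (y k * ((kk x k : ℝ) : ℂ))) hx]
    have h1 : kk x x = 0 := by simp [kk]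
    rw [Kx_self, h1]
    have h2 : (starRingEnd ℂ) (y x) * (y x * ((1 : ℝ) : ℂ)) = ((‖y x‖ : ℝ) : ℂ) ^ 2 := by
      rw [Complex.ofReal_one, mul_one, mul_comm, Complex.mul_conj, Complex.normSq_eq_norm_sq]
      push_cast
      rfl
    rw [h2]
    have h3 : ∑ k ∈ F.erase x, (starRingEnd ℂ) (y x) * (y k * ((Kx x k : ℝ) : ℂ)) =
        ∑ k ∈ F.erase x, (starRingEnd ℂ) (y x) * (y k * ((kk x k : ℝ) : ℂ)) := by
      apply Finset.sum_congr rfl
      intro k hk
      have hne := (Finset.mem_erase.mp hk).1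
      have : kk x k = Kx x k := by
        simp only [kk]
        rw [if_neg (Ne.symm hne)]
      rw [this]
    rw [h3]
    simp
  rw [e1]
  have h4 : ‖∑ x ∈ F, ∑ k ∈ F, (starRingEnd ℂ) (y x) * (y k * ((kk x k : ℝ) : ℂ))‖ ≤
      2 / 15 * ∑ x ∈ F, ‖y x‖ ^ 2 := by
    refine (norm_sum_le _ _).trans ?_
    refine le_trans (Finset.sum_le_sum (fun x _ => norm_sum_le _ _)) ?_
    refine le_trans (le_of_eq ?_) hq
    apply Finset.sum_congr rfl
    intro x _
    apply Finset.sum_congr rfl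
    intro k _
    rw [norm_mul, norm_mul, RCLike.norm_conj, Complex.norm_real, Real.norm_of_nonneg (hkk _ _)]
    ring
  have h5 : ‖((∑ x ∈ F, ‖y x‖ ^ 2 : ℝ) : ℂ)‖ = ∑ x ∈ F, ‖y x‖ ^ 2 := by
    rw [Complex.norm_real, Real.norm_of_nonneg (Finset.sum_nonneg (fun _ _ => sq_nonneg _))]
  have h6 := norm_sub_norm_le ((∑ x ∈ F, ‖y x‖ ^ 2 : ℝ) : ℂ)
    (-∑ x ∈ F, ∑ k ∈ F, (starRingEnd ℂ) (y x) * (y k * ((kk x k : ℝ) : ℂ)))
  rw [norm_neg, sub_neg_eq_add, h5] at h6
  have h7 : 0 ≤ ∑ x ∈ F, ‖y x‖ ^ 2 := Finset.sum_nonneg (fun _ _ => sq_nonneg _)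
  linarith

theorem interp (P : ℕ → Prop) [DecidablePred P] (hP : ∀ j, P j → ¬ P (j + 1)) :
    ∀ x, ∃ a ∈ AA, prj P a = prj P x := by
  classical
  apply onto_of (prj P) (prj_mul P) (prj_adjoint P) AA
    (Submodule.isClosed_topologicalClosure _) (1 / 2) 5000 (by norm_num) (by norm_num)
    {z | ∃ (F : Finset EE) (y : EE → ℂ), (∀ k ∈ F, P k.1) ∧ z = fvec F y}
  · intro x ε hε
    have hs := lp.hasSum_single (E := fun _ : EE => ℂ) (p := 2) (by norm_num) (prj P x)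
    rw [HasSum, Metric.tendsto_nhds] at hs
    obtain ⟨F, hF⟩ := (hs ε hε).exists
    refine ⟨fvec (F.filter (fun k => P k.1)) (fun k => prj P x k), ⟨_, _, fun k hk =>
      (Finset.mem_filter.mp hk).2, rfl⟩, ?_⟩
    have e1 : fvec (F.filter (fun k => P k.1)) (fun k => prj P x k) =
        ∑ k ∈ F, lp.single 2 k (prj P x k) := by
      unfold fvec
      apply Finset.sum_filter_of_ne
      intro k _ hne
      by_contra hc
      apply hne
      have h0 : prj P x k = 0 := by rw [prj_apply, if_neg hc]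
      exact (congrArg (lp.single (E := fun _ : EE => ℂ) 2 k) h0).trans (lp.single_zero _ _)
    rw [e1, ← dist_eq_norm, dist_comm]
    exact hF
  · rintro z ⟨F, y, hF, rfl⟩
    refine ⟨icomb F y, icomb_mem F y, ?_, ?_⟩
    · have h1 := icomb_norm P hP F hF y
      rw [← fvec_norm] at h1
      have h2 : ‖icomb F y‖ ^ 2 ≤ (5000 * ‖fvec F y‖) ^ 2 := by
        rw [mul_pow]; linarith
      exact le_of_sq_le_sq h2 (by positivity)
    · rw [fvec_norm]
      exact offdiag P hP F hF y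

theorem final : ¬ (∀ (H : Type) [NormedAddCommGroup H] [InnerProductSpace ℂ H] [CompleteSpace H]
      (S₁ S₂ : H →L[ℂ] H),
      S₁ * S₂ = S₂ * S₁ →
      (∃ (K : Type) (_ : NormedAddCommGroup K) (_ : InnerProductSpace ℂ K) (_ : CompleteSpace K)
          (V : H →L[ℂ] K) (N₁ N₂ : K →L[ℂ] K),
          (∀ x : H, ‖V x‖ = ‖x‖) ∧ IsStarNormal N₁ ∧ IsStarNormal N₂ ∧
          N₁ * N₂ = N₂ * N₁ ∧ N₁.comp V = V.comp S₁ ∧ N₂.comp V = V.comp S₂) →
      (∃ x : H, Dense ((Submodule.span ℂ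
          (Set.range (fun p : ℕ × ℕ => (S₁ ^ p.1 * S₂ ^ p.2) x)) : Submodule ℂ H) : Set H)) →
      ∀ μ₁ μ₂ : ℂ,
        ((∀ z : H, ∃ u v : H, (S₁ - μ₁ • (1 : H →L[ℂ] H)) u + (S₂ - μ₂ • (1 : H →L[ℂ] H)) v = z) ↔
          ((∀ z : H, ∃ u v : H,
              (S₁ - μ₁ • (1 : H →L[ℂ] H)) u + (S₂ - μ₂ • (1 : H →L[ℂ] H)) v = z) ∧
           (∀ u v : H,
              (S₁ - μ₁ • (1 : H →L[ℂ] H)) u + (S₂ - μ₂ • (1 : H →L[ℂ] H)) v = 0 →
              ∃ x : H, u = (S₂ - μ₂ • (1 : H →L[ℂ] H)) x ∧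
                v = -((S₁ - μ₁ • (1 : H →L[ℂ] H)) x)) ∧
           (∀ x : H, (S₂ - μ₂ • (1 : H →L[ℂ] H)) x = 0 →
              (S₁ - μ₁ • (1 : H →L[ℂ] H)) x = 0 → x = 0)))) := by
  refine abstract_counterexample (prj Even) UU WW ee (prj_mul _) (prj_adjoint _) UW WU normal_UU
    (UU_prj _) AA rfl (interp Even ?_) ?_ he_ex
  · intro j hj
    simp [Nat.even_add_one, hj]
  · intro x
    have := interp (fun j => ¬ Even j) (by
      intro j hj
      simp [Nat.even_add_one, hj]) x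
    rw [prj_compl]
    exact this

end Pool.Agent.Helper63.Koszul
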